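import Pool.Agent.AGV.CvB

/-!
# AGV-CvC: the equivariant cover

For every `y` take `r y, O y, V y` from `cover_orbit`. The image of `V y` in the orbit space `Y/G` is open (the quotient map is open; or: its preimage is `V y` by invariance) and these sets cover the compact space `Y/G`, so finitely many `y_1, …, y_m` suffice. Apply `hd` to the cover `I = Fin m`: sets `W' j`, `j ∈ J`, with
`W' j ⊆ image of V (y (i j))`. Index set `I' = Σ j, Fin (r (y (i j)))`, `W (c, ⟨j, t⟩) = {x | ⟦f x⟧ ∈ W' j} ∩ O (y (i j)) (c, t)`. Open; cover: for `x` choose `j` with `⟦f x⟧ ∈ W' j`, then `f x ∈ V (y (i j))` (invariance), so `x` is in some `O (y (i j)) v`. Order: `(c, ⟨j, t⟩) ↦ j` is injective on the indices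
of the sets containing `x` (disjointness), so at most `d + 1`. Saturated: if `x ∈ W (c, ⟨j, t⟩)` then `fc f x` is preconnected, `f` is constant on it, so it is contained in the union of the pairwise disjoint open sets `O (y (i j)) v`, hence in the one containing `x`
(`IsPreconnected.subset_left_of_subset_union` or `isPreconnected_iff_subset_of_disjoint`).
-/

set_option autoImplicit false

namespace AGV

open Pool.Agent.Helper87.AG

variable {G X Y : Type} [Group G] [TopologicalSpace G] [IsTopologicalGroup G] [CompactSpace G]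
  [MetricSpace X] [CompactSpace X] [TopologicalSpace Y] [CompactSpace Y] [T2Space Y]
  [MulAction G X] [ContinuousSMul G X] [MulAction G Y] [ContinuousSMul G Y]

theorem covx (hiso : ∀ (g : G) (x y : X), dist (g • x) (g • y) = dist x y)
    (hfree : ∀ (g : G) (y : Y), g • y = y → g = 1) {f : X → Y} (hf : Continuous f)
    (hfe : ∀ (g : G) (x : X), f (g • x) = g • f x) {d : ℕ}
    (hd : CovDimLE (MulAction.orbitRel.Quotient G Y) d) (K : Subgroup G) [K.Normal] (hK : IsOpen (K : Set G))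
    {ρ : ℝ} (hρ : 0 < ρ) :
    ∃ (I : Type) (_ : Finite I) (W : (G ⧸ K) × I → Set X), (∀ v, IsOpen (W v)) ∧ (⋃ v, W v) = Set.univ ∧
      (∀ (g : G) (c : G ⧸ K) (i : I) (x : X), g • x ∈ W (g • c, i) ↔ x ∈ W (c, i)) ∧
      (∀ (c c' : G ⧸ K) (i : I), c ≠ c' → Disjoint (W (c, i)) (W (c', i))) ∧
      (∀ x, {v | x ∈ W v}.ncard ≤ d + 1) ∧ (∀ v, ∀ x ∈ W v, fc f x ⊆ W v) ∧
      (∀ v, ∃ p : X, ∀ x ∈ W v, ∃ k ∈ K, k • x ∈ Metric.thickening ρ (fc f p)) := by
  obtain ⟨π, hπ⟩ : ∃ π : Y → MulAction.orbitRel.Quotient G Y, π = fun y => Quotient.mk _ y := ⟨_, rfl⟩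
  have hπq : Topology.IsQuotientMap π := by
    rw [hπ]
    exact isQuotientMap_quotient_mk'
  have hπeq : ∀ z w : Y, π z = π w → ∃ g : G, g • w = z := by
    intro z w h
    rw [hπ] at h
    have h1 := Quotient.exact h
    exact h1
  choose r O V hOo hVo hyV hVinv hcov hdis hOinv hOp using
    fun y => cover_orbit hiso hfree hf hfe K hK hρ y
  have hpre : ∀ y, π ⁻¹' (π '' V y) = V y := by
    intro y
    refine Set.Subset.antisymm ?_ (Set.subset_preimage_image π (V y))
    rintro z ⟨w, hw, hwz⟩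
    obtain ⟨g, hg⟩ := hπeq z w hwz.symm
    rw [← hg, hVinv]
    exact hw
  have hVo' : ∀ y, IsOpen (π '' V y) := by
    intro y
    rw [← hπq.isOpen_preimage, hpre]
    exact hVo y
  have hcomp : IsCompact (Set.univ : Set (MulAction.orbitRel.Quotient G Y)) := by
    have h1 := isCompact_univ.image (f := π) hπq.continuous
    rwa [Set.image_univ, hπq.surjective.range_eq] at h1
  obtain ⟨s, hs⟩ := hcomp.elim_finite_subcover (fun y => π '' V y) hVo' (by
    intro q _
    obtain ⟨y, rfl⟩ := hπq.surjective q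
    exact Set.mem_iUnion.2 ⟨y, y, hyV y, rfl⟩)
  obtain ⟨J, hJ, W', hW'o, hW'u, hW'U, hW'd⟩ := hd {y // y ∈ s} inferInstance (fun y => π '' V y.1)
    (fun y => hVo' y.1) (by
      refine Set.eq_univ_of_forall fun q => ?_
      obtain ⟨y, hy, h1⟩ := Set.mem_iUnion₂.1 (hs (Set.mem_univ q))
      exact Set.mem_iUnion.2 ⟨⟨y, hy⟩, h1⟩)
  choose i hi using hW'U
  obtain ⟨W, hW⟩ : ∃ W : (G ⧸ K) × (Σ j : J, Fin (r (i j).1)) → Set X,
      W = fun v => {x | π (f x) ∈ W' v.2.1} ∩ O (i v.2.1).1 (v.1, v.2.2) := ⟨_, rfl⟩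
  have hmem : ∀ v x, x ∈ W v ↔ π (f x) ∈ W' v.2.1 ∧ x ∈ O (i v.2.1).1 (v.1, v.2.2) := by
    intro v x
    rw [hW]
    exact Iff.rfl
  have hfV : ∀ j x, π (f x) ∈ W' j → f x ∈ V (i j).1 := by
    intro j x h
    have h1 : f x ∈ π ⁻¹' (π '' V (i j).1) := hi j h
    rwa [hpre] at h1
  refine ⟨Σ j : J, Fin (r (i j).1), inferInstance, W, ?_, ?_, ?_, ?_, ?_, ?_, ?_⟩
  · intro v
    rw [hW]
    exact ((hW'o v.2.1).preimage (hπq.continuous.comp hf)).inter (hOo _ _)
  · refine Set.eq_univ_of_forall fun x => ?_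
    have h1 : π (f x) ∈ ⋃ j, W' j := by
      rw [hW'u]
      exact Set.mem_univ _
    obtain ⟨j, hj⟩ := Set.mem_iUnion.1 h1
    obtain ⟨⟨c, t⟩, hv⟩ := hcov (i j).1 x (hfV j x hj)
    exact Set.mem_iUnion.2 ⟨(c, ⟨j, t⟩), (hmem _ _).2 ⟨hj, hv⟩⟩
  · rintro g c ⟨j, t⟩ x
    rw [hmem, hmem]
    dsimp only
    rw [hOinv]
    have h1 : π (f (g • x)) = π (f x) := by
      rw [hfe, hπ]
      exact MulAction.orbitRel.Quotient.quotient_smul_eq
    rw [h1]
  · rintro c c' ⟨j, t⟩ hne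
    rw [hW]
    refine Disjoint.mono Set.inter_subset_right Set.inter_subset_right ?_
    exact hdis _ _ _ (fun h => hne (congrArg Prod.fst h))
  · intro x
    refine le_trans ?_ (hW'd (π (f x)))
    refine Set.ncard_le_ncard_of_injOn (fun v => v.2.1) (fun v hv => ?_) ?_ (Set.toFinite _)
    · exact ((hmem v x).1 hv).1
    · rintro ⟨c, ⟨j, t⟩⟩ hv ⟨c', ⟨j', t'⟩⟩ hv' hjj
      dsimp only at hjj
      subst hjj
      have h1 := ((hmem _ x).1 hv).2
      have h2 := ((hmem _ x).1 hv').2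
      dsimp only at h1 h2
      have h3 : ((c, t) : (G ⧸ K) × Fin (r (i j).1)) = (c', t') := by
        by_contra hcon
        exact Set.disjoint_left.1 (hdis _ _ _ hcon) h1 h2
      rw [Prod.mk.injEq] at h3
      rw [h3.1, h3.2]
  · rintro ⟨c, ⟨j, t⟩⟩ x hx
    have hx' := (hmem _ x).1 hx
    dsimp only at hx'
    have h1 : fc f x ⊆ O (i j).1 (c, t) := by
      have h2 : fc f x ⊆ O (i j).1 (c, t) ∪ ⋃ v ∈ {v | v ≠ (c, t)}, O (i j).1 v := by
        intro z hz
        obtain ⟨v, hv⟩ := hcov (i j).1 z (by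
          rw [fc_sub f x z hz]
          exact hfV j x hx'.1)
        by_cases h : v = (c, t)
        · left
          rw [← h]
          exact hv
        · right
          exact Set.mem_iUnion₂.2 ⟨v, h, hv⟩
      have h3 : IsOpen (⋃ v ∈ {v | v ≠ (c, t)}, O (i j).1 v) :=
        isOpen_biUnion fun v _ => hOo _ v
      have h4 : Disjoint (O (i j).1 (c, t)) (⋃ v ∈ {v | v ≠ (c, t)}, O (i j).1 v) := by
        rw [Set.disjoint_iUnion₂_right]
        intro v hv
        exact hdis _ _ _ (Ne.symm hv)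
      exact IsPreconnected.subset_left_of_subset_union (hOo _ _) h3 h4 h2 ⟨x, mem_fc f x, hx'.2⟩
        (fc_conn f x)
    intro z hz
    rw [hmem]
    refine ⟨?_, h1 hz⟩
    rw [fc_sub f x z hz]
    exact hx'.1
  · rintro ⟨c, ⟨j, t⟩⟩
    obtain ⟨p, hp⟩ := hOp (i j).1 (c, t)
    exact ⟨p, fun x hx => hp x ((hmem _ x).1 hx).2⟩

end AGV
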