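import Pool.Agent.AGV.Wd

/-!
# AGV-Fd: evaluation on the boundary of a simplex

`fd_fd`: the involution `(v, u) ↦ (u, v)` changes the signs. `fd_image`: reindexing by the action.
-/

set_option autoImplicit false

namespace AGV

variable {M N : ℕ} {β γ : Type} [AddCommGroup β] [AddCommGroup γ]

theorem Good.mono {S T : Finset (Vx M N)} (h : Good T) (hST : S ⊆ T) : Good S :=
  fun u hu w hw => h u (hST hu) w (hST hw)

theorem Good.erase {S : Finset (Vx M N)} (h : Good S) (v : Vx M N) : Good (S.erase v) :=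
  h.mono (Finset.erase_subset _ _)

private theorem fd_snd (t : ℕ) (v : Vx M N) : ((sh ^ t : Equiv.Perm (Vx M N)) v).2 = v.2 := by
  induction t with
  | zero => rfl
  | succ t ih =>
    rw [pow_succ', Equiv.Perm.mul_apply]
    exact ih

private theorem fd_snd_symm (t : ℕ) (v : Vx M N) : ((sh ^ t : Equiv.Perm (Vx M N)).symm v).2 = v.2 := by
  have h := fd_snd t ((sh ^ t : Equiv.Perm (Vx M N)).symm v)
  rw [Equiv.apply_symm_apply] at h
  exact h.symm

theorem good_image (t : ℕ) {S : Finset (Vx M N)} :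
    Good (S.image (sh ^ t : Equiv.Perm (Vx M N)).symm) ↔ Good S := by
  constructor
  · intro h u hu w hw huw
    have h1 := h _ (Finset.mem_image_of_mem _ hu) _ (Finset.mem_image_of_mem _ hw)
      (by rw [fd_snd_symm, fd_snd_symm, huw])
    exact (sh ^ t : Equiv.Perm (Vx M N)).symm.injective h1
  · intro h u hu w hw huw
    obtain ⟨u', hu', rfl⟩ := Finset.mem_image.1 hu
    obtain ⟨w', hw', rfl⟩ := Finset.mem_image.1 hw
    rw [fd_snd_symm, fd_snd_symm] at huw
    rw [h u' hu' w' hw' huw]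

theorem card_image_sh (t : ℕ) (S : Finset (Vx M N)) :
    (S.image (sh ^ t : Equiv.Perm (Vx M N)).symm).card = S.card :=
  Finset.card_image_of_injective _ (Equiv.injective _)

theorem fd_fd (D : Finset (Vx M N) → β) {σ : Finset (Vx M N)} (h : Good σ) : fd (fd D) σ = 0 := by
  have h1 : fd (fd D) σ = ∑ x ∈ σ.sigma (fun v => σ.erase v),
      (sg x.1 σ * sg x.2 (σ.erase x.1)) • D ((σ.erase x.1).erase x.2) := by
    rw [Finset.sum_sigma]
    unfold fd
    refine Finset.sum_congr rfl fun v _ => ?_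
    rw [Finset.smul_sum]
    refine Finset.sum_congr rfl fun u _ => ?_
    rw [smul_smul]
  rw [h1]
  refine Finset.sum_involution (fun x _ => ⟨x.2, x.1⟩) (fun x hx => ?_) (fun x hx _ he => ?_)
    (fun x hx => ?_) (fun x hx => rfl)
  · obtain ⟨v, u⟩ := x
    rw [Finset.mem_sigma, Finset.mem_erase] at hx
    obtain ⟨hv, huv, hu⟩ := hx
    show (sg v σ * sg u (σ.erase v)) • D ((σ.erase v).erase u) +
      (sg u σ * sg v (σ.erase u)) • D ((σ.erase u).erase v) = 0
    rw [Finset.erase_right_comm (a := u) (b := v), ← add_smul]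
    have hne : u.2 ≠ v.2 := fun h2 => huv (h u hu v hv h2)
    have h3 : sg v σ * sg u (σ.erase v) + sg u σ * sg v (σ.erase u) = 0 := by
      rcases lt_or_gt_of_ne hne with h4 | h4
      · rw [sg_erase_not_lt (u := v) (v := u) σ h4.asymm, sg_erase_lt hu h4]
        ring
      · rw [sg_erase_lt hv h4, sg_erase_not_lt (u := u) (v := v) σ h4.asymm]
        ring
    rw [h3, zero_smul]
  · obtain ⟨v, u⟩ := x
    rw [Finset.mem_sigma, Finset.mem_erase] at hx
    have h2 : u = v := congrArg Sigma.fst he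
    exact hx.2.1 h2
  · obtain ⟨v, u⟩ := x
    rw [Finset.mem_sigma, Finset.mem_erase] at hx ⊢
    exact ⟨hx.2.2, fun h2 => hx.2.1 h2.symm, hx.1⟩

theorem fd_map (φ : β →ₗ[ℤ] γ) (D : Finset (Vx M N) → β) (σ : Finset (Vx M N)) :
    φ (fd D σ) = fd (fun ρ => φ (D ρ)) σ := by
  unfold fd
  rw [map_sum]
  exact Finset.sum_congr rfl fun v _ => map_zsmul φ _ _

theorem fd_add (D D' : Finset (Vx M N) → β) (σ : Finset (Vx M N)) :
    fd (fun ρ => D ρ + D' ρ) σ = fd D σ + fd D' σ := by
  unfold fd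
  rw [← Finset.sum_add_distrib]
  exact Finset.sum_congr rfl fun v _ => smul_add _ _ _

theorem fd_sub (D D' : Finset (Vx M N) → β) (σ : Finset (Vx M N)) :
    fd (fun ρ => D ρ - D' ρ) σ = fd D σ - fd D' σ := by
  unfold fd
  rw [← Finset.sum_sub_distrib]
  exact Finset.sum_congr rfl fun v _ => smul_sub _ _ _

theorem fd_sum {I : Type} (s : Finset I) (D : I → Finset (Vx M N) → β) (σ : Finset (Vx M N)) :
    fd (fun ρ => ∑ i ∈ s, D i ρ) σ = ∑ i ∈ s, fd (D i) σ := by
  unfold fd
  rw [Finset.sum_comm]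
  exact Finset.sum_congr rfl fun v _ => Finset.smul_sum

theorem fd_congr {D D' : Finset (Vx M N) → β} {σ : Finset (Vx M N)} (h : ∀ v ∈ σ, D (σ.erase v) = D' (σ.erase v)) :
    fd D σ = fd D' σ := by
  unfold fd
  exact Finset.sum_congr rfl fun v hv => by rw [h v hv]

theorem fd_mem {D : Finset (Vx M N) → β} {σ : Finset (Vx M N)} {Q : Submodule ℤ β}
    (h : ∀ v ∈ σ, D (σ.erase v) ∈ Q) : fd D σ ∈ Q := by
  unfold fd
  exact Submodule.sum_mem _ fun v hv => Q.smul_mem _ (h v hv)

theorem fd_image (t : ℕ) (D : Finset (Vx M N) → β) (σ : Finset (Vx M N)) :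
    fd D (σ.image (sh ^ t : Equiv.Perm (Vx M N)).symm) =
      fd (fun ρ => D (ρ.image (sh ^ t : Equiv.Perm (Vx M N)).symm)) σ := by
  unfold fd
  rw [Finset.sum_image fun x _ y _ hxy => (sh ^ t : Equiv.Perm (Vx M N)).symm.injective hxy]
  refine Finset.sum_congr rfl fun v _ => ?_
  rw [sg_image]
  show _ = sg v σ • D ((σ.erase v).image (sh ^ t : Equiv.Perm (Vx M N)).symm)
  rw [Finset.image_erase (Equiv.injective _)]

theorem fd_apply (D : Finset (Vx M N) → (Finset (Vx M N) → ℤ)) (σ S : Finset (Vx M N)) :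
    fd D σ S = ∑ v ∈ σ, sg v σ * D (σ.erase v) S := by
  unfold fd
  rw [Finset.sum_apply]
  rfl

end AGV
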