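import Pool.Agent.AGV.Defs

/-!
# AGV-LstS: supports

`SP P` is `Finsupp.supported`; `mem_SP` is `Finsupp.mem_supported` (coerced). `lin_mem`: a chain is the sum of its `single`s, and
`φ (single l c) = c • φ (single l 1)`. `bdL_mem`, `prL_mem`: induction on the list. `bd_mem`, `pr_mem`, `cone_mem`, `mp_mem`
follow from `lin_mem`.
-/

set_option autoImplicit false

namespace AGV

variable {X Y : Type}

theorem mem_SP {P : List X → Prop} {z : Ch X} : z ∈ SP P ↔ ∀ l ∈ z.support, P l := by
  unfold SP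
  rw [Finsupp.mem_supported]
  exact ⟨fun h l hl => h hl, fun h l hl => h l hl⟩

theorem SP_mono {P Q : List X → Prop} (h : ∀ l, P l → Q l) {z : Ch X} (hz : z ∈ SP P) : z ∈ SP Q := by
  rw [mem_SP] at hz ⊢
  exact fun l hl => h l (hz l hl)

theorem single_mem {P : List X → Prop} {l : List X} (h : P l) (c : ℤ) : Finsupp.single l c ∈ SP P := by
  rw [mem_SP]
  intro l' hl'
  have h1 := Finsupp.support_single_subset hl'
  rw [Finset.mem_singleton] at h1
  rw [h1]
  exact h

theorem lin_mem {β : Type} [AddCommGroup β] {P : List X → Prop} (φ : Ch X →ₗ[ℤ] β) (Q : Submodule ℤ β)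
    (h : ∀ l, P l → φ (Finsupp.single l 1) ∈ Q) {z : Ch X} (hz : z ∈ SP P) : φ z ∈ Q := by
  rw [mem_SP] at hz
  rw [← Finsupp.sum_single z, Finsupp.sum, map_sum]
  refine Q.sum_mem fun l hl => ?_
  have h1 : φ (Finsupp.single l (z l)) = z l • φ (Finsupp.single l 1) := by
    rw [← map_smul, Finsupp.smul_single, smul_eq_mul, mul_one]
  rw [h1]
  exact Q.smul_mem _ (h l (hz l hl))

/-- two linear maps that agree on the lists with `P` agree on `SP P` -/
theorem lin_eq {β : Type} [AddCommGroup β] {P : List X → Prop} (φ ψ : Ch X →ₗ[ℤ] β)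
    (h : ∀ l, P l → φ (Finsupp.single l 1) = ψ (Finsupp.single l 1)) {z : Ch X} (hz : z ∈ SP P) : φ z = ψ z := by
  have h1 : (φ - ψ) z ∈ (⊥ : Submodule ℤ β) := by
    refine lin_mem (P := P) (φ - ψ) ⊥ (fun l hl => ?_) hz
    rw [Submodule.mem_bot, LinearMap.sub_apply, h l hl, sub_self]
  rw [Submodule.mem_bot, LinearMap.sub_apply] at h1
  exact sub_eq_zero.1 h1

private theorem cone_single (x : X) (l : List X) (c : ℤ) :
    cone x (Finsupp.single l c) = Finsupp.single (x :: l) c := by
  unfold cone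
  rw [Finsupp.lmapDomain_apply, Finsupp.mapDomain_single]

private theorem cone_mem_aux {P Q : List X → Prop} (x : X) (h : ∀ l, P l → Q (x :: l)) {z : Ch X}
    (hz : z ∈ SP P) : cone x z ∈ SP Q := by
  refine lin_mem (P := P) (cone x) (SP Q) (fun l hl => ?_) hz
  rw [cone_single]
  exact single_mem (h l hl) 1

theorem bdL_mem (l : List X) : bdL l ∈ SP (fun l' => l'.Sublist l ∧ l'.length + 1 = l.length) := by
  induction l with
  | nil => exact Submodule.zero_mem _
  | cons x l ih =>
    show Finsupp.single l 1 - cone x (bdL l) ∈ _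
    refine Submodule.sub_mem _ (single_mem ⟨List.sublist_cons_self x l, rfl⟩ 1) ?_
    refine cone_mem_aux x (fun l' hl' => ?_) ih
    exact ⟨hl'.1.cons_cons x, by rw [List.length_cons, List.length_cons, hl'.2]⟩

theorem prL_mem (f g : X → Y) (l : List X) :
    prL f g l ∈ SP (fun l' => l'.length = l.length + 1 ∧ ∀ y ∈ l', ∃ x ∈ l, y = f x ∨ y = g x) := by
  induction l with
  | nil => exact Submodule.zero_mem _
  | cons x l ih =>
    show Finsupp.single (f x :: g x :: l.map g) 1 - cone (f x) (prL f g l) ∈ _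
    have h1 : (fun l' : List Y => l'.length = (x :: l).length + 1 ∧ ∀ y ∈ l', ∃ x' ∈ x :: l, y = f x' ∨ y = g x')
        (f x :: g x :: l.map g) := by
      refine ⟨?_, ?_⟩
      · rw [List.length_cons, List.length_cons, List.length_map, List.length_cons]
      · intro y hy
        rcases List.mem_cons.1 hy with h | hy
        · exact ⟨x, List.mem_cons_self, Or.inl h⟩
        rcases List.mem_cons.1 hy with h | hy
        · exact ⟨x, List.mem_cons_self, Or.inr h⟩
        obtain ⟨x', hx', rfl⟩ := List.mem_map.1 hy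
        exact ⟨x', List.mem_cons_of_mem x hx', Or.inr rfl⟩
    refine Submodule.sub_mem _ (single_mem h1 1) (cone_mem_aux (f x) (fun l' hl' => ⟨?_, ?_⟩) ih)
    · rw [List.length_cons, List.length_cons, hl'.1]
    · intro y hy
      rcases List.mem_cons.1 hy with h | hy
      · exact ⟨x, List.mem_cons_self, Or.inl h⟩
      · obtain ⟨x', hx', h⟩ := hl'.2 y hy
        exact ⟨x', List.mem_cons_of_mem x hx', h⟩

theorem bd_mem {P Q : List X → Prop}
    (h : ∀ l, P l → ∀ l', l'.Sublist l → l'.length + 1 = l.length → Q l') {z : Ch X} (hz : z ∈ SP P) : bd z ∈ SP Q := by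
  refine lin_mem (P := P) bd (SP Q) (fun l hl => ?_) hz
  have h1 : bd (Finsupp.single l 1) = bdL l := by
    unfold bd
    rw [Finsupp.linearCombination_single, one_smul]
  rw [h1]
  exact SP_mono (fun l' hl' => h l hl l' hl'.1 hl'.2) (bdL_mem l)

theorem cone_mem {P Q : List X → Prop} (x : X) (h : ∀ l, P l → Q (x :: l)) {z : Ch X} (hz : z ∈ SP P) :
    cone x z ∈ SP Q :=
  cone_mem_aux x h hz

theorem mp_mem {P : List X → Prop} {Q : List Y → Prop} (f : X → Y) (h : ∀ l, P l → Q (l.map f)) {z : Ch X}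
    (hz : z ∈ SP P) : mp f z ∈ SP Q := by
  refine lin_mem (P := P) (mp f) (SP Q) (fun l hl => ?_) hz
  have h1 : mp f (Finsupp.single l 1) = Finsupp.single (l.map f) 1 := by
    unfold mp
    rw [Finsupp.lmapDomain_apply, Finsupp.mapDomain_single]
  rw [h1]
  exact single_mem (h l hl) 1

theorem pr_mem {P : List X → Prop} {Q : List Y → Prop} (f g : X → Y)
    (h : ∀ l, P l → ∀ l' : List Y, l'.length = l.length + 1 → (∀ y ∈ l', ∃ x ∈ l, y = f x ∨ y = g x) → Q l')
    {z : Ch X} (hz : z ∈ SP P) : pr f g z ∈ SP Q := by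
  refine lin_mem (P := P) (pr f g) (SP Q) (fun l hl => ?_) hz
  have h1 : pr f g (Finsupp.single l 1) = prL f g l := by
    unfold pr
    rw [Finsupp.linearCombination_single, one_smul]
  rw [h1]
  exact SP_mono (fun l' hl' => h l hl l' hl'.1 hl'.2) (prL_mem f g l)

end AGV
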