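import Pool.Agent.AGV.Defs

/-!
# AGV-Wd: exterior multiplication and boundary

`dd_wd`: fix `S`. If `v ∉ S`: in `dd (wd v α) S` only `u = v` contributes (`v ∈ insert u S` only for `u = v`), the term is `sg v S * sg v (insert v S) * α S = α S`
(`sg v (insert v S) = sg v S`, since `v.2 < v.2` is false), and `wd v _ S = 0`. If `v ∈ S`: `dd (wd v α) S = ∑_{u ∉ S} sg u S * sg v (insert u S) * α ((insert u S).erase v)`, and
`wd v (dd α) S = sg v S * ∑_{u ∉ S.erase v} sg u (S.erase v) * α (insert u (S.erase v))`; here the term `u = v` is `sg v S * sg v (S.erase v) * α S = α S`,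
the others are the `u ∉ S`, with `insert u (S.erase v) = (insert u S).erase v` (`u ≠ v`). If `α` of this set is nonzero then, by the hypothesis and `u ≠ v`, `u.2 ≠ v.2`; if `u.2 < v.2`
then `sg v (insert u S) = - sg v S` and `sg u S = sg u (S.erase v)`; if `v.2 < u.2` then `sg v (insert u S) = sg v S` and `sg u S = - sg u (S.erase v)`. So the
two sums cancel. (`sg _ _ ^ 2 = 1`; cards of filters of `insert` and `erase`.)
-/

set_option autoImplicit false

namespace AGV

variable {M N : ℕ} [NeZero M]

omit [NeZero M] in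
theorem sg_sq (v : Vx M N) (S : Finset (Vx M N)) : sg v S * sg v S = 1 := by
  rw [sg, ← mul_pow]
  norm_num

omit [NeZero M] in
private theorem sgi_nl {u v : Vx M N} (S : Finset (Vx M N)) (h : ¬ u.2 < v.2) : sg v (insert u S) = sg v S := by
  rw [sg, sg, Finset.filter_insert, if_neg h]

omit [NeZero M] in
theorem sg_insert_self (v : Vx M N) (S : Finset (Vx M N)) : sg v (insert v S) = sg v S :=
  sgi_nl S (lt_irrefl _)

omit [NeZero M] in
private theorem sge_nl {u v : Vx M N} (S : Finset (Vx M N)) (h : ¬ u.2 < v.2) : sg v (S.erase u) = sg v S := by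
  have h1 : (S.erase u).filter (fun w => w.2 < v.2) = S.filter (fun w => w.2 < v.2) := by
    ext w
    rw [Finset.mem_filter, Finset.mem_filter, Finset.mem_erase]
    constructor
    · rintro ⟨⟨_, h2⟩, h3⟩
      exact ⟨h2, h3⟩
    · rintro ⟨h2, h3⟩
      refine ⟨⟨?_, h2⟩, h3⟩
      rintro rfl
      exact h h3
  rw [sg, sg, h1]

omit [NeZero M] in
theorem sg_erase_self (v : Vx M N) (S : Finset (Vx M N)) : sg v (S.erase v) = sg v S :=
  sge_nl S (lt_irrefl _)

omit [NeZero M] in
/-- inserting an earlier vertex changes the sign -/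
theorem sg_insert_lt {u v : Vx M N} {S : Finset (Vx M N)} (hu : u ∉ S) (h : u.2 < v.2) :
    sg v (insert u S) = - sg v S := by
  have h1 : u ∉ S.filter (fun w => w.2 < v.2) := fun h2 => hu (Finset.mem_filter.1 h2).1
  rw [sg, sg, Finset.filter_insert, if_pos h, Finset.card_insert_of_notMem h1, pow_succ]
  ring

omit [NeZero M] in
theorem sg_insert_not_lt {u v : Vx M N} (S : Finset (Vx M N)) (h : ¬ u.2 < v.2) : sg v (insert u S) = sg v S :=
  sgi_nl S h

omit [NeZero M] in
theorem sg_erase_lt {u v : Vx M N} {S : Finset (Vx M N)} (hu : u ∈ S) (h : u.2 < v.2) :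
    sg v (S.erase u) = - sg v S := by
  have h1 : sg v (insert u (S.erase u)) = - sg v (S.erase u) := sg_insert_lt (Finset.notMem_erase u S) h
  rw [Finset.insert_erase hu] at h1
  rw [h1, neg_neg]

omit [NeZero M] in
theorem sg_erase_not_lt {u v : Vx M N} (S : Finset (Vx M N)) (h : ¬ u.2 < v.2) : sg v (S.erase u) = sg v S :=
  sge_nl S h

omit [NeZero M] in
private theorem sh_pow_snd (t : ℕ) : ∀ v : Vx M N, ((sh ^ t : Equiv.Perm (Vx M N)) v).2 = v.2 := by
  induction t with
  | zero => intro v; rfl
  | succ t ih =>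
    intro v
    rw [pow_succ, Equiv.Perm.mul_apply, ih]
    rfl

omit [NeZero M] in
private theorem sh_symm_snd (t : ℕ) (v : Vx M N) : ((sh ^ t : Equiv.Perm (Vx M N)).symm v).2 = v.2 := by
  have h := sh_pow_snd t ((sh ^ t : Equiv.Perm (Vx M N)).symm v)
  rw [Equiv.apply_symm_apply] at h
  exact h.symm

omit [NeZero M] in
theorem sg_image (t : ℕ) (v : Vx M N) (S : Finset (Vx M N)) :
    sg ((sh ^ t : Equiv.Perm (Vx M N)).symm v) (S.image (sh ^ t : Equiv.Perm (Vx M N)).symm) = sg v S := by
  rw [sg, sg, Finset.filter_image, Finset.card_image_of_injective _ (Equiv.injective _)]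
  congr 2
  ext w
  rw [Finset.mem_filter, Finset.mem_filter, sh_symm_snd, sh_symm_snd]

theorem dd_wd (v : Vx M N) (α : Finset (Vx M N) → ℤ) (h : ∀ T, α T ≠ 0 → ∀ w ∈ T, w.2 = v.2 → w = v) :
    dd (wd v α) = α - wd v (dd α) := by
  funext S
  have e1 : dd (wd v α) S = ∑ u : Vx M N, if u ∈ S then 0 else sg u S *
      (if v ∈ insert u S then sg v (insert u S) * α ((insert u S).erase v) else 0) := rfl
  have e2 : (α - wd v (dd α)) S = α S - (if v ∈ S then sg v S *
      (∑ u : Vx M N, if u ∈ S.erase v then 0 else sg u (S.erase v) * α (insert u (S.erase v))) else 0) := rfl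
  rw [e1, e2]
  by_cases hv : v ∈ S
  · rw [if_pos hv, Finset.mul_sum, eq_sub_iff_add_eq, ← Finset.sum_add_distrib]
    rw [Finset.sum_eq_single v]
    · rw [if_pos hv, if_neg (Finset.notMem_erase v S), Finset.insert_erase hv, sg_erase_self, zero_add,
        ← mul_assoc, sg_sq, one_mul]
    · intro u _ huv
      by_cases hu : u ∈ S
      · rw [if_pos hu, if_pos (Finset.mem_erase.2 ⟨huv, hu⟩), mul_zero, add_zero]
      · have hu2 : u ∉ S.erase v := fun h3 => hu (Finset.mem_erase.1 h3).2
        rw [if_neg hu, if_neg hu2, if_pos (Finset.mem_insert_of_mem hv), Finset.erase_insert_of_ne huv]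
        by_cases h0 : α (insert u (S.erase v)) = 0
        · rw [h0]
          ring
        · have h3 : u.2 ≠ v.2 := fun h4 => huv (h _ h0 u (Finset.mem_insert_self _ _) h4)
          rcases lt_or_gt_of_ne h3 with h4 | h4
          · rw [sg_insert_lt hu h4, sg_erase_not_lt S (not_lt.2 h4.le)]
            ring
          · rw [sg_insert_not_lt S (not_lt.2 h4.le), sg_erase_lt hv h4]
            ring
    · intro h3
      exact absurd (Finset.mem_univ v) h3
  · rw [if_neg hv, sub_zero, Finset.sum_eq_single v]
    · rw [if_neg hv, if_pos (Finset.mem_insert_self v S), sg_insert_self, Finset.erase_insert hv,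
        ← mul_assoc, sg_sq, one_mul]
    · intro u _ huv
      by_cases hu : u ∈ S
      · rw [if_pos hu]
      · have h3 : v ∉ insert u S := by
          rw [Finset.mem_insert]
          rintro (h4 | h4)
          · exact huv h4.symm
          · exact hv h4
        rw [if_neg hu, if_neg h3, mul_zero]
    · intro h3
      exact absurd (Finset.mem_univ v) h3

omit [NeZero M] in
theorem wd_wd_self (v : Vx M N) (α : Finset (Vx M N) → ℤ) : wd v (wd v α) = 0 := by
  funext S
  show (if v ∈ S then sg v S * (if v ∈ S.erase v then sg v (S.erase v) * α ((S.erase v).erase v) else 0) else 0) = 0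
  rw [if_neg (Finset.notMem_erase v S), mul_zero, ite_self]

end AGV
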