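import Pool.Agent.AGV.Lst
import Pool.Agent.AGV.LstS
import Pool.Agent.AGV.Wd

/-!
# AGV-Om: from chains on the vertices to oriented simplicial chains

* `om_cone`: linear; on `single l 1` the definition of `omL (v :: l)`.
* `omL_supp`: induction on `l`: `wd v α S ≠ 0` gives `v ∈ S` and `α (S.erase v) ≠ 0`, so `S.erase v = l.toFinset` with `l.length` elements, `S = insert v (S.erase v)`.
* `omL_bd`: induction on `l`: `om (bdL (v :: l)) = omL l - wd v (om (bdL l)) = omL l - wd v (dd (omL l)) = dd (wd v (omL l))` by `dd_wd` (hypothesis from `omL_supp`). For `[]`: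
  `dd (omL [])` is zero, since `insert u S ≠ ∅`. `om_bd` by `lin_eq` (both sides are linear in `z`).
* `om_pr_self`: `om (prL h h l) = 0` by induction: `om (single (h x :: h x :: l.map h) 1) = wd _ (wd _ _) = 0` (`wd_wd_self`), and `om (cone _ c) = wd _ (om c)`.
* `om_small`: from `omL_supp`.
* `om_sh`: by linearity for `z = single l 1`, induction on `l`: `wd ((sh ^ t) v) α S`: `(sh ^ t) v ∈ S ↔ v ∈ S.image (sh ^ t).symm`, `sg_image`,
  `(S.erase ((sh ^ t) v)).image (sh ^ t).symm = (S.image (sh ^ t).symm).erase v` (`Finset.image_erase` or `Finset.map_erase`-type lemmas with the injective map).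
* `om_grade`: from `omL_supp` and linearity (if `om z S ≠ 0` then `omL l S ≠ 0` for some `l ∈ z.support`).
-/

set_option autoImplicit false

namespace AGV

variable {M N : ℕ}

theorem om_single (l : List (Vx M N)) (c : ℤ) : om (Finsupp.single l c) = c • omL l := by
  unfold om
  rw [Finsupp.linearCombination_single]

theorem om_cone (v : Vx M N) (z : Ch (Vx M N)) : om (cone v z) = wd v (om z) := by
  induction z using Finsupp.induction_linear with
  | zero => rw [map_zero, map_zero, map_zero]
  | add x y hx hy => rw [map_add, map_add, map_add, map_add, hx, hy]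
  | single l c =>
    rw [cone_single, om_single, om_single, map_smul]
    rfl

theorem omL_supp (l : List (Vx M N)) (S : Finset (Vx M N)) (h : omL l S ≠ 0) :
    S = l.toFinset ∧ S.card = l.length := by
  induction l generalizing S with
  | nil =>
    have h1 : S = ∅ := by
      by_contra h0
      refine h ?_
      show (if S = ∅ then (1 : ℤ) else 0) = 0
      rw [if_neg h0]
    rw [h1]
    exact ⟨rfl, rfl⟩
  | cons v l ih =>
    have h1 : (if v ∈ S then sg v S * omL l (S.erase v) else 0) ≠ 0 := h
    by_cases hv : v ∈ S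
    · rw [if_pos hv] at h1
      obtain ⟨h2, h3⟩ := ih (S.erase v) (right_ne_zero_of_mul h1)
      refine ⟨?_, ?_⟩
      · rw [List.toFinset_cons, ← h2, Finset.insert_erase hv]
      · rw [List.length_cons, ← h3, Finset.card_erase_add_one hv]
    · rw [if_neg hv] at h1
      exact absurd rfl h1

theorem omL_bd [NeZero M] (l : List (Vx M N)) (h : ∀ u ∈ l, ∀ w ∈ l, u.2 = w.2 → u = w) :
    om (bdL l) = dd (omL l) := by
  induction l with
  | nil =>
    have h1 : om (bdL ([] : List (Vx M N))) = 0 := map_zero om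
    rw [h1]
    funext S
    show 0 = ∑ u : Vx M N, if u ∈ S then 0 else sg u S * (if insert u S = ∅ then (1 : ℤ) else 0)
    symm
    refine Finset.sum_eq_zero fun u _ => ?_
    rw [if_neg (Finset.insert_ne_empty u S), mul_zero, ite_self]
  | cons v l ih =>
    have h1 : bdL (v :: l) = Finsupp.single l 1 - cone v (bdL l) := rfl
    have h2 : omL (v :: l) = wd v (omL l) := rfl
    rw [h1, h2, map_sub, om_single, one_smul, om_cone,
      ih fun u hu w hw => h u (List.mem_cons_of_mem _ hu) w (List.mem_cons_of_mem _ hw), dd_wd]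
    intro T hT w hw hwv
    rw [(omL_supp l T hT).1, List.mem_toFinset] at hw
    exact h w (List.mem_cons_of_mem _ hw) v List.mem_cons_self hwv

private theorem lin_eq' {X β : Type} [AddCommGroup β] {P : List X → Prop} (φ ψ : Ch X →+ β)
    (h : ∀ l, P l → ∀ c, φ (Finsupp.single l c) = ψ (Finsupp.single l c)) {z : Ch X}
    (hz : z ∈ SP P) : φ z = ψ z := by
  rw [mem_SP] at hz
  have e : z = ∑ l ∈ z.support, Finsupp.single l (z l) := (Finsupp.sum_single z).symm
  rw [e, map_sum, map_sum]
  exact Finset.sum_congr rfl fun l hl => h l (hz l hl) _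

theorem om_bd [NeZero M] {z : Ch (Vx M N)} (hz : z ∈ SP (fun l : List (Vx M N) => ∀ u ∈ l, ∀ w ∈ l, u.2 = w.2 → u = w)) :
    om (bd z) = dd (om z) := by
  refine lin_eq' ((om : Ch (Vx M N) →ₗ[ℤ] _).toAddMonoidHom.comp (bd : Ch (Vx M N) →ₗ[ℤ] _).toAddMonoidHom)
    ((dd : (Finset (Vx M N) → ℤ) →ₗ[ℤ] _).toAddMonoidHom.comp (om : Ch (Vx M N) →ₗ[ℤ] _).toAddMonoidHom)
    (fun l hl c => ?_) hz
  show om (bd (Finsupp.single l c)) = dd (om (Finsupp.single l c))
  rw [bd_single, om_single, map_smul, map_smul, omL_bd l hl]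

theorem om_pr_self {X : Type} (h : X → Vx M N) (z : Ch X) : om (pr h h z) = 0 := by
  have key : ∀ l : List X, om (prL h h l) = 0 := by
    intro l
    induction l with
    | nil => exact map_zero om
    | cons x l ih =>
      have h1 : prL h h (x :: l) =
        Finsupp.single (h x :: h x :: l.map h) 1 - cone (h x) (prL h h l) := rfl
      have h2 : omL (h x :: h x :: l.map h) = wd (h x) (wd (h x) (omL (l.map h))) := rfl
      rw [h1, map_sub, om_single, one_smul, h2, wd_wd_self, om_cone, ih, map_zero, sub_zero]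
  induction z using Finsupp.induction_linear with
  | zero => rw [map_zero, map_zero]
  | add x y hx hy => rw [map_add, map_add, hx, hy, add_zero]
  | single l c => rw [pr_single, map_smul, key, smul_zero]

theorem om_small {z : Ch (Vx M N)} (hz : z ∈ SP (fun l : List (Vx M N) => l.toFinset.card < l.length)) : om z = 0 := by
  refine lin_eq' ((om : Ch (Vx M N) →ₗ[ℤ] _).toAddMonoidHom) 0 (fun l hl c => ?_) hz
  show om (Finsupp.single l c) = 0
  have h1 : omL l = 0 := by
    funext S
    by_contra h0
    obtain ⟨h2, h3⟩ := omL_supp l S h0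
    rw [h2] at h3
    exact absurd h3 (ne_of_lt hl)
  rw [om_single, h1, smul_zero]

private theorem omL_sh (t : ℕ) (l : List (Vx M N)) (S : Finset (Vx M N)) :
    omL (l.map (sh ^ t : Equiv.Perm (Vx M N))) S =
      omL l (S.image (sh ^ t : Equiv.Perm (Vx M N)).symm) := by
  induction l generalizing S with
  | nil =>
    show (if S = ∅ then (1 : ℤ) else 0) =
      if S.image (sh ^ t : Equiv.Perm (Vx M N)).symm = ∅ then 1 else 0
    by_cases h : S = ∅
    · rw [if_pos h, if_pos (Finset.image_eq_empty.2 h)]
    · rw [if_neg h, if_neg fun h' => h (Finset.image_eq_empty.1 h')]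
  | cons v l ih =>
    show (if (sh ^ t : Equiv.Perm (Vx M N)) v ∈ S then
        sg ((sh ^ t : Equiv.Perm (Vx M N)) v) S *
          omL (l.map (sh ^ t : Equiv.Perm (Vx M N))) (S.erase ((sh ^ t : Equiv.Perm (Vx M N)) v)) else 0) =
      if v ∈ S.image (sh ^ t : Equiv.Perm (Vx M N)).symm then
        sg v (S.image (sh ^ t : Equiv.Perm (Vx M N)).symm) *
          omL l ((S.image (sh ^ t : Equiv.Perm (Vx M N)).symm).erase v) else 0
    have h1 := sg_image t ((sh ^ t : Equiv.Perm (Vx M N)) v) S
    rw [Equiv.symm_apply_apply] at h1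
    have h2 := Finset.image_erase (sh ^ t : Equiv.Perm (Vx M N)).symm.injective S
      ((sh ^ t : Equiv.Perm (Vx M N)) v)
    rw [Equiv.symm_apply_apply] at h2
    have h3 : v ∈ S.image (sh ^ t : Equiv.Perm (Vx M N)).symm ↔
        (sh ^ t : Equiv.Perm (Vx M N)) v ∈ S := by
      rw [Finset.mem_image]
      constructor
      · rintro ⟨w, hw, rfl⟩
        rw [Equiv.apply_symm_apply]
        exact hw
      · intro hv
        exact ⟨_, hv, Equiv.symm_apply_apply _ _⟩
    by_cases hv : (sh ^ t : Equiv.Perm (Vx M N)) v ∈ S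
    · rw [if_pos hv, if_pos (h3.2 hv), ih, h2, h1]
    · rw [if_neg hv, if_neg fun h => hv (h3.1 h)]

theorem om_sh (t : ℕ) (z : Ch (Vx M N)) (S : Finset (Vx M N)) :
    om (mp (sh ^ t : Equiv.Perm (Vx M N)) z) S = om z (S.image (sh ^ t : Equiv.Perm (Vx M N)).symm) := by
  induction z using Finsupp.induction_linear with
  | zero =>
    rw [map_zero, map_zero]
    rfl
  | add x y hx hy =>
    rw [map_add, map_add, map_add, Pi.add_apply, Pi.add_apply, hx, hy]
  | single l c =>
    rw [mp_single, om_single, om_single, Pi.smul_apply, Pi.smul_apply, omL_sh]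

/-- if every list of `z` satisfies `P`, a set with nonzero coefficient comes from a list with `P` -/
theorem om_grade {P : List (Vx M N) → Prop} {z : Ch (Vx M N)} (hz : z ∈ SP P) (S : Finset (Vx M N)) (h : om z S ≠ 0) :
    ∃ l, P l ∧ S = l.toFinset ∧ S.card = l.length := by
  rw [mem_SP] at hz
  have e : om z S = ∑ l ∈ z.support, z l * omL l S := by
    unfold om
    rw [Finsupp.linearCombination_apply, Finsupp.sum, Finset.sum_apply]
    rfl
  rw [e] at h
  obtain ⟨l, hl, h1⟩ := Finset.exists_ne_zero_of_sum_ne_zero h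
  exact ⟨l, hz l hl, omL_supp l S (right_ne_zero_of_mul h1)⟩

end AGV
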