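import Mathlib

/-!
# AGV-InvM: an invariant metric

The injective map `o : X → C(G, X)`, `o x g = g • x`, is continuous (`ContinuousMap.curry`), so it is an embedding (compact to Hausdorff);
`X'` is its range with the metric of `C(G, X)` and the transported action. Invariance: `o (h • x) g = o x (g * h)` and right translation
by `h` is a bijection of `G`.
-/

set_option autoImplicit false

namespace AGV

section

variable {G X : Type} [Group G] [TopologicalSpace G] [IsTopologicalGroup G] [CompactSpace G] [MetricSpace X]
    [CompactSpace X] [MulAction G X] [ContinuousSMul G X]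

omit [IsTopologicalGroup G] [CompactSpace G] [CompactSpace X] in
private theorem orb_cont : Continuous (fun p : X × G => p.2 • p.1) := continuous_snd.smul continuous_fst

/-- the orbit maps -/
private def orbC : C(X, C(G, X)) := ContinuousMap.curry ⟨fun p : X × G => p.2 • p.1, orb_cont⟩

omit [IsTopologicalGroup G] [CompactSpace G] [CompactSpace X] in
private theorem orbC_apply (x : X) (g : G) : (orbC x : C(G, X)) g = g • x := rfl

omit [IsTopologicalGroup G] [CompactSpace G] [CompactSpace X] in
private theorem orbC_inj : Function.Injective (fun x : X => (orbC x : C(G, X))) := by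
  intro x y h
  have h1 : (orbC x : C(G, X)) 1 = (orbC y : C(G, X)) 1 := by
    have h2 : (orbC x : C(G, X)) = orbC y := h
    rw [h2]
  rw [orbC_apply, orbC_apply, one_smul, one_smul] at h1
  exact h1

omit [IsTopologicalGroup G] [CompactSpace X] in
private theorem orbC_dist_le (h : G) (x y : X) :
    dist (orbC (h • x) : C(G, X)) (orbC (h • y)) ≤ dist (orbC x : C(G, X)) (orbC y) := by
  rw [ContinuousMap.dist_le dist_nonneg]
  intro g
  rw [orbC_apply, orbC_apply, smul_smul, smul_smul]
  exact ContinuousMap.dist_apply_le_dist (f := (orbC x : C(G, X))) (g := orbC y) (g * h)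

omit [IsTopologicalGroup G] [CompactSpace X] in
private theorem orbC_dist (h : G) (x y : X) :
    dist (orbC (h • x) : C(G, X)) (orbC (h • y)) = dist (orbC x : C(G, X)) (orbC y) := by
  refine le_antisymm (orbC_dist_le h x y) ?_
  have h1 := orbC_dist_le h⁻¹ (h • x) (h • y)
  rw [inv_smul_smul, inv_smul_smul] at h1
  exact h1

end

theorem inv_metric (G X : Type) [Group G] [TopologicalSpace G] [IsTopologicalGroup G] [CompactSpace G] [MetricSpace X]
    [CompactSpace X] [MulAction G X] [ContinuousSMul G X] :
    ∃ (X' : Type) (_ : MetricSpace X') (_ : CompactSpace X') (_ : MulAction G X') (_ : ContinuousSMul G X') (e : X ≃ₜ X'),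
      (∀ (g : G) (x : X), e (g • x) = g • e x) ∧ ∀ (g : G) (x y : X'), dist (g • x) (g • y) = dist x y := by
  have hc : Continuous (Equiv.ofInjective (fun x : X => (orbC x : C(G, X))) orbC_inj) :=
    Continuous.subtype_mk (orbC : C(X, C(G, X))).continuous _
  let e : X ≃ₜ Set.range (fun x : X => (orbC x : C(G, X))) := hc.homeoOfEquivCompactToT2
  let act : MulAction G (Set.range (fun x : X => (orbC x : C(G, X)))) := e.symm.toEquiv.mulAction G
  have hact : ∀ (g : G) (z : Set.range (fun x : X => (orbC x : C(G, X)))), g • z = e (g • e.symm z) :=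
    fun g z => rfl
  have hcs : ContinuousSMul G (Set.range (fun x : X => (orbC x : C(G, X)))) := by
    constructor
    have h1 : (fun p : G × Set.range (fun x : X => (orbC x : C(G, X))) => p.1 • p.2) =
        fun p => e (p.1 • e.symm p.2) := rfl
    rw [h1]
    exact e.continuous.comp (continuous_fst.smul (e.symm.continuous.comp continuous_snd))
  refine ⟨Set.range (fun x : X => (orbC x : C(G, X))), inferInstance,
    isCompact_iff_compactSpace.1 (isCompact_range (orbC : C(X, C(G, X))).continuous), act, hcs, e, ?_, ?_⟩
  · intro g x
    rw [hact, Homeomorph.symm_apply_apply]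
  · intro g x y
    obtain ⟨x, rfl⟩ := e.surjective x
    obtain ⟨y, rfl⟩ := e.surjective y
    rw [hact, hact, Homeomorph.symm_apply_apply, Homeomorph.symm_apply_apply]
    exact orbC_dist g x y

end AGV
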