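import Pool.Agent.AGV.MgA

/-!
# AGV-MgB: admissible boxes and the Menger compactum

`floor_adm`: induction on `j`. For `j = 0`: `0 ≤ ⌊x i⌋`, `⌈x i⌉ ≤ 1`. For `j + 1`, with `y = 3 ^ j * x i`: `⌊3 y⌋ % 3 = 1 ∧ ⌈3 y⌉ = ⌊3 y⌋ + 1` implies that `3 y` is not an integer (otherwise `⌈3y⌉ = ⌊3y⌋`)
and `1/3 < Int.fract y < 2/3`, so the number of such `i` is at most `κ` (`Set.ncard` of the set in the definition of `Menger`, which is finite; convert with `Set.ncard_eq_toFinset_card'` or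
`Set.ncard_coe_finset`); and `⌊3 y⌋ / 3 = ⌊y⌋`, `(⌈3 y⌉ + 2) / 3 = ⌈y⌉`.
`adm_mem`: let `x i = p i / 3 ^ j`, `lo i ≤ p i ≤ hi i`. More generally show by induction on `j`: if `AdmB κ j lo hi`, `hi i ≤ lo i + 1` and `lo i ≤ 3 ^ j * x i ≤ hi i` for all `i` (`x : ι → ℝ`) then `x i ∈ [0,1]` and for all
`m < j` at most `κ` of the `i` have `1/3 < fract (3 ^ m * x i) < 2/3`. Step `j + 1`: `⌊lo/3⌋ ≤ 3 ^ j * x i ≤ ⌈hi/3⌉` gives the claim for `m < j`; for `m = j`: `y = 3 ^ j * x i`, `1/3 < fract y < 2/3` means `3 c + 1 < 3 y < 3 c + 2`, so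
`lo i = 3 c + 1`, `hi i = 3 c + 2`. For the point `x = p / 3 ^ j` and `m ≥ j` `3 ^ m * x i` is an integer, so `fract = 0`.
`rd_RL`: for `l = []` the box `0, 0` (admissible at all levels, e.g. from `floor_adm` with `x = 0 ∈ Menger`, or directly by induction). Otherwise fix `x₀ ∈ l`. Let `S` be the set of the `i` such that
`rd j x i ≠ rd j y i` for some `x, y ∈ l`. For `i ∈ S` there is a half integer `h = b + 1/2` between `3 ^ j * x i` and `3 ^ j * y i`, which are closer than `1/6` to each other and to `3 ^ j * x₀ i`; so `1/3 < fract (3 ^ j * x₀ i) < 2/3`, `b = ⌊3 ^ j * x₀ i⌋` and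
`rd j x i ∈ {b, b + 1}` for all `x ∈ l`; the first gives `S.card ≤ κ`. Box: `lo i = ⌊3^j * x₀ i⌋, hi i = lo i + 1 = ⌈3 ^ j * x₀ i⌉` for `i ∈ S`, `lo i = hi i = rd j x₀ i ∈ {⌊3 ^ j * x₀ i⌋, ⌈3 ^ j * x₀ i⌉}` for `i ∉ S`. Admissible by
`floor_adm` and `AdmB_mono`. `rd_rho`: `(⌊3 y + 1/2⌋ + 1) / 3 = ⌊y + 1/2⌋` (`round_eq`; `Int.floor` of a quotient by a natural number).
-/

set_option autoImplicit false

namespace AGV

open Pool.Agent.Helper87.AG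

variable {ι : Type} [Fintype ι] [DecidableEq ι] {κ j : ℕ}

omit [DecidableEq ι] in
private theorem mb_card {s : Finset ι} {A : Set ι} (h : ∀ i ∈ s, i ∈ A) : s.card ≤ A.ncard := by
  rw [← Set.ncard_coe_finset s]
  exact Set.ncard_le_ncard (fun i hi => h i hi) (Set.toFinite _)

omit [DecidableEq ι] in
private theorem mb_ncard {s : Finset ι} {A : Set ι} (h : ∀ i ∈ A, i ∈ s) : A.ncard ≤ s.card := by
  rw [← Set.ncard_coe_finset s]
  exact Set.ncard_le_ncard (fun i hi => h i hi) (Set.toFinite _)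

private theorem mb_floor (y : ℝ) : ⌊3 * y⌋ / 3 = ⌊y⌋ := by
  symm
  have h1 := Int.floor_le (3 * y)
  have h2 := Int.lt_floor_add_one (3 * y)
  rw [Int.floor_eq_iff]
  have h3 : 3 * (⌊3 * y⌋ / 3) ≤ ⌊3 * y⌋ := by omega
  have h4 : ⌊3 * y⌋ ≤ 3 * (⌊3 * y⌋ / 3) + 2 := by omega
  have h3' : (3 : ℝ) * ((⌊3 * y⌋ / 3 : ℤ) : ℝ) ≤ ⌊3 * y⌋ := by exact_mod_cast h3
  have h4' : (⌊3 * y⌋ : ℝ) ≤ 3 * ((⌊3 * y⌋ / 3 : ℤ) : ℝ) + 2 := by exact_mod_cast h4
  constructor <;> linarith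

private theorem mb_ceil (y : ℝ) : (⌈3 * y⌉ + 2) / 3 = ⌈y⌉ := by
  symm
  have h1 := Int.le_ceil (3 * y)
  have h2 := Int.ceil_lt_add_one (3 * y)
  rw [Int.ceil_eq_iff]
  have h3 : ⌈3 * y⌉ ≤ 3 * ((⌈3 * y⌉ + 2) / 3) := by omega
  have h4 : 3 * ((⌈3 * y⌉ + 2) / 3) ≤ ⌈3 * y⌉ + 2 := by omega
  have h3' : (⌈3 * y⌉ : ℝ) ≤ 3 * (((⌈3 * y⌉ + 2) / 3 : ℤ) : ℝ) := by exact_mod_cast h3
  have h4' : (3 : ℝ) * (((⌈3 * y⌉ + 2) / 3 : ℤ) : ℝ) ≤ ⌈3 * y⌉ + 2 := by exact_mod_cast h4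
  constructor <;> linarith

theorem floor_adm {x : ι → ℝ} (hx : x ∈ Menger ι κ) (j : ℕ) :
    AdmB κ j (fun i => ⌊(3 : ℝ) ^ j * x i⌋) (fun i => ⌈(3 : ℝ) ^ j * x i⌉) := by
  induction j with
  | zero =>
    intro i
    have h1 := hx.1 i
    constructor
    · refine Int.floor_nonneg.2 ?_
      rw [pow_zero, one_mul]
      exact h1.1
    · refine Int.ceil_le.2 ?_
      rw [pow_zero, one_mul]
      exact_mod_cast h1.2
  | succ j ih =>
    have e : ∀ i, (3 : ℝ) ^ (j + 1) * x i = 3 * ((3 : ℝ) ^ j * x i) := fun i => by ring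
    refine ⟨(mb_card fun i hi => ?_).trans (hx.2 j), ?_⟩
    · rw [Finset.mem_filter] at hi
      obtain ⟨_, h1, h2⟩ := hi
      beta_reduce at h1 h2
      rw [e] at h1 h2
      have h3 := Int.floor_le (3 * ((3 : ℝ) ^ j * x i))
      have h4 := Int.lt_floor_add_one (3 * ((3 : ℝ) ^ j * x i))
      have h5 : (⌊3 * ((3 : ℝ) ^ j * x i)⌋ : ℝ) < 3 * ((3 : ℝ) ^ j * x i) := by
        rw [← Int.lt_ceil]
        omega
      have h6 := mb_floor ((3 : ℝ) ^ j * x i)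
      have h7 : ⌊3 * ((3 : ℝ) ^ j * x i)⌋ = 3 * ⌊(3 : ℝ) ^ j * x i⌋ + 1 := by omega
      have h8 : (⌊3 * ((3 : ℝ) ^ j * x i)⌋ : ℝ) = 3 * (⌊(3 : ℝ) ^ j * x i⌋ : ℝ) + 1 := by
        exact_mod_cast h7
      have h9 := Int.floor_add_fract ((3 : ℝ) ^ j * x i)
      constructor <;> linarith
    · have e1 : (fun i => ⌊(3 : ℝ) ^ (j + 1) * x i⌋ / 3) = fun i => ⌊(3 : ℝ) ^ j * x i⌋ := by
        funext i
        rw [e, mb_floor]
      have e2 : (fun i => (⌈(3 : ℝ) ^ (j + 1) * x i⌉ + 2) / 3) = fun i => ⌈(3 : ℝ) ^ j * x i⌉ := by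
        funext i
        rw [e, mb_ceil]
      show AdmB κ j (fun i => ⌊(3 : ℝ) ^ (j + 1) * x i⌋ / 3)
        (fun i => (⌈(3 : ℝ) ^ (j + 1) * x i⌉ + 2) / 3)
      rw [e1, e2]
      exact ih

omit [DecidableEq ι] in
private theorem mb_adm : ∀ (j : ℕ) (lo hi : ι → ℤ), AdmB κ j lo hi → (∀ i, hi i ≤ lo i + 1) →
    ∀ x : ι → ℝ, (∀ i, (lo i : ℝ) ≤ (3 : ℝ) ^ j * x i ∧ (3 : ℝ) ^ j * x i ≤ hi i) →
    (∀ i, x i ∈ Set.Icc (0 : ℝ) 1) ∧ ∀ m < j, {i | 1 / 3 < Int.fract ((3 : ℝ) ^ m * x i) ∧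
      Int.fract ((3 : ℝ) ^ m * x i) < 2 / 3}.ncard ≤ κ := by
  intro j
  induction j with
  | zero =>
    intro lo hi h _ x hx
    refine ⟨fun i => ?_, fun m hm => absurd hm (Nat.not_lt_zero m)⟩
    have h1 := h i
    have h2 := hx i
    rw [pow_zero, one_mul] at h2
    have h3 : (0 : ℝ) ≤ lo i := by exact_mod_cast h1.1
    have h4 : (hi i : ℝ) ≤ 1 := by exact_mod_cast h1.2
    exact ⟨by linarith, by linarith⟩
  | succ j ih =>
    intro lo hi h hu x hx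
    obtain ⟨h1, h2⟩ := h
    have e : ∀ i, (3 : ℝ) ^ (j + 1) * x i = 3 * ((3 : ℝ) ^ j * x i) := fun i => by ring
    have h3 := ih _ _ h2 (fun i => by have := hu i; omega) x (fun i => by
      have h4 := hx i
      rw [e] at h4
      have h5 : 3 * (lo i / 3) ≤ lo i := by omega
      have h6 : hi i ≤ 3 * ((hi i + 2) / 3) := by omega
      have h5' : (3 : ℝ) * ((lo i / 3 : ℤ) : ℝ) ≤ lo i := by exact_mod_cast h5
      have h6' : (hi i : ℝ) ≤ 3 * (((hi i + 2) / 3 : ℤ) : ℝ) := by exact_mod_cast h6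
      constructor <;> linarith)
    refine ⟨h3.1, fun m hm => ?_⟩
    rcases Nat.lt_succ_iff_lt_or_eq.1 hm with hm | rfl
    · exact h3.2 m hm
    · refine (mb_ncard fun i hi' => ?_).trans h1
      obtain ⟨h4, h5⟩ := hi'
      have h6 := hx i
      rw [e] at h6
      have h7 := Int.floor_add_fract ((3 : ℝ) ^ m * x i)
      have h8 : (lo i : ℝ) < 3 * (⌊(3 : ℝ) ^ m * x i⌋ : ℝ) + 2 := by linarith
      have h9 : 3 * (⌊(3 : ℝ) ^ m * x i⌋ : ℝ) + 1 < hi i := by linarith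
      have h8' : lo i < 3 * ⌊(3 : ℝ) ^ m * x i⌋ + 2 := by exact_mod_cast h8
      have h9' : 3 * ⌊(3 : ℝ) ^ m * x i⌋ + 1 < hi i := by exact_mod_cast h9
      have h10 := hu i
      rw [Finset.mem_filter]
      exact ⟨Finset.mem_univ i, by omega, by omega⟩

theorem adm_mem {l : List (ι → ℤ)} (h : RL κ j l) {p : ι → ℤ} (hp : p ∈ l) :
    (fun i => (p i : ℝ) / 3 ^ j) ∈ Menger ι κ := by
  obtain ⟨lo, hi, h1, _, h3, h4⟩ := h
  have e : ∀ i, (3 : ℝ) ^ j * ((p i : ℝ) / 3 ^ j) = p i := fun i =>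
    mul_div_cancel₀ _ (pow_ne_zero j (by norm_num))
  have h5 := mb_adm j lo hi h3 (fun i => (h1 i).2) (fun i => (p i : ℝ) / 3 ^ j) (fun i => by
    rw [e]
    have h6 := h4 p hp i
    exact ⟨by exact_mod_cast h6.1, by exact_mod_cast h6.2⟩)
  refine ⟨h5.1, fun m => ?_⟩
  rcases lt_or_ge m j with hm | hm
  · exact h5.2 m hm
  · have h6 : {i | 1 / 3 < Int.fract ((3 : ℝ) ^ m * ((p i : ℝ) / 3 ^ j)) ∧
        Int.fract ((3 : ℝ) ^ m * ((p i : ℝ) / 3 ^ j)) < 2 / 3} = ∅ := by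
      ext i
      constructor
      · rintro ⟨h7, _⟩
        exfalso
        obtain ⟨n, rfl⟩ := Nat.exists_eq_add_of_le hm
        have h8 : (3 : ℝ) ^ (j + n) * ((p i : ℝ) / 3 ^ j) = ((3 ^ n * p i : ℤ) : ℝ) := by
          rw [pow_add, mul_assoc, mul_left_comm, e]
          push_cast
          ring
        rw [h8, Int.fract_intCast] at h7
        norm_num at h7
      · intro h7
        exact absurd h7 (Set.notMem_empty i)
    rw [h6, Set.ncard_empty]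
    exact Nat.zero_le _

omit [DecidableEq ι] in
private theorem mb_zero : (fun _ => 0 : ι → ℝ) ∈ Menger ι κ := by
  refine ⟨fun i => ⟨le_rfl, zero_le_one⟩, fun m => ?_⟩
  have h6 : {i : ι | 1 / 3 < Int.fract ((3 : ℝ) ^ m * (0 : ℝ)) ∧
      Int.fract ((3 : ℝ) ^ m * (0 : ℝ)) < 2 / 3} = ∅ := by
    ext i
    constructor
    · rintro ⟨h7, _⟩
      rw [mul_zero, Int.fract_zero] at h7
      norm_num at h7
    · intro h7
      exact absurd h7 (Set.notMem_empty i)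
  rw [h6, Set.ncard_empty]
  exact Nat.zero_le _

omit [DecidableEq ι] in
private theorem mb_dist {x y : ι → ℝ} (h : dist x y < (1 / 3 : ℝ) ^ j / 6) (i : ι) :
    |(3 : ℝ) ^ j * x i - 3 ^ j * y i| < 1 / 6 := by
  have h1 : |x i - y i| ≤ dist x y := by
    rw [← Real.dist_eq]
    exact dist_le_pi_dist x y i
  rw [← mul_sub, abs_mul, abs_of_pos (by positivity : (0 : ℝ) < 3 ^ j)]
  have h2 : (3 : ℝ) ^ j * ((1 / 3 : ℝ) ^ j / 6) = 1 / 6 := by
    rw [← mul_div_assoc, ← mul_pow]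
    norm_num
  rw [← h2]
  exact mul_lt_mul_of_pos_left (h1.trans_lt h) (by positivity)

private theorem mb_half {a b z : ℝ} (hab : round a < round b) (h1 : |z - a| < 1 / 6)
    (h2 : |z - b| < 1 / 6) : 1 / 3 < Int.fract z ∧ Int.fract z < 2 / 3 := by
  rw [round_eq, round_eq] at hab
  rw [abs_lt] at h1 h2
  have h3 := Int.lt_floor_add_one (a + 1 / 2)
  have h4 := Int.floor_le (b + 1 / 2)
  have h5 : (⌊a + 1 / 2⌋ : ℝ) + 1 ≤ ⌊b + 1 / 2⌋ := by exact_mod_cast hab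
  have h6 : ⌊z⌋ = ⌊b + 1 / 2⌋ - 1 := by
    rw [Int.floor_eq_iff]
    push_cast
    constructor <;> linarith [h1.1, h1.2, h2.1, h2.2]
  have h7 := Int.floor_add_fract z
  rw [h6] at h7
  push_cast at h7
  constructor <;> linarith [h1.1, h1.2, h2.1, h2.2]

private theorem mb_round {a z : ℝ} (hz : 1 / 3 < Int.fract z ∧ Int.fract z < 2 / 3)
    (h1 : |z - a| < 1 / 6) : ⌊z⌋ ≤ round a ∧ round a ≤ ⌊z⌋ + 1 := by
  rw [abs_lt] at h1
  have h7 := Int.floor_add_fract z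
  rw [round_eq]
  constructor
  · rw [Int.le_floor]
    linarith [h1.1, h1.2, hz.1, hz.2]
  · rw [← Int.lt_add_one_iff, Int.floor_lt]
    push_cast
    linarith [h1.1, h1.2, hz.1, hz.2]

theorem rd_RL {l : List (ι → ℝ)} (hl : ∀ x ∈ l, x ∈ Menger ι κ)
    (hd : ∀ x ∈ l, ∀ y ∈ l, dist x y < (1 / 3 : ℝ) ^ j / 6) : RL κ j (l.map (rd j)) := by
  classical
  by_cases hne : l = []
  · subst hne
    have h1 := floor_adm (mb_zero (ι := ι) (κ := κ)) j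
    have e1 : (fun _ : ι => ⌊(3 : ℝ) ^ j * 0⌋) = fun _ => (0 : ℤ) := by
      funext i
      rw [mul_zero, Int.floor_zero]
    have e2 : (fun _ : ι => ⌈(3 : ℝ) ^ j * 0⌉) = fun _ => (0 : ℤ) := by
      funext i
      rw [mul_zero, Int.ceil_zero]
    rw [e1, e2] at h1
    refine ⟨fun _ => 0, fun _ => 0, fun i => ⟨le_rfl, by norm_num⟩, ?_, h1, ?_⟩
    · rw [Finset.filter_false_of_mem fun i _ => lt_irrefl _]
      exact Nat.zero_le _
    · intro p hp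
      rw [List.map_nil] at hp
      exact absurd hp List.not_mem_nil
  · obtain ⟨x₀, hx₀⟩ := List.exists_mem_of_ne_nil l hne
    let S : Finset ι := Finset.univ.filter fun i => ∃ x ∈ l, ∃ y ∈ l, rd j x i ≠ rd j y i
    have hS : ∀ i ∈ S, 1 / 3 < Int.fract ((3 : ℝ) ^ j * x₀ i) ∧
        Int.fract ((3 : ℝ) ^ j * x₀ i) < 2 / 3 := by
      intro i hi
      obtain ⟨_, x, hx, y, hy, hxy⟩ := Finset.mem_filter.1 hi
      rcases lt_or_gt_of_ne hxy with h | h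
      · exact mb_half h (mb_dist (hd x₀ hx₀ x hx) i) (mb_dist (hd x₀ hx₀ y hy) i)
      · exact mb_half h (mb_dist (hd x₀ hx₀ y hy) i) (mb_dist (hd x₀ hx₀ x hx) i)
    have hS' : ∀ i ∉ S, ∀ x ∈ l, rd j x i = rd j x₀ i := by
      intro i hi x hx
      by_contra h
      exact hi (Finset.mem_filter.2 ⟨Finset.mem_univ i, x, hx, x₀, hx₀, h⟩)
    have hScard : S.card ≤ κ := (mb_card hS).trans ((hl x₀ hx₀).2 j)
    refine ⟨fun i => if i ∈ S then ⌊(3 : ℝ) ^ j * x₀ i⌋ else rd j x₀ i,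
      fun i => if i ∈ S then ⌊(3 : ℝ) ^ j * x₀ i⌋ + 1 else rd j x₀ i, fun i => ?_, ?_, ?_, ?_⟩
    · beta_reduce
      split_ifs
      · exact ⟨by omega, le_rfl⟩
      · exact ⟨le_rfl, by omega⟩
    · refine (Finset.card_le_card fun i hi => ?_).trans hScard
      by_contra h
      have h1 := (Finset.mem_filter.1 hi).2
      beta_reduce at h1
      rw [if_neg h, if_neg h] at h1
      exact lt_irrefl _ h1
    · refine AdmB_mono (floor_adm (hl x₀ hx₀) j) (fun i => Int.ceil_le_floor_add_one _)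
        (fun i => ?_) (fun i => ?_) (fun i => ?_)
      · split_ifs
        · exact le_rfl
        · show ⌊(3 : ℝ) ^ j * x₀ i⌋ ≤ round ((3 : ℝ) ^ j * x₀ i)
          rw [round_eq]
          exact Int.floor_le_floor (by linarith)
      · split_ifs
        · omega
        · exact le_rfl
      · split_ifs with h
        · have h1 := (hS i h).1
          have h2 := Int.floor_add_fract ((3 : ℝ) ^ j * x₀ i)
          have h3 : ⌊(3 : ℝ) ^ j * x₀ i⌋ < ⌈(3 : ℝ) ^ j * x₀ i⌉ := by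
            rw [Int.lt_ceil]
            linarith
          omega
        · show round ((3 : ℝ) ^ j * x₀ i) ≤ ⌈(3 : ℝ) ^ j * x₀ i⌉
          rw [round_eq, ← Int.lt_add_one_iff, Int.floor_lt]
          push_cast
          have := Int.le_ceil ((3 : ℝ) ^ j * x₀ i)
          linarith
    · intro q hq i
      obtain ⟨x, hx, rfl⟩ := List.mem_map.1 hq
      beta_reduce
      split_ifs with h
      · exact mb_round (hS i h) (mb_dist (hd x₀ hx₀ x hx) i)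
      · rw [hS' i h x hx]
        exact ⟨le_rfl, le_rfl⟩

omit [Fintype ι] [DecidableEq ι] in
theorem rd_rho (x : ι → ℝ) : rho (rd (j + 1) x) = rd j x := by
  funext i
  show (round ((3 : ℝ) ^ (j + 1) * x i) + 1) / 3 = round ((3 : ℝ) ^ j * x i)
  have e : (3 : ℝ) ^ (j + 1) * x i = 3 * ((3 : ℝ) ^ j * x i) := by ring
  rw [e, round_eq, round_eq]
  symm
  have h1 := Int.floor_le (3 * ((3 : ℝ) ^ j * x i) + 1 / 2)
  have h2 := Int.lt_floor_add_one (3 * ((3 : ℝ) ^ j * x i) + 1 / 2)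
  rw [Int.floor_eq_iff]
  have h3 : 3 * ((⌊3 * ((3 : ℝ) ^ j * x i) + 1 / 2⌋ + 1) / 3) ≤ ⌊3 * ((3 : ℝ) ^ j * x i) + 1 / 2⌋ + 1 := by
    omega
  have h4 : ⌊3 * ((3 : ℝ) ^ j * x i) + 1 / 2⌋ + 1 ≤ 3 * ((⌊3 * ((3 : ℝ) ^ j * x i) + 1 / 2⌋ + 1) / 3) + 2 := by
    omega
  have h3' : (3 : ℝ) * (((⌊3 * ((3 : ℝ) ^ j * x i) + 1 / 2⌋ + 1) / 3 : ℤ) : ℝ) ≤
      ⌊3 * ((3 : ℝ) ^ j * x i) + 1 / 2⌋ + 1 := by exact_mod_cast h3
  have h4' : (⌊3 * ((3 : ℝ) ^ j * x i) + 1 / 2⌋ : ℝ) + 1 ≤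
      3 * (((⌊3 * ((3 : ℝ) ^ j * x i) + 1 / 2⌋ + 1) / 3 : ℤ) : ℝ) + 2 := by exact_mod_cast h4
  constructor <;> linarith

omit [Fintype ι] [DecidableEq ι] in
theorem rd_dist (x : ι → ℝ) (i : ι) : |(rd j x i : ℝ) / 3 ^ j - x i| ≤ (1 / 3 : ℝ) ^ j / 2 := by
  have h1 := abs_sub_round ((3 : ℝ) ^ j * x i)
  have hp : (0 : ℝ) < 3 ^ j := by positivity
  have h2 : (rd j x i : ℝ) / 3 ^ j - x i = -(((3 : ℝ) ^ j * x i - round ((3 : ℝ) ^ j * x i)) / 3 ^ j) := by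
    show (round ((3 : ℝ) ^ j * x i) : ℝ) / 3 ^ j - x i = _
    field_simp
    ring
  rw [h2, abs_neg, abs_div, abs_of_pos hp, div_le_iff₀ hp]
  have h3 : (1 / 3 : ℝ) ^ j / 2 * 3 ^ j = 1 / 2 := by
    rw [div_mul_eq_mul_div, ← mul_pow]
    norm_num
  rw [h3]
  exact h1

end AGV
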