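import Pool.Agent.AGV.Lst
import Pool.Agent.AGV.LstS
import Pool.Agent.AGV.MgB

/-!
# AGV-MgW: from the lattice back to the Menger compactum

`pt p` is the point `p / 3 ^ J` of `Menger ι κ` (and `x` if it is not in it), `g = pt ∘ rd J ∘ Subtype.val`,
and `w = mp pt W - pr id g z`: `bd (mp pt W) = mp g z` and `bd (pr id g z) = mp g z - z`, so `bd w = z`.
The lists of `mp pt W` have mesh at most `(1/3)^J` and are within `R` of `x`; those of `pr id g z`
consist of points at distance at most `(1/3)^J / 2` from points of the lists of `z`.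
-/

set_option autoImplicit false

namespace AGV

open Pool.Agent.Helper87.AG

variable {ι : Type} [Fintype ι] [DecidableEq ι]

open Classical in
private noncomputable def pt {κ : ℕ} (J : ℕ) (x : Menger ι κ) (p : ι → ℤ) : Menger ι κ :=
  if h : (fun i => (p i : ℝ) / 3 ^ J) ∈ Menger ι κ then ⟨_, h⟩ else x

omit [Fintype ι] [DecidableEq ι] in
private lemma pt_coe {κ : ℕ} (J : ℕ) (x : Menger ι κ) {p : ι → ℤ}
    (h : (fun i => (p i : ℝ) / 3 ^ J) ∈ Menger ι κ) :
    ((pt J x p : Menger ι κ) : ι → ℝ) = fun i => (p i : ℝ) / 3 ^ J := by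
  unfold pt
  rw [dif_pos h]

private lemma pt_dist {κ : ℕ} (J : ℕ) (x a : Menger ι κ) :
    dist (pt J x (rd J (a : ι → ℝ))) a ≤ (1 / 3 : ℝ) ^ J / 2 := by
  have hRL : RL κ J ([(a : ι → ℝ)].map (rd J)) := by
    refine rd_RL (fun y hy => ?_) (fun y hy y' hy' => ?_)
    · rw [List.mem_singleton] at hy
      rw [hy]
      exact a.2
    · rw [List.mem_singleton] at hy hy'
      rw [hy, hy', dist_self]
      positivity
  have hm : (fun i => ((rd J (a : ι → ℝ)) i : ℝ) / 3 ^ J) ∈ Menger ι κ :=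
    adm_mem hRL (by simp)
  rw [Subtype.dist_eq, pt_coe J x hm]
  refine (dist_pi_le_iff (by positivity)).2 (fun i => ?_)
  rw [Real.dist_eq]
  exact rd_dist _ i

private lemma pt_dist2 {κ : ℕ} (J : ℕ) (x : Menger ι κ) {l : List (ι → ℤ)} (hl : RL κ J l)
    {a b : ι → ℤ} (ha : a ∈ l) (hb : b ∈ l) :
    dist (pt J x a) (pt J x b) ≤ (1 / 3 : ℝ) ^ J := by
  rw [Subtype.dist_eq, pt_coe J x (adm_mem hl ha), pt_coe J x (adm_mem hl hb)]
  refine (dist_pi_le_iff (by positivity)).2 (fun i => ?_)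
  obtain ⟨c, S, -, hS⟩ := RL_UC hl
  have h1 := hS a ha i
  have h2 := hS b hb i
  have h3 : |a i - b i| ≤ 1 := by
    rw [abs_le]
    constructor <;> rcases h1 with h1 | h1 <;> rcases h2 with h2 | h2 <;> omega
  have h4 : |(a i : ℝ) - b i| ≤ 1 := by exact_mod_cast h3
  have h5 : (0 : ℝ) < 3 ^ J := by positivity
  rw [Real.dist_eq, ← sub_div, abs_div, abs_of_pos h5, one_div, inv_pow, div_eq_mul_inv]
  calc |(a i : ℝ) - b i| * ((3 : ℝ) ^ J)⁻¹ ≤ 1 * ((3 : ℝ) ^ J)⁻¹ :=
        mul_le_mul_of_nonneg_right h4 (by positivity)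
    _ = ((3 : ℝ) ^ J)⁻¹ := one_mul _

theorem menger_fin {κ k J : ℕ} (x : Menger ι κ) (r R μ : ℝ) (hR : 0 ≤ R) (hμ : μ ≤ (1 / 3 : ℝ) ^ J / 6)
    (z : Ch (Menger ι κ)) (hz : z ∈ SP (fun l => l.length = k ∧ Msh μ l ∧ ∀ y ∈ l, dist y x < r)) (hb : bd z = 0)
    (W : Ch (ι → ℤ)) (hW : W ∈ SP (fun l => l.length = k + 1 ∧ RL κ J l ∧ Loc J (x : ι → ℝ) R l))
    (hbW : bd W = mp (fun y : Menger ι κ => rd J (y : ι → ℝ)) z) :
    ∃ w ∈ SP (fun l : List (Menger ι κ) => l.length = k + 1 ∧ Msh (2 * (1 / 3 : ℝ) ^ J) l ∧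
      ∀ y ∈ l, dist y x ≤ max R (r + (1 / 3 : ℝ) ^ J)), bd w = z := by
  have h3 : (0 : ℝ) < (1 / 3 : ℝ) ^ J := by positivity
  refine ⟨mp (pt J x) W - pr id (pt J x ∘ fun y : Menger ι κ => rd J (y : ι → ℝ)) z, ?_, ?_⟩
  · refine Submodule.sub_mem _ (mp_mem _ (fun l hl => ?_) hW) (pr_mem _ _ (fun l hl l' hlen hl' => ?_) hz)
    · obtain ⟨hl1, hl2, hl3⟩ := hl
      refine ⟨by rw [List.length_map, hl1], ?_, ?_⟩
      · intro y hy y' hy'
        obtain ⟨a, ha, rfl⟩ := List.mem_map.1 hy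
        obtain ⟨b, hb, rfl⟩ := List.mem_map.1 hy'
        have := pt_dist2 J x hl2 ha hb
        linarith
      · intro y hy
        obtain ⟨a, ha, rfl⟩ := List.mem_map.1 hy
        refine le_trans ?_ (le_max_left _ _)
        rw [Subtype.dist_eq, pt_coe J x (adm_mem hl2 ha)]
        refine (dist_pi_le_iff hR).2 (fun i => ?_)
        rw [Real.dist_eq]
        exact hl3 a ha i
    · obtain ⟨hl1, hl2, hl3⟩ := hl
      have key : ∀ y ∈ l', ∃ a ∈ l, dist y a ≤ (1 / 3 : ℝ) ^ J / 2 := by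
        intro y hy
        obtain ⟨a, ha, h⟩ := hl' y hy
        refine ⟨a, ha, ?_⟩
        rcases h with h | h
        · rw [h, id, dist_self]
          positivity
        · rw [h]
          exact pt_dist J x a
      refine ⟨by rw [hlen, hl1], ?_, ?_⟩
      · intro y hy y' hy'
        obtain ⟨a, ha, h⟩ := key y hy
        obtain ⟨a', ha', h'⟩ := key y' hy'
        have h1 := hl2 a ha a' ha'
        have h2 := dist_triangle y a y'
        have h4 := dist_triangle a a' y'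
        rw [dist_comm] at h'
        linarith
      · intro y hy
        obtain ⟨a, ha, h⟩ := key y hy
        refine le_trans ?_ (le_max_right _ _)
        have h1 := hl3 a ha
        have h2 := dist_triangle y a x
        linarith
  · have h1 := bd_pr (id : Menger ι κ → Menger ι κ) (pt J x ∘ fun y : Menger ι κ => rd J (y : ι → ℝ)) z
    rw [hb, map_zero, add_zero, mp_id] at h1
    rw [map_sub, h1, bd_mp, hbW, mp_mp, sub_sub_cancel]

end AGV
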