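import Pool.Agent.AGV.MgU
import Pool.Agent.AGV.MgW

/-!
# AGV-MgV: the Menger compactum is Vietoris acyclic in degrees less than its dimension

Given `η` choose `J` with `2 * (1/3)^J < η`, `μ = (1/3)^J / 6`. Let `z` be a cycle with lists of `k` points, mesh `< μ`. `z₁ = mp (rd J ∘ val) z` has lists in `RL κ J` (`rd_RL`), and within distance `2` of `x = 0` (a point of `Menger ι κ`: all `fract` are `0`).
`z₀ = mp (rho^[J]) z₁` has lists in `RL κ 0` (`RL_rho` iterated), so by `RL_zero` and `boxfill` in the box `0, 1` there is `W₀` with lists of `k + 1` points in `RL κ 0` and `bd W₀ = z₀`. Apply `tower` with `i = 0`, `e = J` (`0 + J = J`), `x = 0`, large radii (all points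
`p / 3 ^ j` of lists in `RL κ j` are in the unit cube by `adm_mem`, so `Loc j 0 1`), then `menger_fin` (forget the radius).
-/

set_option autoImplicit false

namespace AGV

open Pool.Agent.Helper87.AG

variable {ι : Type} [Fintype ι] [DecidableEq ι]

private theorem RL_rho_iter {κ : ℕ} (J : ℕ) : ∀ l : List (ι → ℤ), RL κ J l →
    RL κ 0 (l.map (rho^[J])) := by
  induction J with
  | zero =>
    intro l h
    rw [Function.iterate_zero, List.map_id]
    exact h
  | succ J ih =>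
    intro l h
    rw [Function.iterate_succ, ← List.map_map]
    exact ih _ (RL_rho h)

private theorem Loc_one {κ J : ℕ} {l : List (ι → ℤ)} (h : RL κ J l) :
    Loc J (fun _ => (0 : ℝ)) 1 l := by
  intro p hp i
  have h1 := (adm_mem h hp).1 i
  rw [sub_zero, abs_le]
  exact ⟨by linarith [h1.1], h1.2⟩

private theorem zero_mem_menger {κ : ℕ} : (fun _ => (0 : ℝ)) ∈ Menger ι κ := by
  have h0 : RL κ 0 [(fun _ => (0 : ℤ) : ι → ℤ)] := by
    rw [RL_zero]
    refine ⟨?_, fun _ => 0, ∅, Nat.zero_le _, ?_⟩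
    · intro p hp i
      rw [List.mem_singleton] at hp
      rw [hp]
      exact ⟨le_rfl, zero_le_one⟩
    · intro p hp i
      rw [List.mem_singleton] at hp
      rw [hp]
      exact Or.inl rfl
  have h1 := adm_mem h0 (List.mem_singleton_self _)
  simpa using h1

theorem menger_VC {κ k : ℕ} (hk : k ≤ κ) : VC (Menger ι κ) k := by
  intro η hη
  obtain ⟨J, hJ⟩ := exists_pow_lt_of_lt_one (half_pos hη) (by norm_num : (1 / 3 : ℝ) < 1)
  have hJ2 : 2 * (1 / 3 : ℝ) ^ J < η := by linarith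
  refine ⟨(1 / 3 : ℝ) ^ J / 6, by positivity, fun z hz hb => ?_⟩
  have hz₁ : mp (fun y : Menger ι κ => rd J (y : ι → ℝ)) z ∈
      SP (fun l : List (ι → ℤ) => l.length = k ∧ RL κ J l) := by
    refine mp_mem _ (fun l hl => ⟨?_, ?_⟩) hz
    · rw [List.length_map]
      exact hl.1
    · have h1 : RL κ J ((l.map Subtype.val).map (rd J)) := by
        refine rd_RL ?_ ?_
        · intro x hx
          obtain ⟨y, _, rfl⟩ := List.mem_map.1 hx
          exact y.2
        · intro x hx x' hx'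
          obtain ⟨y, hy, rfl⟩ := List.mem_map.1 hx
          obtain ⟨y', hy', rfl⟩ := List.mem_map.1 hx'
          exact hl.2 y hy y' hy'
      rw [List.map_map] at h1
      exact h1
  have hb₁ : bd (mp (fun y : Menger ι κ => rd J (y : ι → ℝ)) z) = 0 := by
    rw [bd_mp, hb, map_zero]
  have hz₀ : mp (rho^[J]) (mp (fun y : Menger ι κ => rd J (y : ι → ℝ)) z) ∈
      SP (fun l : List (ι → ℤ) => l.length = k ∧ InB (fun _ => 0) (fun _ => 1) l ∧ UC κ l) := by
    refine mp_mem _ (fun l hl => ⟨?_, RL_zero.1 (RL_rho_iter J l hl.2)⟩) hz₁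
    rw [List.length_map]
    exact hl.1
  have hb₀ : bd (mp (rho^[J]) (mp (fun y : Menger ι κ => rd J (y : ι → ℝ)) z)) = 0 := by
    rw [bd_mp, hb₁, map_zero]
  obtain ⟨W₀, hW₀, hbW₀⟩ := boxfill hk (fun _ => 0) (fun _ => 1) (fun _ => zero_le_one) _ hz₀ hb₀
  have ht := tower (ι := ι) hk 0 J (fun _ => (0 : ℝ)) 1 1
    (mp (fun y : Menger ι κ => rd J (y : ι → ℝ)) z) W₀
  rw [Nat.zero_add] at ht
  obtain ⟨W, hW, hbW⟩ := ht (SP_mono (fun l hl => ⟨hl.1, hl.2, Loc_one hl.2⟩) hz₁) hb₁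
    (SP_mono (fun l hl => ⟨hl.1, RL_zero.2 hl.2, Loc_one (RL_zero.2 hl.2)⟩) hW₀) hbW₀
  have hz2 : z ∈ SP (fun l : List (Menger ι κ) => l.length = k ∧ Msh ((1 / 3 : ℝ) ^ J / 6) l ∧
      ∀ y ∈ l, dist y (⟨fun _ => 0, zero_mem_menger⟩ : Menger ι κ) < 2) := by
    refine SP_mono (fun l hl => ⟨hl.1, hl.2, fun y _ => ?_⟩) hz
    rw [Subtype.dist_eq]
    refine lt_of_le_of_lt ((dist_pi_le_iff zero_le_one).2 fun i => ?_) one_lt_two
    rw [Real.dist_eq, sub_zero, abs_le]
    have h1 := y.2.1 i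
    exact ⟨by linarith [h1.1], h1.2⟩
  obtain ⟨w, hw, hbw⟩ := menger_fin (⟨fun _ => 0, zero_mem_menger⟩ : Menger ι κ) 2 _ _
    (le_trans zero_le_one (le_max_left _ _)) le_rfl z hz2 hb W hW hbW
  refine ⟨w, SP_mono (fun l hl => ⟨hl.1, fun y hy y' hy' => ?_⟩) hw, hbw⟩
  exact (hl.2.1 y hy y' hy').trans hJ2

end AGV
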