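import Pool.Agent.AGV.MgU
import Pool.Agent.AGV.MgW

/-!
# AGV-MgX: the Menger compactum is locally Vietoris acyclic in degrees less than its dimension

Given `ε` choose `i` with `5 * (1/3)^i < ε`, `δ = (1/3)^i / 12`; given `η` choose `e` with `2 * (1/3)^(i+e) < η` and put `J = i + e`, `μ = (1/3)^J / 6`. Let `z` be a cycle with lists of `k` points, mesh `< μ`, within `δ` of `x`. Let `L` be the list of all points occurring in the
(finitely many) lists of `z` together with `x` (`z.support.toList.flatten`, `x ::`): mutual distances `< 2 δ = (1/3)^i / 6`, so `rd_RL` gives `RL κ i (L.map (rd i))` (coordinates in `ι → ℝ`). `W = cone (rd i x) (mp (rd i ∘ val) z)` has lists of `k + 1` points in `RL κ i`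
(`RL_mono`), `bd W = mp (rd i ∘ val) z` (`bd_cone`, `bd_mp`, `bd z = 0`) `= mp (rho^[e]) (mp (rd J ∘ val) z)` (`rho^[e] (rd (i+e) y) = rd i y` by `rd_rho`), and `Loc i x (δ + (1/3)^i / 2)` (`rd_dist`). `z₁ = mp (rd J ∘ val) z` has lists in `RL κ J` (`rd_RL`) and
`Loc J x (δ + (1/3)^J / 2)`. `tower`, then `menger_fin` with `r = δ`: radius `≤ max (max (δ + (1/3)^i/2) (δ + (1/3)^J/2 + 2 (1/3)^i)) (δ + (1/3)^J) < ε`.
-/

set_option autoImplicit false

namespace AGV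

open Pool.Agent.Helper87.AG

variable {ι : Type} [Fintype ι] [DecidableEq ι]

omit [Fintype ι] [DecidableEq ι] in
private theorem rho_iter (i : ℕ) (y : ι → ℝ) (e : ℕ) : (rho^[e]) (rd (i + e) y) = rd i y := by
  induction e with
  | zero => rfl
  | succ e ih =>
    rw [Function.iterate_succ_apply]
    have h : rho (rd (i + (e + 1)) y) = rd (i + e) y := rd_rho (j := i + e) y
    rw [h, ih]

omit [DecidableEq ι] in
private theorem loc_rd {κ : ℕ} (j : ℕ) (x : Menger ι κ) (δ : ℝ) (l : List (Menger ι κ))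
    (hl : ∀ y ∈ l, dist y x < δ) :
    Loc j (x : ι → ℝ) (δ + (1 / 3 : ℝ) ^ j / 2) (l.map fun y : Menger ι κ => rd j (y : ι → ℝ)) := by
  intro p hp i
  obtain ⟨y, hy, rfl⟩ := List.mem_map.1 hp
  have h1 := rd_dist (j := j) (y : ι → ℝ) i
  have h2 : |(y : ι → ℝ) i - (x : ι → ℝ) i| ≤ δ := by
    have h3 : dist ((y : ι → ℝ) i) ((x : ι → ℝ) i) ≤ dist (y : ι → ℝ) (x : ι → ℝ) :=
      dist_le_pi_dist _ _ i
    rw [Real.dist_eq] at h3
    have h4 : dist (y : ι → ℝ) (x : ι → ℝ) < δ := hl y hy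
    linarith
  calc |(rd j (y : ι → ℝ) i : ℝ) / 3 ^ j - (x : ι → ℝ) i|
      = |((rd j (y : ι → ℝ) i : ℝ) / 3 ^ j - (y : ι → ℝ) i) + ((y : ι → ℝ) i - (x : ι → ℝ) i)| := by
        congr 1
        ring
    _ ≤ |(rd j (y : ι → ℝ) i : ℝ) / 3 ^ j - (y : ι → ℝ) i| + |(y : ι → ℝ) i - (x : ι → ℝ) i| :=
        abs_add_le _ _
    _ ≤ δ + (1 / 3 : ℝ) ^ j / 2 := by linarith

theorem menger_VLC {κ k : ℕ} (hk : k ≤ κ) : VLC (Menger ι κ) k := by
  intro ε hε
  obtain ⟨i, hi⟩ : ∃ i : ℕ, (1 / 3 : ℝ) ^ i < ε / 5 :=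
    exists_pow_lt_of_lt_one (by positivity) (by norm_num)
  have hpi : (0 : ℝ) < (1 / 3 : ℝ) ^ i := by positivity
  refine ⟨(1 / 3 : ℝ) ^ i / 12, by positivity, ?_⟩
  intro η hη
  obtain ⟨e, he⟩ : ∃ e : ℕ, (1 / 3 : ℝ) ^ e < η / 2 :=
    exists_pow_lt_of_lt_one (by positivity) (by norm_num)
  have hpe : (0 : ℝ) < (1 / 3 : ℝ) ^ e := by positivity
  have hi1 : (1 / 3 : ℝ) ^ i ≤ 1 := pow_le_one₀ (by norm_num) (by norm_num)
  have he1 : (1 / 3 : ℝ) ^ e ≤ 1 := pow_le_one₀ (by norm_num) (by norm_num)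
  have hJ : (1 / 3 : ℝ) ^ (i + e) = (1 / 3 : ℝ) ^ i * (1 / 3 : ℝ) ^ e := pow_add _ _ _
  have hpJ : (0 : ℝ) < (1 / 3 : ℝ) ^ (i + e) := by positivity
  have hJi : (1 / 3 : ℝ) ^ (i + e) ≤ (1 / 3 : ℝ) ^ i := by
    rw [hJ]
    nlinarith
  have hJe : (1 / 3 : ℝ) ^ (i + e) ≤ (1 / 3 : ℝ) ^ e := by
    rw [hJ]
    nlinarith
  refine ⟨(1 / 3 : ℝ) ^ (i + e) / 6, by positivity, ?_⟩
  intro x z hz hb
  set δ : ℝ := (1 / 3 : ℝ) ^ i / 12 with hδ
  have hzs := mem_SP.1 hz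
  -- the list of all points
  set L : List (Menger ι κ) := x :: z.support.toList.flatten with hL
  have hLx : ∀ y ∈ L, dist y x < δ := by
    intro y hy
    rcases List.mem_cons.1 hy with h | hy
    · rw [h, dist_self]
      positivity
    · obtain ⟨l, hl, hyl⟩ := List.mem_flatten.1 hy
      exact (hzs l (Finset.mem_toList.1 hl)).2.2 y hyl
  have hLrl : RL κ i ((L.map (Subtype.val : Menger ι κ → ι → ℝ)).map (rd i)) := by
    refine rd_RL ?_ ?_
    · intro y hy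
      obtain ⟨y', _, rfl⟩ := List.mem_map.1 hy
      exact y'.2
    · intro y hy y' hy'
      obtain ⟨u, hu, rfl⟩ := List.mem_map.1 hy
      obtain ⟨u', hu', rfl⟩ := List.mem_map.1 hy'
      have h1 := hLx u hu
      have h2 := hLx u' hu'
      have h3 : dist u u' ≤ dist u x + dist u' x := dist_triangle_right _ _ _
      have h4 : dist (u : ι → ℝ) (u' : ι → ℝ) = dist u u' := rfl
      rw [h4]
      linarith
  -- the fillings at level `i`
  set f : Menger ι κ → (ι → ℤ) := fun y => rd i (y : ι → ℝ) with hf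
  set g : Menger ι κ → (ι → ℤ) := fun y => rd (i + e) (y : ι → ℝ) with hg
  have hmem : ∀ l ∈ z.support, ∀ y ∈ l, y ∈ L := by
    intro l hl y hy
    exact List.mem_cons_of_mem _ (List.mem_flatten.2 ⟨l, Finset.mem_toList.2 hl, hy⟩)
  have hz' : z ∈ SP (fun l : List (Menger ι κ) => l.length = k ∧ ∀ y ∈ l, y ∈ L) :=
    mem_SP.2 fun l hl => ⟨(hzs l hl).1, hmem l hl⟩
  have hW : cone (f x) (mp f z) ∈
      SP (fun l => l.length = k + 1 ∧ RL κ i l ∧ Loc i (x : ι → ℝ) (δ + (1 / 3 : ℝ) ^ i / 2) l) := by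
    have h1 : mp f z ∈ SP (fun l => ∃ l' : List (Menger ι κ), l = l'.map f ∧ l'.length = k ∧
        ∀ y ∈ l', y ∈ L) := mp_mem f (fun l hl => ⟨l, rfl, hl.1, hl.2⟩) hz'
    refine cone_mem (f x) ?_ h1
    rintro l ⟨l', rfl, h2, h3⟩
    have h4 : f x :: l'.map f = (x :: l').map f := rfl
    rw [h4]
    have h5 : ∀ y ∈ x :: l', y ∈ L := by
      intro y hy
      rcases List.mem_cons.1 hy with h | hy
      · rw [h, hL]
        exact List.mem_cons_self
      · exact h3 y hy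
    refine ⟨by rw [List.length_map, List.length_cons, h2], ?_, ?_⟩
    · refine RL_mono hLrl ?_
      intro p hp
      obtain ⟨y, hy, rfl⟩ := List.mem_map.1 hp
      exact List.mem_map.2 ⟨(y : ι → ℝ), List.mem_map.2 ⟨y, h5 y hy, rfl⟩, rfl⟩
    · exact loc_rd i x δ (x :: l') fun y hy => hLx y (h5 y hy)
  have hbW : bd (cone (f x) (mp f z)) = mp (rho^[e]) (mp g z) := by
    have h1 : (rho^[e]) ∘ g = f := by
      funext y
      exact rho_iter i (y : ι → ℝ) e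
    rw [bd_cone, bd_mp, hb, map_zero, map_zero, sub_zero, mp_mp, h1]
  have hz1 : mp g z ∈ SP (fun l => l.length = k ∧ RL κ (i + e) l ∧
      Loc (i + e) (x : ι → ℝ) (δ + (1 / 3 : ℝ) ^ (i + e) / 2) l) := by
    refine mp_mem g ?_ hz
    intro l hl
    refine ⟨by rw [List.length_map, hl.1], ?_, loc_rd (i + e) x δ l hl.2.2⟩
    have h1 : l.map g = (l.map (Subtype.val : Menger ι κ → ι → ℝ)).map (rd (i + e)) := by
      rw [List.map_map]
      rfl
    rw [h1]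
    refine rd_RL ?_ ?_
    · intro y hy
      obtain ⟨y', _, rfl⟩ := List.mem_map.1 hy
      exact y'.2
    · intro y hy y' hy'
      obtain ⟨u, hu, rfl⟩ := List.mem_map.1 hy
      obtain ⟨u', hu', rfl⟩ := List.mem_map.1 hy'
      exact hl.2.1 u hu u' hu'
  have hb1 : bd (mp g z) = 0 := by rw [bd_mp, hb, map_zero]
  obtain ⟨W', hW', hbW'⟩ := tower hk i e (x : ι → ℝ) _ _ (mp g z) _ hz1 hb1 hW hbW
  have hR : (0 : ℝ) ≤ max (δ + (1 / 3 : ℝ) ^ i / 2)
      (δ + (1 / 3 : ℝ) ^ (i + e) / 2 + 2 * (1 / 3 : ℝ) ^ i) :=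
    le_trans (by positivity) (le_max_left _ _)
  obtain ⟨w, hw, hbw⟩ := menger_fin x δ _ ((1 / 3 : ℝ) ^ (i + e) / 6) hR le_rfl z hz hb W' hW' hbW'
  refine ⟨w, SP_mono ?_ hw, hbw⟩
  intro l hl
  refine ⟨hl.1, ?_, ?_⟩
  · intro y hy y' hy'
    have := hl.2.1 y hy y' hy'
    linarith
  · intro y hy
    refine lt_of_le_of_lt (hl.2.2 y hy) ?_
    rw [max_lt_iff, max_lt_iff]
    refine ⟨⟨?_, ?_⟩, ?_⟩
    · linarith
    · linarith
    · linarith

end AGV
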