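import Pool.Agent.AGV.Lst
import Pool.Agent.AGV.LstS

/-!
# AGV-Trf: Vietoris acyclicity does not depend on the metric

Let `e : X ≃ X'` be uniformly continuous in both directions. `VC X' k`: given `η'` choose `η` with `dist x y < η → dist (e x) (e y) < η'`, `μ` from `VC X k`, `μ'` with `dist x' y' < μ' → dist (e.symm x') (e.symm y') < μ`; for a cycle `z'` take `w` for `mp e.symm z'` and `w' = mp e w` (`bd_mp`, `mp_mp`, `mp_id`, `mp_mem`).
The same for `VLC` (with `ε`, `δ` transported in the same way).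
-/

set_option autoImplicit false

namespace AGV

variable {X X' : Type} [PseudoMetricSpace X] [PseudoMetricSpace X']

private theorem msh_map {Y Y' : Type} [PseudoMetricSpace Y] [PseudoMetricSpace Y'] {f : Y → Y'} {a b : ℝ}
    (h : ∀ ⦃x y : Y⦄, dist x y < a → dist (f x) (f y) < b) {l : List Y} (hl : Msh a l) :
    Msh b (l.map f) := by
  intro x hx y hy
  obtain ⟨x', hx', rfl⟩ := List.mem_map.1 hx
  obtain ⟨y', hy', rfl⟩ := List.mem_map.1 hy
  exact h (hl x' hx' y' hy')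

omit [PseudoMetricSpace X] [PseudoMetricSpace X'] in
private theorem mp_symm (e : X ≃ X') (z : Ch X') : mp e (mp e.symm z) = z := by
  rw [mp_mp, Equiv.self_comp_symm, mp_id]

theorem VC_transfer (e : X ≃ X') (he : UniformContinuous e) (he' : UniformContinuous e.symm) {k : ℕ} (h : VC X k) :
    VC X' k := by
  intro η' hη'
  obtain ⟨η, hη, h1⟩ := Metric.uniformContinuous_iff.1 he η' hη'
  obtain ⟨μ, hμ, h2⟩ := h η hη
  obtain ⟨μ', hμ', h3⟩ := Metric.uniformContinuous_iff.1 he' μ hμ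
  refine ⟨μ', hμ', fun z hz hz0 => ?_⟩
  obtain ⟨w, hw, hwz⟩ := h2 (mp e.symm z)
    (mp_mem e.symm (fun l hl => ⟨by rw [List.length_map]; exact hl.1, msh_map h3 hl.2⟩) hz)
    (by rw [bd_mp, hz0, map_zero])
  refine ⟨mp e w, mp_mem e (fun l hl => ⟨by rw [List.length_map]; exact hl.1, msh_map h1 hl.2⟩) hw, ?_⟩
  rw [bd_mp, hwz, mp_symm]

theorem VLC_transfer (e : X ≃ X') (he : UniformContinuous e) (he' : UniformContinuous e.symm) {k : ℕ} (h : VLC X k) :
    VLC X' k := by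
  intro ε' hε'
  obtain ⟨ε, hε, h1⟩ := Metric.uniformContinuous_iff.1 he ε' hε'
  obtain ⟨δ, hδ, h2⟩ := h ε hε
  obtain ⟨δ', hδ', h3⟩ := Metric.uniformContinuous_iff.1 he' δ hδ
  refine ⟨δ', hδ', fun η' hη' => ?_⟩
  obtain ⟨η, hη, h4⟩ := Metric.uniformContinuous_iff.1 he η' hη'
  obtain ⟨μ, hμ, h5⟩ := h2 η hη
  obtain ⟨μ', hμ', h6⟩ := Metric.uniformContinuous_iff.1 he' μ hμ
  refine ⟨μ', hμ', fun x z hz hz0 => ?_⟩
  obtain ⟨w, hw, hwz⟩ := h5 (e.symm x) (mp e.symm z)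
    (mp_mem e.symm (fun l hl => ⟨by rw [List.length_map]; exact hl.1, msh_map h6 hl.2.1, fun y hy => by
      obtain ⟨y', hy', rfl⟩ := List.mem_map.1 hy
      exact h3 (hl.2.2 y' hy')⟩) hz)
    (by rw [bd_mp, hz0, map_zero])
  refine ⟨mp e w, mp_mem e (fun l hl => ⟨by rw [List.length_map]; exact hl.1, msh_map h4 hl.2.1,
    fun y hy => ?_⟩) hw, ?_⟩
  · rw [bd_mp, hwz, mp_symm]
  · obtain ⟨y', hy', rfl⟩ := List.mem_map.1 hy
    have h7 := h1 (hl.2.2 y' hy')
    rwa [Equiv.apply_symm_apply] at h7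

end AGV
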