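import Pool.Agent.AGV.Defs
import Pool.Agent.Helper87.AG.Defs
import Pool.Agent.Helper87.AG.Conn

/-!
# AGV-MgDim: the covering dimension of the Menger compactum is at most `κ`

Let `U` be a finite open cover of the compact metric space `Menger ι κ` (`menger_isCompact`, distance of the supremum norm) with Lebesgue number `λ`; choose `J` with `3 ^ (-J) < λ`. For `x` in it put `t i = 3 ^ J * x i ∈ [0, 3 ^ J]` and `h i = |fract (t i) - 1/2|`. By definition at most `κ` indices have `h i < 1/6`.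
Put `β s = (s + 1) / (6 (κ + 2))` for `s ≤ κ + 1` (so `0 < β s ≤ 1/6`, increasing), `D s x = {i | h i < β s}`, `n s = |D s x| ≤ κ`. Let `s` be maximal with `n s ≥ s` (`s = 0` qualifies, `s = κ + 1` does not); then `n (s + 1) ≤ s ≤ n s ≤ n (s + 1)`, so `D s x = D (s + 1) x =: D` has exactly `s ≤ κ` elements, and `h i < β s` for
`i ∈ D`, `h i ≥ β (s + 1) > β s` for `i ∉ D`. For `s ≤ κ`, a set `D` of `s` indices and `b : ι → ℤ` (each `b i` in the finite set `[0, 3 ^ J]`) let `P s D b` be the set of all `x` with `h i < β s` and `⌊t i⌋ = b i` for `i ∈ D`, and `h i > β s` and `round (t i) = b i` for `i ∉ D`. These sets are open (near a point with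
`h < 1/2` the floor is locally constant, near a point with `h > 0` the rounded value is) and cover. For fixed `s` they are pairwise disjoint (if `D ≠ D'` have both `s` elements, some `i ∈ D \ D'` has `h i < β s < h i`). So at most `κ + 1` of them contain a given point. Any two points of `P s D b` have `|t i - t' i| ≤ 1` for all `i`, so the
distance is at most `3 ^ (-J) < λ` and `P s D b` is contained in one of the sets of the cover (or empty; the empty ones may be discarded or put into any set of the cover; if the cover has no sets the space is empty).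
-/

set_option autoImplicit false

namespace AGV

open Pool.Agent.Helper87.AG

private theorem half_far (m n : ℕ) : (1 : ℝ) / 2 ≤ |((m : ℝ) + 1 / 2) - n| := by
  have h : ((m : ℝ) + 1 / 2) - n = (((2 * (m : ℤ) + 1 - 2 * n : ℤ) : ℝ)) / 2 := by
    push_cast
    ring
  rw [h, abs_div, abs_two]
  have h1 : (1 : ℤ) ≤ |2 * (m : ℤ) + 1 - 2 * n| := by
    apply Int.one_le_abs
    omega
  have h2 : (1 : ℝ) ≤ |((2 * (m : ℤ) + 1 - 2 * n : ℤ) : ℝ)| := by
    rw [← Int.cast_abs]
    exact_mod_cast h1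
  linarith

private theorem nat_close (m n : ℕ) (h : |(m : ℝ) - n| < 1) : m = n := by
  have h1 : |(m : ℤ) - n| < 1 := by
    have : ((|(m : ℤ) - n| : ℤ) : ℝ) < 1 := by
      push_cast
      exact h
    exact_mod_cast this
  have h2 := Int.abs_lt_one_iff.mp h1
  omega

private theorem pigeon (κ : ℕ) (n : ℕ → ℕ) (hm : ∀ s, n s ≤ n (s + 1)) (hk : n (κ + 1) ≤ κ) :
    ∃ s ≤ κ, n s = s ∧ n (s + 1) = s := by
  classical
  have hex : ∃ s, n (s + 1) ≤ s := ⟨κ, hk⟩
  refine ⟨Nat.find hex, Nat.find_min' hex hk, ?_⟩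
  have h1 := Nat.find_spec hex
  have h2 : Nat.find hex ≤ n (Nat.find hex) := by
    rcases Nat.eq_zero_or_pos (Nat.find hex) with h0 | hpos
    · omega
    · have h3 := Nat.find_min hex (m := Nat.find hex - 1) (by omega)
      have h4 : Nat.find hex - 1 + 1 = Nat.find hex := by omega
      rw [h4] at h3
      omega
  have h3 := hm (Nat.find hex)
  omega

/-- the width of the strips -/
private noncomputable def bt (κ s : ℕ) : ℝ := ((s : ℝ) + 1) / (6 * ((κ : ℝ) + 2))

private theorem bt_pos (κ s : ℕ) : 0 < bt κ s := by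
  unfold bt
  positivity

private theorem bt_lt (κ s : ℕ) : bt κ s < bt κ (s + 1) := by
  unfold bt
  apply div_lt_div_of_pos_right _ (by positivity)
  push_cast
  linarith

private theorem bt_mono (κ : ℕ) {s t : ℕ} (h : s ≤ t) : bt κ s ≤ bt κ t := by
  unfold bt
  apply div_le_div_of_nonneg_right _ (by positivity)
  have : (s : ℝ) ≤ t := by exact_mod_cast h
  linarith

private theorem bt_top (κ : ℕ) : bt κ (κ + 1) = 1 / 6 := by
  unfold bt
  push_cast
  have : (κ : ℝ) + 2 ≠ 0 := by positivity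
  field_simp
  ring

private theorem near_half (t : ℝ) (ht : 0 ≤ t) (β : ℝ) (h : |Int.fract t - 1 / 2| < β) :
    |t - ((⌊t⌋₊ : ℕ) + 1 / 2)| < β := by
  have h1 : Int.fract t = t - (⌊t⌋₊ : ℕ) := by
    rw [Int.fract, ← natCast_floor_eq_intCast_floor ht]
  rw [h1] at h
  have h2 : t - ((⌊t⌋₊ : ℕ) + 1 / 2) = t - (⌊t⌋₊ : ℕ) - 1 / 2 := by ring
  rw [h2]
  exact h

private theorem near_int (t : ℝ) (ht : 0 ≤ t) (β : ℝ) (h : β < |Int.fract t - 1 / 2|) :
    ∃ m : ℕ, m ≤ ⌊t⌋₊ + 1 ∧ |t - (m : ℝ)| < 1 / 2 - β := by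
  have h1 : Int.fract t = t - (⌊t⌋₊ : ℕ) := by
    rw [Int.fract, ← natCast_floor_eq_intCast_floor ht]
  have h0 := Int.fract_nonneg t
  have h2 := Int.fract_lt_one t
  rcases lt_or_ge (Int.fract t) (1 / 2) with h3 | h3
  · refine ⟨⌊t⌋₊, by omega, ?_⟩
    rw [abs_of_nonpos (by linarith)] at h
    rw [← h1, abs_of_nonneg h0]
    linarith
  · refine ⟨⌊t⌋₊ + 1, le_refl _, ?_⟩
    rw [abs_of_nonneg (by linarith)] at h
    have h4 : t - ((⌊t⌋₊ + 1 : ℕ) : ℝ) = Int.fract t - 1 := by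
      rw [h1]
      push_cast
      ring
    rw [h4, abs_of_nonpos (by linarith)]
    linarith

private theorem mid_iff (t : ℝ) : (1 / 3 < Int.fract t ∧ Int.fract t < 2 / 3) ↔ |Int.fract t - 1 / 2| < 1 / 6 := by
  rw [abs_lt]
  constructor
  · rintro ⟨h1, h2⟩
    constructor <;> linarith
  · rintro ⟨h1, h2⟩
    constructor <;> linarith

/-- the sets of the refinement -/
private def PP {ι : Type} [Fintype ι] (κ : ℕ) (J : ℕ) (q : Finset ι × (ι → Fin (3 ^ J + 2))) :
    Set (Menger ι κ) :=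
  {x | q.1.card ≤ κ ∧ ∀ i, (i ∈ q.1 → |(3 : ℝ) ^ J * x.1 i - (((q.2 i : ℕ) : ℝ) + 1 / 2)| < bt κ q.1.card) ∧
    (i ∉ q.1 → |(3 : ℝ) ^ J * x.1 i - ((q.2 i : ℕ) : ℝ)| < 1 / 2 - bt κ q.1.card)}

private theorem PP_open {ι : Type} [Fintype ι] [DecidableEq ι] (κ : ℕ) (J : ℕ)
    (q : Finset ι × (ι → Fin (3 ^ J + 2))) : IsOpen (PP κ J q) := by
  by_cases hq : q.1.card ≤ κ
  · have h : PP κ J q = ⋂ i, {x : Menger ι κ |
        (i ∈ q.1 → |(3 : ℝ) ^ J * x.1 i - (((q.2 i : ℕ) : ℝ) + 1 / 2)| < bt κ q.1.card) ∧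
        (i ∉ q.1 → |(3 : ℝ) ^ J * x.1 i - ((q.2 i : ℕ) : ℝ)| < 1 / 2 - bt κ q.1.card)} := by
      ext x
      simp only [PP, Set.mem_ofPred_eq, Set.mem_iInter, hq, true_and]
    rw [h]
    refine isOpen_iInter_of_finite fun i => ?_
    by_cases hi : i ∈ q.1
    · have h2 : {x : Menger ι κ |
          (i ∈ q.1 → |(3 : ℝ) ^ J * x.1 i - (((q.2 i : ℕ) : ℝ) + 1 / 2)| < bt κ q.1.card) ∧
          (i ∉ q.1 → |(3 : ℝ) ^ J * x.1 i - ((q.2 i : ℕ) : ℝ)| < 1 / 2 - bt κ q.1.card)} =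
          {x : Menger ι κ | |(3 : ℝ) ^ J * x.1 i - (((q.2 i : ℕ) : ℝ) + 1 / 2)| < bt κ q.1.card} := by
        ext x
        simp [hi]
      rw [h2]
      have hc : Continuous fun x : Menger ι κ => x.1 i := (continuous_apply i).comp continuous_subtype_val
      exact isOpen_lt (((continuous_const.mul hc).sub continuous_const).abs) continuous_const
    · have h2 : {x : Menger ι κ |
          (i ∈ q.1 → |(3 : ℝ) ^ J * x.1 i - (((q.2 i : ℕ) : ℝ) + 1 / 2)| < bt κ q.1.card) ∧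
          (i ∉ q.1 → |(3 : ℝ) ^ J * x.1 i - ((q.2 i : ℕ) : ℝ)| < 1 / 2 - bt κ q.1.card)} =
          {x : Menger ι κ | |(3 : ℝ) ^ J * x.1 i - ((q.2 i : ℕ) : ℝ)| < 1 / 2 - bt κ q.1.card} := by
        ext x
        simp [hi]
      rw [h2]
      have hc : Continuous fun x : Menger ι κ => x.1 i := (continuous_apply i).comp continuous_subtype_val
      exact isOpen_lt (((continuous_const.mul hc).sub continuous_const).abs) continuous_const
  · have h : PP κ J q = ∅ := by
      ext x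
      simp [PP, hq]
    rw [h]
    exact isOpen_empty

private theorem PP_cover {ι : Type} [Fintype ι] [DecidableEq ι] (κ : ℕ) (J : ℕ) (x : Menger ι κ) :
    ∃ q, x ∈ PP κ J q := by
  classical
  have hx := x.2
  obtain ⟨hI, hmid⟩ := hx
  have ht0 : ∀ i, 0 ≤ (3 : ℝ) ^ J * x.1 i := fun i => mul_nonneg (by positivity) (hI i).1
  have ht1 : ∀ i, (3 : ℝ) ^ J * x.1 i ≤ ((3 ^ J : ℕ) : ℝ) := fun i => by
    push_cast
    exact mul_le_of_le_one_right (by positivity) (hI i).2
  have hfl : ∀ i, ⌊(3 : ℝ) ^ J * x.1 i⌋₊ ≤ 3 ^ J := fun i => by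
    have := Nat.floor_le_floor (ht1 i)
    rwa [Nat.floor_natCast] at this
  set D : ℕ → Finset ι := fun s =>
    Finset.univ.filter fun i => |Int.fract ((3 : ℝ) ^ J * x.1 i) - 1 / 2| < bt κ s with hD
  have hmono : ∀ s, D s ⊆ D (s + 1) := by
    intro s i hi
    simp only [hD, Finset.mem_filter, Finset.mem_univ, true_and] at hi ⊢
    exact hi.trans (bt_lt κ s)
  have htop : (D (κ + 1)).card ≤ κ := by
    have h1 := hmid J
    have h2 : {i | 1 / 3 < Int.fract ((3 : ℝ) ^ J * x.1 i) ∧ Int.fract ((3 : ℝ) ^ J * x.1 i) < 2 / 3}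
        = ((D (κ + 1) : Finset ι) : Set ι) := by
      ext i
      simp only [hD, Set.mem_ofPred_eq, Finset.coe_filter, Finset.mem_univ, true_and]
      rw [mid_iff, bt_top]
    rw [h2, Set.ncard_coe_finset] at h1
    exact h1
  obtain ⟨s, hs, h1, h2⟩ := pigeon κ (fun s => (D s).card) (fun s => Finset.card_le_card (hmono s)) htop
  have heq : D s = D (s + 1) := Finset.eq_of_subset_of_card_le (hmono s) (by omega)
  have hout : ∀ i, i ∉ D s → bt κ s < |Int.fract ((3 : ℝ) ^ J * x.1 i) - 1 / 2| := by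
    intro i hi
    rw [heq] at hi
    simp only [hD, Finset.mem_filter, Finset.mem_univ, true_and, not_lt] at hi
    exact (bt_lt κ s).trans_le hi
  choose m hm1 hm2 using fun (i : {i // i ∉ D s}) =>
    near_int ((3 : ℝ) ^ J * x.1 i.1) (ht0 i.1) (bt κ s) (hout i.1 i.2)
  refine ⟨(D s, fun i => if hi : i ∈ D s then ⟨⌊(3 : ℝ) ^ J * x.1 i⌋₊, by have := hfl i; omega⟩
    else ⟨m ⟨i, hi⟩, by have := hfl i; have := hm1 ⟨i, hi⟩; simp only at this; omega⟩), ?_⟩
  refine ⟨by simp only; omega, fun i => ⟨fun hi => ?_, fun hi => ?_⟩⟩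
  · simp only at hi ⊢
    rw [h1]
    simp only [hi, dite_true]
    apply near_half _ (ht0 i)
    simp only [hD, Finset.mem_filter, Finset.mem_univ, true_and] at hi
    exact hi
  · simp only at hi ⊢
    rw [h1]
    simp only [hi, dite_false]
    exact hm2 ⟨i, hi⟩

private theorem PP_inj {ι : Type} [Fintype ι] [DecidableEq ι] (κ : ℕ) (J : ℕ) (x : Menger ι κ)
    (q q' : Finset ι × (ι → Fin (3 ^ J + 2))) (hq : x ∈ PP κ J q) (hq' : x ∈ PP κ J q')
    (hc : q.1.card = q'.1.card) : q = q' := by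
  obtain ⟨h1, h2⟩ := hq
  obtain ⟨h1', h2'⟩ := hq'
  have hbt : bt κ q.1.card ≤ 1 / 6 := by
    rw [← bt_top κ]
    exact bt_mono κ (by omega)
  have hpos := bt_pos κ q.1.card
  have hsub : q.1 ⊆ q'.1 := by
    intro i hi
    by_contra hi'
    have a1 := (h2 i).1 hi
    have a2 := (h2' i).2 hi'
    rw [← hc] at a2
    have a3 := half_far (q.2 i : ℕ) (q'.2 i : ℕ)
    rw [abs_lt] at a1 a2
    rcases abs_cases ((((q.2 i : ℕ) : ℝ) + 1 / 2) - ((q'.2 i : ℕ) : ℝ)) with a4 | a4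
    · rw [a4.1] at a3
      linarith [a1.1, a1.2, a2.1, a2.2]
    · rw [a4.1] at a3
      linarith [a1.1, a1.2, a2.1, a2.2]
  have h1e : q.1 = q'.1 := Finset.eq_of_subset_of_card_le hsub (by omega)
  refine Prod.ext h1e ?_
  funext i
  apply Fin.ext
  apply nat_close
  by_cases hi : i ∈ q.1
  · have a1 := (h2 i).1 hi
    have a2 := (h2' i).1 (h1e ▸ hi)
    rw [← hc] at a2
    rw [abs_lt] at a1 a2 ⊢
    constructor <;> linarith [a1.1, a1.2, a2.1, a2.2]
  · have a1 := (h2 i).2 hi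
    have a2 := (h2' i).2 (h1e ▸ hi)
    rw [← hc] at a2
    rw [abs_lt] at a1 a2 ⊢
    constructor <;> linarith [a1.1, a1.2, a2.1, a2.2]

private theorem PP_small {ι : Type} [Fintype ι] [DecidableEq ι] (κ : ℕ) (J : ℕ) (x y : Menger ι κ)
    (q : Finset ι × (ι → Fin (3 ^ J + 2))) (hx : x ∈ PP κ J q) (hy : y ∈ PP κ J q) (δ : ℝ) (hδ : 0 < δ)
    (hJ : (1 / 3 : ℝ) ^ J < δ) : dist y x < δ := by
  obtain ⟨h1, h2⟩ := hx
  obtain ⟨h1', h2'⟩ := hy
  have hbt : bt κ q.1.card ≤ 1 / 6 := by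
    rw [← bt_top κ]
    exact bt_mono κ (by omega)
  have hpos := bt_pos κ q.1.card
  rw [Subtype.dist_eq, dist_pi_lt_iff hδ]
  intro i
  have h3 : |(3 : ℝ) ^ J * y.1 i - (3 : ℝ) ^ J * x.1 i| ≤ 1 := by
    by_cases hi : i ∈ q.1
    · have a1 := (h2 i).1 hi
      have a2 := (h2' i).1 hi
      rw [abs_lt] at a1 a2
      rw [abs_le]
      constructor <;> linarith [a1.1, a1.2, a2.1, a2.2]
    · have a1 := (h2 i).2 hi
      have a2 := (h2' i).2 hi
      rw [abs_lt] at a1 a2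
      rw [abs_le]
      constructor <;> linarith [a1.1, a1.2, a2.1, a2.2]
  rw [← mul_sub, abs_mul, abs_of_pos (by positivity : (0 : ℝ) < 3 ^ J)] at h3
  rw [Real.dist_eq]
  have h4 : |y.1 i - x.1 i| ≤ (1 / 3 : ℝ) ^ J := by
    rw [one_div, inv_pow, ← one_div, le_div_iff₀ (by positivity)]
    linarith [mul_comm ((3 : ℝ) ^ J) |y.1 i - x.1 i|]
  exact h4.trans_lt hJ

theorem menger_dim {ι : Type} [Fintype ι] [DecidableEq ι] (κ : ℕ) : CovDimLE (Menger ι κ) κ := by
  classical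
  intro I _ U hU hcov
  have : CompactSpace (Menger ι κ) := isCompact_iff_compactSpace.mp (menger_isCompact κ)
  obtain ⟨δ, hδ, hL⟩ := lebesgue_number_lemma_of_metric (isCompact_univ (X := Menger ι κ)) hU
    (by rw [hcov])
  obtain ⟨J, hJ⟩ := exists_pow_lt_of_lt_one hδ (by norm_num : (1 / 3 : ℝ) < 1)
  refine ⟨Finset ι × (ι → Fin (3 ^ J + 2)), inferInstance, PP κ J, PP_open κ J, ?_, ?_, ?_⟩
  · rw [Set.eq_univ_iff_forall]
    intro x
    rw [Set.mem_iUnion]
    exact PP_cover κ J x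
  · intro q
    rcases Set.eq_empty_or_nonempty (PP κ J q) with h | ⟨x, hx⟩
    · let z : Menger ι κ := ⟨fun _ => 0, vertex_mem fun i => Or.inl rfl⟩
      obtain ⟨i, -⟩ := hL z (Set.mem_univ _)
      exact ⟨i, by rw [h]; exact Set.empty_subset _⟩
    · obtain ⟨i, hi⟩ := hL x (Set.mem_univ _)
      refine ⟨i, fun y hy => hi ?_⟩
      rw [Metric.mem_ball]
      exact PP_small κ J x y q hx hy δ hδ hJ
  · intro x
    have h1 : Set.MapsTo (fun q : Finset ι × (ι → Fin (3 ^ J + 2)) => q.1.card) {q | x ∈ PP κ J q}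
        ((Finset.range (κ + 1) : Finset ℕ) : Set ℕ) := by
      intro q hq
      have := hq.1
      simp only [Finset.coe_range, Set.mem_Iio]
      omega
    have h2 := Set.ncard_le_ncard_of_injOn _ h1 (fun q hq q' hq' h => PP_inj κ J x q q' hq hq' h)
      (Finset.finite_toSet _)
    rw [Set.ncard_coe_finset, Finset.card_range] at h2
    exact h2

end AGV
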