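import Mathlib

/-!
# AGV-GrA: small open subgroups of a compact totally disconnected group acting on a compact metric space

`small_open`: the set of the `k : G` that move every point of `X` by less than `ε` is a neighbourhood
of `1` (tube lemma), so it contains an open normal subgroup, which may be chosen to avoid a given
`g ≠ 1`. `pow_mem_open`: open subgroups have finite index, so they contain a power of `g`.
-/

set_option autoImplicit false

namespace AGV

variable {G : Type} [Group G] [TopologicalSpace G] [IsTopologicalGroup G] [CompactSpace G]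

theorem small_open [TotallyDisconnectedSpace G] {X : Type} [MetricSpace X] [CompactSpace X] [MulAction G X]
    [ContinuousSMul G X] {ε : ℝ} (hε : 0 < ε) {g : G} (hg : g ≠ 1) :
    ∃ K : Subgroup G, K.Normal ∧ IsOpen (K : Set G) ∧ g ∉ K ∧ ∀ k ∈ K, ∀ x : X, dist (k • x) x < ε := by
  have hopen : IsOpen {p : G × X | dist (p.1 • p.2) p.2 < ε} :=
    isOpen_lt ((continuous_fst.smul continuous_snd).dist continuous_snd) continuous_const
  have hsub : ({1} : Set G) ×ˢ (Set.univ : Set X) ⊆ {p : G × X | dist (p.1 • p.2) p.2 < ε} := by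
    rintro ⟨a, x⟩ ⟨ha, -⟩
    have ha' : a = 1 := ha
    subst ha'
    change dist ((1 : G) • x) x < ε
    rw [one_smul, dist_self]
    exact hε
  obtain ⟨u, v, hu, -, hu1, hv, huv⟩ :=
    generalized_tube_lemma isCompact_singleton isCompact_univ hopen hsub
  have h1 : (1 : G) ∈ u ∩ {g}ᶜ := ⟨hu1 rfl, fun h => hg (by simpa using h.symm)⟩
  obtain ⟨H, hH⟩ := ProfiniteGrp.exist_openNormalSubgroup_sub_open_nhds_of_one
    (hu.inter isOpen_compl_singleton) h1
  refine ⟨H.toSubgroup, H.isNormal', H.isOpen', ?_, ?_⟩
  · intro h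
    exact (hH h).2 rfl
  · intro k hk x
    exact huv (Set.mk_mem_prod (hH hk).1 (hv (Set.mem_univ x)))

theorem pow_mem_open (K : Subgroup G) (hK : IsOpen (K : Set G)) (g : G) : ∃ n : ℕ, 0 < n ∧ g ^ n ∈ K := by
  have : Finite (G ⧸ K) := K.quotient_finite_of_isOpen hK
  obtain ⟨n, h1, -, h2⟩ := Subgroup.exists_pow_mem_of_index_ne_zero
    (Subgroup.finiteIndex_of_finite_quotient (H := K)).index_ne_zero g
  exact ⟨n, h1, h2⟩

end AGV
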