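import Pool.Agent.AGV.Lst
import Pool.Agent.AGV.LstS

/-!
# AGV-Pth: chains of small steps in preconnected sets

For fixed `x ∈ O` the set of the `y ∈ O` that can be reached from `x` by a chain `c` as in the statement is relatively open and its complement in `O` is relatively open (if `dist y y' < μ`, `y, y' ∈ O`, add the step `[y, y']`, `bd (single [y, y'] 1) = single [y'] 1 - single [y] 1`), and contains `x` (`c = 0`).
`O` is preconnected (e.g. `isPreconnected_iff_subset_of_disjoint` with the open sets `⋃_{y reachable} ball y μ`, `⋃_{y not reachable} ball y μ`, which may be taken with radius `μ / 2` to be disjoint on `O`), so all of `O` can be reached.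
-/

set_option autoImplicit false

namespace AGV

theorem exists_chain {X : Type} [PseudoMetricSpace X] {O : Set X} (hO : IsPreconnected O) {μ : ℝ} (hμ : 0 < μ) {x y : X}
    (hx : x ∈ O) (hy : y ∈ O) :
    ∃ c ∈ SP (fun l : List X => l.length = 2 ∧ Msh μ l ∧ ∀ p ∈ l, p ∈ O),
      bd c = Finsupp.single [y] 1 - Finsupp.single [x] 1 := by
  refine IsPreconnected.induction₂ hO (fun x y => ∃ c ∈ SP (fun l : List X => l.length = 2 ∧
    Msh μ l ∧ ∀ p ∈ l, p ∈ O), bd c = Finsupp.single [y] 1 - Finsupp.single [x] 1) ?_ ?_ ?_ hx hy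
  · intro x hx
    filter_upwards [mem_nhdsWithin_of_mem_nhds (Metric.ball_mem_nhds x hμ),
      self_mem_nhdsWithin] with y hy hyO
    have hxy : dist y x < μ := hy
    have hxy' : dist x y < μ := by rwa [dist_comm]
    have hmsh : Msh μ [x, y] := by
      intro u hu v hv
      rw [List.mem_cons, List.mem_singleton] at hu hv
      rcases hu with rfl | rfl <;> rcases hv with rfl | rfl
      · rwa [dist_self]
      · exact hxy'
      · exact hxy
      · rwa [dist_self]
    have hin : ∀ p ∈ [x, y], p ∈ O := by
      intro u hu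
      rw [List.mem_cons, List.mem_singleton] at hu
      rcases hu with rfl | rfl
      · exact hx
      · exact hyO
    have hbd : bd (Finsupp.single [x, y] 1) = Finsupp.single [y] 1 - Finsupp.single [x] 1 := by
      rw [← cone_single, bd_cone, ← cone_single, bd_cone, bd_single, one_smul]
      have h0 : bdL ([] : List X) = 0 := rfl
      rw [h0, map_zero, sub_zero, cone_single, cone_single]
    exact ⟨Finsupp.single [x, y] 1, single_mem ⟨rfl, hmsh, hin⟩ 1, hbd⟩
  · rintro u v w - - - ⟨c, hc, hbc⟩ ⟨c', hc', hbc'⟩
    refine ⟨c + c', Submodule.add_mem _ hc hc', ?_⟩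
    rw [map_add, hbc, hbc']
    abel
  · rintro u v - - ⟨c, hc, hbc⟩
    refine ⟨-c, Submodule.neg_mem _ hc, ?_⟩
    rw [map_neg, hbc]
    abel

end AGV
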