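import Pool.Agent.AGV.T3
import Pool.Agent.AGV.MgV
import Pool.Agent.AGV.MgX
import Pool.Agent.AGV.MgDim
import Pool.Agent.Helper87.AG.Core
import Pool.Agent.Helper87.AG.Bdry
import Pool.Agent.Helper87.AG.Conn
import Pool.Agent.Helper87.AG.Lift

/-!
# AGV-FinT3: the theorem for Menger compacta, orbit dimension 3
-/

set_option autoImplicit false

namespace AGV

open Pool.Agent.Helper87.AG

theorem menger_three {m n : ℕ} (hm : 0 < m) (hn : 2 ≤ n) {G : Type} [Group G] [TopologicalSpace G]
    [IsTopologicalGroup G] [CompactSpace G] [TotallyDisconnectedSpace G] [Nontrivial G]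
    [MulAction G (Menger (Fin (2 * (m + n) + 1)) (m + n))] [MulAction G (Menger (Fin (2 * n + 1)) n)]
    [ContinuousSMul G (Menger (Fin (2 * (m + n) + 1)) (m + n))] [ContinuousSMul G (Menger (Fin (2 * n + 1)) n)]
    (hfree : ∀ (g : G) (y : Menger (Fin (2 * n + 1)) n), g • y = y → g = 1)
    (hd : CovDimLE (MulAction.orbitRel.Quotient G (Menger (Fin (2 * n + 1)) n)) 3) :
    ¬ ∃ f : Menger (Fin (2 * (m + n) + 1)) (m + n) → Menger (Fin (2 * n + 1)) n,
      Continuous f ∧ ∀ (g : G) (x : Menger (Fin (2 * (m + n) + 1)) (m + n)), f (g • x) = g • f x := by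
  have c1 : CompactSpace (Menger (Fin (2 * (m + n) + 1)) (m + n)) :=
    isCompact_iff_compactSpace.mp (menger_isCompact _)
  have c2 : CompactSpace (Menger (Fin (2 * n + 1)) n) :=
    isCompact_iff_compactSpace.mp (menger_isCompact _)
  have c3 : ConnectedSpace (Menger (Fin (2 * (m + n) + 1)) (m + n)) :=
    menger_connected (by omega)
  have c4 : LocallyConnectedSpace (Menger (Fin (2 * (m + n) + 1)) (m + n)) :=
    menger_locallyConnected (by omega)
  refine t3_main (menger_VC (by omega)) (menger_VC (by omega)) (menger_VC (by omega)) (menger_VLC (by omega))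
    (menger_VLC (by omega)) (menger_VLC (by omega)) ?_ hfree hd
  rcases Nat.lt_or_ge 2 n with h | h
  · exact Or.inl (menger_VC (by omega))
  · have hn2 : n = 2 := le_antisymm h hn
    subst hn2
    exact Or.inr (menger_dim 2)

end AGV
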