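import Pool.Agent.AGV.Defs

/-!
# AGV-Lst: identities for the boundary, induced maps and the prism operator

All operators are linear; `bd`, `mp f`, `pr f g` are given on `Finsupp.single l 1` by `bdL l`, `single (l.map f) 1`, `prL f g l`.
* `bd_cone`: linear in `z`; for `z = single l 1` it is the definition of `bdL (x :: l)`.
* `bd_bd`: it suffices to treat `single l c`; induction on `l`: `bd (bd (x :: l)) = bd l - bd (cone x (bd l)) = bd l - bd l + cone x (bd (bd l)) = 0`.
* `bd_mp`: induction on `l`, with `mp_cone`.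
* `pr_cone`: on `single l 1` it is the definition of `prL (x :: l)` (`cone (f x) (cone (g x) (single (l.map g) 1)) = single (f x :: g x :: l.map g) 1`).
* `bd_pr`: induction on `l`: with `P = pr f g`, `bd P (x :: l) = single (g x :: l.map g) - cone (f x) (bd (single (g x :: l.map g))) - P l + cone (f x) (bd (P l))` and
  `P (bd (x :: l)) = P l - cone (f x) (cone (g x) (mp g (bd l))) + cone (f x) (P (bd l))`; the sum is
  `single (g x :: l.map g) - cone (f x) (single (l.map g)) + cone (f x) (bd (P l) + P (bd l))`, and the last bracket is `mp g l - mp f l`.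
* `mp_pr`, `pr_mp`: induction on `l`.
Linear maps on `Ch X` that agree on `single l 1` are equal (`Finsupp.lhom_ext'` or `Finsupp.lhom_ext`); a convenient way is
`Finsupp.induction_linear` on `z`.
-/

set_option autoImplicit false

namespace AGV

variable {X Y Z : Type}

private theorem lst_ext {W : Type} [AddCommGroup W] (f g : Ch X →ₗ[ℤ] W)
    (h : ∀ l, f (Finsupp.single l 1) = g (Finsupp.single l 1)) (z : Ch X) : f z = g z := by
  have : f = g := Finsupp.lhom_ext' fun l => LinearMap.ext_ring (h l)
  rw [this]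

theorem bd_single (l : List X) (c : ℤ) : bd (Finsupp.single l c) = c • bdL l := by
  unfold bd
  rw [Finsupp.linearCombination_single]

theorem cone_single (x : X) (l : List X) (c : ℤ) : cone x (Finsupp.single l c) = Finsupp.single (x :: l) c := by
  unfold cone
  rw [Finsupp.lmapDomain_apply, Finsupp.mapDomain_single]

theorem mp_single (f : X → Y) (l : List X) (c : ℤ) : mp f (Finsupp.single l c) = Finsupp.single (l.map f) c := by
  unfold mp
  rw [Finsupp.lmapDomain_apply, Finsupp.mapDomain_single]

theorem pr_single (f g : X → Y) (l : List X) (c : ℤ) : pr f g (Finsupp.single l c) = c • prL f g l := by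
  unfold pr
  rw [Finsupp.linearCombination_single]

theorem bd_cone (x : X) (z : Ch X) : bd (cone x z) = z - cone x (bd z) := by
  refine lst_ext (bd ∘ₗ cone x) (LinearMap.id - cone x ∘ₗ bd) (fun l => ?_) z
  rw [LinearMap.comp_apply, LinearMap.sub_apply, LinearMap.comp_apply, cone_single, bd_single,
    bd_single, one_smul, one_smul, LinearMap.id_apply]
  rfl

theorem bd_bd (z : Ch X) : bd (bd z) = 0 := by
  refine lst_ext (bd ∘ₗ bd) (0 : Ch X →ₗ[ℤ] Ch X) (fun l => ?_) z
  rw [LinearMap.comp_apply, LinearMap.zero_apply]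
  induction l with
  | nil =>
    rw [bd_single, one_smul]
    show bd (0 : Ch X) = 0
    rw [map_zero]
  | cons x l ih =>
    rw [← cone_single, bd_cone, map_sub, bd_cone, ih, map_zero, sub_zero, sub_self]

theorem mp_cone (f : X → Y) (x : X) (z : Ch X) : mp f (cone x z) = cone (f x) (mp f z) := by
  refine lst_ext (mp f ∘ₗ cone x) (cone (f x) ∘ₗ mp f) (fun l => ?_) z
  rw [LinearMap.comp_apply, LinearMap.comp_apply, cone_single, mp_single, mp_single, cone_single,
    List.map_cons]

theorem bd_mp (f : X → Y) (z : Ch X) : bd (mp f z) = mp f (bd z) := by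
  refine lst_ext (bd ∘ₗ mp f) (mp f ∘ₗ bd) (fun l => ?_) z
  rw [LinearMap.comp_apply, LinearMap.comp_apply]
  induction l with
  | nil =>
    rw [mp_single, bd_single, bd_single, one_smul, one_smul]
    show (0 : Ch Y) = mp f (0 : Ch X)
    rw [map_zero]
  | cons x l ih =>
    rw [← cone_single, mp_cone, bd_cone, ih, bd_cone, map_sub, mp_cone]

theorem mp_mp (f : X → Y) (g : Y → Z) (z : Ch X) : mp g (mp f z) = mp (g ∘ f) z := by
  refine lst_ext (mp g ∘ₗ mp f) (mp (g ∘ f)) (fun l => ?_) z
  rw [LinearMap.comp_apply, mp_single, mp_single, mp_single, List.map_map]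

theorem mp_id (z : Ch X) : mp (id : X → X) z = z := by
  refine lst_ext (mp (id : X → X)) LinearMap.id (fun l => ?_) z
  rw [mp_single, List.map_id, LinearMap.id_apply]

theorem pr_cone (f g : X → Y) (x : X) (z : Ch X) :
    pr f g (cone x z) = cone (f x) (cone (g x) (mp g z)) - cone (f x) (pr f g z) := by
  refine lst_ext (pr f g ∘ₗ cone x)
    (cone (f x) ∘ₗ cone (g x) ∘ₗ mp g - cone (f x) ∘ₗ pr f g) (fun l => ?_) z
  rw [LinearMap.comp_apply, LinearMap.sub_apply, LinearMap.comp_apply, LinearMap.comp_apply,
    LinearMap.comp_apply, cone_single, pr_single, pr_single, one_smul, one_smul, mp_single,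
    cone_single, cone_single]
  rfl

theorem bd_pr (f g : X → Y) (z : Ch X) : bd (pr f g z) + pr f g (bd z) = mp g z - mp f z := by
  refine lst_ext (bd ∘ₗ pr f g + pr f g ∘ₗ bd) (mp g - mp f) (fun l => ?_) z
  rw [LinearMap.add_apply, LinearMap.sub_apply, LinearMap.comp_apply, LinearMap.comp_apply]
  induction l with
  | nil =>
    rw [pr_single, bd_single, mp_single, mp_single, one_smul, one_smul]
    show bd (0 : Ch Y) + pr f g (0 : Ch X) = _
    rw [map_zero, map_zero, add_zero, List.map_nil, List.map_nil, sub_self]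
  | cons x l ih =>
    rw [← cone_single, pr_cone, map_sub, bd_cone, bd_cone, bd_cone, bd_cone, map_sub,
      map_sub (pr f g), pr_cone, mp_cone, mp_cone, bd_mp]
    have h2 : bd (pr f g (Finsupp.single l 1)) =
        mp g (Finsupp.single l 1) - mp f (Finsupp.single l 1) - pr f g (bd (Finsupp.single l 1)) := by
      rw [← ih]
      abel
    rw [h2, map_sub, map_sub]
    abel

theorem mp_pr (f g : X → Y) (h : Y → Z) (z : Ch X) : mp h (pr f g z) = pr (h ∘ f) (h ∘ g) z := by
  refine lst_ext (mp h ∘ₗ pr f g) (pr (h ∘ f) (h ∘ g)) (fun l => ?_) z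
  rw [LinearMap.comp_apply]
  induction l with
  | nil =>
    rw [pr_single, pr_single, one_smul, one_smul]
    show mp h (0 : Ch Y) = (0 : Ch Z)
    rw [map_zero]
  | cons x l ih =>
    rw [← cone_single, pr_cone, map_sub, mp_cone, mp_cone, mp_cone, ih, mp_mp, pr_cone]
    rfl

theorem pr_mp (h : X → Y) (f g : Y → Z) (z : Ch X) : pr f g (mp h z) = pr (f ∘ h) (g ∘ h) z := by
  refine lst_ext (pr f g ∘ₗ mp h) (pr (f ∘ h) (g ∘ h)) (fun l => ?_) z
  rw [LinearMap.comp_apply]
  induction l with
  | nil =>
    rw [mp_single, pr_single, pr_single, one_smul, one_smul]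
    rfl
  | cons x l ih =>
    rw [← cone_single, mp_cone, pr_cone, ih, mp_mp, pr_cone]
    rfl

end AGV
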