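import Pool.Agent.AGV.Lst
import Pool.Agent.AGV.LstS

/-!
# AGV-GLL: the general filling lemma (acyclic carriers for chains of lists)

Linear maps on `Ch X` are determined by their values on the lists: for `g : List X → Ch Z` put `D = Finsupp.linearCombination ℤ g`, `D (single l 1) = g l`. Show by
induction on `m` (`m ≤ N + 1`): there is `g` with `g l = D0 (single l 1)` for `l.length < N0` and the two properties for all `l` with `Gl l`, `l.length < m` (where `D` is the linear extension of `g`).
`m ≤ N0`: take `g l = D0 (single l 1)` (then `D = D0`). Step `m ≥ N0`: put `g' l = g l` for `l.length ≠ m`, and for `l.length = m`, `Gl l` choose `g' l ∈ Cr l` with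
`bd (g' l) = y := u l + σ • D (bd l)`. Here `y ∈ Br l` by `hu`, `hface` (`bd (single l 1) = bdL l ∈ SP (…)`, `bdL_mem`, `lin_mem`), and `bd y = 0`: for the lists `l'` in the support of `bd l` (length
`m - 1`, sublists of `l`, so `Gl l'`) `bd (D l') = u l' + σ • D (bd l')`, so by linearity (`lin_eq`) `bd (D (bd l)) = u (bd l) + σ • D (bd (bd l)) = u (bd l)` and `bd y = bd (u l) + σ • u (bd l) = 0`. The extensions `D'` of `g'`
and `D` of `g` agree on chains of lists of length `≠ m`, in particular on `bd l` for `l.length ≤ m`.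
-/

set_option autoImplicit false

namespace AGV

variable {X Z : Type}

private theorem gll_bd_mem (l : List X) :
    bd (Finsupp.single l 1) ∈ SP (fun l' : List X => l'.Sublist l ∧ l'.length + 1 = l.length) := by
  rw [bd_single, one_smul]
  exact bdL_mem l

theorem fill (Gl : List X → Prop) (hGl : ∀ l l' : List X, l'.Sublist l → Gl l → Gl l') (N N0 : ℕ) (σ : ℤ)
    (u D0 : Ch X →ₗ[ℤ] Ch Z) (Cr Br : List X → Submodule ℤ (Ch Z))
    (hface : ∀ l, Gl l → N0 ≤ l.length → l.length ≤ N → ∀ l', l'.Sublist l → l'.length + 1 = l.length → Cr l' ≤ Br l)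
    (hu : ∀ l, Gl l → N0 ≤ l.length → l.length ≤ N → u (Finsupp.single l 1) ∈ Br l)
    (hcyc : ∀ l, Gl l → N0 ≤ l.length → l.length ≤ N →
      bd (u (Finsupp.single l 1)) + σ • u (bd (Finsupp.single l 1)) = 0)
    (hfill : ∀ l, Gl l → N0 ≤ l.length → l.length ≤ N → ∀ y ∈ Br l, bd y = 0 → ∃ w ∈ Cr l, bd w = y)
    (hD0 : ∀ l, Gl l → l.length < N0 → D0 (Finsupp.single l 1) ∈ Cr l ∧
      bd (D0 (Finsupp.single l 1)) = u (Finsupp.single l 1) + σ • D0 (bd (Finsupp.single l 1))) :
    ∃ D : Ch X →ₗ[ℤ] Ch Z, (∀ l, l.length < N0 → D (Finsupp.single l 1) = D0 (Finsupp.single l 1)) ∧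
      ∀ l, Gl l → l.length ≤ N → D (Finsupp.single l 1) ∈ Cr l ∧
        bd (D (Finsupp.single l 1)) = u (Finsupp.single l 1) + σ • D (bd (Finsupp.single l 1)) := by
  have key : ∀ m : ℕ, m ≤ N + 1 → ∃ D : Ch X →ₗ[ℤ] Ch Z,
      (∀ l, l.length < N0 → D (Finsupp.single l 1) = D0 (Finsupp.single l 1)) ∧
      ∀ l, Gl l → l.length < m → D (Finsupp.single l 1) ∈ Cr l ∧
        bd (D (Finsupp.single l 1)) = u (Finsupp.single l 1) + σ • D (bd (Finsupp.single l 1)) := by
    intro m
    induction m with
    | zero =>
      intro _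
      exact ⟨D0, fun _ _ => rfl, fun l _ hl => absurd hl (Nat.not_lt_zero _)⟩
    | succ m ih =>
      intro hm
      obtain ⟨D, hD1, hD2⟩ := ih (by omega)
      rcases Nat.lt_or_ge m N0 with hmN | hmN
      · refine ⟨D, hD1, fun l hGl hl => ?_⟩
        rcases Nat.lt_or_ge l.length m with h | h
        · exact hD2 l hGl h
        · have hlm : l.length < N0 := by omega
          have h2 : D (bd (Finsupp.single l 1)) = D0 (bd (Finsupp.single l 1)) :=
            lin_eq D D0 (fun l' hl' => hD1 l' (by have := hl'.2; omega)) (gll_bd_mem l)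
          rw [h2, hD1 l hlm]
          exact hD0 l hGl hlm
      · have step : ∀ l : List X, ∃ w : Ch Z, (Gl l ∧ l.length = m →
            w ∈ Cr l ∧ bd w = u (Finsupp.single l 1) + σ • D (bd (Finsupp.single l 1))) ∧
            (l.length ≠ m → w = D (Finsupp.single l 1)) := by
          intro l
          by_cases hl : Gl l ∧ l.length = m
          · obtain ⟨hGl', hlm⟩ := hl
            have hN0 : N0 ≤ l.length := by omega
            have hN : l.length ≤ N := by omega
            have h1 : D (bd (Finsupp.single l 1)) ∈ Br l := by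
              refine lin_mem D (Br l) (fun l' hl' => ?_) (gll_bd_mem l)
              exact hface l hGl' hN0 hN l' hl'.1 hl'.2
                (hD2 l' (hGl l l' hl'.1 hGl') (by have := hl'.2; omega)).1
            have h2 : bd (D (bd (Finsupp.single l 1))) = u (bd (Finsupp.single l 1)) := by
              have h3 := lin_eq (bd ∘ₗ D) (u + σ • (D ∘ₗ bd)) (fun l' hl' => ?_) (gll_bd_mem l)
              · rw [LinearMap.comp_apply, LinearMap.add_apply, LinearMap.smul_apply,
                  LinearMap.comp_apply, bd_bd, map_zero, smul_zero, add_zero] at h3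
                exact h3
              · rw [LinearMap.comp_apply, LinearMap.add_apply, LinearMap.smul_apply,
                  LinearMap.comp_apply]
                exact (hD2 l' (hGl l l' hl'.1 hGl') (by have := hl'.2; omega)).2
            obtain ⟨w, hw1, hw2⟩ := hfill l hGl' hN0 hN
              (u (Finsupp.single l 1) + σ • D (bd (Finsupp.single l 1)))
              (Submodule.add_mem _ (hu l hGl' hN0 hN) (Submodule.smul_mem _ _ h1)) (by
                rw [map_add, map_smul, h2]
                exact hcyc l hGl' hN0 hN)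
            exact ⟨w, fun _ => ⟨hw1, hw2⟩, fun h => absurd hlm h⟩
          · exact ⟨D (Finsupp.single l 1), fun h => absurd h hl, fun _ => rfl⟩
        choose g hg1 hg2 using step
        have hD' : ∀ l : List X, Finsupp.linearCombination ℤ g (Finsupp.single l (1 : ℤ)) = g l := by
          intro l
          rw [Finsupp.linearCombination_single, one_smul]
        have hne : ∀ l : List X, l.length ≠ m →
            Finsupp.linearCombination ℤ g (Finsupp.single l (1 : ℤ)) = D (Finsupp.single l 1) :=
          fun l hl => (hD' l).trans (hg2 l hl)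
        have hbd : ∀ l : List X, l.length < m + 1 →
            Finsupp.linearCombination ℤ g (bd (Finsupp.single l (1 : ℤ))) = D (bd (Finsupp.single l 1)) :=
          fun l hl => lin_eq (Finsupp.linearCombination ℤ g) D
            (fun l' hl' => hne l' (by have := hl'.2; omega)) (gll_bd_mem l)
        refine ⟨Finsupp.linearCombination ℤ g, fun l hl => ?_, fun l hGl' hl => ?_⟩
        · rw [hne l (by omega)]
          exact hD1 l hl
        · rw [hbd l hl]
          by_cases hlm : l.length = m
          · rw [hD' l]
            exact hg1 l ⟨hGl', hlm⟩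
          · rw [hne l hlm]
            exact hD2 l hGl' (by omega)
  obtain ⟨D, hD1, hD2⟩ := key (N + 1) le_rfl
  exact ⟨D, hD1, fun l hGl' hl => hD2 l hGl' (by omega)⟩

end AGV
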