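import Pool.Agent.AGV.Fd

/-!
# AGV-Phi: an equivariant weight

`φ σ = ∑ v ∈ σ.filter (fun v => ∀ w ∈ σ, v.2 ≤ w.2), v.1`. For good nonempty `σ` the filter is a single vertex `v₀` (the minimum of `Prod.snd` is attained, `Finset.exists_min_image`, and unique by
goodness), the filter for `σ.image sh` is `{sh v₀}`, and `(sh v₀).1 = v₀.1 + 1`.
-/

set_option autoImplicit false

namespace AGV

private lemma filter_singleton {M N : ℕ} (σ : Finset (Vx M N)) (hg : Good σ) (v0 : Vx M N)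
    (h0 : v0 ∈ σ) (hmin : ∀ w ∈ σ, v0.2 ≤ w.2)
    [DecidablePred fun v : Vx M N => ∀ w ∈ σ, v.2 ≤ w.2] :
    σ.filter (fun v => ∀ w ∈ σ, v.2 ≤ w.2) = {v0} := by
  ext v
  rw [Finset.mem_filter, Finset.mem_singleton]
  constructor
  · rintro ⟨hv, hv2⟩
    exact hg v hv v0 h0 (le_antisymm (hv2 v0 h0) (hmin v hv))
  · rintro rfl
    exact ⟨h0, hmin⟩

private lemma good_image_sh {M N : ℕ} (σ : Finset (Vx M N)) (hg : Good σ) :
    Good (σ.image sh) := by
  intro u hu w hw h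
  rw [Finset.mem_image] at hu hw
  obtain ⟨u', hu', rfl⟩ := hu
  obtain ⟨w', hw', rfl⟩ := hw
  rw [hg u' hu' w' hw' h]

theorem exists_phi (M N : ℕ) [NeZero M] : ∃ φ : Finset (Vx M N) → ZMod M,
    ∀ σ, Good σ → σ.Nonempty → φ (σ.image sh) = φ σ + 1 := by
  refine ⟨fun σ => ∑ v ∈ σ.filter (fun v => ∀ w ∈ σ, v.2 ≤ w.2), v.1, ?_⟩
  intro σ hg hne
  obtain ⟨v0, h0, hmin⟩ := Finset.exists_min_image σ (fun v => v.2) hne
  have h2 := filter_singleton (σ.image sh) (good_image_sh σ hg) (sh v0)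
    (Finset.mem_image_of_mem _ h0) (by
      intro w hw
      rw [Finset.mem_image] at hw
      obtain ⟨w', hw', rfl⟩ := hw
      exact hmin w' hw')
  show (∑ v ∈ (σ.image sh).filter (fun v => ∀ w ∈ σ.image sh, v.2 ≤ w.2), v.1) =
    (∑ v ∈ σ.filter (fun v => ∀ w ∈ σ, v.2 ≤ w.2), v.1) + 1
  rw [filter_singleton σ hg v0 h0 hmin, h2, Finset.sum_singleton, Finset.sum_singleton]
  rfl

end AGV
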