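import Pool.Agent.AGV.Pairs

/-!
# AGV-RR: linearity, invariance and vanishing of `rr`
-/

set_option autoImplicit false

namespace AGV

variable {M N : ℕ} [NeZero M]

omit [NeZero M] in
private theorem rr_img_img (t : ℕ) (S : Finset (Vx M N)) :
    (S.image (sh ^ t : Equiv.Perm (Vx M N))).image (sh ^ t : Equiv.Perm (Vx M N)).symm = S := by
  rw [Finset.image_image]
  have h : ((sh ^ t : Equiv.Perm (Vx M N)).symm : Vx M N → Vx M N) ∘ (sh ^ t : Equiv.Perm (Vx M N)) = id := by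
    funext x
    exact Equiv.symm_apply_apply _ x
  rw [h, Finset.image_id]

omit [NeZero M] in
private theorem rr_img_img' (t : ℕ) (S : Finset (Vx M N)) :
    (S.image (sh ^ t : Equiv.Perm (Vx M N)).symm).image (sh ^ t : Equiv.Perm (Vx M N)) = S := by
  rw [Finset.image_image]
  have h : ((sh ^ t : Equiv.Perm (Vx M N)) : Vx M N → Vx M N) ∘ (sh ^ t : Equiv.Perm (Vx M N)).symm = id := by
    funext x
    exact Equiv.apply_symm_apply _ x
  rw [h, Finset.image_id]

omit [NeZero M] in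
private theorem rr_phi_pow (φ : Finset (Vx M N) → ZMod M)
    (hφ : ∀ σ, Good σ → σ.Nonempty → φ (σ.image sh) = φ σ + 1) (t : ℕ) :
    ∀ σ, Good σ → σ.Nonempty → φ (σ.image (sh ^ t : Equiv.Perm (Vx M N))) = φ σ + t := by
  induction t with
  | zero =>
    intro σ _ _
    have h : ((sh ^ 0 : Equiv.Perm (Vx M N)) : Vx M N → Vx M N) = id := by
      rw [pow_zero]
      rfl
    rw [h, Finset.image_id, Nat.cast_zero, add_zero]
  | succ t ih =>
    intro σ hg hn
    have h1 : σ.image (sh ^ (t + 1) : Equiv.Perm (Vx M N)) =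
        (σ.image (sh ^ t : Equiv.Perm (Vx M N))).image sh := by
      rw [Finset.image_image, pow_succ', Equiv.Perm.coe_mul]
    have h2 : Good (σ.image (sh ^ t : Equiv.Perm (Vx M N))) := by
      rw [← good_image t, rr_img_img]
      exact hg
    rw [h1, hφ _ h2 (hn.image _), ih σ hg hn, Nat.cast_succ, add_assoc]

omit [NeZero M] in
private theorem rr_phi_symm (φ : Finset (Vx M N) → ZMod M)
    (hφ : ∀ σ, Good σ → σ.Nonempty → φ (σ.image sh) = φ σ + 1) (t : ℕ) (σ : Finset (Vx M N))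
    (hg : Good σ) (hn : σ.Nonempty) :
    φ (σ.image (sh ^ t : Equiv.Perm (Vx M N)).symm) + t = φ σ := by
  rw [← rr_phi_pow φ hφ t _ ((good_image t).2 hg) (hn.image _), rr_img_img']

theorem rr_congr {d : ℕ} (φ : Finset (Vx M N) → ZMod M) {θ θ' : Finset (Vx M N) → Finset (Vx M N) → ℤ}
    (h : ∀ σ, Good σ → σ.card = d → θ σ = θ' σ) : rr d φ θ = rr d φ θ' := by
  unfold rr
  refine Finset.sum_congr rfl fun τ hτ => ?_
  rw [mem_Gd] at hτ
  rw [h τ hτ.1 hτ.2]

theorem rr_sub {d : ℕ} (φ : Finset (Vx M N) → ZMod M) (θ θ' : Finset (Vx M N) → Finset (Vx M N) → ℤ) :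
    rr d φ (fun σ => θ σ - θ' σ) = rr d φ θ - rr d φ θ' := by
  unfold rr
  rw [← Finset.sum_sub_distrib]
  refine Finset.sum_congr rfl fun τ _ => ?_
  rw [← Finset.sum_sub_distrib]
  refine Finset.sum_congr rfl fun u _ => ?_
  by_cases hu : u ∈ τ
  · rw [if_pos hu, if_pos hu, if_pos hu, sub_zero]
  · rw [if_neg hu, if_neg hu, if_neg hu]
    show sg u τ * (θ τ (insert u τ) - θ' τ (insert u τ)) * _ = _
    ring

theorem rr_sum {d : ℕ} (φ : Finset (Vx M N) → ZMod M) {I : Type} (s : Finset I)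
    (θ : I → Finset (Vx M N) → Finset (Vx M N) → ℤ) :
    rr d φ (fun σ => ∑ i ∈ s, θ i σ) = ∑ i ∈ s, rr d φ (θ i) := by
  unfold rr
  symm
  rw [Finset.sum_comm]
  refine Finset.sum_congr rfl fun τ _ => ?_
  rw [Finset.sum_comm]
  refine Finset.sum_congr rfl fun u _ => ?_
  by_cases hu : u ∈ τ
  · rw [if_pos hu]
    exact Finset.sum_eq_zero fun i _ => if_pos hu
  · rw [if_neg hu]
    show _ = sg u τ * (∑ i ∈ s, θ i τ) (insert u τ) * _
    rw [Finset.sum_apply, Finset.mul_sum, Finset.sum_mul]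
    exact Finset.sum_congr rfl fun i _ => if_neg hu

theorem rr_image {d : ℕ} (hd : 1 ≤ d) (φ : Finset (Vx M N) → ZMod M)
    (hφ : ∀ σ, Good σ → σ.Nonempty → φ (σ.image sh) = φ σ + 1)
    (θ : Finset (Vx M N) → Finset (Vx M N) → ℤ)
    (hθ : ∀ σ, Good σ → σ.card = d → ∀ S, θ σ S ≠ 0 → Good S ∧ S.card = d + 1) (t : ℕ) :
    rr d φ (fun σ S => θ (σ.image (sh ^ t : Equiv.Perm (Vx M N)).symm) (S.image (sh ^ t : Equiv.Perm (Vx M N)).symm)) =
      rr d φ θ := by
  unfold rr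
  have key : ∀ τ ∈ Gd M N d, (∑ u : Vx M N, if u ∈ τ then (0 : ℤ) else
      sg u τ * θ (τ.image (sh ^ t : Equiv.Perm (Vx M N)).symm)
        ((insert u τ).image (sh ^ t : Equiv.Perm (Vx M N)).symm) * ((φ (insert u τ) - φ τ).val : ℤ)) =
      (fun τ' : Finset (Vx M N) => ∑ u : Vx M N, if u ∈ τ' then (0 : ℤ) else
        sg u τ' * θ τ' (insert u τ') * ((φ (insert u τ') - φ τ').val : ℤ))
        (τ.image (sh ^ t : Equiv.Perm (Vx M N)).symm) := by
    intro τ hτ
    rw [mem_Gd] at hτ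
    have hn : τ.Nonempty := Finset.card_pos.1 (by omega)
    dsimp only
    refine Eq.trans (Finset.sum_congr rfl fun u _ => ?_)
      (Equiv.sum_comp (sh ^ t : Equiv.Perm (Vx M N)).symm _)
    by_cases hu : u ∈ τ
    · rw [if_pos hu, if_pos (Finset.mem_image_of_mem _ hu)]
    · have hu2 : (sh ^ t : Equiv.Perm (Vx M N)).symm u ∉ τ.image (sh ^ t : Equiv.Perm (Vx M N)).symm := by
        intro h
        obtain ⟨w, hw, hwu⟩ := Finset.mem_image.1 h
        exact hu ((sh ^ t : Equiv.Perm (Vx M N)).symm.injective hwu ▸ hw)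
      rw [if_neg hu, if_neg hu2, sg_image, ← Finset.image_insert]
      by_cases hz : θ (τ.image (sh ^ t : Equiv.Perm (Vx M N)).symm)
          ((insert u τ).image (sh ^ t : Equiv.Perm (Vx M N)).symm) = 0
      · rw [hz]
        ring
      · have h1 := hθ _ ((good_image t).2 hτ.1) (by rw [card_image_sh, hτ.2]) _ hz
        have h2 : Good (insert u τ) := (good_image t).1 h1.1
        rw [← rr_phi_symm φ hφ t _ h2 (Finset.insert_nonempty _ _), ← rr_phi_symm φ hφ t _ hτ.1 hn,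
          add_sub_add_right_eq_sub]
  rw [Finset.sum_congr rfl key]
  refine Finset.sum_nbij' (fun τ => τ.image (sh ^ t : Equiv.Perm (Vx M N)).symm)
    (fun τ => τ.image (sh ^ t : Equiv.Perm (Vx M N))) ?_ ?_ ?_ ?_ ?_
  · intro τ hτ
    rw [mem_Gd] at hτ ⊢
    exact ⟨(good_image t).2 hτ.1, by rw [card_image_sh, hτ.2]⟩
  · intro τ hτ
    rw [mem_Gd] at hτ ⊢
    refine ⟨?_, ?_⟩
    · rw [← good_image t, rr_img_img]
      exact hτ.1
    · rw [Finset.card_image_of_injective _ (Equiv.injective _), hτ.2]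
  · intro τ _
    exact rr_img_img' t τ
  · intro τ _
    exact rr_img_img t τ
  · intro τ _
    rfl

theorem rr_zero {d : ℕ} (φ : Finset (Vx M N) → ZMod M) (δ e : Finset (Vx M N) → Finset (Vx M N) → ℤ)
    (h : ∀ σ, Good σ → σ.card = d → δ σ = - fd e σ)
    (he : ∀ ρ, Good ρ → ρ.card + 1 = d → ∀ S, ρ ⊆ S → e ρ S = 0) : rr d φ δ = 0 := by
  unfold rr
  refine Finset.sum_eq_zero fun τ hτ => Finset.sum_eq_zero fun u _ => ?_
  rw [mem_Gd] at hτ
  by_cases hu : u ∈ τ
  · rw [if_pos hu]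
  · have h1 : fd e τ (insert u τ) = 0 := by
      rw [fd_apply]
      refine Finset.sum_eq_zero fun v hv => ?_
      rw [he (τ.erase v) (hτ.1.erase v) ?_ _ ?_, mul_zero]
      · rw [Finset.card_erase_of_mem hv, hτ.2]
        have h2 := Finset.card_pos.2 ⟨v, hv⟩
        omega
      · exact (Finset.erase_subset _ _).trans (Finset.subset_insert _ _)
    rw [if_neg hu, h τ hτ.1 hτ.2, Pi.neg_apply, h1]
    ring

end AGV
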