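import Pool.Agent.AGV.Pairs

/-!
# AGV-Trc: the alternating trace of a null homotopic chain map

Put `Φ k = ∑_{τ ∈ Gd k} ∑_{u ∉ τ} sg u τ * t τ (insert u τ)`. For `σ ∈ Gd k`, `k < d`: `dd (t σ) σ` is the inner sum of `Φ k`, so `∑_{σ ∈ Gd k} dd (t σ) σ = Φ k` (`k < d`).
For `1 ≤ k ≤ d`: `∑_{σ ∈ Gd k} fd t σ σ = ∑_{σ ∈ Gd k} ∑_{v ∈ σ} sg v σ * t (σ.erase v) σ = Φ (k - 1)` by `pairs` (`G τ σ u = sg u τ * t τ σ`, `sg v σ = sg v (σ.erase v)` is `sg_erase_self`; the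
terms with `insert u τ` not good vanish by `ht`); for `k = 0` it is `0` (`fd t ∅ = 0`). So the sum over `σ ∈ Gd k` of `g σ σ` is `Φ k + Φ (k-1)` for `0 < k < d`,
`Φ 0` for `k = 0`, `Φ (d-1)` for `k = d`, and with the signs `(-1)^k` everything cancels; `∑_{Gd 0} g = g ∅ ∅ = 1` (`Gd 0 = {∅}`), the terms `0 < k < d` vanish. So
`1 + (-1)^d ∑_{Gd d} g σ σ = 0`.
-/

set_option autoImplicit false

namespace AGV

variable {M N : ℕ} [NeZero M]

/-- the weighted number of incidences between good simplices with `k` vertices and the next ones -/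
private noncomputable def Ph (t : Finset (Vx M N) → Finset (Vx M N) → ℤ) (k : ℕ) : ℤ :=
  ∑ τ ∈ Gd M N k, ∑ u : Vx M N, if u ∈ τ then 0 else sg u τ * t τ (insert u τ)

private theorem fd_sum_eq {d : ℕ} (t : Finset (Vx M N) → Finset (Vx M N) → ℤ)
    (ht : ∀ σ, Good σ → σ.card < d → ∀ S, t σ S ≠ 0 → Good S ∧ S.card = σ.card + 1)
    {k : ℕ} (hk : k < d) : ∑ σ ∈ Gd M N (k + 1), fd t σ σ = Ph t k := by
  have h := pairs k (fun τ σ u => sg u τ * t τ σ) (fun τ hτ u _ hg => by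
    obtain ⟨h1, h2⟩ := mem_Gd.1 hτ
    by_contra h3
    exact hg (ht τ h1 (by omega) _ (right_ne_zero_of_mul h3)).1)
  unfold Ph
  rw [← h]
  refine Finset.sum_congr rfl fun σ _ => ?_
  rw [fd_apply]
  refine Finset.sum_congr rfl fun v _ => ?_
  rw [sg_erase_self]

private theorem Gd_zero_eq : Gd M N 0 = {∅} := by
  ext σ
  rw [mem_Gd, Finset.mem_singleton, Finset.card_eq_zero]
  exact ⟨fun h => h.2, fun h => ⟨by subst h; intro u hu; simp at hu, h⟩⟩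

private theorem sum_lt_eq {d : ℕ} (g t : Finset (Vx M N) → Finset (Vx M N) → ℤ)
    (h1 : ∀ σ, Good σ → σ.card < d → dd (t σ) + fd t σ = g σ) {k : ℕ} (hk : k < d) :
    ∑ σ ∈ Gd M N k, g σ σ = Ph t k + ∑ σ ∈ Gd M N k, fd t σ σ := by
  unfold Ph
  rw [← Finset.sum_add_distrib]
  refine Finset.sum_congr rfl fun σ hσ => ?_
  obtain ⟨h2, h3⟩ := mem_Gd.1 hσ
  rw [← h1 σ h2 (by omega)]
  rfl

theorem trace_eq {d : ℕ} (hd : 1 ≤ d) (g t : Finset (Vx M N) → Finset (Vx M N) → ℤ)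
    (ht : ∀ σ, Good σ → σ.card < d → ∀ S, t σ S ≠ 0 → Good S ∧ S.card = σ.card + 1)
    (h1 : ∀ σ, Good σ → σ.card < d → dd (t σ) + fd t σ = g σ)
    (h2 : ∀ σ, Good σ → σ.card = d → g σ = fd t σ)
    (h3 : g ∅ ∅ = 1) (h4 : ∀ σ, Good σ → 0 < σ.card → σ.card < d → g σ σ = 0) :
    ∑ σ ∈ Gd M N d, g σ σ = (-1) ^ (d + 1) := by
  have hP : ∀ k, k < d → Ph t k = (-1) ^ k := by
    intro k
    induction k with
    | zero =>
      intro hk
      have h5 := sum_lt_eq g t h1 hk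
      rw [Gd_zero_eq, Finset.sum_singleton, Finset.sum_singleton, h3] at h5
      have h6 : fd t ∅ ∅ = 0 := by simp [fd]
      rw [h6, add_zero] at h5
      rw [← h5, pow_zero]
    | succ k ih =>
      intro hk
      have h5 := sum_lt_eq g t h1 hk
      have h6 : ∑ σ ∈ Gd M N (k + 1), g σ σ = 0 := by
        refine Finset.sum_eq_zero fun σ hσ => ?_
        obtain ⟨h7, h8⟩ := mem_Gd.1 hσ
        exact h4 σ h7 (by omega) (by omega)
      rw [h6, fd_sum_eq t ht (by omega), ih (by omega)] at h5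
      rw [pow_succ]
      linarith
  obtain ⟨k, rfl⟩ : ∃ k, d = k + 1 := ⟨d - 1, by omega⟩
  have h5 : ∑ σ ∈ Gd M N (k + 1), g σ σ = ∑ σ ∈ Gd M N (k + 1), fd t σ σ := by
    refine Finset.sum_congr rfl fun σ hσ => ?_
    obtain ⟨h7, h8⟩ := mem_Gd.1 hσ
    rw [h2 σ h7 h8]
  rw [h5, fd_sum_eq t ht (Nat.lt_succ_self k), hP k (Nat.lt_succ_self k)]
  ring

end AGV
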