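import Pool.Agent.AGV.Pairs

/-!
# AGV-Wgt: the weighted trace

Everything in `ZMod M`; `w = ∑_{σ ∈ Gd d} g σ σ φ σ`. (i) `∑_{σ ∈ Gd d} g (a⁻¹ σ) (a⁻¹ σ) φ σ = ∑_{σ ∈ Gd d} g σ σ φ (a σ) = w + ∑_{σ ∈ Gd d} g σ σ = w + (-1)^(d+1)` (`a σ = σ.image sh`, reindexing of `Gd d` by the bijection
`σ ↦ σ.image sh`; `σ` is nonempty because `d ≥ 1`). (ii) By `h5` at `S = σ`: `(-1)^(d+1) = ∑_{σ ∈ Gd d} φ σ (dd (θ σ) σ + fd θ σ σ)`; `fd θ σ σ = ∑_{v ∈ σ} sg v σ θ (σ.erase v) σ = 0` by `h6`, and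
`dd (θ σ) σ = ∑_{u ∉ σ} sg u σ θ σ (insert u σ)`. (iii) By `h7` at `S = σ`, `σ ∈ Gd (d+1)`, times `φ σ`, and `pairs` (`G τ σ u = sg u τ * θ τ σ * φ σ`, `sg_erase_self`, terms
with `insert u τ` not good vanish by `hθ`): `0 = ∑_{τ ∈ Gd d} ∑_{u ∉ τ} sg u τ θ τ (insert u τ) φ (insert u τ)`. Subtract (ii) from (iii):
`∑_{τ, u ∉ τ} sg u τ θ τ (insert u τ) (φ (insert u τ) - φ τ) = - (-1)^(d+1) = (-1)^d`, and `((x.val : ℤ) : ZMod M) = x` (`ZMod.natCast_zmod_val`).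
-/

set_option autoImplicit false

namespace AGV

variable {M N : ℕ} [NeZero M]

private theorem wgt_image (σ : Finset (Vx M N)) : (σ.image sh).image sh.symm = σ := by
  rw [Finset.image_image]
  have h : (sh.symm ∘ sh : Vx M N → Vx M N) = id := by
    funext v
    simp
  rw [h, Finset.image_id]

private theorem wgt_image' (σ : Finset (Vx M N)) : (σ.image sh.symm).image sh = σ := by
  rw [Finset.image_image]
  have h : (sh ∘ sh.symm : Vx M N → Vx M N) = id := by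
    funext v
    simp
  rw [h, Finset.image_id]

private theorem wgt_mem {d : ℕ} {σ : Finset (Vx M N)} (h : σ ∈ Gd M N d) :
    σ.image sh ∈ Gd M N d := by
  rw [mem_Gd] at h ⊢
  refine ⟨?_, ?_⟩
  · intro u hu w hw huw
    rw [Finset.mem_image] at hu hw
    obtain ⟨u', hu', rfl⟩ := hu
    obtain ⟨w', hw', rfl⟩ := hw
    rw [h.1 u' hu' w' hw' huw]
  · rw [Finset.card_image_of_injective _ sh.injective, h.2]

private theorem wgt_mem' {d : ℕ} {σ : Finset (Vx M N)} (h : σ ∈ Gd M N d) :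
    σ.image sh.symm ∈ Gd M N d := by
  rw [mem_Gd] at h ⊢
  refine ⟨?_, ?_⟩
  · intro u hu w hw huw
    rw [Finset.mem_image] at hu hw
    obtain ⟨u', hu', rfl⟩ := hu
    obtain ⟨w', hw', rfl⟩ := hw
    rw [h.1 u' hu' w' hw' huw]
  · rw [Finset.card_image_of_injective _ sh.symm.injective, h.2]

/-- reindexing by the generator -/
private theorem wgt_shift {d : ℕ} (f : Finset (Vx M N) → ZMod M) :
    ∑ σ ∈ Gd M N d, f σ = ∑ σ ∈ Gd M N d, f (σ.image sh) := by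
  refine (Finset.sum_nbij' (fun σ => σ.image sh) (fun σ => σ.image sh.symm) (fun σ h => wgt_mem h)
    (fun σ h => wgt_mem' h) (fun σ _ => wgt_image σ) (fun σ _ => wgt_image' σ) ?_).symm
  intro σ _
  rfl

theorem weight_eq {d : ℕ} (hd : 1 ≤ d) (φ : Finset (Vx M N) → ZMod M)
    (hφ : ∀ σ, Good σ → σ.Nonempty → φ (σ.image sh) = φ σ + 1)
    (g θ : Finset (Vx M N) → Finset (Vx M N) → ℤ)
    (htr : ∑ σ ∈ Gd M N d, g σ σ = (-1) ^ (d + 1))
    (hθ : ∀ σ, Good σ → σ.card = d → ∀ S, θ σ S ≠ 0 → Good S ∧ S.card = d + 1)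
    (h5 : ∀ σ, Good σ → σ.card = d → ∀ S, dd (θ σ) S + fd θ σ S = g (σ.image sh.symm) (S.image sh.symm) - g σ S)
    (h6 : ∀ ρ, Good ρ → ρ.card + 1 = d → ∀ S, ρ ⊆ S → θ ρ S = 0)
    (h7 : ∀ σ, Good σ → σ.card = d + 1 → fd θ σ = 0) :
    ((rr d φ θ : ℤ) : ZMod M) = (-1) ^ d := by
  classical
  -- (i)
  have h1 : ∑ σ ∈ Gd M N d, ((g (σ.image sh.symm) (σ.image sh.symm) : ℤ) : ZMod M) * φ σ =
      ∑ σ ∈ Gd M N d, ((g σ σ : ℤ) : ZMod M) * φ σ + (-1) ^ (d + 1) := by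
    rw [wgt_shift]
    have h2 : ∀ σ ∈ Gd M N d, ((g ((σ.image sh).image sh.symm) ((σ.image sh).image sh.symm) : ℤ) :
        ZMod M) * φ (σ.image sh) =
        ((g σ σ : ℤ) : ZMod M) * φ σ + ((g σ σ : ℤ) : ZMod M) := by
      intro σ hσ
      rw [mem_Gd] at hσ
      have hne : σ.Nonempty := by
        rw [← Finset.card_pos, hσ.2]
        omega
      rw [wgt_image, hφ σ hσ.1 hne]
      ring
    rw [Finset.sum_congr rfl h2, Finset.sum_add_distrib]
    congr 1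
    have h3 := congrArg (fun z : ℤ => (z : ZMod M)) htr
    simp only [Int.cast_sum, Int.cast_pow, Int.cast_neg, Int.cast_one] at h3
    exact h3
  -- (ii)
  have h2 : ∑ σ ∈ Gd M N d, ∑ u : Vx M N, (if u ∈ σ then (0 : ZMod M) else
      ((sg u σ * θ σ (insert u σ) : ℤ) : ZMod M) * φ σ) = (-1) ^ (d + 1) := by
    have h3 : ∀ σ ∈ Gd M N d, (∑ u : Vx M N, (if u ∈ σ then (0 : ZMod M) else
        ((sg u σ * θ σ (insert u σ) : ℤ) : ZMod M) * φ σ)) =
        ((g (σ.image sh.symm) (σ.image sh.symm) : ℤ) : ZMod M) * φ σ -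
          ((g σ σ : ℤ) : ZMod M) * φ σ := by
      intro σ hσ
      rw [mem_Gd] at hσ
      have h4 := h5 σ hσ.1 hσ.2 σ
      have h8 : fd θ σ σ = 0 := by
        rw [fd_apply]
        refine Finset.sum_eq_zero fun v hv => ?_
        rw [h6 (σ.erase v) (hσ.1.erase v) (by rw [Finset.card_erase_add_one hv, hσ.2]) σ
          (Finset.erase_subset v σ), mul_zero]
      rw [h8, add_zero] at h4
      have h9 : dd (θ σ) σ = ∑ u : Vx M N, if u ∈ σ then 0 else sg u σ * θ σ (insert u σ) := rfl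
      rw [h9] at h4
      have h10 := congrArg (fun z : ℤ => (z : ZMod M) * φ σ) h4
      simp only [Int.cast_sub, Int.cast_sum] at h10
      rw [← sub_mul, ← h10, Finset.sum_mul]
      refine Finset.sum_congr rfl fun u _ => ?_
      by_cases hu : u ∈ σ
      · rw [if_pos hu, if_pos hu, Int.cast_zero, zero_mul]
      · rw [if_neg hu, if_neg hu]
    rw [Finset.sum_congr rfl h3, Finset.sum_sub_distrib, h1]
    ring
  -- (iii)
  have h3 : ∑ τ ∈ Gd M N d, ∑ u : Vx M N, (if u ∈ τ then (0 : ZMod M) else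
      ((sg u τ * θ τ (insert u τ) : ℤ) : ZMod M) * φ (insert u τ)) = 0 := by
    have h4 := pairs (M := M) (N := N) d
      (fun τ σ u => ((sg u τ * θ τ σ : ℤ) : ZMod M) * φ σ) (fun τ hτ u _ hu => by
        rw [mem_Gd] at hτ
        have h8 : θ τ (insert u τ) = 0 := by
          by_contra h
          exact hu (hθ τ hτ.1 hτ.2 _ h).1
        show ((sg u τ * θ τ (insert u τ) : ℤ) : ZMod M) * φ (insert u τ) = 0
        rw [h8, mul_zero, Int.cast_zero, zero_mul])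
    rw [← h4]
    refine Finset.sum_eq_zero fun σ hσ => ?_
    rw [mem_Gd] at hσ
    have h8 := congrFun (h7 σ hσ.1 hσ.2) σ
    rw [fd_apply] at h8
    have h9 := congrArg (fun z : ℤ => (z : ZMod M) * φ σ) h8
    simp only [Int.cast_sum, Pi.zero_apply, Int.cast_zero, zero_mul] at h9
    rw [Finset.sum_mul] at h9
    rw [← h9]
    refine Finset.sum_congr rfl fun v _ => ?_
    rw [sg_erase_self]
  -- conclusion
  have h4 : ((rr d φ θ : ℤ) : ZMod M) =
      ∑ τ ∈ Gd M N d, ∑ u : Vx M N, (if u ∈ τ then (0 : ZMod M) else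
        ((sg u τ * θ τ (insert u τ) : ℤ) : ZMod M) * φ (insert u τ)) -
      ∑ σ ∈ Gd M N d, ∑ u : Vx M N, (if u ∈ σ then (0 : ZMod M) else
        ((sg u σ * θ σ (insert u σ) : ℤ) : ZMod M) * φ σ) := by
    unfold rr
    rw [Int.cast_sum, ← Finset.sum_sub_distrib]
    refine Finset.sum_congr rfl fun τ _ => ?_
    rw [Int.cast_sum, ← Finset.sum_sub_distrib]
    refine Finset.sum_congr rfl fun u _ => ?_
    by_cases hu : u ∈ τ
    · rw [if_pos hu, if_pos hu, if_pos hu, Int.cast_zero, sub_zero]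
    · rw [if_neg hu, if_neg hu, if_neg hu, Int.cast_mul, Int.cast_natCast, ZMod.natCast_zmod_val,
        mul_sub]
  rw [h4, h3, h2, pow_succ]
  ring

end AGV
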