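import Pool.Agent.AGV.AcB
import Pool.Agent.AGV.Trc
import Pool.Agent.AGV.Wgt
import Pool.Agent.AGV.RR
import Pool.Agent.AGV.Phi

/-!
# AGV-Ac: the algebraic part: the data `Sys` do not exist
-/

set_option autoImplicit false

namespace AGV

variable {M N d n : ℕ} [NeZero M] {X : Type}

theorem ac (S : Sys M N d n X) (hM2 : 2 ≤ M) (hd : 1 ≤ d) (hn : 0 < n) (hM : M ∣ n) : False := by
  classical
  obtain ⟨φ, hφ⟩ := exists_phi M N
  set g : Finset (Vx M N) → Finset (Vx M N) → ℤ := fun σ => om (mp S.F (S.s σ)) with hg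
  set t : Finset (Vx M N) → Finset (Vx M N) → ℤ := fun σ => om (mp S.F (S.T σ)) with ht
  set θ : Finset (Vx M N) → Finset (Vx M N) → ℤ := fun σ => om (mp S.F (S.H σ)) with hθ
  have fdm : ∀ (D : Finset (Vx M N) → Ch X) (σ : Finset (Vx M N)),
      om (mp S.F (fd D σ)) = fd (fun ρ => om (mp S.F (D ρ))) σ := fun D σ =>
    fd_map (om.comp (mp S.F)) D σ
  have htr : ∑ σ ∈ Gd M N d, g σ σ = (-1) ^ (d + 1) := by
    refine trace_eq hd g t ?_ ?_ ?_ ?_ ?_
    · intro σ h hc T hT
      exact S.om_grade' (S.T_mem σ h hc) T hT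
    · intro σ h hc
      rw [← S.om_chain (S.T_mem σ h hc), ← fdm, ← map_add, ← map_add, S.T_bd σ h hc]
    · intro σ h hc
      simp only [hg, ht]
      rw [S.s_top σ h hc, fdm]
    · simp only [hg]
      rw [S.s_empty, mp_single, om_single]
      simp [omL]
    · intro σ h h0 hc
      exact S.om_av (S.av_s σ h h0 hc) σ (Finset.Subset.refl _)
  have hθg : ∀ σ, Good σ → σ.card = d → ∀ T, θ σ T ≠ 0 → Good T ∧ T.card = d + 1 := by
    intro σ h hc T hT
    have := S.om_grade' (S.H_mem σ h hc.le) T hT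
    rw [hc] at this
    exact this
  have h6 : ∀ ρ, Good ρ → ρ.card + 1 = d → ∀ T, ρ ⊆ T → θ ρ T = 0 := by
    intro ρ h hc T hT
    rcases Nat.eq_zero_or_pos ρ.card with h0 | h0
    · have : ρ = ∅ := Finset.card_eq_zero.1 h0
      simp only [hθ]
      rw [this, S.H_empty, map_zero, map_zero]
      rfl
    · exact S.om_av (S.av_H ρ h h0 (by omega)) T hT
  have hw : ((rr d φ θ : ℤ) : ZMod M) = (-1) ^ d := by
    refine weight_eq hd φ hφ g θ htr hθg ?_ h6 ?_
    · intro σ h hc T
      have e1 := S.H_bd σ h hc.le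
      have e2 := congrArg (fun z => om (mp S.F z) T) e1
      simp only [map_add, map_sub, Pi.add_apply, Pi.sub_apply] at e2
      rw [S.om_chain (S.H_mem σ h hc.le), fdm] at e2
      have e3 := S.om_equi 1 (S.s (σ.image sh.symm)) T
      rw [pow_one, pow_one] at e3
      rw [e3] at e2
      exact e2
    · intro σ h hc
      exact S.cyc_H h hc
  -- the iterated homotopy
  have h1 : rr d φ (fun σ => om (mp S.F (S.Hn σ))) = n * rr d φ θ := by
    have e : ∀ σ, om (mp S.F (S.Hn σ)) = ∑ k ∈ Finset.range n, (fun T => θ (σ.image (sh ^ k : Equiv.Perm (Vx M N)).symm)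
        (T.image (sh ^ k : Equiv.Perm (Vx M N)).symm)) := by
      intro σ
      unfold Sys.Hn
      rw [map_sum, map_sum]
      refine Finset.sum_congr rfl fun k _ => ?_
      funext T
      exact S.om_equi k _ T
    rw [rr_congr φ (fun σ _ _ => e σ), rr_sum φ (Finset.range n) (fun k σ T => θ (σ.image (sh ^ k : Equiv.Perm (Vx M N)).symm)
        (T.image (sh ^ k : Equiv.Perm (Vx M N)).symm))]
    rw [Finset.sum_congr rfl (fun k _ => rr_image hd φ hφ θ hθg k), Finset.sum_const, Finset.card_range,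
      nsmul_eq_mul]
  have hFn : (S.F ∘ (S.a ^ n : Equiv.Perm X)) = S.F := by
    funext x
    show S.F ((S.a ^ n : Equiv.Perm X) x) = S.F x
    rw [S.F_pow]
    obtain ⟨c, rfl⟩ := hM
    have : ∀ k : ℕ, ∀ v : Vx M N, (sh ^ k : Equiv.Perm (Vx M N)) v = (v.1 + k, v.2) := by
      intro k
      induction k with
      | zero => intro v; simp
      | succ k ih =>
        intro v
        rw [pow_succ', Equiv.Perm.mul_apply, ih]
        simp [sh, add_assoc]
    rw [this]
    simp
  have h2 : ∀ σ, om (mp S.F (pr id (S.a ^ n : Equiv.Perm X) (S.s σ))) = 0 := by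
    intro σ
    rw [mp_pr, hFn]
    exact om_pr_self S.F _
  have h3 : rr d φ (fun σ => om (mp S.F (S.Dl σ))) = 0 := by
    refine rr_zero φ _ (fun ρ => om (mp S.F (S.E ρ))) (fun σ h hc => S.cyc_E hM h hc) ?_
    intro ρ h hc T hT
    rcases Nat.eq_zero_or_pos ρ.card with h0 | h0
    · have : ρ = ∅ := Finset.card_eq_zero.1 h0
      rw [this, S.E_empty, map_zero, map_zero]
      rfl
    · exact S.om_av (S.av_E ρ h h0 (by omega)) T hT
  have h4 : rr d φ (fun σ => om (mp S.F (S.Dl σ))) = rr d φ (fun σ => om (mp S.F (S.Hn σ))) := by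
    refine rr_congr φ fun σ _ _ => ?_
    unfold Sys.Dl
    rw [map_sub, map_sub, h2, sub_zero]
  have h5 : (n : ℤ) * rr d φ θ = 0 := by rw [← h1, ← h4, h3]
  have h7 : rr d φ θ = 0 := by
    rcases mul_eq_zero.1 h5 with h | h
    · exfalso
      have : n = 0 := by exact_mod_cast h
      omega
    · exact h
  rw [h7, Int.cast_zero] at hw
  have : (1 : ZMod M) = 0 := by
    have e : ((-1 : ZMod M) ^ d) * ((-1) ^ d) = 1 := by
      rw [← mul_pow]; simp
    rw [← hw] at e
    simpa using e.symm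
  have hMM : Fact (1 < M) := ⟨by omega⟩
  exact one_ne_zero this

end AGV
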