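import Pool.Agent.AGV.Om
import Pool.Agent.AGV.Fd

/-!
# AGV-AcA: first consequences of the data `Sys`
-/

set_option autoImplicit false

namespace AGV

namespace Sys

variable {M N d n : ℕ} [NeZero M] {X : Type} (S : Sys M N d n X)

theorem F_pow (t : ℕ) (x : X) : S.F ((S.a ^ t : Equiv.Perm X) x) = (sh ^ t : Equiv.Perm (Vx M N)) (S.F x) := by
  induction t with
  | zero => simp
  | succ t ih =>
    rw [pow_succ', pow_succ', Equiv.Perm.mul_apply, Equiv.Perm.mul_apply, S.F_a, ih]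

private theorem F_mem {k : ℕ} {z : Ch X} (hz : z ∈ S.A k) :
    mp S.F z ∈ SP (fun l : List (Vx M N) => l.length = k ∧ OK d l) := by
  refine mp_mem (P := fun l : List X => l.length = k ∧ OK d (l.map S.F)) S.F ?_ (S.A_len k hz)
  intro l hl
  exact ⟨by rw [List.length_map]; exact hl.1, hl.2⟩

theorem om_grade' {k : ℕ} {z : Ch X} (hz : z ∈ S.A k) (T : Finset (Vx M N)) (h : om (mp S.F z) T ≠ 0) :
    Good T ∧ T.card = k := by
  obtain ⟨l, hl, hT, hc⟩ := om_grade (F_mem S hz) T h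
  refine ⟨?_, by rw [hc, hl.1]⟩
  intro u hu w hw huw
  rw [hT, List.mem_toFinset] at hu hw
  exact hl.2.1 u hu w hw huw

theorem om_chain {k : ℕ} {z : Ch X} (hz : z ∈ S.A k) : om (mp S.F (bd z)) = dd (om (mp S.F z)) := by
  rw [← bd_mp]
  exact om_bd (SP_mono (fun l hl => hl.2.1) (F_mem S hz))

theorem om_equi (t : ℕ) (z : Ch X) (T : Finset (Vx M N)) :
    om (mp S.F (mp (S.a ^ t : Equiv.Perm X) z)) T = om (mp S.F z) (T.image (sh ^ t : Equiv.Perm (Vx M N)).symm) := by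
  have h : S.F ∘ (S.a ^ t : Equiv.Perm X) = (sh ^ t : Equiv.Perm (Vx M N)) ∘ S.F := by
    funext x
    exact S.F_pow t x
  rw [mp_mp, h, ← mp_mp, om_sh]

theorem om_av {z : Ch X} {ρ : Finset (Vx M N)} (hz : z ∈ SP (fun l => ¬ ρ ⊆ (l.map S.F).toFinset))
    (T : Finset (Vx M N)) (hT : ρ ⊆ T) : om (mp S.F z) T = 0 := by
  by_contra h
  have h1 : mp S.F z ∈ SP (fun l : List (Vx M N) => ¬ ρ ⊆ l.toFinset) :=
    mp_mem S.F (fun l hl => hl) hz
  obtain ⟨l, hl, hT', -⟩ := om_grade h1 T h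
  exact hl (hT' ▸ hT)

private theorem bd_fdT {σ : Finset (Vx M N)} (h : Good σ) (hc : σ.card ≤ d) : bd (fd S.T σ) = fd S.s σ := by
  have h1 : ∀ v ∈ σ, bd (S.T (σ.erase v)) = S.s (σ.erase v) - fd S.T (σ.erase v) := by
    intro v hv
    have h2 : (σ.erase v).card < d := lt_of_lt_of_le (Finset.card_erase_lt_of_mem hv) hc
    have h3 := S.T_bd (σ.erase v) (h.erase v) h2
    rw [← h3]
    abel
  rw [fd_map bd S.T σ, fd_congr (D' := fun ρ => S.s ρ - fd S.T ρ) h1, fd_sub, fd_fd S.T h, sub_zero]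

theorem s_bd {σ : Finset (Vx M N)} (h : Good σ) (hc : σ.card ≤ d) : bd (S.s σ) = fd S.s σ := by
  rcases lt_or_eq_of_le hc with hlt | heq
  · rw [← S.T_bd σ h hlt, map_add, bd_bd, zero_add]
    exact bd_fdT S h hc
  · rw [S.s_top σ h heq]
    exact bd_fdT S h hc

theorem fd_s {σ : Finset (Vx M N)} (h : Good σ) (hc : σ.card = d + 1) : fd S.s σ = 0 := by
  have h1 : ∀ v ∈ σ, S.s (σ.erase v) = fd S.T (σ.erase v) := by
    intro v hv
    refine S.s_top (σ.erase v) (h.erase v) ?_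
    rw [Finset.card_erase_of_mem hv, hc]
    rfl
  rw [fd_congr (D' := fd S.T) h1, fd_fd S.T h]

theorem mem_pow {k : ℕ} (t : ℕ) {z : Ch X} (hz : z ∈ S.A k) : mp (S.a ^ t : Equiv.Perm X) z ∈ S.A k := by
  induction t with
  | zero =>
    have h : ((S.a ^ 0 : Equiv.Perm X) : X → X) = id := by
      funext x
      simp
    rw [h, mp_id]
    exact hz
  | succ t ih =>
    have h : ((S.a ^ (t + 1) : Equiv.Perm X) : X → X) = S.a ∘ (S.a ^ t : Equiv.Perm X) := by
      funext x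
      rw [pow_succ', Equiv.Perm.mul_apply]
      rfl
    rw [h, ← mp_mp]
    exact S.A_a k _ ih

end Sys

end AGV
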