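import Pool.Agent.AGV.AcA

/-!
# AGV-AcB: the iterated homotopy and the top cycles

`Hn σ = ∑_{t < n} a^t H (a^{-t} σ)`.
* `Hn_bd`: by `H_bd` for `σ.image (sh ^ t).symm`, `fd_image`, `fd_sum`, `bd_mp`, the `t`-th term of `bd (Hn σ) + fd Hn σ` is `mp (a ^ (t+1)) (s (σ.image (sh ^ (t+1)).symm)) - mp (a ^ t) (s (σ.image (sh ^ t).symm))`
  (`mp_mp`; `(σ.image (sh ^ t).symm).image sh.symm = σ.image (sh ^ (t+1)).symm`); the sum telescopes (`Finset.sum_range_sub`). For `M ∣ n` `sh ^ n = 1`.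
* `Dl σ = Hn σ - pr id (a ^ n) (s σ)`; `Dl_bd`: `bd (Dl σ) = - fd Dl σ` for `σ.card ≤ d`: from `Hn_bd`, `bd_pr`, `s_bd` (`pr (fd s σ) = fd (pr ∘ s) σ`, `mp id = id`).
* `cyc_E`: for `σ.card = d`: `Dl σ + fd E σ ∈ A (d + 1)` (`H_mem`, `mem_pow`, `A_pr`, `E_mem`, `fd_mem`; `Good`, cards of images: `good_image`, `card_image_sh`) and `bd` of it is `- fd Dl σ + fd (fun ρ => Dl ρ + fd E ρ) σ = 0`
  (`E_bd`, `fd_congr`, `fd_add`, `fd_fd`); so `top` applies.
* `cyc_H`: for `σ.card = d + 1`: `fd H σ ∈ A (d + 1)`, `bd (fd H σ) = fd (fun ρ => mp a (s (ρ.image sh.symm)) - s ρ - fd H ρ) σ = mp a (fd s (σ.image sh.symm)) - fd s σ = 0` (`H_bd`, `fd_image`, `fd_s`,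
  `fd_fd`); `top`.
-/

set_option autoImplicit false

namespace AGV

namespace Sys

variable {M N d n : ℕ} [NeZero M] {X : Type} (S : Sys M N d n X)

/-- the iterated homotopy -/
noncomputable def Hn (σ : Finset (Vx M N)) : Ch X :=
  ∑ t ∈ Finset.range n, mp (S.a ^ t : Equiv.Perm X) (S.H (σ.image (sh ^ t : Equiv.Perm (Vx M N)).symm))

/-- difference of the iterated homotopy and the prism -/
noncomputable def Dl (σ : Finset (Vx M N)) : Ch X := S.Hn σ - pr id (S.a ^ n : Equiv.Perm X) (S.s σ)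

omit [NeZero M] in
private theorem sh_pow_apply (t : ℕ) (v : Vx M N) :
    (sh ^ t : Equiv.Perm (Vx M N)) v = (v.1 + (t : ZMod M), v.2) := by
  induction t with
  | zero => simp
  | succ t ih =>
    rw [pow_succ', Equiv.Perm.mul_apply, ih]
    show (v.1 + (t : ZMod M) + 1, v.2) = _
    rw [Nat.cast_add, Nat.cast_one, add_assoc]

omit [NeZero M] in
private theorem sh_pow_n (hM : M ∣ n) : (sh ^ n : Equiv.Perm (Vx M N)) = 1 := by
  ext1 v
  rw [sh_pow_apply, (ZMod.natCast_eq_zero_iff n M).2 hM, add_zero]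
  rfl

omit [NeZero M] in
private theorem image_succ (t : ℕ) (σ : Finset (Vx M N)) :
    (σ.image (sh ^ t : Equiv.Perm (Vx M N)).symm).image (sh : Equiv.Perm (Vx M N)).symm =
      σ.image (sh ^ (t + 1) : Equiv.Perm (Vx M N)).symm := by
  rw [Finset.image_image, pow_succ]
  rfl

private theorem coe_succ (t : ℕ) : ((S.a ^ (t + 1) : Equiv.Perm X) : X → X) = (S.a ^ t : Equiv.Perm X) ∘ S.a := by
  funext x
  rw [pow_succ, Equiv.Perm.mul_apply]
  rfl

/-- the partial sums of the telescope -/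
private noncomputable def Gt (σ : Finset (Vx M N)) (t : ℕ) : Ch X :=
  mp (S.a ^ t : Equiv.Perm X) (S.s (σ.image (sh ^ t : Equiv.Perm (Vx M N)).symm))

private theorem Gt_zero (σ : Finset (Vx M N)) : Gt S σ 0 = S.s σ := by
  have h1 : ((S.a ^ 0 : Equiv.Perm X) : X → X) = id := by
    funext x
    simp
  have h2 : σ.image (sh ^ 0 : Equiv.Perm (Vx M N)).symm = σ := by
    rw [pow_zero]
    exact Finset.image_id
  unfold Gt
  rw [h1, h2, mp_id]

private theorem Gt_n (hM : M ∣ n) (σ : Finset (Vx M N)) : Gt S σ n = mp (S.a ^ n : Equiv.Perm X) (S.s σ) := by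
  have h2 : σ.image (sh ^ n : Equiv.Perm (Vx M N)).symm = σ := by
    rw [sh_pow_n hM]
    exact Finset.image_id
  unfold Gt
  rw [h2]

private theorem term_bd (t : ℕ) {σ : Finset (Vx M N)} (h : Good σ) (hc : σ.card ≤ d) :
    mp (S.a ^ t : Equiv.Perm X) (bd (S.H (σ.image (sh ^ t : Equiv.Perm (Vx M N)).symm)) +
      fd S.H (σ.image (sh ^ t : Equiv.Perm (Vx M N)).symm)) = Gt S σ (t + 1) - Gt S σ t := by
  rw [S.H_bd _ ((good_image t).2 h) (by rw [card_image_sh]; exact hc), map_sub, image_succ, mp_mp]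
  unfold Gt
  rw [coe_succ]

theorem Hn_bd (hM : M ∣ n) {σ : Finset (Vx M N)} (h : Good σ) (hc : σ.card ≤ d) :
    bd (S.Hn σ) + fd S.Hn σ = mp (S.a ^ n : Equiv.Perm X) (S.s σ) - S.s σ := by
  have h1 : bd (S.Hn σ) = ∑ t ∈ Finset.range n,
      mp (S.a ^ t : Equiv.Perm X) (bd (S.H (σ.image (sh ^ t : Equiv.Perm (Vx M N)).symm))) := by
    unfold Hn
    rw [map_sum]
    exact Finset.sum_congr rfl fun t _ => bd_mp _ _
  have h2 : fd S.Hn σ = ∑ t ∈ Finset.range n,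
      mp (S.a ^ t : Equiv.Perm X) (fd S.H (σ.image (sh ^ t : Equiv.Perm (Vx M N)).symm)) := by
    have h3 : fd S.Hn σ = fd (fun ρ => ∑ t ∈ Finset.range n,
      mp (S.a ^ t : Equiv.Perm X) (S.H (ρ.image (sh ^ t : Equiv.Perm (Vx M N)).symm))) σ := rfl
    rw [h3, fd_sum]
    refine Finset.sum_congr rfl fun t _ => ?_
    rw [fd_image]
    exact (fd_map (mp (S.a ^ t : Equiv.Perm X)) (fun ρ => S.H (ρ.image (sh ^ t : Equiv.Perm (Vx M N)).symm)) σ).symm
  rw [h1, h2, ← Finset.sum_add_distrib]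
  have h4 : ∀ t ∈ Finset.range n, mp (S.a ^ t : Equiv.Perm X) (bd (S.H (σ.image (sh ^ t : Equiv.Perm (Vx M N)).symm))) +
      mp (S.a ^ t : Equiv.Perm X) (fd S.H (σ.image (sh ^ t : Equiv.Perm (Vx M N)).symm)) = Gt S σ (t + 1) - Gt S σ t := by
    intro t _
    rw [← map_add]
    exact term_bd S t h hc
  rw [Finset.sum_congr rfl h4, Finset.sum_range_sub, Gt_n S hM, Gt_zero]

theorem Dl_bd (hM : M ∣ n) {σ : Finset (Vx M N)} (h : Good σ) (hc : σ.card ≤ d) :
    bd (S.Dl σ) = - fd S.Dl σ := by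
  have h1 := S.Hn_bd hM h hc
  have h2 := bd_pr (id : X → X) (S.a ^ n : Equiv.Perm X) (S.s σ)
  rw [mp_id, S.s_bd h hc] at h2
  have h3 : fd S.Dl σ = fd S.Hn σ - pr id (S.a ^ n : Equiv.Perm X) (fd S.s σ) := by
    rw [fd_map (pr id (S.a ^ n : Equiv.Perm X)) S.s σ, ← fd_sub]
    rfl
  have h4 : bd (S.Dl σ) = bd (S.Hn σ) - bd (pr id (S.a ^ n : Equiv.Perm X) (S.s σ)) := by
    unfold Dl
    rw [map_sub]
  rw [h3, h4, eq_sub_of_add_eq h1, eq_sub_of_add_eq h2]
  abel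

theorem cyc_E (hM : M ∣ n) {σ : Finset (Vx M N)} (h : Good σ) (hc : σ.card = d) :
    om (mp S.F (S.Dl σ)) = - fd (fun ρ => om (mp S.F (S.E ρ))) σ := by
  have hm1 : S.Hn σ ∈ S.A (d + 1) := by
    unfold Hn
    refine Submodule.sum_mem _ fun t _ => S.mem_pow t ?_
    have h1 := S.H_mem (σ.image (sh ^ t : Equiv.Perm (Vx M N)).symm) ((good_image t).2 h)
      (by rw [card_image_sh, hc])
    rw [card_image_sh, hc] at h1
    exact h1
  have hm2 : pr id (S.a ^ n : Equiv.Perm X) (S.s σ) ∈ S.A (d + 1) := by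
    have h1 := S.s_mem σ h hc.le
    rw [hc] at h1
    exact S.A_pr d le_rfl _ h1
  have hce : ∀ v ∈ σ, (σ.erase v).card + 1 = d := by
    intro v hv
    rw [Finset.card_erase_add_one hv, hc]
  have hm3 : fd S.E σ ∈ S.A (d + 1) := by
    refine fd_mem fun v hv => ?_
    have h1 := S.E_mem (σ.erase v) (h.erase v) (by have := hce v hv; omega)
    have h2 : (σ.erase v).card + 2 = d + 1 := by have := hce v hv; omega
    rw [h2] at h1
    exact h1
  have hm : S.Dl σ + fd S.E σ ∈ S.A (d + 1) :=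
    Submodule.add_mem _ (Submodule.sub_mem _ hm1 hm2) hm3
  have hb : bd (S.Dl σ + fd S.E σ) = 0 := by
    have h1 : ∀ v ∈ σ, bd (S.E (σ.erase v)) = S.Dl (σ.erase v) + fd S.E (σ.erase v) := by
      intro v hv
      exact S.E_bd (σ.erase v) (h.erase v) (by have := hce v hv; omega)
    rw [map_add, S.Dl_bd hM h hc.le, fd_map bd S.E σ,
      fd_congr (D := fun ρ => bd (S.E ρ)) (D' := fun ρ => S.Dl ρ + fd S.E ρ) h1, fd_add, fd_fd S.E h, add_zero]
    exact neg_add_cancel _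
  have h1 := S.top _ hm hb
  rw [map_add, map_add] at h1
  have h2 : om (mp S.F (fd S.E σ)) = fd (fun ρ => om (mp S.F (S.E ρ))) σ :=
    fd_map (om ∘ₗ mp S.F) S.E σ
  rw [h2] at h1
  exact eq_neg_of_add_eq_zero_left h1

theorem cyc_H {σ : Finset (Vx M N)} (h : Good σ) (hc : σ.card = d + 1) :
    fd (fun ρ => om (mp S.F (S.H ρ))) σ = 0 := by
  have hce : ∀ v ∈ σ, (σ.erase v).card = d := by
    intro v hv
    rw [Finset.card_erase_of_mem hv, hc]
    rfl
  have hm : fd S.H σ ∈ S.A (d + 1) := by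
    refine fd_mem fun v hv => ?_
    have h1 := S.H_mem (σ.erase v) (h.erase v) (hce v hv).le
    rw [hce v hv] at h1
    exact h1
  have hb : bd (fd S.H σ) = 0 := by
    have h1 : ∀ v ∈ σ, bd (S.H (σ.erase v)) =
        (mp S.a (S.s ((σ.erase v).image (sh : Equiv.Perm (Vx M N)).symm)) - S.s (σ.erase v)) - fd S.H (σ.erase v) := by
      intro v hv
      exact eq_sub_of_add_eq (S.H_bd (σ.erase v) (h.erase v) (hce v hv).le)
    have h2 : fd (fun ρ => mp S.a (S.s (ρ.image (sh : Equiv.Perm (Vx M N)).symm))) σ = 0 := by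
      have h3 := fd_image 1 S.s σ
      simp only [pow_one] at h3
      rw [← fd_map (mp S.a) (fun ρ => S.s (ρ.image (sh : Equiv.Perm (Vx M N)).symm)) σ, ← h3]
      have h4 : fd S.s (σ.image (sh : Equiv.Perm (Vx M N)).symm) = 0 := by
        have h5 : Good (σ.image (sh ^ 1 : Equiv.Perm (Vx M N)).symm) := (good_image 1).2 h
        have h6 := card_image_sh 1 σ
        rw [pow_one] at h5 h6
        exact S.fd_s h5 (by rw [h6, hc])
      rw [h4, map_zero]
    rw [fd_map bd S.H σ,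
      fd_congr (D' := fun ρ => (mp S.a (S.s (ρ.image (sh : Equiv.Perm (Vx M N)).symm)) - S.s ρ) - fd S.H ρ) h1,
      fd_sub, fd_sub, h2, S.fd_s h hc, fd_fd S.H h, sub_zero, sub_zero]
  have h1 := S.top _ hm hb
  have h2 : om (mp S.F (fd S.H σ)) = fd (fun ρ => om (mp S.F (S.H ρ))) σ :=
    fd_map (om ∘ₗ mp S.F) S.H σ
  rw [← h2]
  exact h1

end Sys

end AGV
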