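import Pool.Agent.AGV.C2f

/-!
# AGV-C2: orbit dimension 2, choice of the parameters

Let `δ₁ ≤ r` be from `VLC X 2` for `ε = r` (take the minimum with `r`), `δ₀` from `VLC X 1` for `ε = δ₁ / 2`, `δ = min δ₀ (δ₁ / 2)`. Given `M, N, F, …` and `L > 0` with `Msh L l → OK 2 (l.map F)`: let `μ₃ ≤ L` be at most the number of `VC X 3` for `η = L`, `μ₂ ≤ μ₃ / 2` at most the number of
`VC X 2` for `η = μ₃` and the number of `VLC X 2` (`ε = r`) for `η = μ₃`; `μ₁ = μ₂ / 2` and at most the number of `VC X 1` for `η = μ₂` (for lists of one point the mesh is irrelevant, so this is no condition); `n` from `hrec` for `μ₁ / 2`. `top`: `z = bd w` with lists of `w` of 4 points, mesh `< L`, so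
`om (mp F z) = om (bd (mp F w)) = dd (om (mp F w)) = 0` (`bd_mp`, `om_bd`, `om_small`: 4 points with at most 3 values). `h j`: `VLC X 1` for the cycle `single [(a ^ M) (xj j)] 1 - single [xj j] 1` (`(a ^ M) (xj j)` within `δ ≤ δ₀` of `xj j`: `hsm` for `t = 1`), `η = μ₂`. Weaken the hypotheses with `SP_mono`
(smaller mesh, smaller radius).
-/

set_option autoImplicit false

namespace AGV

private theorem c2_bd1 {X : Type} (x : X) : bd (Finsupp.single [x] (1 : ℤ)) = Finsupp.single [] 1 := by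
  rw [bd_single, one_smul]
  show Finsupp.single [] 1 - cone x (0 : Ch X) = _
  rw [map_zero, sub_zero]

private theorem c2_msh_one {X : Type} [MetricSpace X] {μ : ℝ} (hμ : 0 < μ) {l : List X} (hl : l.length = 1) :
    Msh μ l := by
  obtain ⟨x, rfl⟩ := List.length_eq_one_iff.1 hl
  intro y hy y' hy'
  rw [List.mem_singleton] at hy hy'
  rw [hy, hy', dist_self]
  exact hμ

private theorem c2_msh_mono {X : Type} [MetricSpace X] {μ μ' : ℝ} (h : μ ≤ μ') {l : List X}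
    (hl : Msh μ l) : Msh μ' l :=
  fun y hy y' hy' => lt_of_lt_of_le (hl y hy y' hy') h

private theorem c2_top {M N : ℕ} [NeZero M] {X : Type} [MetricSpace X] (F : X → Vx M N) {L μ : ℝ}
    (hOK : ∀ l : List X, Msh L l → OK 2 (l.map F))
    (h : ∀ z ∈ SP (fun l : List X => l.length = 3 ∧ Msh μ l), bd z = 0 →
      ∃ w ∈ SP (fun l : List X => l.length = 3 + 1 ∧ Msh L l), bd w = z) :
    ∀ z ∈ SP (fun l : List X => l.length = 3 ∧ Msh μ l), bd z = 0 → om (mp F z) = 0 := by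
  intro z hz hbz
  obtain ⟨w, hw, rfl⟩ := h z hz hbz
  have e1 : om (mp F w) = 0 := by
    apply om_small
    refine mp_mem F (fun l hl => ?_) hw
    have e2 := (hOK l hl.2).2
    rw [List.length_map, hl.1]
    omega
  rw [← bd_mp, om_bd (mp_mem F (fun l hl => (hOK l hl.2).1) hw), e1, map_zero]

theorem core2 {X : Type} [MetricSpace X] [Nonempty X] (h1 : VC X 1) (h2 : VC X 2) (h3 : VC X 3)
    (l1 : VLC X 1) (l2 : VLC X 2) (a : Equiv.Perm X) (ha : ∀ x y, dist (a x) (a y) = dist x y) (r : ℝ) (hr : 0 < r) :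
    ∃ δ : ℝ, 0 < δ ∧ ∀ (M N : ℕ) (_ : NeZero M), 2 ≤ M → ∀ F : X → Vx M N, (∀ x, F (a x) = sh (F x)) →
      (∀ (t : ℕ) (x : X), dist ((a ^ (M * t) : Equiv.Perm X) x) x < δ) →
      (∀ μ : ℝ, 0 < μ → ∃ n : ℕ, 0 < n ∧ M ∣ n ∧ ∀ x, dist ((a ^ n : Equiv.Perm X) x) x < μ) →
      (∃ L : ℝ, 0 < L ∧ ∀ l : List X, Msh L l → OK 2 (l.map F)) →
      ∀ xj : Fin N → X, (∀ j x, dist x (xj j) < r → F x ≠ (0, j)) → False := by
  obtain ⟨δa, hδa, hl2⟩ := l2 r hr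
  obtain ⟨δ₁, hδ₁, hδ₁a, hδ₁r⟩ : ∃ δ₁ : ℝ, 0 < δ₁ ∧ δ₁ ≤ δa ∧ δ₁ ≤ r :=
    ⟨min δa r, lt_min hδa hr, min_le_left _ _, min_le_right _ _⟩
  obtain ⟨δ₀, hδ₀, hl1⟩ := l1 (δ₁ / 2) (half_pos hδ₁)
  refine ⟨min δ₀ (δ₁ / 2), lt_min hδ₀ (half_pos hδ₁), ?_⟩
  intro M N hM hM2 F hF hsm hrec hOKL xj hav
  obtain ⟨L, hL, hOK⟩ := hOKL
  obtain ⟨μa, hμa, h3'⟩ := h3 L hL
  obtain ⟨μ₃, hμ₃, hμ₃L, hμ₃a⟩ : ∃ μ₃ : ℝ, 0 < μ₃ ∧ μ₃ ≤ L ∧ μ₃ ≤ μa :=
    ⟨min L μa, lt_min hL hμa, min_le_left _ _, min_le_right _ _⟩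
  obtain ⟨μb, hμb, h2'⟩ := h2 μ₃ hμ₃
  obtain ⟨μc, hμc, hl2'⟩ := hl2 μ₃ hμ₃
  obtain ⟨μ₂, hμ₂, hμ₂3, hμ₂b, hμ₂c⟩ : ∃ μ₂ : ℝ, 0 < μ₂ ∧ μ₂ ≤ μ₃ / 2 ∧ μ₂ ≤ μb ∧ μ₂ ≤ μc :=
    ⟨min (μ₃ / 2) (min μb μc), lt_min (half_pos hμ₃) (lt_min hμb hμc), min_le_left _ _,
      le_trans (min_le_right _ _) (min_le_left _ _), le_trans (min_le_right _ _) (min_le_right _ _)⟩
  obtain ⟨μd, hμd, h1'⟩ := h1 μ₂ hμ₂
  obtain ⟨μe, hμe, hl1'⟩ := hl1 μ₂ hμ₂
  obtain ⟨n, hn, hMn, hnx⟩ := hrec (μ₂ / 2 / 2) (by linarith)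
  have hj : ∀ j : Fin N, ∃ w ∈ SP (fun l : List X => l.length = 2 ∧ Msh μ₂ l ∧ ∀ y ∈ l, dist y (xj j) < δ₁ / 2),
      bd w = Finsupp.single [(a ^ M : Equiv.Perm X) (xj j)] 1 - Finsupp.single [xj j] 1 := by
    intro j
    refine hl1' (xj j) _ ?_ ?_
    · refine Submodule.sub_mem _ (single_mem ⟨rfl, c2_msh_one hμe rfl, ?_⟩ 1)
        (single_mem ⟨rfl, c2_msh_one hμe rfl, ?_⟩ 1)
      · intro y hy
        rw [List.mem_singleton] at hy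
        rw [hy]
        have e1 := hsm 1 (xj j)
        rw [mul_one] at e1
        exact lt_of_lt_of_le e1 (min_le_left _ _)
      · intro y hy
        rw [List.mem_singleton] at hy
        rw [hy, dist_self]
        exact hδ₀
    · rw [map_sub, c2_bd1, c2_bd1, sub_self]
  choose h hh hb using hj
  refine core2_fix hM2 a ha F hF r δ₁ (μ₂ / 2) μ₂ μ₃ (half_pos hμ₂) (by linarith) (by linarith) hδ₁ hδ₁r
    (fun l hl => hOK l (c2_msh_mono hμ₃L hl)) ?_ ?_ ?_ ?_ xj h hh hb ?_ n hn hMn hnx hav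
  · refine c2_top F hOK ?_
    intro z hz hbz
    exact h3' z (SP_mono (fun l hl => ⟨hl.1, c2_msh_mono hμ₃a hl.2⟩) hz) hbz
  · intro z hz hbz
    exact h1' z (SP_mono (fun l hl => ⟨hl.1, c2_msh_one hμd hl.1⟩) hz) hbz
  · intro z hz hbz
    exact h2' z (SP_mono (fun l hl => ⟨hl.1, c2_msh_mono hμ₂b hl.2⟩) hz) hbz
  · intro x z hz hbz
    exact hl2' x z (SP_mono (fun l hl => ⟨hl.1, c2_msh_mono hμ₂c hl.2.1,
      fun y hy => lt_of_lt_of_le (hl.2.2 y hy) hδ₁a⟩) hz) hbz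
  · intro t x
    exact lt_of_lt_of_le (hsm t x) (min_le_right _ _)

end AGV
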