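import Pool.Agent.AGV.Ext

/-!
# AGV-C2f: orbit dimension 2, fixed parameters

The data on simplices with fewer than two vertices are written down and `ext_core` is applied.
-/

set_option autoImplicit false

namespace AGV

variable {M N : ℕ} [NeZero M] {X : Type} [MetricSpace X] [Nonempty X]

omit [NeZero M] in
private theorem c2f_shp (t : ℕ) (v : Vx M N) :
    (sh ^ t : Equiv.Perm (Vx M N)) v = (v.1 + (t : ZMod M), v.2) := by
  induction t with
  | zero =>
    rw [pow_zero, Equiv.Perm.one_apply, Nat.cast_zero, add_zero]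
  | succ t ih =>
    rw [pow_succ', Equiv.Perm.mul_apply, ih]
    show ((v.1 + (t : ZMod M)) + 1, v.2) = (v.1 + ((t + 1 : ℕ) : ZMod M), v.2)
    rw [Nat.cast_succ, add_assoc]

omit [NeZero M] in
private theorem c2f_shs (t : ℕ) (v : Vx M N) :
    (sh ^ t : Equiv.Perm (Vx M N)).symm v = (v.1 - (t : ZMod M), v.2) := by
  rw [Equiv.symm_apply_eq, c2f_shp, sub_add_cancel]

private theorem c2f_iso {X : Type} [MetricSpace X] (a : Equiv.Perm X)
    (ha : ∀ x y, dist (a x) (a y) = dist x y) (t : ℕ) (x y : X) :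
    dist ((a ^ t : Equiv.Perm X) x) ((a ^ t : Equiv.Perm X) y) = dist x y := by
  induction t with
  | zero => rw [pow_zero, Equiv.Perm.one_apply, Equiv.Perm.one_apply]
  | succ t ih => rw [pow_succ', Equiv.Perm.mul_apply, Equiv.Perm.mul_apply, ha, ih]

omit [NeZero M] in
private theorem c2f_F {X : Type} (a : Equiv.Perm X) (F : X → Vx M N) (hF : ∀ x, F (a x) = sh (F x))
    (t : ℕ) (x : X) : F ((a ^ t : Equiv.Perm X) x) = (sh ^ t : Equiv.Perm (Vx M N)) (F x) := by
  induction t with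
  | zero => rw [pow_zero, pow_zero, Equiv.Perm.one_apply, Equiv.Perm.one_apply]
  | succ t ih => rw [pow_succ', pow_succ', Equiv.Perm.mul_apply, Equiv.Perm.mul_apply, hF, ih]

omit [NeZero M] in
private theorem c2f_cases {σ : Finset (Vx M N)} (h : σ.card < 2) : σ = ∅ ∨ ∃ v, σ = {v} := by
  rcases Nat.eq_zero_or_pos σ.card with h0 | h0
  · exact Or.inl (Finset.card_eq_zero.1 h0)
  · exact Or.inr (Finset.card_eq_one.1 (by omega))

omit [NeZero M] in
private theorem c2f_fd0 {β : Type} [AddCommGroup β] (D : Finset (Vx M N) → β) : fd D ∅ = 0 := by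
  unfold fd
  exact Finset.sum_empty

omit [NeZero M] in
private theorem c2f_fd1 {β : Type} [AddCommGroup β] (D : Finset (Vx M N) → β) (v : Vx M N) :
    fd D {v} = D ∅ := by
  unfold fd
  rw [Finset.sum_singleton, Finset.erase_singleton]
  have h : sg v ({v} : Finset (Vx M N)) = 1 := by
    unfold sg
    rw [Finset.filter_singleton, if_neg (lt_irrefl _), Finset.card_empty, pow_zero]
  rw [h, one_smul]

private theorem c2f_bd1 {X : Type} (x : X) : bd (Finsupp.single [x] (1 : ℤ)) = Finsupp.single [] 1 := by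
  rw [bd_single, one_smul]
  show Finsupp.single [] 1 - cone x (0 : Ch X) = _
  rw [map_zero, sub_zero]

private theorem c2f_bd2 {X : Type} (x y : X) :
    bd (Finsupp.single [x, y] (1 : ℤ)) = Finsupp.single [y] 1 - Finsupp.single [x] 1 := by
  rw [bd_single, one_smul]
  show Finsupp.single [y] 1 - cone x (Finsupp.single [] 1 - cone y (0 : Ch X)) = _
  rw [map_zero, sub_zero, cone_single]

/-- the mesh in degree `k - 1` -/
private noncomputable def c2f_mu (μ₁ μ₂ μ₃ : ℝ) (k : ℕ) : ℝ :=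
  if k ≤ 1 then μ₁ else if k = 2 then μ₂ else μ₃

private theorem c2f_avoid {X : Type} [MetricSpace X] (a : Equiv.Perm X)
    (ha : ∀ x y, dist (a x) (a y) = dist x y) (F : X → Vx M N) (hF : ∀ x, F (a x) = sh (F x))
    (r : ℝ) (xj : Fin N → X) (hav : ∀ j x, dist x (xj j) < r → F x ≠ (0, j)) (v : Vx M N) (y : X)
    (h : dist y ((a ^ v.1.val : Equiv.Perm X) (xj v.2)) < r) : F y ≠ v := by
  intro hv
  have h1 : (a ^ v.1.val : Equiv.Perm X) ((a ^ v.1.val : Equiv.Perm X).symm y) = y :=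
    Equiv.apply_symm_apply _ _
  have h2 : dist ((a ^ v.1.val : Equiv.Perm X).symm y) (xj v.2) < r := by
    rw [← c2f_iso a ha v.1.val, h1]
    exact h
  apply hav v.2 _ h2
  have h3 := c2f_F a F hF v.1.val ((a ^ v.1.val : Equiv.Perm X).symm y)
  rw [h1, hv] at h3
  have h5 : F ((a ^ v.1.val : Equiv.Perm X).symm y) =
      (sh ^ v.1.val : Equiv.Perm (Vx M N)).symm v := by
    rw [Equiv.eq_symm_apply]
    exact h3.symm
  rw [h5, c2f_shs, ZMod.natCast_zmod_val, sub_self]

private theorem c2f_hbd {X : Type} (a : Equiv.Perm X) (xj : Fin N → X) (h : Fin N → Ch X)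
    (hb : ∀ j, bd (h j) = Finsupp.single [(a ^ M : Equiv.Perm X) (xj j)] 1 - Finsupp.single [xj j] 1)
    (hM2 : 2 ≤ M) (v : Vx M N) :
    bd (if v.1 = 0 then h v.2 else 0) =
      Finsupp.single [a ((a ^ (v.1 - 1).val : Equiv.Perm X) (xj v.2))] 1 -
        Finsupp.single [(a ^ v.1.val : Equiv.Perm X) (xj v.2)] 1 := by
  have h1 : ∀ k : ℕ, a ((a ^ k : Equiv.Perm X) (xj v.2)) = (a ^ (k + 1) : Equiv.Perm X) (xj v.2) := by
    intro k
    rw [pow_succ', Equiv.Perm.mul_apply]
  have hMc : ((M : ℕ) : ZMod M) = 0 := ZMod.natCast_self M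
  by_cases h0 : v.1 = 0
  · rw [if_pos h0, hb, h1, h0]
    have h2 : (0 - 1 : ZMod M).val + 1 = M := by
      have h3 : (0 - 1 : ZMod M) = ((M - 1 : ℕ) : ZMod M) := by
        rw [Nat.cast_sub (by omega), hMc, Nat.cast_one]
      rw [h3, ZMod.val_natCast_of_lt (by omega)]
      omega
    rw [h2, ZMod.val_zero, pow_zero, Equiv.Perm.one_apply]
  · rw [if_neg h0, map_zero, h1]
    have h2 : (v.1 - 1).val + 1 = v.1.val := by
      have h4 : v.1.val ≠ 0 := by
        intro h5
        exact h0 ((ZMod.val_eq_zero v.1).1 h5)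
      have h5 : v.1.val < M := ZMod.val_lt v.1
      have h3 : v.1 - 1 = ((v.1.val - 1 : ℕ) : ZMod M) := by
        rw [Nat.cast_sub (by omega), ZMod.natCast_zmod_val, Nat.cast_one]
      rw [h3, ZMod.val_natCast_of_lt (by omega)]
      omega
    rw [h2, sub_self]

theorem core2_fix (hM2 : 2 ≤ M) (a : Equiv.Perm X) (ha : ∀ x y, dist (a x) (a y) = dist x y)
    (F : X → Vx M N) (hF : ∀ x, F (a x) = sh (F x))
    (r δ₁ μ₁ μ₂ μ₃ : ℝ) (h1 : 0 < μ₁) (h12 : 2 * μ₁ ≤ μ₂) (h23 : 2 * μ₂ ≤ μ₃) (hδ : 0 < δ₁) (hδr : δ₁ ≤ r)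
    (hOK : ∀ l : List X, Msh μ₃ l → OK 2 (l.map F))
    (top : ∀ z ∈ SP (fun l : List X => l.length = 3 ∧ Msh μ₃ l), bd z = 0 → om (mp F z) = 0)
    (f1 : ∀ z ∈ SP (fun l : List X => l.length = 1 ∧ Msh μ₁ l), bd z = 0 →
      ∃ w ∈ SP (fun l : List X => l.length = 2 ∧ Msh μ₂ l), bd w = z)
    (f2 : ∀ z ∈ SP (fun l : List X => l.length = 2 ∧ Msh μ₂ l), bd z = 0 →
      ∃ w ∈ SP (fun l : List X => l.length = 3 ∧ Msh μ₃ l), bd w = z)
    (g2 : ∀ x : X, ∀ z ∈ SP (fun l : List X => l.length = 2 ∧ Msh μ₂ l ∧ ∀ y ∈ l, dist y x < δ₁), bd z = 0 →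
      ∃ w ∈ SP (fun l : List X => l.length = 3 ∧ Msh μ₃ l ∧ ∀ y ∈ l, dist y x < r), bd w = z)
    (xj : Fin N → X) (h : Fin N → Ch X)
    (hh : ∀ j, h j ∈ SP (fun l : List X => l.length = 2 ∧ Msh μ₂ l ∧ ∀ y ∈ l, dist y (xj j) < δ₁ / 2))
    (hb : ∀ j, bd (h j) = Finsupp.single [(a ^ M : Equiv.Perm X) (xj j)] 1 - Finsupp.single [xj j] 1)
    (hsm : ∀ (t : ℕ) (x : X), dist ((a ^ (M * t) : Equiv.Perm X) x) x < δ₁ / 2)
    (n : ℕ) (hn : 0 < n) (hMn : M ∣ n) (hrec : ∀ x, dist ((a ^ n : Equiv.Perm X) x) x < μ₁ / 2)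
    (hav : ∀ j x, dist x (xj j) < r → F x ≠ (0, j)) : False := by
  classical
  have hμ2 : 0 < μ₂ := by linarith
  have hμ3 : 0 < μ₃ := by linarith
  obtain ⟨xv, hxv⟩ : ∃ xv : Vx M N → X, ∀ v, xv v = (a ^ v.1.val : Equiv.Perm X) (xj v.2) :=
    ⟨_, fun _ => rfl⟩
  obtain ⟨hv, hhv⟩ : ∃ hv : Vx M N → Ch X, ∀ v, hv v = if v.1 = 0 then h v.2 else 0 :=
    ⟨_, fun _ => rfl⟩
  have hav' : ∀ (v : Vx M N) (y : X), dist y (xv v) < r → F y ≠ v := by
    intro v y hy
    rw [hxv] at hy
    exact c2f_avoid a ha F hF r xj hav v y hy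
  have hvbd : ∀ v : Vx M N, bd (hv v) =
      Finsupp.single [a (xv (v.1 - 1, v.2))] 1 - Finsupp.single [xv v] 1 := by
    intro v
    rw [hhv, c2f_hbd a xj h hb hM2 v, hxv, hxv]
  -- the chains for the second order homotopy
  have hE : ∀ v : Vx M N, ∃ w ∈ SP (fun l : List X => l.length = 3 ∧ Msh μ₃ l ∧ ∀ y ∈ l, dist y (xv v) < r),
      bd w = (∑ t ∈ Finset.range n, mp (a ^ t : Equiv.Perm X) (hv (v.1 - (t : ZMod M), v.2))) -
        Finsupp.single [xv v, (a ^ n : Equiv.Perm X) (xv v)] 1 := by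
    intro v
    refine g2 (xv v) _ ?_ ?_
    · refine Submodule.sub_mem _ (Submodule.sum_mem _ fun t _ => ?_) (single_mem ?_ 1)
      · by_cases h0 : v.1 - (t : ZMod M) = 0
        · have h3 : hv (v.1 - (t : ZMod M), v.2) = h v.2 := by
            rw [hhv]
            exact if_pos h0
          rw [h3]
          have h4 : ∃ q, t = M * q + v.1.val := by
            refine ⟨t / M, ?_⟩
            have h5 : v.1 = (t : ZMod M) := sub_eq_zero.1 h0
            rw [h5, ZMod.val_natCast]
            exact (Nat.div_add_mod t M).symm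
          obtain ⟨q, rfl⟩ := h4
          refine mp_mem _ (fun l hl => ?_) (hh v.2)
          obtain ⟨hl1, hl2, hl3⟩ := hl
          refine ⟨by rw [List.length_map, hl1], ?_, ?_⟩
          · intro y hy y' hy'
            obtain ⟨u, hu, rfl⟩ := List.mem_map.1 hy
            obtain ⟨u', hu', rfl⟩ := List.mem_map.1 hy'
            rw [c2f_iso a ha]
            exact hl2 u hu u' hu'
          · intro y hy
            obtain ⟨u, hu, rfl⟩ := List.mem_map.1 hy
            have h6 : (a ^ (M * q + v.1.val) : Equiv.Perm X) u =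
                (a ^ (M * q) : Equiv.Perm X) ((a ^ v.1.val : Equiv.Perm X) u) := by
              rw [pow_add, Equiv.Perm.mul_apply]
            rw [h6]
            have h7 := hl3 u hu
            have h8 : dist ((a ^ (M * q) : Equiv.Perm X) ((a ^ v.1.val : Equiv.Perm X) u))
                ((a ^ (M * q) : Equiv.Perm X) (xv v)) = dist u (xj v.2) := by
              rw [c2f_iso a ha, hxv, c2f_iso a ha]
            have h9 := hsm q (xv v)
            have h10 := dist_triangle ((a ^ (M * q) : Equiv.Perm X) ((a ^ v.1.val : Equiv.Perm X) u))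
              ((a ^ (M * q) : Equiv.Perm X) (xv v)) (xv v)
            linarith
        · have h3 : hv (v.1 - (t : ZMod M), v.2) = 0 := by
            rw [hhv]
            exact if_neg h0
          rw [h3, map_zero]
          exact Submodule.zero_mem _
      · have h3 := hrec (xv v)
        have h4 : dist ((a ^ n : Equiv.Perm X) (xv v)) (xv v) < δ₁ / 2 := by
          obtain ⟨q, rfl⟩ := hMn
          exact hsm q (xv v)
        refine ⟨rfl, ?_, ?_⟩
        · intro y hy y' hy'
          rw [List.mem_cons, List.mem_singleton] at hy hy'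
          rcases hy with rfl | rfl <;> rcases hy' with rfl | rfl
          · rw [dist_self]
            exact hμ2
          · rw [dist_comm]
            linarith
          · linarith
          · rw [dist_self]
            exact hμ2
        · intro y hy
          rw [List.mem_cons, List.mem_singleton] at hy
          rcases hy with rfl | rfl
          · rw [dist_self]
            exact hδ
          · linarith
    · rw [map_sub, map_sum, c2f_bd2]
      have h3 : ∀ t ∈ Finset.range n,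
          bd (mp (a ^ t : Equiv.Perm X) (hv (v.1 - (t : ZMod M), v.2))) =
          Finsupp.single [(a ^ (t + 1) : Equiv.Perm X) (xv (v.1 - ((t + 1 : ℕ) : ZMod M), v.2))] 1 -
            Finsupp.single [(a ^ t : Equiv.Perm X) (xv (v.1 - (t : ZMod M), v.2))] (1 : ℤ) := by
        intro t _
        rw [bd_mp, hvbd, map_sub, mp_single, mp_single, List.map_singleton, List.map_singleton]
        have h4 : ((v.1 - (t : ZMod M), v.2) : Vx M N).1 - 1 = v.1 - ((t + 1 : ℕ) : ZMod M) := by
          show v.1 - (t : ZMod M) - 1 = _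
          rw [Nat.cast_succ]
          ring
        have h5 : ((v.1 - (t : ZMod M), v.2) : Vx M N).2 = v.2 := rfl
        rw [h4, h5, pow_succ, Equiv.Perm.mul_apply]
      rw [Finset.sum_congr rfl h3, Finset.sum_range_sub (fun t =>
        (Finsupp.single [(a ^ t : Equiv.Perm X) (xv (v.1 - (t : ZMod M), v.2))] (1 : ℤ) : Ch X)) n]
      have h4 : ((n : ℕ) : ZMod M) = 0 := (ZMod.natCast_eq_zero_iff n M).2 hMn
      rw [h4, Nat.cast_zero, sub_zero, pow_zero, Equiv.Perm.one_apply, sub_self]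
  choose e heP hebd using hE
  -- the meshes
  have hmu3 : ∀ k, c2f_mu μ₁ μ₂ μ₃ k ≤ μ₃ := by
    intro k
    unfold c2f_mu
    split_ifs <;> linarith
  have hmup : ∀ k, 0 < c2f_mu μ₁ μ₂ μ₃ k := by
    intro k
    unfold c2f_mu
    split_ifs <;> linarith
  have m1 : c2f_mu μ₁ μ₂ μ₃ 1 = μ₁ := by
    unfold c2f_mu
    exact if_pos le_rfl
  have m2 : c2f_mu μ₁ μ₂ μ₃ 2 = μ₂ := by
    unfold c2f_mu
    rw [if_neg (by norm_num), if_pos rfl]
  have m3 : c2f_mu μ₁ μ₂ μ₃ 3 = μ₃ := by
    unfold c2f_mu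
    rw [if_neg (by norm_num), if_neg (by norm_num)]
  have hs0 : ∀ v : Vx M N, (if ({v} : Finset (Vx M N)) = ∅ then (Finsupp.single [] 1 : Ch X) else
      ∑ u ∈ ({v} : Finset (Vx M N)), Finsupp.single [xv u] 1) = Finsupp.single [xv v] 1 := by
    intro v
    rw [if_neg (Finset.singleton_ne_empty v), Finset.sum_singleton]
  refine ext_core (d := 2) (n := n) hM2 (by norm_num) hn hMn a F hF
    (fun k => SP (fun l : List X => l.length = k ∧ Msh (c2f_mu μ₁ μ₂ μ₃ k) l)) ?_ ?_ ?_ ?_ ?_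
    (fun σ => if σ = ∅ then Finsupp.single [] 1 else ∑ v ∈ σ, Finsupp.single [xv v] 1)
    (fun σ => ∑ v ∈ σ, hv v) (fun σ => ∑ v ∈ σ, e v) ?_ ?_ ?_ ?_ ?_ ?_ ?_ ?_ ?_ ?_ ?_ ?_
  · -- A_len
    intro k z hz
    refine SP_mono (fun l hl => ⟨hl.1, hOK l ?_⟩) hz
    intro y hy y' hy'
    exact lt_of_lt_of_le (hl.2 y hy y' hy') (hmu3 k)
  · -- A_a
    intro k z hz
    refine mp_mem _ (fun l hl => ⟨by rw [List.length_map, hl.1], ?_⟩) hz
    intro y hy y' hy'
    obtain ⟨u, hu, rfl⟩ := List.mem_map.1 hy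
    obtain ⟨u', hu', rfl⟩ := List.mem_map.1 hy'
    rw [ha]
    exact hl.2 u hu u' hu'
  · -- A_pr
    intro k hk z hz
    refine pr_mem _ _ (fun l hl l' hl1 hl2 => ⟨by rw [hl1, hl.1], ?_⟩) hz
    intro y hy y' hy'
    obtain ⟨u, hu, hyu⟩ := hl2 y hy
    obtain ⟨u', hu', hyu'⟩ := hl2 y' hy'
    have hk0 : k ≠ 0 := by
      rintro rfl
      rw [List.length_eq_zero_iff.1 hl.1] at hu
      exact List.not_mem_nil hu
    have h3 : c2f_mu μ₁ μ₂ μ₃ k + μ₁ / 2 ≤ c2f_mu μ₁ μ₂ μ₃ (k + 1) := by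
      have h4 : k = 1 ∨ k = 2 := by omega
      rcases h4 with rfl | rfl
      · rw [m1, m2]
        linarith
      · rw [m2, m3]
        linarith
    have h5 := hl.2 u hu u' hu'
    have h6 := hrec u
    have h7 := hrec u'
    refine lt_of_lt_of_le ?_ h3
    rcases hyu with hyu | hyu <;> rcases hyu' with hyu' | hyu' <;> rw [hyu, hyu']
    · show dist u u' < _
      linarith
    · show dist u ((a ^ n : Equiv.Perm X) u') < _
      have h8 := dist_triangle u u' ((a ^ n : Equiv.Perm X) u')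
      rw [dist_comm] at h7
      linarith
    · show dist ((a ^ n : Equiv.Perm X) u) u' < _
      have h8 := dist_triangle ((a ^ n : Equiv.Perm X) u) u u'
      linarith
    · rw [c2f_iso a ha]
      linarith
  · -- top
    intro z hz hbz
    refine top z ?_ hbz
    have h3 : z ∈ SP (fun l : List X => l.length = 2 + 1 ∧ Msh (c2f_mu μ₁ μ₂ μ₃ (2 + 1)) l) := hz
    have h4 : (2 + 1 : ℕ) = 3 := rfl
    rw [h4, m3] at h3
    exact h3
  · -- hfill
    intro k hk z hz hbz
    have h3 : k = 0 ∨ k = 1 ∨ k = 2 := by omega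
    rcases h3 with rfl | rfl | rfl
    · obtain ⟨x⟩ := (inferInstance : Nonempty X)
      have hmem : cone x z ∈ SP (fun l : List X => l.length = 0 + 1 ∧ Msh (c2f_mu μ₁ μ₂ μ₃ (0 + 1)) l) := by
        refine cone_mem x (fun l hl => ⟨by rw [List.length_cons, hl.1], ?_⟩) hz
        intro y hy y' hy'
        rw [List.length_eq_zero_iff.1 hl.1, List.mem_singleton] at hy hy'
        rw [hy, hy', dist_self]
        exact hmup _
      refine ⟨cone x z, hmem, ?_⟩
      rw [bd_cone, hbz, map_zero, sub_zero]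
    · have hz' : z ∈ SP (fun l : List X => l.length = 1 ∧ Msh (c2f_mu μ₁ μ₂ μ₃ 1) l) := hz
      rw [m1] at hz'
      obtain ⟨w, hw, hbw⟩ := f1 z hz' hbz
      refine ⟨w, ?_, hbw⟩
      show w ∈ SP (fun l : List X => l.length = 2 ∧ Msh (c2f_mu μ₁ μ₂ μ₃ 2) l)
      rw [m2]
      exact hw
    · have hz' : z ∈ SP (fun l : List X => l.length = 2 ∧ Msh (c2f_mu μ₁ μ₂ μ₃ 2) l) := hz
      rw [m2] at hz'
      obtain ⟨w, hw, hbw⟩ := f2 z hz' hbz
      refine ⟨w, ?_, hbw⟩
      show w ∈ SP (fun l : List X => l.length = 3 ∧ Msh (c2f_mu μ₁ μ₂ μ₃ 3) l)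
      rw [m3]
      exact hw
  · -- s_empty
    exact if_pos rfl
  · -- H_empty
    exact Finset.sum_empty
  · -- E_empty
    exact Finset.sum_empty
  · -- s_mem
    intro σ _ hσ
    rcases c2f_cases hσ with rfl | ⟨v, rfl⟩
    · rw [if_pos rfl]
      exact single_mem ⟨rfl, fun y hy => absurd hy List.not_mem_nil⟩ 1
    · rw [hs0]
      refine single_mem ⟨by rw [Finset.card_singleton]; rfl, ?_⟩ 1
      intro y hy y' hy'
      rw [List.mem_singleton] at hy hy'
      rw [hy, hy', dist_self]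
      exact hmup _
  · -- s_bd
    intro σ _ hσ
    rcases c2f_cases hσ with rfl | ⟨v, rfl⟩
    · rw [c2f_fd0, if_pos rfl, bd_single, one_smul]
      rfl
    · rw [c2f_fd1, hs0, if_pos rfl, c2f_bd1]
  · -- H_mem
    intro σ _ hσ
    rcases c2f_cases hσ with rfl | ⟨v, rfl⟩
    · rw [Finset.sum_empty]
      exact Submodule.zero_mem _
    · rw [Finset.sum_singleton, Finset.card_singleton, hhv]
      split_ifs
      · show h v.2 ∈ SP (fun l : List X => l.length = 2 ∧ Msh (c2f_mu μ₁ μ₂ μ₃ 2) l)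
        rw [m2]
        exact SP_mono (fun l hl => ⟨hl.1, hl.2.1⟩) (hh v.2)
      · exact Submodule.zero_mem _
  · -- H_bd
    intro σ _ hσ
    rcases c2f_cases hσ with rfl | ⟨v, rfl⟩
    · rw [c2f_fd0, Finset.sum_empty, Finset.image_empty, if_pos rfl, mp_single, List.map_nil,
        sub_self, map_zero, add_zero]
    · rw [c2f_fd1, Finset.sum_empty, Finset.sum_singleton, Finset.image_singleton, hs0, hs0,
        mp_single, List.map_singleton, add_zero, hvbd]
      rfl
  · -- E_mem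
    intro σ _ hσ
    rcases c2f_cases hσ with rfl | ⟨v, rfl⟩
    · rw [Finset.sum_empty]
      exact Submodule.zero_mem _
    · rw [Finset.sum_singleton, Finset.card_singleton]
      show e v ∈ SP (fun l : List X => l.length = 3 ∧ Msh (c2f_mu μ₁ μ₂ μ₃ 3) l)
      rw [m3]
      exact SP_mono (fun l hl => ⟨hl.1, hl.2.1⟩) (heP v)
  · -- E_bd
    intro σ _ hσ
    rcases c2f_cases hσ with rfl | ⟨v, rfl⟩
    · rw [c2f_fd0, Finset.sum_empty, map_zero, if_pos rfl, pr_single, one_smul, add_zero]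
      have h3 : ∀ t ∈ Finset.range n, mp (a ^ t : Equiv.Perm X)
          (∑ v ∈ (∅ : Finset (Vx M N)).image (sh ^ t : Equiv.Perm (Vx M N)).symm, hv v) = 0 := by
        intro t _
        rw [Finset.image_empty, Finset.sum_empty, map_zero]
      rw [Finset.sum_congr rfl h3, Finset.sum_const_zero]
      show (0 : Ch X) = 0 - 0
      rw [sub_zero]
    · rw [c2f_fd1, Finset.sum_empty, Finset.sum_singleton, hs0, pr_single, one_smul, add_zero,
        hebd]
      have h3 : ∀ t ∈ Finset.range n, mp (a ^ t : Equiv.Perm X)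
          (∑ u ∈ ({v} : Finset (Vx M N)).image (sh ^ t : Equiv.Perm (Vx M N)).symm, hv u) =
          mp (a ^ t : Equiv.Perm X) (hv (v.1 - (t : ZMod M), v.2)) := by
        intro t _
        rw [Finset.image_singleton, Finset.sum_singleton, c2f_shs]
      rw [Finset.sum_congr rfl h3]
      have h4 : prL id (a ^ n : Equiv.Perm X) [xv v] =
          Finsupp.single [xv v, (a ^ n : Equiv.Perm X) (xv v)] 1 - cone (xv v) (0 : Ch X) := rfl
      rw [h4, map_zero, sub_zero]
  · -- av_s
    intro σ _ h0 hσ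
    rcases c2f_cases hσ with rfl | ⟨v, rfl⟩
    · exact absurd h0 (lt_irrefl 0)
    · rw [hs0]
      refine single_mem ?_ 1
      rw [Finset.singleton_subset_iff, List.mem_toFinset, List.map_singleton, List.mem_singleton]
      intro h3
      exact hav' v (xv v) (by rw [dist_self]; linarith) h3.symm
  · -- av_H
    intro σ _ h0 hσ
    rcases c2f_cases hσ with rfl | ⟨v, rfl⟩
    · exact absurd h0 (lt_irrefl 0)
    · rw [Finset.sum_singleton, hhv]
      by_cases h3 : v.1 = 0
      · rw [if_pos h3]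
        refine SP_mono (fun l hl => ?_) (hh v.2)
        rw [Finset.singleton_subset_iff, List.mem_toFinset]
        intro h4
        obtain ⟨y, hy, hyv⟩ := List.mem_map.1 h4
        refine hav v.2 y ?_ ?_
        · have := hl.2.2 y hy
          linarith
        · rw [hyv]
          exact Prod.ext h3 rfl
      · rw [if_neg h3]
        exact Submodule.zero_mem _
  · -- av_E
    intro σ _ h0 hσ
    rcases c2f_cases hσ with rfl | ⟨v, rfl⟩
    · exact absurd h0 (lt_irrefl 0)
    · rw [Finset.sum_singleton]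
      refine SP_mono (fun l hl => ?_) (heP v)
      rw [Finset.singleton_subset_iff, List.mem_toFinset]
      intro h4
      obtain ⟨y, hy, hyv⟩ := List.mem_map.1 h4
      exact hav' v y (hl.2.2 y hy) hyv

end AGV
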