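import Pool.Agent.AGV.C3f

/-!
# AGV-C3: orbit dimension 3, choice of the parameters

`δ₃ ≤ r` from `VLC X 3` for `ε = r`; `r₂ = δ₃ / 3`; `δ₂ ≤ r₂` from `VLC X 2` for `ε = r₂`; `r₁ = δ₂ / 3`; `δ₁ ≤ r₁` from `VLC X 1` for `ε = r₁`; `δ = δ₁`. (Take minima, so that the balls may be made smaller; `SP_mono`.) Given `L`: `μ₄ = L`; `μ₃ ≤ μ₄ / 2` at most the numbers of `VC X 3` and `VLC X 3` (`ε = r`) for `η = μ₄`;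
`μ₂ ≤ μ₃ / 2` at most the numbers of `VC X 2` and `VLC X 2` (`ε = r₂`) for `η = μ₃`, and at most `δ₂ / 3`, `δ₃ / 3`, `r`; `μ₁ ≤ μ₂ / 2`, `≤ δ₁`, at most the number of `VC X 1` for `η = μ₂`. `g1`: `VLC X 1` with `ε = r₁`, `η = μ₂` (for lists of one point `Msh` with any positive number holds). `n = M q` from `hrec` for `μ₁`
(`M ∣ n`, `0 < n`). `r₁ + δ₁ + μ₂ ≤ 3 (δ₂ / 3)`, `r₂ + δ₁ + μ₂ ≤ δ₃`.
-/

set_option autoImplicit false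

namespace AGV

private theorem c3_msh {X : Type} [PseudoMetricSpace X] {μ μ' : ℝ} (h : μ ≤ μ') {l : List X}
    (hl : Msh μ l) : Msh μ' l := fun x hx y hy => (hl x hx y hy).trans_le h

private theorem c3_msh_one {X : Type} [PseudoMetricSpace X] {μ : ℝ} (h : 0 < μ) {l : List X}
    (hl : l.length = 1) : Msh μ l := by
  obtain ⟨p, rfl⟩ := List.length_eq_one_iff.1 hl
  intro x hx y hy
  rw [List.mem_singleton] at hx hy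
  rw [hx, hy, dist_self]
  exact h

theorem core3 {X : Type} [MetricSpace X] [Nonempty X] (h1 : VC X 1) (h2 : VC X 2) (h3 : VC X 3)
    (l1 : VLC X 1) (l2 : VLC X 2) (l3 : VLC X 3) (a : Equiv.Perm X) (ha : ∀ x y, dist (a x) (a y) = dist x y)
    (hfree : ∀ (t : ℤ) (x : X), (a ^ t : Equiv.Perm X) x = x → a ^ t = 1) (r : ℝ) (hr : 0 < r) :
    ∃ δ : ℝ, 0 < δ ∧ ∀ (M N : ℕ) (_ : NeZero M), 2 ≤ M → ∀ F : X → Vx M N, (∀ x, F (a x) = sh (F x)) →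
      (∀ (t : ℕ) (x : X), dist ((a ^ (M * t) : Equiv.Perm X) x) x < δ) →
      (∀ μ : ℝ, 0 < μ → ∃ n : ℕ, 0 < n ∧ M ∣ n ∧ ∀ x, dist ((a ^ n : Equiv.Perm X) x) x < μ) →
      (∃ L : ℝ, 0 < L ∧ (∀ l : List X, Msh L l → OK 3 (l.map F)) ∧
        ∀ z ∈ SP (fun l : List X => l.length = 4 ∧ Msh L l), bd z = 0 → om (mp F z) = 0) →
      ∀ O : Vx M N → Set X, (∀ v, IsPreconnected (O v)) → (∀ v w, (O v ∩ O w).Nonempty) →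
        (∀ v x, a x ∈ O (sh v) ↔ x ∈ O v) → (∀ v, ∀ x ∈ O v, ∀ y, dist y x < r → F y ≠ v) → False := by
  obtain ⟨d3, hd3, H3⟩ := l3 r hr
  obtain ⟨r₂, hr₂, hr₂a, hr₂b⟩ : ∃ r₂ : ℝ, 0 < r₂ ∧ r₂ ≤ d3 / 3 ∧ r₂ ≤ r :=
    ⟨min (d3 / 3) r, lt_min (by positivity) hr, min_le_left _ _, min_le_right _ _⟩
  obtain ⟨d2, hd2, H2⟩ := l2 r₂ hr₂
  obtain ⟨r₁, hr₁, hr₁a, hr₁b⟩ : ∃ r₁ : ℝ, 0 < r₁ ∧ r₁ ≤ d2 / 3 ∧ r₁ ≤ r₂ :=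
    ⟨min (d2 / 3) r₂, lt_min (by positivity) hr₂, min_le_left _ _, min_le_right _ _⟩
  obtain ⟨d1, hd1, H1⟩ := l1 r₁ hr₁
  obtain ⟨δ, hδ, hδa, hδb⟩ : ∃ δ : ℝ, 0 < δ ∧ δ ≤ d1 ∧ δ ≤ r₁ :=
    ⟨min d1 r₁, lt_min hd1 hr₁, min_le_left _ _, min_le_right _ _⟩
  refine ⟨δ, hδ, ?_⟩
  intro M N _ hM2 F hF hsm hrec ⟨L, hL, hOK, htop⟩ O hO hOO hOa hOF
  obtain ⟨a3, ha3, A3⟩ := h3 L hL
  obtain ⟨b3, hb3, B3⟩ := H3 L hL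
  obtain ⟨μ₃, hμ₃, m3a, m3b, m3c⟩ : ∃ μ₃ : ℝ, 0 < μ₃ ∧ μ₃ ≤ a3 ∧ μ₃ ≤ b3 ∧ μ₃ ≤ L / 2 :=
    ⟨min (min a3 b3) (L / 2), lt_min (lt_min ha3 hb3) (by positivity),
      (min_le_left _ _).trans (min_le_left _ _), (min_le_left _ _).trans (min_le_right _ _),
      min_le_right _ _⟩
  obtain ⟨a2, ha2, A2⟩ := h2 μ₃ hμ₃
  obtain ⟨b2, hb2, B2⟩ := H2 μ₃ hμ₃
  obtain ⟨μ₂, hμ₂, m2a, m2b, m2c, m2d, m2e, m2f⟩ : ∃ μ₂ : ℝ, 0 < μ₂ ∧ μ₂ ≤ a2 ∧ μ₂ ≤ b2 ∧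
      μ₂ ≤ μ₃ / 2 ∧ μ₂ ≤ d2 / 3 ∧ μ₂ ≤ d3 / 3 ∧ μ₂ ≤ r := by
    refine ⟨min a2 (min b2 (min (μ₃ / 2) (min (d2 / 3) (min (d3 / 3) r)))), ?_, ?_, ?_, ?_, ?_,
      ?_, ?_⟩
    · exact lt_min ha2 (lt_min hb2 (lt_min (by positivity) (lt_min (by positivity)
        (lt_min (by positivity) hr))))
    · exact min_le_left _ _
    · exact (min_le_right _ _).trans (min_le_left _ _)
    · exact (min_le_right _ _).trans ((min_le_right _ _).trans (min_le_left _ _))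
    · exact (min_le_right _ _).trans ((min_le_right _ _).trans ((min_le_right _ _).trans
        (min_le_left _ _)))
    · exact (min_le_right _ _).trans ((min_le_right _ _).trans ((min_le_right _ _).trans
        ((min_le_right _ _).trans (min_le_left _ _))))
    · exact (min_le_right _ _).trans ((min_le_right _ _).trans ((min_le_right _ _).trans
        ((min_le_right _ _).trans (min_le_right _ _))))
  obtain ⟨a1, ha1, A1⟩ := h1 μ₂ hμ₂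
  obtain ⟨b1, hb1, B1⟩ := H1 μ₂ hμ₂
  obtain ⟨μ₁, hμ₁, m1a, m1b, m1c⟩ : ∃ μ₁ : ℝ, 0 < μ₁ ∧ μ₁ ≤ a1 ∧ μ₁ ≤ μ₂ / 2 ∧ μ₁ ≤ δ :=
    ⟨min a1 (min (μ₂ / 2) δ), lt_min ha1 (lt_min (by positivity) hδ), min_le_left _ _,
      (min_le_right _ _).trans (min_le_left _ _), (min_le_right _ _).trans (min_le_right _ _)⟩
  obtain ⟨n, hn, ⟨q, rfl⟩, hn2⟩ := hrec μ₁ hμ₁
  have hq : 0 < q := Nat.pos_of_mul_pos_left hn
  refine core3_fix hM2 a ha hfree F hF r r₁ r₂ δ d2 d3 μ₁ μ₂ μ₃ L hμ₁ (by linarith) (by linarith)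
    (by linarith) m1c hδ hr₁ hr₁b hr₂b m2f (by linarith) (by linarith) hOK htop ?_ ?_ ?_ ?_ ?_ ?_
    hsm q hq hn2 O hO hOO hOa hOF
  · intro z hz hb
    exact A1 z (SP_mono (fun l h => ⟨h.1, c3_msh m1a h.2⟩) hz) hb
  · intro z hz hb
    exact A2 z (SP_mono (fun l h => ⟨h.1, c3_msh m2a h.2⟩) hz) hb
  · intro z hz hb
    exact A3 z (SP_mono (fun l h => ⟨h.1, c3_msh m3a h.2⟩) hz) hb
  · intro x z hz hb
    exact B1 x z (SP_mono (fun l h => ⟨h.1, c3_msh_one hb1 h.1,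
      fun y hy => (h.2 y hy).trans_le hδa⟩) hz) hb
  · intro x z hz hb
    exact B2 x z (SP_mono (fun l h => ⟨h.1, c3_msh m2b h.2.1, h.2.2⟩) hz) hb
  · intro x z hz hb
    exact B3 x z (SP_mono (fun l h => ⟨h.1, c3_msh m3b h.2.1, h.2.2⟩) hz) hb

end AGV
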