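import Pool.Agent.AGV.Defs

/-!
# AGV-EqCh: equivariant choice

The relation `x ~ y ↔ ∃ t : ℤ, y = (a ^ t) x` is an equivalence; choose a representative `r x` of each class (`Quotient.out`), `t x` with `x = (a ^ t x) (r x)`, `y₀` with `P (r x) (y₀ (r x))`, and put `L x = (b ^ t x) (y₀ (r x))`. `P` is
invariant under `(a ^ t, b ^ t)`. `L (a x) = b (L x)`: `r (a x) = r x` and `(a ^ t (a x)) (r x) = a x = (a ^ (t x + 1)) (r x)`, so `a ^ (t (a x) - t x - 1)` fixes a point and `b ^ (t (a x) - t x - 1) = 1` by `hfree`.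
-/

set_option autoImplicit false

namespace AGV

theorem equivariant_choice {X B : Type} (a : Equiv.Perm X) (b : Equiv.Perm B) (P : X → B → Prop)
    (hP : ∀ x y, P x y ↔ P (a x) (b y)) (hex : ∀ x, ∃ y, P x y)
    (hfree : ∀ (t : ℤ) (x : X), (a ^ t : Equiv.Perm X) x = x → b ^ t = 1) :
    ∃ L : X → B, (∀ x, P x (L x)) ∧ ∀ x, L (a x) = b (L x) := by
  classical
  have hPt : ∀ (t : ℤ) (x : X) (y : B),
      P x y ↔ P ((a ^ t : Equiv.Perm X) x) ((b ^ t : Equiv.Perm B) y) := by
    intro t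
    induction t using Int.induction_on with
    | zero =>
      intro x y
      simp
    | succ i ih =>
      intro x y
      rw [ih x y, hP, add_comm, zpow_one_add, zpow_one_add, Equiv.Perm.mul_apply,
        Equiv.Perm.mul_apply]
    | pred i ih =>
      intro x y
      have h1 : (a ^ (-(i : ℤ)) : Equiv.Perm X) x = a ((a ^ (-(i : ℤ) - 1) : Equiv.Perm X) x) := by
        rw [← Equiv.Perm.mul_apply, ← zpow_one_add]
        congr 2
        ring
      have h2 : (b ^ (-(i : ℤ)) : Equiv.Perm B) y = b ((b ^ (-(i : ℤ) - 1) : Equiv.Perm B) y) := by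
        rw [← Equiv.Perm.mul_apply, ← zpow_one_add]
        congr 2
        ring
      rw [ih x y, h1, h2]
      exact (hP _ _).symm
  let S : Setoid X := ⟨fun x y => ∃ t : ℤ, (a ^ t : Equiv.Perm X) x = y,
    ⟨fun x => ⟨0, by simp⟩, fun {x y} h => by
      obtain ⟨t, h⟩ := h
      refine ⟨-t, ?_⟩
      rw [← h, ← Equiv.Perm.mul_apply, ← zpow_add]
      simp, fun {x y z} h h' => by
      obtain ⟨t, h⟩ := h
      obtain ⟨s, h'⟩ := h'
      exact ⟨s + t, by rw [zpow_add, Equiv.Perm.mul_apply, h, h']⟩⟩⟩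
  obtain ⟨r, hr, hra⟩ : ∃ r : X → X, (∀ x, ∃ t : ℤ, (a ^ t : Equiv.Perm X) (r x) = x) ∧
      ∀ x, r (a x) = r x := by
    refine ⟨fun x => (Quotient.mk S x).out, fun x => Quotient.mk_out x, fun x => ?_⟩
    have h1 : Quotient.mk S (a x) = Quotient.mk S x := Quotient.sound ⟨-1, by simp⟩
    show (Quotient.mk S (a x)).out = (Quotient.mk S x).out
    rw [h1]
  choose t ht using hr
  choose y0 hy0 using hex
  refine ⟨fun x => (b ^ t x : Equiv.Perm B) (y0 (r x)), fun x => ?_, fun x => ?_⟩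
  · have h1 := (hPt (t x) (r x) (y0 (r x))).1 (hy0 _)
    rwa [ht x] at h1
  · have h1 : (a ^ (t x + 1) : Equiv.Perm X) (r x) = a x := by
      rw [add_comm, zpow_one_add, Equiv.Perm.mul_apply, ht x]
    have h2 : (a ^ t (a x) : Equiv.Perm X) (r x) = a x := by
      rw [← hra x]
      exact ht (a x)
    have h3 : (a ^ (t (a x) - (t x + 1)) : Equiv.Perm X) (a x) = a x := by
      have h4 : (a ^ (-(t x + 1)) : Equiv.Perm X) (a x) = r x := by
        rw [← h1, ← Equiv.Perm.mul_apply, ← zpow_add]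
        simp
      rw [sub_eq_add_neg, zpow_add, Equiv.Perm.mul_apply, h4, h2]
    have h5 := hfree _ _ h3
    have h6 : b ^ t (a x) = b ^ (t x + 1) := by
      rw [zpow_sub, mul_inv_eq_one] at h5
      exact h5
    show (b ^ t (a x) : Equiv.Perm B) (y0 (r (a x))) = b ((b ^ t x : Equiv.Perm B) (y0 (r x)))
    rw [hra, h6, add_comm, zpow_one_add, Equiv.Perm.mul_apply]

end AGV
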