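import Pool.Agent.AGV.Lst
import Pool.Agent.AGV.LstS
import Pool.Agent.AGV.EqCh

/-!
# AGV-LocE: equivariant local second order homotopy, and the correction `ξ`

Cycles are filled equivariantly (`equivariant_choice`), first for one point, then for two points.
-/

set_option autoImplicit false

namespace AGV

section aux

variable {X : Type}

/-- chains of small mesh in a small ball -/
private noncomputable def BS [MetricSpace X] (k : ℕ) (μ ρ : ℝ) (x : X) : Submodule ℤ (Ch X) :=
  SP (fun l : List X => l.length = k ∧ Msh μ l ∧ ∀ y ∈ l, dist y x < ρ)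

private theorem BS_mono [MetricSpace X] {k : ℕ} {μ μ' ρ ρ' : ℝ} {x : X} {z : Ch X}
    (hz : z ∈ BS k μ ρ x) (h1 : μ ≤ μ') (h2 : ρ ≤ ρ') : z ∈ BS k μ' ρ' x :=
  SP_mono (fun _ hl => ⟨hl.1, fun u hu w hw => lt_of_lt_of_le (hl.2.1 u hu w hw) h1,
    fun y hy => lt_of_lt_of_le (hl.2.2 y hy) h2⟩) hz

private theorem BS_move [MetricSpace X] {k : ℕ} {μ ρ ρ' : ℝ} {x y : X} {z : Ch X}
    (hz : z ∈ BS k μ ρ y) (h : dist y x < ρ') : z ∈ BS k μ (ρ + ρ') x :=
  SP_mono (fun _ hl => ⟨hl.1, hl.2.1, fun u hu => by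
    have h1 := hl.2.2 u hu
    have h2 := dist_triangle u y x
    linarith⟩) hz

private theorem BS_mp [MetricSpace X] {k : ℕ} {μ ρ ρ' : ℝ} {x : X} {z : Ch X}
    (c : Equiv.Perm X) (hc : ∀ x y, dist (c x) (c y) = dist x y) (h : dist (c x) x < ρ')
    (hz : z ∈ BS k μ ρ x) : mp c z ∈ BS k μ (ρ + ρ') x := by
  refine mp_mem _ (fun l hl => ⟨by rw [List.length_map, hl.1], ?_, ?_⟩) hz
  · intro y hy y' hy'
    obtain ⟨u, hu, rfl⟩ := List.mem_map.1 hy
    obtain ⟨u', hu', rfl⟩ := List.mem_map.1 hy'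
    rw [hc]
    exact hl.2.1 u hu u' hu'
  · intro y hy
    obtain ⟨u, hu, rfl⟩ := List.mem_map.1 hy
    have h1 := hl.2.2 u hu
    rw [← hc u x] at h1
    have h2 := dist_triangle (c u) (c x) x
    linarith

private theorem BS_eq [MetricSpace X] {k : ℕ} {μ ρ : ℝ} {x : X} {z : Ch X}
    (c : Equiv.Perm X) (hc : ∀ x y, dist (c x) (c y) = dist x y)
    (hz : z ∈ BS k μ ρ x) : mp c z ∈ BS k μ ρ (c x) := by
  refine mp_mem _ (fun l hl => ⟨by rw [List.length_map, hl.1], ?_, ?_⟩) hz
  · intro y hy y' hy'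
    obtain ⟨u, hu, rfl⟩ := List.mem_map.1 hy
    obtain ⟨u', hu', rfl⟩ := List.mem_map.1 hy'
    rw [hc]
    exact hl.2.1 u hu u' hu'
  · intro y hy
    obtain ⟨u, hu, rfl⟩ := List.mem_map.1 hy
    rw [hc]
    exact hl.2.2 u hu

private theorem BS_pr [MetricSpace X] {k : ℕ} {μ ρ μ₁ : ℝ} {x : X} {z : Ch X}
    (c : Equiv.Perm X) (hc : ∀ x y, dist (c x) (c y) = dist x y) (h : ∀ x, dist (c x) x < μ₁)
    (h0 : 0 < μ₁) (hz : z ∈ BS k μ ρ x) : pr id c z ∈ BS (k + 1) (μ + μ₁) (ρ + μ₁) x := by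
  refine pr_mem _ _ (fun l hl l' hl1 hl2 => ⟨by rw [hl1, hl.1], ?_, ?_⟩) hz
  · intro y hy y' hy'
    obtain ⟨u, hu, hyu⟩ := hl2 y hy
    obtain ⟨u', hu', hyu'⟩ := hl2 y' hy'
    have h5 := hl.2.1 u hu u' hu'
    have h6 := h u
    have h7 := h u'
    rcases hyu with hyu | hyu <;> rcases hyu' with hyu' | hyu' <;> rw [hyu, hyu']
    · show dist u u' < _
      linarith
    · show dist u (c u') < _
      have h8 := dist_triangle u u' (c u')
      rw [dist_comm] at h7
      linarith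
    · show dist (c u) u' < _
      have h8 := dist_triangle (c u) u u'
      linarith
    · rw [hc]
      linarith
  · intro y hy
    obtain ⟨u, hu, hyu⟩ := hl2 y hy
    have h5 := hl.2.2 u hu
    have h6 := h u
    rcases hyu with hyu | hyu <;> rw [hyu]
    · show dist u x < _
      linarith
    · have h8 := dist_triangle (c u) u x
      linarith

private theorem mp_inv (a : Equiv.Perm X) (z : Ch X) : mp a.symm (mp a z) = z := by
  rw [mp_mp]
  have h : (a.symm ∘ a : X → X) = id := by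
    funext x
    exact a.symm_apply_apply x
  rw [h, mp_id]

private theorem mp_inv' (a : Equiv.Perm X) (z : Ch X) : mp a (mp a.symm z) = z := by
  rw [mp_mp]
  have h : (a ∘ a.symm : X → X) = id := by
    funext x
    exact a.apply_symm_apply x
  rw [h, mp_id]

private theorem mp_inj (a : Equiv.Perm X) {z w : Ch X} (h : mp a z = mp a w) : z = w := by
  rw [← mp_inv a z, h, mp_inv]

private theorem BS_iff [MetricSpace X] {k : ℕ} {μ ρ : ℝ} {x : X} {z : Ch X}
    (c : Equiv.Perm X) (hc : ∀ x y, dist (c x) (c y) = dist x y) :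
    z ∈ BS k μ ρ x ↔ mp c z ∈ BS k μ ρ (c x) := by
  refine ⟨BS_eq c hc, fun h => ?_⟩
  have hc' : ∀ x y, dist (c.symm x) (c.symm y) = dist x y := by
    intro x y
    rw [← hc, c.apply_symm_apply, c.apply_symm_apply]
  have h1 := BS_eq c.symm hc' h
  rw [mp_inv, c.symm_apply_apply] at h1
  exact h1

/-- permutations of the points act on chains -/
private noncomputable def bpH : Equiv.Perm X →* Equiv.Perm (Ch X) where
  toFun a :=
    { toFun := fun z => mp a z
      invFun := fun z => mp a.symm z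
      left_inv := mp_inv a
      right_inv := mp_inv' a }
  map_one' := by
    ext1 z
    exact mp_id z
  map_mul' a b := by
    ext1 z
    exact (mp_mp b a z).symm

private theorem bpH_apply (a : Equiv.Perm X) (z : Ch X) : bpH a z = mp a z := rfl

/-- diagonal action on pairs -/
private def dgH : Equiv.Perm X →* Equiv.Perm (X × X) where
  toFun a := Equiv.prodCongr a a
  map_one' := by
    ext1 p
    rfl
  map_mul' a b := by
    ext1 p
    rfl

private theorem dgH_apply (a : Equiv.Perm X) (p : X × X) : dgH a p = (a p.1, a p.2) := rfl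

private theorem mp_comp (a b : Equiv.Perm X) (z : Ch X) : mp a (mp b z) = mp (a * b : Equiv.Perm X) z :=
  mp_mp b a z

private theorem mp_comm_pow (a : Equiv.Perm X) (s : ℕ) (z : Ch X) :
    mp a (mp (a ^ s : Equiv.Perm X) z) = mp (a ^ s : Equiv.Perm X) (mp a z) := by
  rw [mp_comp, mp_comp, pow_mul_comm']

private theorem pr_comm (a b : Equiv.Perm X) (hab : a * b = b * a) (z : Ch X) :
    mp a (pr id b z) = pr id b (mp a z) := by
  rw [mp_pr, pr_mp]
  have h1 : (a ∘ id : X → X) = id ∘ a := rfl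
  have h2 : (a ∘ b : X → X) = b ∘ a := by
    have h3 : ((a * b : Equiv.Perm X) : X → X) = ((b * a : Equiv.Perm X) : X → X) := by rw [hab]
    exact h3
  rw [h1, h2]

private theorem tele (a : Equiv.Perm X) (M q : ℕ) (z : Ch X) :
    ∑ t ∈ Finset.range q, mp (a ^ (M * t) : Equiv.Perm X) (mp (a ^ M : Equiv.Perm X) z - z) =
      mp (a ^ (M * q) : Equiv.Perm X) z - z := by
  have h : ∀ t ∈ Finset.range q,
      mp (a ^ (M * t) : Equiv.Perm X) (mp (a ^ M : Equiv.Perm X) z - z) =
      mp (a ^ (M * (t + 1)) : Equiv.Perm X) z - mp (a ^ (M * t) : Equiv.Perm X) z := by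
    intro t _
    rw [map_sub, mp_comp, ← pow_add, mul_add, mul_one]
  rw [Finset.sum_congr rfl h, Finset.sum_range_sub (fun t => mp (a ^ (M * t) : Equiv.Perm X) z),
    mul_zero, pow_zero]
  have h2 : mp ((1 : Equiv.Perm X) : X → X) z = z := mp_id z
  rw [h2]

/-- the defect of `L` -/
private noncomputable def La (a : Equiv.Perm X) (M q : ℕ) (L : Ch X →ₗ[ℤ] Ch X) (z : Ch X) : Ch X :=
  (∑ t ∈ Finset.range q, mp (a ^ (M * t) : Equiv.Perm X) (L z)) - pr id (a ^ (M * q) : Equiv.Perm X) z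

private theorem La_comm (a : Equiv.Perm X) (M q : ℕ) (L : Ch X →ₗ[ℤ] Ch X)
    (hLa : ∀ z, L (mp a z) = mp a (L z)) (z : Ch X) :
    La a M q L (mp a z) = mp a (La a M q L z) := by
  unfold La
  rw [map_sub, map_sum, pr_comm a _ (pow_mul_comm' a _).symm]
  congr 1
  refine Finset.sum_congr rfl fun t _ => ?_
  rw [hLa, mp_comm_pow]

private theorem iso_pow [MetricSpace X] (a : Equiv.Perm X)
    (ha : ∀ x y, dist (a x) (a y) = dist x y) (t : ℕ) (x y : X) :
    dist ((a ^ t : Equiv.Perm X) x) ((a ^ t : Equiv.Perm X) y) = dist x y := by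
  induction t with
  | zero => rw [pow_zero, Equiv.Perm.one_apply, Equiv.Perm.one_apply]
  | succ t ih => rw [pow_succ', Equiv.Perm.mul_apply, Equiv.Perm.mul_apply, ha, ih]

private theorem bd_one (x : X) : bd (Finsupp.single [x] (1 : ℤ)) = Finsupp.single [] 1 := by
  rw [bd_single, one_smul]
  show Finsupp.single [] 1 - cone x (0 : Ch X) = _
  rw [map_zero, sub_zero]

private theorem bd_two (x y : X) :
    bd (Finsupp.single [x, y] (1 : ℤ)) = Finsupp.single [y] 1 - Finsupp.single [x] 1 := by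
  rw [bd_single, one_smul]
  show Finsupp.single [y] 1 - cone x (Finsupp.single [] 1 - cone y (0 : Ch X)) = _
  rw [map_zero, sub_zero, cone_single]

private theorem pr_nil (c : X → X) : pr id c (Finsupp.single [] (1 : ℤ)) = 0 := by
  rw [pr_single, one_smul]
  rfl

/-- boundary of the defect for one point -/
private theorem bd_La1 (a : Equiv.Perm X) (M q : ℕ) (L : Ch X →ₗ[ℤ] Ch X) (x : X)
    (h : bd (L (Finsupp.single [x] 1)) = Finsupp.single [(a ^ M : Equiv.Perm X) x] 1 - Finsupp.single [x] 1) :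
    bd (La a M q L (Finsupp.single [x] 1)) = 0 := by
  have h1 : Finsupp.single [(a ^ M : Equiv.Perm X) x] (1 : ℤ) =
      mp (a ^ M : Equiv.Perm X) (Finsupp.single [x] 1) := by
    rw [mp_single, List.map_singleton]
  have h2 : ∀ t ∈ Finset.range q, bd (mp (a ^ (M * t) : Equiv.Perm X) (L (Finsupp.single [x] 1))) =
      mp (a ^ (M * t) : Equiv.Perm X) (mp (a ^ M : Equiv.Perm X) (Finsupp.single [x] 1) -
        Finsupp.single [x] 1) := by
    intro t _
    rw [bd_mp, h, h1]
  have h3 := bd_pr (id : X → X) (a ^ (M * q) : Equiv.Perm X) (Finsupp.single [x] (1 : ℤ))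
  rw [bd_one, pr_nil, add_zero, mp_id] at h3
  unfold La
  rw [map_sub, map_sum, Finset.sum_congr rfl h2, tele, h3, sub_self]

/-- boundary of the defect for two points -/
private theorem bd_La2 (a : Equiv.Perm X) (M q : ℕ) (L : Ch X →ₗ[ℤ] Ch X) (x y : X)
    (h : bd (L (Finsupp.single [x, y] 1)) = Finsupp.single [(a ^ M : Equiv.Perm X) x, (a ^ M : Equiv.Perm X) y] 1 -
          Finsupp.single [x, y] 1 - L (Finsupp.single [y] 1) + L (Finsupp.single [x] 1)) :
    bd (La a M q L (Finsupp.single [x, y] 1)) =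
      La a M q L (Finsupp.single [x] 1) - La a M q L (Finsupp.single [y] 1) := by
  have h1 : Finsupp.single [(a ^ M : Equiv.Perm X) x, (a ^ M : Equiv.Perm X) y] (1 : ℤ) =
      mp (a ^ M : Equiv.Perm X) (Finsupp.single [x, y] 1) := by
    rw [mp_single]
    rfl
  have h2 : ∀ t ∈ Finset.range q, bd (mp (a ^ (M * t) : Equiv.Perm X) (L (Finsupp.single [x, y] 1))) =
      mp (a ^ (M * t) : Equiv.Perm X) (mp (a ^ M : Equiv.Perm X) (Finsupp.single [x, y] 1) -
        Finsupp.single [x, y] 1) - mp (a ^ (M * t) : Equiv.Perm X) (L (Finsupp.single [y] 1)) +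
        mp (a ^ (M * t) : Equiv.Perm X) (L (Finsupp.single [x] 1)) := by
    intro t _
    rw [bd_mp, h, h1, map_add, map_sub]
  have h3 := bd_pr (id : X → X) (a ^ (M * q) : Equiv.Perm X) (Finsupp.single [x, y] (1 : ℤ))
  rw [bd_two, mp_id] at h3
  have h4 := eq_sub_of_add_eq h3
  unfold La
  rw [map_sub, map_sum, Finset.sum_congr rfl h2, Finset.sum_add_distrib, Finset.sum_sub_distrib,
    tele, h4, map_sub]
  abel

end aux

theorem locE {X : Type} [MetricSpace X] (a : Equiv.Perm X) (ha : ∀ x y, dist (a x) (a y) = dist x y)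
    (hfree : ∀ (t : ℤ) (x : X), (a ^ t : Equiv.Perm X) x = x → a ^ t = 1) (M q : ℕ)
    (r₁ r₂ r₃ δ₁ δ₂ δ₃ μ₁ μ₂ μ₃ μ₄ : ℝ) (hδ1 : 0 < δ₁) (hμ1 : 0 < μ₁) (hμ12 : 2 * μ₁ ≤ μ₂) (hμ23 : 2 * μ₂ ≤ μ₃) (hr1 : 0 < r₁)
    (h12 : r₁ + δ₁ + μ₂ ≤ δ₂) (h23 : r₂ + δ₁ + μ₂ ≤ δ₃) (hr12 : r₁ ≤ r₂) (hμ1d : μ₁ ≤ δ₁)
    (hsm : ∀ (t : ℕ) (x : X), dist ((a ^ (M * t) : Equiv.Perm X) x) x < δ₁)
    (hn : ∀ x, dist ((a ^ (M * q) : Equiv.Perm X) x) x < μ₁)
    (g2 : ∀ x : X, ∀ z ∈ SP (fun l : List X => l.length = 2 ∧ Msh μ₂ l ∧ ∀ y ∈ l, dist y x < δ₂), bd z = 0 →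
      ∃ w ∈ SP (fun l : List X => l.length = 3 ∧ Msh μ₃ l ∧ ∀ y ∈ l, dist y x < r₂), bd w = z)
    (g3 : ∀ x : X, ∀ z ∈ SP (fun l : List X => l.length = 3 ∧ Msh μ₃ l ∧ ∀ y ∈ l, dist y x < δ₃), bd z = 0 →
      ∃ w ∈ SP (fun l : List X => l.length = 4 ∧ Msh μ₄ l ∧ ∀ y ∈ l, dist y x < r₃), bd w = z)
    (L : Ch X →ₗ[ℤ] Ch X) (hLa : ∀ z, L (mp a z) = mp a (L z))
    (hL1 : ∀ x, L (Finsupp.single [x] 1) ∈ SP (fun l : List X => l.length = 2 ∧ Msh μ₂ l ∧ ∀ y ∈ l, dist y x < r₁) ∧
        bd (L (Finsupp.single [x] 1)) = Finsupp.single [(a ^ M : Equiv.Perm X) x] 1 - Finsupp.single [x] 1)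
    (hL2 : ∀ x y, dist x y < μ₂ →
        L (Finsupp.single [x, y] 1) ∈ SP (fun l : List X => l.length = 3 ∧ Msh μ₃ l ∧ ∀ w ∈ l, dist w x < r₂) ∧
        bd (L (Finsupp.single [x, y] 1)) = Finsupp.single [(a ^ M : Equiv.Perm X) x, (a ^ M : Equiv.Perm X) y] 1 -
          Finsupp.single [x, y] 1 - L (Finsupp.single [y] 1) + L (Finsupp.single [x] 1)) :
    ∃ (E : Ch X →ₗ[ℤ] Ch X) (ξ : X → Ch X), (∀ z, E (mp a z) = mp a (E z)) ∧
      (∀ x, E (Finsupp.single [x] 1) ∈ SP (fun l : List X => l.length = 3 ∧ Msh μ₃ l ∧ ∀ y ∈ l, dist y x < r₂) ∧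
        bd (E (Finsupp.single [x] 1)) =
          (∑ t ∈ Finset.range q, mp (a ^ (M * t) : Equiv.Perm X) (L (Finsupp.single [x] 1))) -
            pr id (a ^ (M * q) : Equiv.Perm X) (Finsupp.single [x] 1)) ∧
      (∀ x y, dist x y < μ₂ →
        E (Finsupp.single [x, y] 1) ∈ SP (fun l : List X => l.length = 4 ∧ Msh μ₄ l ∧ ∀ w ∈ l, dist w x < r₃) ∧
        bd (E (Finsupp.single [x, y] 1)) =
          (∑ t ∈ Finset.range q, mp (a ^ (M * t) : Equiv.Perm X) (L (Finsupp.single [x, y] 1))) -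
            pr id (a ^ (M * q) : Equiv.Perm X) (Finsupp.single [x, y] 1) +
            E (Finsupp.single [y] 1) - E (Finsupp.single [x] 1)) ∧
      ∀ x, ξ x ∈ SP (fun l : List X => l.length = 4 ∧ Msh μ₄ l ∧ ∀ y ∈ l, dist y x < r₃) ∧
        bd (ξ x) = E (Finsupp.single [x] 1) - mp (a ^ M : Equiv.Perm X) (E (Finsupp.single [x] 1)) +
          pr id (a ^ (M * q) : Equiv.Perm X) (L (Finsupp.single [x] 1)) := by
  classical
  have hμ2 : 0 < μ₂ := by linarith
  have hiso := iso_pow a ha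
  have hfree' : ∀ (t : ℤ) (x : X), (a ^ t : Equiv.Perm X) x = x → (bpH a) ^ t = 1 := by
    intro t x hx
    rw [← map_zpow, hfree t x hx, map_one]
  -- one point
  have hLmem : ∀ x, La a M q L (Finsupp.single [x] 1) ∈ BS 2 μ₂ δ₂ x := by
    intro x
    unfold La
    refine Submodule.sub_mem _ (Submodule.sum_mem _ fun t _ => ?_) ?_
    · exact BS_mono (BS_mp (a ^ (M * t)) (hiso _) (hsm t x) (hL1 x).1) le_rfl (by linarith)
    · have h1 : (Finsupp.single [x] 1 : Ch X) ∈ BS 1 μ₁ μ₁ x := by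
        refine single_mem ⟨rfl, ?_, ?_⟩ 1
        · intro y hy y' hy'
          rw [List.mem_singleton] at hy hy'
          rw [hy, hy', dist_self]
          exact hμ1
        · intro y hy
          rw [List.mem_singleton] at hy
          rw [hy, dist_self]
          exact hμ1
      exact BS_mono (BS_pr (a ^ (M * q)) (hiso _) hn hμ1 h1) (by linarith) (by linarith)
  obtain ⟨E1, hE1, hE1a⟩ := equivariant_choice a (bpH a)
    (fun x w => w ∈ BS 3 μ₃ r₂ x ∧ bd w = La a M q L (Finsupp.single [x] 1)) (by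
      intro x w
      rw [bpH_apply, bd_mp]
      have h1 : La a M q L (Finsupp.single [a x] 1) = mp a (La a M q L (Finsupp.single [x] 1)) := by
        rw [← La_comm a M q L hLa, mp_single, List.map_singleton]
      rw [h1]
      exact and_congr (BS_iff a ha) ⟨fun h => by rw [h], fun h => mp_inj a h⟩) (by
      intro x
      obtain ⟨w, hw, hbw⟩ := g2 x _ (hLmem x) (bd_La1 a M q L x (hL1 x).2)
      exact ⟨w, hw, hbw⟩) hfree'
  -- two points
  obtain ⟨E2, hE2, hE2a⟩ := equivariant_choice (dgH a) (bpH a)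
    (fun p w => dist p.1 p.2 < μ₂ → w ∈ BS 4 μ₄ r₃ p.1 ∧
      bd w = La a M q L (Finsupp.single [p.1, p.2] 1) + E1 p.2 - E1 p.1) (by
      rintro ⟨x, y⟩ w
      rw [bpH_apply, dgH_apply, bd_mp]
      show (dist x y < μ₂ → w ∈ BS 4 μ₄ r₃ x ∧
          bd w = La a M q L (Finsupp.single [x, y] 1) + E1 y - E1 x) ↔
        (dist (a x) (a y) < μ₂ → mp a w ∈ BS 4 μ₄ r₃ (a x) ∧
          mp a (bd w) = La a M q L (Finsupp.single [a x, a y] 1) + E1 (a y) - E1 (a x))
      have h1 : La a M q L (Finsupp.single [a x, a y] 1) =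
          mp a (La a M q L (Finsupp.single [x, y] 1)) := by
        rw [← La_comm a M q L hLa, mp_single]
        rfl
      have h2 : mp a (La a M q L (Finsupp.single [x, y] 1)) + E1 (a y) - E1 (a x) =
          mp a (La a M q L (Finsupp.single [x, y] 1) + E1 y - E1 x) := by
        rw [hE1a, hE1a, bpH_apply, bpH_apply, map_sub, map_add]
      rw [h1, h2, ha]
      exact imp_congr_right fun _ => and_congr (BS_iff a ha)
        ⟨fun h => by rw [h], fun h => mp_inj a h⟩) (by
      rintro ⟨x, y⟩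
      by_cases hxy : dist x y < μ₂
      · have hyx : dist y x < μ₂ := by
          rw [dist_comm]
          exact hxy
        have hm : La a M q L (Finsupp.single [x, y] 1) + E1 y - E1 x ∈ BS 3 μ₃ δ₃ x := by
          refine Submodule.sub_mem _ (Submodule.add_mem _ ?_ ?_) ?_
          · unfold La
            refine Submodule.sub_mem _ (Submodule.sum_mem _ fun t _ => ?_) ?_
            · exact BS_mono (BS_mp (a ^ (M * t)) (hiso _) (hsm t x) (hL2 x y hxy).1) le_rfl
                (by linarith)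
            · have h1 : (Finsupp.single [x, y] 1 : Ch X) ∈ BS 2 μ₂ μ₂ x := by
                refine single_mem ⟨rfl, ?_, ?_⟩ 1
                · intro u hu u' hu'
                  rw [List.mem_cons, List.mem_singleton] at hu hu'
                  rcases hu with rfl | rfl <;> rcases hu' with rfl | rfl
                  · rw [dist_self]
                    exact hμ2
                  · exact hxy
                  · exact hyx
                  · rw [dist_self]
                    exact hμ2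
                · intro u hu
                  rw [List.mem_cons, List.mem_singleton] at hu
                  rcases hu with rfl | rfl
                  · rw [dist_self]
                    exact hμ2
                  · exact hyx
              exact BS_mono (BS_pr (a ^ (M * q)) (hiso _) hn hμ1 h1) (by linarith) (by linarith)
          · exact BS_mono (BS_move (hE1 y).1 hyx) le_rfl (by linarith)
          · exact BS_mono (hE1 x).1 le_rfl (by linarith)
        obtain ⟨w, hw, hbw⟩ := g3 x _ hm (by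
          rw [map_sub, map_add, bd_La2 a M q L x y (hL2 x y hxy).2, (hE1 y).2, (hE1 x).2]
          abel)
        exact ⟨w, fun _ => ⟨hw, hbw⟩⟩
      · exact ⟨0, fun h => absurd h hxy⟩) (by
      rintro t ⟨x, y⟩ h
      rw [← map_zpow, dgH_apply] at h
      exact hfree' t x (congrArg Prod.fst h))
  -- the linear map
  obtain ⟨f, hf⟩ : ∃ f : List X → Ch X, f = fun l => match l with
    | [x] => E1 x
    | [x, y] => E2 (x, y)
    | _ => 0 := ⟨_, rfl⟩
  obtain ⟨E, hE⟩ : ∃ E : Ch X →ₗ[ℤ] Ch X, ∀ l, E (Finsupp.single l 1) = f l :=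
    ⟨Finsupp.linearCombination ℤ f, fun l => by rw [Finsupp.linearCombination_single, one_smul]⟩
  have hEx : ∀ x, E (Finsupp.single [x] 1) = E1 x := by
    intro x
    rw [hE, hf]
  have hExy : ∀ x y, E (Finsupp.single [x, y] 1) = E2 (x, y) := by
    intro x y
    rw [hE, hf]
  have hEa : ∀ z, E (mp a z) = mp a (E z) := by
    intro z
    refine lin_eq (P := fun _ => True) (E ∘ₗ mp a) (mp a ∘ₗ E) (fun l _ => ?_)
      (mem_SP.2 fun _ _ => trivial)
    rw [LinearMap.comp_apply, LinearMap.comp_apply, mp_single, hE, hE, hf]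
    rcases l with _ | ⟨x, _ | ⟨y, _ | ⟨w, l⟩⟩⟩
    · exact (map_zero (mp a)).symm
    · exact hE1a x
    · exact hE2a (x, y)
    · exact (map_zero (mp a)).symm
  -- the correction
  have hξ : ∀ x, ∃ w ∈ BS 4 μ₄ r₃ x, bd w = E (Finsupp.single [x] 1) -
      mp (a ^ M : Equiv.Perm X) (E (Finsupp.single [x] 1)) +
      pr id (a ^ (M * q) : Equiv.Perm X) (L (Finsupp.single [x] 1)) := by
    intro x
    refine g3 x _ (?_ : _ ∈ BS 3 μ₃ δ₃ x) ?_
    · rw [hEx]
      refine Submodule.add_mem _ (Submodule.sub_mem _ ?_ ?_) ?_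
      · exact BS_mono (hE1 x).1 le_rfl (by linarith)
      · have h1 := hsm 1 x
        rw [mul_one] at h1
        exact BS_mono (BS_mp (a ^ M) (hiso _) h1 (hE1 x).1) le_rfl (by linarith)
      · exact BS_mono (BS_pr (a ^ (M * q)) (hiso _) hn hμ1 (hL1 x).1) (by linarith) (by linarith)
    · rw [hEx, map_add, map_sub, bd_mp, (hE1 x).2]
      have h1 := eq_sub_of_add_eq (bd_pr (id : X → X) (a ^ (M * q) : Equiv.Perm X)
        (L (Finsupp.single [x] 1)))
      rw [mp_id, (hL1 x).2] at h1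
      rw [h1]
      unfold La
      have h2 : Finsupp.single [(a ^ M : Equiv.Perm X) x] (1 : ℤ) =
          mp (a ^ M : Equiv.Perm X) (Finsupp.single [x] 1) := by
        rw [mp_single, List.map_singleton]
      rw [map_sub (mp (a ^ M : Equiv.Perm X)), map_sum, h2, map_sub (pr id _),
        pr_comm (a ^ M) (a ^ (M * q)) (by rw [← pow_add, ← pow_add, add_comm])]
      have h3 := tele a M q (L (Finsupp.single [x] 1))
      have h4 : ∀ t ∈ Finset.range q, mp (a ^ (M * t) : Equiv.Perm X)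
          (mp (a ^ M : Equiv.Perm X) (L (Finsupp.single [x] 1)) - L (Finsupp.single [x] 1)) =
          mp (a ^ M : Equiv.Perm X) (mp (a ^ (M * t) : Equiv.Perm X) (L (Finsupp.single [x] 1))) -
            mp (a ^ (M * t) : Equiv.Perm X) (L (Finsupp.single [x] 1)) := by
        intro t _
        rw [map_sub, mp_comp, mp_comp, ← pow_add, ← pow_add, add_comm]
      rw [Finset.sum_congr rfl h4, Finset.sum_sub_distrib] at h3
      have h5 := eq_add_of_sub_eq h3
      rw [h5]
      abel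
  choose ξ hξm hξb using hξ
  refine ⟨E, ξ, hEa, fun x => ?_, fun x y hxy => ?_, fun x => ⟨hξm x, hξb x⟩⟩
  · rw [hEx]
    exact hE1 x
  · rw [hExy, hEx, hEx]
    exact hE2 (x, y) hxy

end AGV
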