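import Pool.Agent.AGV.Lst
import Pool.Agent.AGV.LstS
import Pool.Agent.AGV.EqCh

/-!
# AGV-LocL: equivariant local homotopy from the identity to `a ^ M`, on lists of at most two points

`L1 : X → Ch X` with `L1 (a x) = mp a (L1 x)` from `equivariant_choice` with `b` the permutation of `Ch X` given by `mp a` (inverse `mp a.symm`; `b ^ t = mp (a ^ t)`, so `hfree` gives the hypothesis there), `P x w ↔ w ∈ SP (l.length = 2, Msh μ₂, within r₁ of x) ∧ bd w = single [(a ^ M) x] 1 - single [x] 1`;
existence from `g1` at `x` (`(a ^ M) x` is within `δ₁` of `x`); invariance of `P`: `a` is an isometry commuting with `a ^ M`. Then `L2 : X × X → Ch X` in the same way with the diagonal action (`Equiv.prodCongr a a`), `P (x, y) w ↔ (dist x y < μ₂ → w ∈ SP (l.length = 3, Msh μ₃, within r₂ of x) ∧ bd w = single [(a ^ M) x, (a ^ M) y] 1 - single [x, y] 1 - L1 y + L1 x)`;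
existence from `g2` at `x`: the right hand side is a cycle and its lists have mesh `< μ₂` and are within `r₁ + δ₁ + μ₂ ≤ δ₂` of `x`. `L` is the linear map (`Finsupp.linearCombination`) with `L [x] = L1 x`, `L [x, y] = L2 (x, y)`, `0` on the other lists. `bd (single [x, y] 1) = single [y] 1 - single [x] 1`.
-/

set_option autoImplicit false

namespace AGV

private theorem lst_ext {X W : Type} [AddCommGroup W] (f g : Ch X →ₗ[ℤ] W)
    (h : ∀ l, f (Finsupp.single l 1) = g (Finsupp.single l 1)) (z : Ch X) : f z = g z := by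
  have : f = g := Finsupp.lhom_ext' fun l => LinearMap.ext_ring (h l)
  rw [this]

/-- permutations act on chains -/
private noncomputable def mpH (X : Type) : Equiv.Perm X →* Equiv.Perm (Ch X) where
  toFun a :=
    { toFun := fun z => mp a z
      invFun := fun z => mp a.symm z
      left_inv := fun z => by
        show mp a.symm (mp a z) = z
        rw [mp_mp, Equiv.symm_comp_self, mp_id]
      right_inv := fun z => by
        show mp a (mp a.symm z) = z
        rw [mp_mp, Equiv.self_comp_symm, mp_id] }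
  map_one' := by
    ext1 z
    exact mp_id z
  map_mul' a b := by
    ext1 z
    exact (mp_mp b a z).symm

private theorem mpH_apply {X : Type} (a : Equiv.Perm X) (z : Ch X) : mpH X a z = mp a z := rfl

private theorem mpH_free {X : Type} (a : Equiv.Perm X) {t : ℤ} (h : a ^ t = 1) : mpH X a ^ t = 1 := by
  rw [← map_zpow, h, map_one]

/-- the diagonal action -/
private def dgH (X : Type) : Equiv.Perm X →* Equiv.Perm (X × X) where
  toFun a := Equiv.prodCongr a a
  map_one' := rfl
  map_mul' _ _ := rfl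

private theorem dgH_apply {X : Type} (a : Equiv.Perm X) (p : X × X) : dgH X a p = (a p.1, a p.2) := rfl

private theorem bd_one {X : Type} (x : X) : bd (Finsupp.single [x] (1 : ℤ)) = Finsupp.single [] 1 := by
  rw [bd_single, one_smul]
  show Finsupp.single [] 1 - cone x (0 : Ch X) = _
  rw [map_zero, sub_zero]

private theorem bd_two {X : Type} (x y : X) :
    bd (Finsupp.single [x, y] (1 : ℤ)) = Finsupp.single [y] 1 - Finsupp.single [x] 1 := by
  rw [← cone_single, bd_cone, bd_one, cone_single]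

section

variable {X : Type} [MetricSpace X]

/-- the condition on the values on one point -/
private def P1 (c : Equiv.Perm X) (r μ : ℝ) (x : X) (w : Ch X) : Prop :=
  w ∈ SP (fun l : List X => l.length = 2 ∧ Msh μ l ∧ ∀ y ∈ l, dist y x < r) ∧
    bd w = Finsupp.single [c x] 1 - Finsupp.single [x] 1

/-- the condition on the values on two points -/
private def P2 (c : Equiv.Perm X) (L1 : X → Ch X) (r μ ν : ℝ) (p : X × X) (w : Ch X) : Prop :=
  dist p.1 p.2 < ν →
    w ∈ SP (fun l : List X => l.length = 3 ∧ Msh μ l ∧ ∀ y ∈ l, dist y p.1 < r) ∧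
      bd w = Finsupp.single [c p.1, c p.2] 1 - Finsupp.single [p.1, p.2] 1 - L1 p.2 + L1 p.1

private theorem map_mem (e : Equiv.Perm X) (he : ∀ x y, dist (e x) (e y) = dist x y) (k : ℕ) (r μ : ℝ)
    (x : X) {w : Ch X} (hw : w ∈ SP (fun l : List X => l.length = k ∧ Msh μ l ∧ ∀ y ∈ l, dist y x < r)) :
    mp e w ∈ SP (fun l : List X => l.length = k ∧ Msh μ l ∧ ∀ y ∈ l, dist y (e x) < r) := by
  refine mp_mem e (fun l hl => ⟨by rw [List.length_map]; exact hl.1, ?_, ?_⟩) hw
  · intro u hu v hv
    obtain ⟨u', hu', rfl⟩ := List.mem_map.1 hu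
    obtain ⟨v', hv', rfl⟩ := List.mem_map.1 hv
    rw [he]
    exact hl.2.1 u' hu' v' hv'
  · intro y hy
    obtain ⟨y', hy', rfl⟩ := List.mem_map.1 hy
    rw [he]
    exact hl.2.2 y' hy'

private theorem P1_map {c : Equiv.Perm X} {r μ : ℝ} (e : Equiv.Perm X)
    (he : ∀ x y, dist (e x) (e y) = dist x y) (hc : ∀ x, c (e x) = e (c x)) {x : X} {w : Ch X}
    (h : P1 c r μ x w) : P1 c r μ (e x) (mp e w) := by
  refine ⟨map_mem e he 2 r μ x h.1, ?_⟩
  rw [bd_mp, h.2, map_sub, mp_single, mp_single, hc]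
  rfl

private theorem P2_map {c : Equiv.Perm X} {L1 : X → Ch X} {r μ ν : ℝ} (e : Equiv.Perm X)
    (he : ∀ x y, dist (e x) (e y) = dist x y) (hc : ∀ x, c (e x) = e (c x))
    (hL : ∀ x, L1 (e x) = mp e (L1 x)) {p : X × X} {w : Ch X}
    (h : P2 c L1 r μ ν p w) : P2 c L1 r μ ν (e p.1, e p.2) (mp e w) := by
  intro hd
  simp only at hd ⊢
  rw [he] at hd
  obtain ⟨h1, h2⟩ := h hd
  refine ⟨map_mem e he 3 r μ p.1 h1, ?_⟩
  rw [bd_mp, h2, map_add, map_sub, map_sub, mp_single, mp_single, hc, hc, hL, hL]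
  rfl

/-- the linear map with given values on lists with one or two points -/
private noncomputable def Lf (L1 : X → Ch X) (L2 : X × X → Ch X) : List X → Ch X
  | [] => 0
  | [x] => L1 x
  | [x, y] => L2 (x, y)
  | _ :: _ :: _ :: _ => 0

omit [MetricSpace X] in
private theorem Lf_map (a : Equiv.Perm X) {L1 : X → Ch X} {L2 : X × X → Ch X}
    (h1 : ∀ x, L1 (a x) = mp a (L1 x)) (h2 : ∀ p : X × X, L2 (a p.1, a p.2) = mp a (L2 p))
    (l : List X) : Lf L1 L2 (l.map a) = mp a (Lf L1 L2 l) := by
  rcases l with _ | ⟨x, _ | ⟨y, _ | ⟨z, l⟩⟩⟩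
  · show (0 : Ch X) = mp a (0 : Ch X)
    rw [map_zero]
  · exact h1 x
  · exact h2 (x, y)
  · show (0 : Ch X) = mp a (0 : Ch X)
    rw [map_zero]

end

theorem locL {X : Type} [MetricSpace X] (a : Equiv.Perm X) (ha : ∀ x y, dist (a x) (a y) = dist x y)
    (hfree : ∀ (t : ℤ) (x : X), (a ^ t : Equiv.Perm X) x = x → a ^ t = 1) (M : ℕ)
    (r₁ r₂ δ₁ δ₂ μ₂ μ₃ : ℝ) (hδ1 : 0 < δ₁) (hμ2 : 0 < μ₂) (hr1 : 0 < r₁) (h12 : r₁ + δ₁ + μ₂ ≤ δ₂)
    (hM : ∀ x, dist ((a ^ M : Equiv.Perm X) x) x < δ₁)
    (g1 : ∀ x : X, ∀ z ∈ SP (fun l : List X => l.length = 1 ∧ ∀ y ∈ l, dist y x < δ₁), bd z = 0 →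
      ∃ w ∈ SP (fun l : List X => l.length = 2 ∧ Msh μ₂ l ∧ ∀ y ∈ l, dist y x < r₁), bd w = z)
    (g2 : ∀ x : X, ∀ z ∈ SP (fun l : List X => l.length = 2 ∧ Msh μ₂ l ∧ ∀ y ∈ l, dist y x < δ₂), bd z = 0 →
      ∃ w ∈ SP (fun l : List X => l.length = 3 ∧ Msh μ₃ l ∧ ∀ y ∈ l, dist y x < r₂), bd w = z) :
    ∃ L : Ch X →ₗ[ℤ] Ch X, L (Finsupp.single [] 1) = 0 ∧ (∀ z, L (mp a z) = mp a (L z)) ∧
      (∀ x, L (Finsupp.single [x] 1) ∈ SP (fun l : List X => l.length = 2 ∧ Msh μ₂ l ∧ ∀ y ∈ l, dist y x < r₁) ∧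
        bd (L (Finsupp.single [x] 1)) = Finsupp.single [(a ^ M : Equiv.Perm X) x] 1 - Finsupp.single [x] 1) ∧
      ∀ x y, dist x y < μ₂ →
        L (Finsupp.single [x, y] 1) ∈ SP (fun l : List X => l.length = 3 ∧ Msh μ₃ l ∧ ∀ w ∈ l, dist w x < r₂) ∧
        bd (L (Finsupp.single [x, y] 1)) = Finsupp.single [(a ^ M : Equiv.Perm X) x, (a ^ M : Equiv.Perm X) y] 1 -
          Finsupp.single [x, y] 1 - L (Finsupp.single [y] 1) + L (Finsupp.single [x] 1) := by
  classical
  have ha' : ∀ x y, dist (a.symm x) (a.symm y) = dist x y := by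
    intro x y
    rw [← ha, Equiv.apply_symm_apply, Equiv.apply_symm_apply]
  have hc : ∀ x, (a ^ M : Equiv.Perm X) (a x) = a ((a ^ M : Equiv.Perm X) x) := by
    intro x
    rw [← Equiv.Perm.mul_apply, ← Equiv.Perm.mul_apply, pow_mul_comm']
  have hc' : ∀ x, (a ^ M : Equiv.Perm X) (a.symm x) = a.symm ((a ^ M : Equiv.Perm X) x) := by
    intro x
    rw [Equiv.eq_symm_apply, ← hc, Equiv.apply_symm_apply]
  have hiM : ∀ x y, dist ((a ^ M : Equiv.Perm X) x) ((a ^ M : Equiv.Perm X) y) = dist x y := by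
    clear hM g1 g2 hc hc' h12
    induction M with
    | zero => intro x y; simp
    | succ M ih =>
      intro x y
      rw [pow_succ', Equiv.Perm.mul_apply, Equiv.Perm.mul_apply, ha, ih]
  -- one point
  obtain ⟨L1, hL1, hL1a⟩ := equivariant_choice a (mpH X a) (P1 (a ^ M) r₁ μ₂)
    (fun x w => ⟨fun h => P1_map a ha hc h, fun h => by
      have h1 := P1_map a.symm ha' hc' h
      rw [Equiv.symm_apply_apply, mpH_apply, mp_mp, Equiv.symm_comp_self, mp_id] at h1
      exact h1⟩)
    (fun x => by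
      have h1 := g1 x (Finsupp.single [(a ^ M : Equiv.Perm X) x] 1 - Finsupp.single [x] 1)
        (Submodule.sub_mem _ (single_mem ⟨rfl, fun y hy => by
          rw [List.mem_singleton.1 hy]
          exact hM x⟩ 1) (single_mem ⟨rfl, fun y hy => by
          rw [List.mem_singleton.1 hy, dist_self]
          exact hδ1⟩ 1)) (by rw [map_sub, bd_one, bd_one, sub_self])
      obtain ⟨w, hw, hw'⟩ := h1
      exact ⟨w, hw, hw'⟩)
    (fun t x h => mpH_free a (hfree t x h))
  have hL1' : ∀ x, L1 (a x) = mp a (L1 x) := hL1a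
  have hL1s : ∀ x, L1 (a.symm x) = mp a.symm (L1 x) := by
    intro x
    have h1 := hL1' (a.symm x)
    rw [Equiv.apply_symm_apply] at h1
    rw [h1, mp_mp, Equiv.symm_comp_self, mp_id]
  -- two points
  obtain ⟨L2, hL2, hL2a⟩ := equivariant_choice (dgH X a) (mpH X a) (P2 (a ^ M) L1 r₂ μ₃ μ₂)
    (fun p w => ⟨fun h => P2_map a ha hc hL1' h, fun h => by
      have h1 := P2_map a.symm ha' hc' hL1s h
      rw [dgH_apply, mpH_apply, mp_mp, Equiv.symm_comp_self, mp_id] at h1
      simp only [Equiv.symm_apply_apply] at h1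
      exact h1⟩)
    (fun p => by
      obtain ⟨x, y⟩ := p
      by_cases hd : dist x y < μ₂
      · have hx := hL1 x
        have hy := hL1 y
        have hyx : dist y x < μ₂ := by rw [dist_comm]; exact hd
        have hMy : dist ((a ^ M : Equiv.Perm X) y) x < δ₁ + μ₂ :=
          lt_of_le_of_lt (dist_triangle _ y _) (add_lt_add (hM y) hyx)
        obtain ⟨w, hw, hw'⟩ := g2 x (Finsupp.single [(a ^ M : Equiv.Perm X) x, (a ^ M : Equiv.Perm X) y] 1 -
          Finsupp.single [x, y] 1 - L1 y + L1 x)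
          (by
            refine Submodule.add_mem _ (Submodule.sub_mem _ (Submodule.sub_mem _ (single_mem ⟨rfl, ?_, ?_⟩ 1)
              (single_mem ⟨rfl, ?_, ?_⟩ 1)) (SP_mono (fun l hl => ⟨hl.1, hl.2.1, fun u hu => ?_⟩) hy.1))
              (SP_mono (fun l hl => ⟨hl.1, hl.2.1, fun u hu => ?_⟩) hx.1)
            · intro u hu v hv
              rw [List.mem_pair] at hu hv
              rcases hu with rfl | rfl <;> rcases hv with rfl | rfl
              · rw [dist_self]; exact hμ2
              · rw [hiM]; exact hd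
              · rw [hiM]; exact hyx
              · rw [dist_self]; exact hμ2
            · intro u hu
              rw [List.mem_pair] at hu
              rcases hu with rfl | rfl
              · linarith [hM x]
              · linarith
            · intro u hu v hv
              rw [List.mem_pair] at hu hv
              rcases hu with rfl | rfl <;> rcases hv with rfl | rfl
              · rw [dist_self]; exact hμ2
              · exact hd
              · exact hyx
              · rw [dist_self]; exact hμ2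
            · intro u hu
              rw [List.mem_pair] at hu
              rcases hu with rfl | rfl
              · rw [dist_self]; linarith
              · linarith
            · have h1 := dist_triangle u y x
              have h2 := hl.2.2 u hu
              linarith
            · have h2 := hl.2.2 u hu
              linarith)
          (by
            rw [map_add, map_sub, map_sub, bd_two, bd_two, hx.2, hy.2]
            abel)
        exact ⟨w, fun _ => ⟨hw, hw'⟩⟩
      · exact ⟨0, fun h => absurd h hd⟩)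
    (fun t p h => by
      refine mpH_free a (hfree t p.1 ?_)
      rw [← map_zpow, dgH_apply] at h
      exact congrArg Prod.fst h)
  have hsg : ∀ l : List X, Finsupp.linearCombination ℤ (Lf L1 L2) (Finsupp.single l 1) = Lf L1 L2 l := by
    intro l
    rw [Finsupp.linearCombination_single, one_smul]
  refine ⟨Finsupp.linearCombination ℤ (Lf L1 L2), hsg [], fun z => ?_, fun x => ?_, fun x y hd => ?_⟩
  · refine lst_ext (Finsupp.linearCombination ℤ (Lf L1 L2) ∘ₗ mp a)
      (mp a ∘ₗ Finsupp.linearCombination ℤ (Lf L1 L2)) (fun l => ?_) z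
    rw [LinearMap.comp_apply, LinearMap.comp_apply, mp_single, hsg, hsg]
    exact Lf_map a hL1' hL2a l
  · rw [hsg]
    exact hL1 x
  · rw [hsg, hsg, hsg]
    exact hL2 (x, y) hd

end AGV
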