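import Pool.Agent.AGV.D3
import Pool.Agent.AGV.Lst

/-!
# AGV-R3a: relations for `S2v`, `H1v`, `H2v`

Write `i = v.1.val`, `i' = w.1.val`, `k = w.1 - v.1`; `i + k.val = i'` if `i + k.val < M`, else `i + k.val = i' + M` (`ZMod.val_add` and `Nat.mod`). `L` commutes with `mp (a ^ t)`.
`bS2`: `mp (a ^ i)` of `hc` is `[(a ^ (i + k.val)) (xj w.2)] - [x v]`; in the second case subtract `mp (a ^ i') (bd (L [xj w.2])) = [(a ^ (i' + M)) (xj w.2)] - [x w]`.
`bH1`: if `v.1 ≠ 0`: `(v.1 - 1).val + 1 = v.1.val` and both sides are `0`; if `v.1 = 0`: `(0 - 1 : ZMod M).val + 1 = M`.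
`bH2`: cases. `v.1 ≠ 0`, `w.1 ≠ 0`: `mp a (S2v (sh.symm v) (sh.symm w)) = S2v v w` (the differences `w.1 - v.1` agree; `(v.1 - 1).val = i - 1`, `(w.1 - 1).val = i' - 1`, and `M ≤ i + k.val ↔ M ≤ i - 1 + k.val` because `i + k.val = M` would give `i' = 0`). `v.1 ≠ 0`, `w.1 = 0`: `i + k.val = M`, so `S2v v w` has the
correction `L [xj w.2]` and `S2v (sh.symm v) (sh.symm w)` has none: the difference is `L [xj w.2] = H1v w`. `v.1 = 0`, `w.1 ≠ 0`: `k = w.1`, `S2v v w = c`, and `S2v (sh.symm v) (sh.symm w) = mp (a ^ (M-1)) c - mp (a ^ (i'-1)) (L [xj w.2])` (`M - 1 + k.val ≥ M`), so the right hand side is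
`mp (a ^ M) c - c - mp (a ^ i') (L [xj w.2])`, and `bd (L c) = mp (a ^ M) c - c - L (bd c)`, `L (bd c) = L [(a ^ i') (xj w.2)] - L [xj v.2]`. `v.1 = 0`, `w.1 = 0`: `k = 0`, no corrections, `mp (a ^ M) c - c`, `H1v w - H1v v = L [xj w.2] - L [xj v.2] = L (bd c)`.
-/

set_option autoImplicit false

namespace AGV

variable {M N : ℕ} [NeZero M] {X : Type}

private theorem r_pred (x : ZMod M) :
    (x ≠ 0 → (x - 1).val + 1 = x.val) ∧ (x = 0 → (x - 1).val + 1 = M) := by
  have h1 : x = (((x - 1).val + 1 : ℕ) : ZMod M) := by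
    push_cast
    rw [ZMod.natCast_zmod_val]
    ring
  have h2 : x.val = ((x - 1).val + 1) % M := by
    conv_lhs => rw [h1]
    rw [ZMod.val_natCast]
  have h3 := ZMod.val_lt (x - 1)
  rcases Nat.lt_or_ge ((x - 1).val + 1) M with h4 | h4
  · rw [Nat.mod_eq_of_lt h4] at h2
    refine ⟨fun _ => h2.symm, fun h0 => ?_⟩
    rw [h0, ZMod.val_zero] at h2
    omega
  · have h5 : (x - 1).val + 1 = M := by omega
    rw [h5, Nat.mod_self] at h2
    exact ⟨fun h0 => absurd ((ZMod.val_eq_zero x).1 h2) h0, fun _ => h5⟩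

private theorem r_diff (x y : ZMod M) :
    (x.val + (y - x).val < M → x.val + (y - x).val = y.val) ∧
      (M ≤ x.val + (y - x).val → x.val + (y - x).val = y.val + M) := by
  have h1 : y.val = (x.val + (y - x).val) % M := by
    rw [← ZMod.val_add]
    congr 1
    ring
  have h3 := ZMod.val_lt x
  have h4 := ZMod.val_lt (y - x)
  refine ⟨fun h => ?_, fun h => ?_⟩
  · rw [Nat.mod_eq_of_lt h] at h1
    exact h1.symm
  · rw [Nat.mod_eq_sub_mod h, Nat.mod_eq_of_lt (by omega)] at h1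
    omega

private theorem r_add (a : Equiv.Perm X) (s t : ℕ) (z : Ch X) :
    mp (a ^ s : Equiv.Perm X) (mp (a ^ t : Equiv.Perm X) z) = mp (a ^ (s + t) : Equiv.Perm X) z := by
  rw [mp_mp, pow_add, Equiv.Perm.coe_mul]

private theorem r_succ (a : Equiv.Perm X) (t : ℕ) (z : Ch X) :
    mp a (mp (a ^ t : Equiv.Perm X) z) = mp (a ^ (t + 1) : Equiv.Perm X) z := by
  rw [mp_mp, pow_succ', Equiv.Perm.coe_mul]

private theorem r_zero (a : Equiv.Perm X) (z : Ch X) : mp (a ^ 0 : Equiv.Perm X) z = z := by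
  rw [pow_zero, Equiv.Perm.coe_one, mp_id]

private theorem r_one (f : X → X) (x : X) :
    mp f (Finsupp.single [x] 1) = Finsupp.single [f x] 1 := by
  rw [mp_single]
  rfl

private theorem r_L (a : Equiv.Perm X) (L : Ch X →ₗ[ℤ] Ch X)
    (hLa : ∀ z, L (mp a z) = mp a (L z)) (t : ℕ) (z : Ch X) :
    L (mp (a ^ t : Equiv.Perm X) z) = mp (a ^ t : Equiv.Perm X) (L z) := by
  induction t with
  | zero => rw [r_zero, r_zero]
  | succ t ih => rw [← r_succ, hLa, ih, r_succ]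

theorem bS2v (a : Equiv.Perm X) (xj : Fin N → X) (L : Ch X →ₗ[ℤ] Ch X) (c : Fin N → Fin N → ZMod M → Ch X)
    (hc : ∀ j j' k, bd (c j j' k) = Finsupp.single [(a ^ k.val : Equiv.Perm X) (xj j')] 1 - Finsupp.single [xj j] 1)
    (hL1 : ∀ x, bd (L (Finsupp.single [x] 1)) = Finsupp.single [(a ^ M : Equiv.Perm X) x] 1 - Finsupp.single [x] 1)
    (v w : Vx M N) :
    bd (S2v a xj L c v w) = Finsupp.single [xv a xj w] 1 - Finsupp.single [xv a xj v] 1 := by
  unfold S2v xv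
  have hd := r_diff v.1 w.1
  have e1 : bd (mp (a ^ v.1.val : Equiv.Perm X) (c v.2 w.2 (w.1 - v.1))) =
      Finsupp.single [(a ^ (v.1.val + (w.1 - v.1).val) : Equiv.Perm X) (xj w.2)] 1 -
        Finsupp.single [(a ^ v.1.val : Equiv.Perm X) (xj v.2)] 1 := by
    rw [bd_mp, hc, map_sub, r_one, r_one, pow_add, Equiv.Perm.mul_apply]
  split_ifs with h
  · rw [map_sub, e1, bd_mp, hL1, map_sub, r_one, r_one, hd.2 h, pow_add, Equiv.Perm.mul_apply]
    abel
  · rw [sub_zero, e1, hd.1 (by omega)]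

theorem bH1v (a : Equiv.Perm X) (xj : Fin N → X) (L : Ch X →ₗ[ℤ] Ch X)
    (hL1 : ∀ x, bd (L (Finsupp.single [x] 1)) = Finsupp.single [(a ^ M : Equiv.Perm X) x] 1 - Finsupp.single [x] 1)
    (v : Vx M N) :
    bd (H1v xj L v) = Finsupp.single [a (xv a xj (sh.symm v))] 1 - Finsupp.single [xv a xj v] 1 := by
  have hp := r_pred v.1
  have e1 : a (xv a xj (sh.symm v)) = (a ^ ((v.1 - 1).val + 1) : Equiv.Perm X) (xj v.2) := by
    rw [pow_succ', Equiv.Perm.mul_apply]
    rfl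
  rw [e1]
  unfold H1v xv
  split_ifs with h
  · rw [hL1, hp.2 h, h, ZMod.val_zero, pow_zero, Equiv.Perm.one_apply]
  · rw [hp.1 h, map_zero, sub_self]

theorem bH2v (a : Equiv.Perm X) (xj : Fin N → X) (L : Ch X →ₗ[ℤ] Ch X) (c : Fin N → Fin N → ZMod M → Ch X)
    (hLa : ∀ z, L (mp a z) = mp a (L z))
    (hc : ∀ j j' k, bd (c j j' k) = Finsupp.single [(a ^ k.val : Equiv.Perm X) (xj j')] 1 - Finsupp.single [xj j] 1)
    (hLc : ∀ j j' k, bd (L (c j j' k)) = mp (a ^ M : Equiv.Perm X) (c j j' k) - c j j' k - L (bd (c j j' k)))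
    (v w : Vx M N) :
    bd (H2v L c v w) + H1v xj L w - H1v xj L v = mp a (S2v a xj L c (sh.symm v) (sh.symm w)) - S2v a xj L c v w := by
  have hpv := r_pred v.1
  have hpw := r_pred w.1
  have hd := r_diff v.1 w.1
  have hk : (w.1 - 1) - (v.1 - 1) = w.1 - v.1 := by ring
  have hw := ZMod.val_lt w.1
  have hv := ZMod.val_lt v.1
  have hkl := ZMod.val_lt (w.1 - v.1)
  have e1 : mp a (S2v a xj L c (sh.symm v) (sh.symm w)) =
      mp (a ^ ((v.1 - 1).val + 1) : Equiv.Perm X) (c v.2 w.2 (w.1 - v.1)) -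
        if M ≤ (v.1 - 1).val + (w.1 - v.1).val then
          mp (a ^ ((w.1 - 1).val + 1) : Equiv.Perm X) (L (Finsupp.single [xj w.2] 1)) else 0 := by
    have e2 : S2v a xj L c (sh.symm v) (sh.symm w) =
        mp (a ^ (v.1 - 1).val : Equiv.Perm X) (c v.2 w.2 (w.1 - v.1)) -
        if M ≤ (v.1 - 1).val + (w.1 - v.1).val then
          mp (a ^ (w.1 - 1).val : Equiv.Perm X) (L (Finsupp.single [xj w.2] 1)) else 0 := by
      rw [← hk]
      rfl
    rw [e2, map_sub, r_succ]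
    congr 1
    split_ifs with h
    · rw [r_succ]
    · rw [map_zero]
  rw [e1]
  unfold H2v H1v S2v
  by_cases h1 : v.1 = 0
  · have hv0 : v.1.val = 0 := by rw [h1, ZMod.val_zero]
    have hk0 : w.1 - v.1 = w.1 := by rw [h1, sub_zero]
    have hpv2 := hpv.2 h1
    by_cases h2 : w.1 = 0
    · have hw0 : w.1.val = 0 := by rw [h2, ZMod.val_zero]
      rw [hk0, hv0, hw0, if_pos h1, if_pos h2, if_pos h1, if_neg (by omega), if_neg (by omega),
        hpv2, hLc, hc, map_sub, hw0, pow_zero, Equiv.Perm.one_apply, Equiv.Perm.coe_one, mp_id]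
      abel
    · have hpw1 := hpw.1 h2
      have hw0 : w.1.val ≠ 0 := fun h => h2 ((ZMod.val_eq_zero w.1).1 h)
      rw [hk0, hv0, if_pos h1, if_neg h2, if_pos h1, if_pos (by omega), if_neg (by omega),
        hpv2, hpw1, hLc, hc, map_sub, r_zero, ← r_L a L hLa, r_one]
      abel
  · have hpv1 := hpv.1 h1
    have hv0 : v.1.val ≠ 0 := fun h => h1 ((ZMod.val_eq_zero v.1).1 h)
    by_cases h2 : w.1 = 0
    · have hw0 : w.1.val = 0 := by rw [h2, ZMod.val_zero]
      have h3 : M ≤ v.1.val + (w.1 - v.1).val := by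
        by_contra h4
        have := hd.1 (by omega)
        omega
      have h4 := hd.2 h3
      rw [if_neg h1, if_pos h2, if_neg h1, if_neg (by omega), if_pos h3, hpv1, hw0, r_zero, map_zero]
      abel
    · have hpw1 := hpw.1 h2
      have hw0 : w.1.val ≠ 0 := fun h => h2 ((ZMod.val_eq_zero w.1).1 h)
      rw [if_neg h1, if_neg h2, if_neg h1, hpv1, hpw1, map_zero]
      by_cases h3 : M ≤ v.1.val + (w.1 - v.1).val
      · have h4 := hd.2 h3
        rw [if_pos (by omega), if_pos h3]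
        abel
      · rw [if_neg (by omega), if_neg h3]
        abel

end AGV
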