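import Pool.Agent.AGV.D3
import Pool.Agent.AGV.Lst

/-!
# AGV-R3b: relations for `E1v`, `E2v`

`((sh ^ t).symm v).1 = v.1 - t`, `((sh ^ t).symm v).2 = v.2`. In `∑_{t < M q} mp (a ^ t) (H1v xj L ((sh ^ t).symm v))` only the `t` with `v.1 = (t : ZMod M)`, i.e. `t = v.1.val + M t'` with `t' < q`, contribute, so the sum is `∑_{t' < q} mp (a ^ (v.1.val + M t')) (L [xj v.2])`
`= ∑_{t' < q} mp (a ^ (M t')) (L [xv v])` (`L` commutes with `mp a`); this gives `bE1v` from `hE1`. In the same way `∑_{t < M q} mp (a ^ t) (H2v L c ((sh ^ t).symm v) ((sh ^ t).symm w)) = mp (a ^ i) (∑_{t' < q} mp (a ^ (M t')) (L (c v.2 w.2 (w.1 - v.1))))`, `i = v.1.val`.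
`bE2v`: with `k = w.1 - v.1`, `i' = w.1.val`, `C = c v.2 w.2 k`: `bd (mp (a ^ i) (E C)) = mp (a ^ i) (∑ …) - mp (a ^ i) (pr C) + mp (a ^ i) (E (bd C))`, `mp (a ^ i) (E (bd C)) = E [(a ^ (i + k.val)) (xj w.2)] - E1v v`. If `i + k.val < M`: `i + k.val = i'`, done. Otherwise `i + k.val = i' + M`, so
`E [(a ^ (i + k.val)) (xj w.2)] = mp (a ^ M) (E1v w)`, and `mp (a ^ i') (bd (ξ (xj w.2))) = E1v w - mp (a ^ M) (E1v w) + mp (a ^ i') (pr (L [xj w.2]))`, while `pr (S2v v w) = mp (a ^ i) (pr C) - mp (a ^ i') (pr (L [xj w.2]))` (`pr id (a ^ n)` commutes with `mp (a ^ t)`: `mp_pr`, `pr_mp`).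
-/

set_option autoImplicit false

namespace AGV

variable {M N : ℕ} [NeZero M] {X : Type}

omit [NeZero M] in
private theorem r3_sh_pow (t : ℕ) (u : Vx M N) :
    (sh ^ t : Equiv.Perm (Vx M N)) u = (u.1 + (t : ZMod M), u.2) := by
  induction t with
  | zero =>
    rw [pow_zero, Equiv.Perm.one_apply, Nat.cast_zero, add_zero]
  | succ t ih =>
    rw [pow_succ', Equiv.Perm.mul_apply, ih]
    show (u.1 + (t : ZMod M) + 1, u.2) = _
    rw [Nat.cast_succ, add_assoc]

omit [NeZero M] in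
private theorem r3_sh_symm (t : ℕ) (v : Vx M N) :
    (sh ^ t : Equiv.Perm (Vx M N)).symm v = (v.1 - (t : ZMod M), v.2) := by
  rw [Equiv.symm_apply_eq, r3_sh_pow]
  show v = (v.1 - (t : ZMod M) + (t : ZMod M), v.2)
  rw [sub_add_cancel]

private theorem r3_sum {β : Type} [AddCommMonoid β] (q : ℕ) (x : ZMod M) (G : ℕ → β) :
    ∑ t ∈ Finset.range (M * q), (if x - (t : ZMod M) = 0 then G t else 0) =
      ∑ t ∈ Finset.range q, G (x.val + M * t) := by
  classical
  induction q with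
  | zero => rw [Nat.mul_zero, Finset.sum_range_zero, Finset.sum_range_zero]
  | succ q ih =>
    rw [Nat.mul_succ, Finset.sum_range_add, ih, Finset.sum_range_succ]
    refine congrArg (fun y => ∑ t ∈ Finset.range q, G (x.val + M * t) + y) ?_
    rw [Finset.sum_eq_single x.val]
    · have e : x - ((M * q + x.val : ℕ) : ZMod M) = 0 := by
        rw [Nat.cast_add, Nat.cast_mul, ZMod.natCast_self, zero_mul, zero_add, ZMod.natCast_zmod_val,
          sub_self]
      rw [if_pos e, add_comm]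
    · intro s hs hne
      rw [if_neg]
      intro e
      rw [Nat.cast_add, Nat.cast_mul, ZMod.natCast_self, zero_mul, zero_add, sub_eq_zero] at e
      apply hne
      rw [e, ZMod.val_natCast_of_lt (Finset.mem_range.1 hs)]
    · intro h
      exact absurd (Finset.mem_range.2 (ZMod.val_lt x)) h

private theorem r3_mp_mul (f g : Equiv.Perm X) (z : Ch X) :
    mp (f * g : Equiv.Perm X) z = mp f (mp g z) := by
  rw [mp_mp]
  rfl

private theorem r3_comm (a : Equiv.Perm X) (L : Ch X →ₗ[ℤ] Ch X)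
    (hLa : ∀ z, L (mp a z) = mp a (L z)) (i : ℕ) (z : Ch X) :
    L (mp (a ^ i : Equiv.Perm X) z) = mp (a ^ i : Equiv.Perm X) (L z) := by
  induction i generalizing z with
  | zero =>
    rw [pow_zero]
    have h1 : ∀ y : Ch X, mp (1 : Equiv.Perm X) y = y := fun y => mp_id y
    rw [h1, h1]
  | succ i ih =>
    rw [pow_succ, r3_mp_mul, r3_mp_mul, ih, hLa]

private theorem r3_pr (a : Equiv.Perm X) (n i : ℕ) (z : Ch X) :
    pr id (a ^ n : Equiv.Perm X) (mp (a ^ i : Equiv.Perm X) z) =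
      mp (a ^ i : Equiv.Perm X) (pr id (a ^ n : Equiv.Perm X) z) := by
  rw [pr_mp, mp_pr]
  have e : (⇑(a ^ n : Equiv.Perm X) ∘ ⇑(a ^ i : Equiv.Perm X)) =
      (⇑(a ^ i : Equiv.Perm X) ∘ ⇑(a ^ n : Equiv.Perm X)) := by
    rw [← Equiv.Perm.coe_mul, ← Equiv.Perm.coe_mul, ← pow_add, ← pow_add, Nat.add_comm]
  rw [e]
  rfl

private theorem r3_mp_ite (f : X → X) (P : Prop) [Decidable P] (z : Ch X) :
    mp f (if P then z else 0) = if P then mp f z else 0 := by
  by_cases h : P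
  · rw [if_pos h, if_pos h]
  · rw [if_neg h, if_neg h, map_zero]

theorem bE1v (q : ℕ) (a : Equiv.Perm X) (xj : Fin N → X) (L E : Ch X →ₗ[ℤ] Ch X)
    (hLa : ∀ z, L (mp a z) = mp a (L z))
    (hE1 : ∀ x, bd (E (Finsupp.single [x] 1)) =
      (∑ t ∈ Finset.range q, mp (a ^ (M * t) : Equiv.Perm X) (L (Finsupp.single [x] 1))) -
        pr id (a ^ (M * q) : Equiv.Perm X) (Finsupp.single [x] 1))
    (v : Vx M N) :
    bd (E1v a xj E v) = (∑ t ∈ Finset.range (M * q), mp (a ^ t : Equiv.Perm X)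
      (H1v xj L ((sh ^ t : Equiv.Perm (Vx M N)).symm v))) -
        pr id (a ^ (M * q) : Equiv.Perm X) (Finsupp.single [xv a xj v] 1) := by
  classical
  have h1 : ∀ t ∈ Finset.range (M * q), mp (a ^ t : Equiv.Perm X)
      (H1v xj L ((sh ^ t : Equiv.Perm (Vx M N)).symm v)) =
      if v.1 - (t : ZMod M) = 0 then mp (a ^ t : Equiv.Perm X) (L (Finsupp.single [xj v.2] 1))
        else 0 := by
    intro t _
    rw [r3_sh_symm]
    unfold H1v
    show mp (a ^ t : Equiv.Perm X) (if v.1 - (t : ZMod M) = 0 then L (Finsupp.single [xj v.2] 1)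
      else 0) = _
    rw [r3_mp_ite]
  rw [Finset.sum_congr rfl h1,
    r3_sum q v.1 (fun t => mp (a ^ t : Equiv.Perm X) (L (Finsupp.single [xj v.2] 1)))]
  unfold E1v
  rw [hE1]
  refine congrArg (fun y => y - pr id (a ^ (M * q) : Equiv.Perm X)
    (Finsupp.single [xv a xj v] 1)) ?_
  refine Finset.sum_congr rfl fun t _ => ?_
  have h2 : (Finsupp.single [xv a xj v] 1 : Ch X) =
      mp (a ^ v.1.val : Equiv.Perm X) (Finsupp.single [xj v.2] 1) := by
    rw [mp_single]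
    rfl
  rw [h2, r3_comm a L hLa, ← r3_mp_mul, ← pow_add, Nat.add_comm]

theorem bE2v (q : ℕ) (a : Equiv.Perm X) (xj : Fin N → X) (L E : Ch X →ₗ[ℤ] Ch X) (ξ : X → Ch X)
    (c : Fin N → Fin N → ZMod M → Ch X)
    (hLa : ∀ z, L (mp a z) = mp a (L z)) (hEa : ∀ z, E (mp a z) = mp a (E z))
    (hc : ∀ j j' k, bd (c j j' k) = Finsupp.single [(a ^ k.val : Equiv.Perm X) (xj j')] 1 - Finsupp.single [xj j] 1)
    (hEc : ∀ j j' k, bd (E (c j j' k)) =
      (∑ t ∈ Finset.range q, mp (a ^ (M * t) : Equiv.Perm X) (L (c j j' k))) -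
        pr id (a ^ (M * q) : Equiv.Perm X) (c j j' k) + E (bd (c j j' k)))
    (hξ : ∀ x, bd (ξ x) = E (Finsupp.single [x] 1) - mp (a ^ M : Equiv.Perm X) (E (Finsupp.single [x] 1)) +
      pr id (a ^ (M * q) : Equiv.Perm X) (L (Finsupp.single [x] 1)))
    (v w : Vx M N) :
    bd (E2v a xj E ξ c v w) = (∑ t ∈ Finset.range (M * q), mp (a ^ t : Equiv.Perm X)
      (H2v L c ((sh ^ t : Equiv.Perm (Vx M N)).symm v) ((sh ^ t : Equiv.Perm (Vx M N)).symm w))) -
        pr id (a ^ (M * q) : Equiv.Perm X) (S2v a xj L c v w) + E1v a xj E w - E1v a xj E v := by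
  classical
  have h1 : ∀ t ∈ Finset.range (M * q), mp (a ^ t : Equiv.Perm X)
      (H2v L c ((sh ^ t : Equiv.Perm (Vx M N)).symm v) ((sh ^ t : Equiv.Perm (Vx M N)).symm w)) =
      if v.1 - (t : ZMod M) = 0 then mp (a ^ t : Equiv.Perm X) (L (c v.2 w.2 (w.1 - v.1)))
        else 0 := by
    intro t _
    rw [r3_sh_symm, r3_sh_symm]
    unfold H2v
    show mp (a ^ t : Equiv.Perm X) (if v.1 - (t : ZMod M) = 0 then
      L (c v.2 w.2 (w.1 - (t : ZMod M))) else 0) = _
    rw [r3_mp_ite]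
    by_cases h : v.1 - (t : ZMod M) = 0
    · rw [if_pos h, if_pos h, sub_eq_zero.1 h]
    · rw [if_neg h, if_neg h]
  rw [Finset.sum_congr rfl h1,
    r3_sum q v.1 (fun t => mp (a ^ t : Equiv.Perm X) (L (c v.2 w.2 (w.1 - v.1))))]
  have hsum : mp (a ^ v.1.val : Equiv.Perm X) (∑ t ∈ Finset.range q,
      mp (a ^ (M * t) : Equiv.Perm X) (L (c v.2 w.2 (w.1 - v.1)))) =
      ∑ t ∈ Finset.range q, mp (a ^ (v.1.val + M * t) : Equiv.Perm X)
        (L (c v.2 w.2 (w.1 - v.1))) := by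
    rw [map_sum]
    refine Finset.sum_congr rfl fun t _ => ?_
    rw [← r3_mp_mul, ← pow_add]
  have hEv : mp (a ^ v.1.val : Equiv.Perm X) (E (Finsupp.single [xj v.2] 1)) = E1v a xj E v := by
    rw [← r3_comm a E hEa, mp_single]
    rfl
  have hEw : mp (a ^ w.1.val : Equiv.Perm X) (E (Finsupp.single [xj w.2] 1)) = E1v a xj E w := by
    rw [← r3_comm a E hEa, mp_single]
    rfl
  have hEk : mp (a ^ v.1.val : Equiv.Perm X)
      (E (Finsupp.single [(a ^ (w.1 - v.1).val : Equiv.Perm X) (xj w.2)] 1)) =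
      E (Finsupp.single [(a ^ (v.1.val + (w.1 - v.1).val) : Equiv.Perm X) (xj w.2)] 1) := by
    rw [← r3_comm a E hEa, mp_single, pow_add]
    rfl
  have hmain : mp (a ^ v.1.val : Equiv.Perm X) (bd (E (c v.2 w.2 (w.1 - v.1)))) =
      (∑ t ∈ Finset.range q, mp (a ^ (v.1.val + M * t) : Equiv.Perm X)
        (L (c v.2 w.2 (w.1 - v.1)))) -
      mp (a ^ v.1.val : Equiv.Perm X) (pr id (a ^ (M * q) : Equiv.Perm X)
        (c v.2 w.2 (w.1 - v.1))) +
      (E (Finsupp.single [(a ^ (v.1.val + (w.1 - v.1).val) : Equiv.Perm X) (xj w.2)] 1) -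
        E1v a xj E v) := by
    rw [hEc, hc, map_add, map_sub, hsum, map_sub E, map_sub, hEk, hEv]
  have hcast : ((v.1.val + (w.1 - v.1).val : ℕ) : ZMod M) = w.1 := by
    rw [Nat.cast_add, ZMod.natCast_zmod_val, ZMod.natCast_zmod_val]
    ring
  have hv := ZMod.val_lt v.1
  have hk := ZMod.val_lt (w.1 - v.1)
  unfold E2v S2v
  by_cases hM : M ≤ v.1.val + (w.1 - v.1).val
  · rw [if_pos hM, if_pos hM, map_add, bd_mp, bd_mp, hmain, hξ, map_sub, r3_pr]
    have hi : v.1.val + (w.1 - v.1).val = w.1.val + M := by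
      have h2 : w.1.val = v.1.val + (w.1 - v.1).val - M := by
        have h3 : ((v.1.val + (w.1 - v.1).val - M : ℕ) : ZMod M) = w.1 := by
          rw [Nat.cast_sub hM, ZMod.natCast_self, sub_zero]
          exact hcast
        calc w.1.val = ((v.1.val + (w.1 - v.1).val - M : ℕ) : ZMod M).val := by rw [h3]
          _ = v.1.val + (w.1 - v.1).val - M := ZMod.val_natCast_of_lt (by omega)
      omega
    have h4 : mp (a ^ w.1.val : Equiv.Perm X) (mp (a ^ M : Equiv.Perm X)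
        (E (Finsupp.single [xj w.2] 1))) =
        E (Finsupp.single [(a ^ (v.1.val + (w.1 - v.1).val) : Equiv.Perm X) (xj w.2)] 1) := by
      rw [← r3_comm a E hEa, ← r3_comm a E hEa, mp_single, mp_single, hi, pow_add]
      rfl
    rw [map_add, map_sub (mp (⇑(a ^ w.1.val : Equiv.Perm X))), h4, hEw, r3_pr]
    abel
  · rw [if_neg hM, if_neg hM, add_zero, sub_zero, bd_mp, hmain, r3_pr]
    have hi : v.1.val + (w.1 - v.1).val = w.1.val := by
      calc v.1.val + (w.1 - v.1).val = ((v.1.val + (w.1 - v.1).val : ℕ) : ZMod M).val :=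
            (ZMod.val_natCast_of_lt (not_le.1 hM)).symm
        _ = w.1.val := by rw [hcast]
    have h4 : E (Finsupp.single [(a ^ (v.1.val + (w.1 - v.1).val) : Equiv.Perm X) (xj w.2)] 1) =
        E1v a xj E w := by
      rw [hi]
      rfl
    rw [h4]
    abel

end AGV
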