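import Pool.Agent.AGV.P3
import Pool.Agent.AGV.R3a
import Pool.Agent.AGV.R3b
import Pool.Agent.AGV.LocL
import Pool.Agent.AGV.LocE
import Pool.Agent.AGV.Pth

/-!
# AGV-C3f: orbit dimension 3, fixed parameters

`L` from `locL`, `E`, `ξ` from `locE`. `xj j` a point of `O (0, j)`, so `xv a xj v ∈ O v` (`hOa`, `v = (sh ^ v.1.val) (0, v.2)`). For `j, j', k` the set `O (0, j) ∪ O (k, j')` is preconnected (both are, and they meet: `IsPreconnected.union'`), contains `xj j` and `(a ^ k.val) (xj j')`: let `c j j' k` be the chain of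
`exists_chain` with `μ = μ₂` (its lists `[p, p']` have `p` in `O (0, j)` or in `O (k, j')`, `dist p p' < μ₂`). `hLc`, `hEc` of R3a, R3b follow from the relations for `[p, p']` by linearity (`lin_eq`; a list of length 2 is `[p, p']`, `bd (single [p, p'] 1) = single [p'] 1 - single [p] 1`).
Apply `pairs_core` with `n = M * q`, `x = xv a xj`, `H1 = H1v xj L`, `E1 = E1v a xj E`, `S2 = S2v a xj L c`, `H2 = H2v L c`, `E2 = E2v a xj E ξ c`, `A k = SP (fun l => l.length = k ∧ Msh (mu k) l)`, `mu k = μ₁` for `k ≤ 1`, `μ₂` for `k = 2`, `μ₃` for `k = 3`, `μ₄` for `k ≥ 4` (`A_pr`: the movement of `a ^ n` is `< μ₁`; `pr_mem`).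
Avoidance: all lists in `S2, H2, E2 v w` consist of points within `r` of a point of `O v` or within `r` of a point of `O w`: for `mp (a ^ i) (c v.2 w.2 k)` the list `[p, p']` with `p` in `(a ^ i) O (0, v.2) = O v` or `(a ^ i) O (k, w.2) = O w`, `μ₂ ≤ r`; `L [p, p']` is within `r₂ ≤ r` of `p`, `E [p, p']` within `r` of `p`,
`mp (a ^ i') (L [xj w.2])`, `mp (a ^ i') (ξ (xj w.2))` within `r` of `xv w`. Then `hOF`.
-/

set_option autoImplicit false

namespace AGV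

variable {M N : ℕ} [NeZero M] {X : Type} [MetricSpace X] [Nonempty X]

/-- all points of the list are near `O v` -/
private def c3_N {X : Type} [MetricSpace X] (O : Vx M N → Set X) (r : ℝ) (v : Vx M N) (l : List X) : Prop :=
  ∀ y ∈ l, ∃ x ∈ O v, dist y x < r

/-- chains of mesh `μ` on lists of `k` points near `O v` or near `O w` -/
private noncomputable def c3_G {X : Type} [MetricSpace X] (O : Vx M N → Set X) (r : ℝ) (k : ℕ) (μ : ℝ)
    (v w : Vx M N) : Submodule ℤ (Ch X) :=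
  SP (fun l : List X => l.length = k ∧ Msh μ l ∧ (c3_N O r v l ∨ c3_N O r w l))

/-- the meshes -/
private noncomputable def c3_mu (μ₁ μ₂ μ₃ μ₄ : ℝ) (k : ℕ) : ℝ :=
  if k ≤ 1 then μ₁ else if k = 2 then μ₂ else if k = 3 then μ₃ else μ₄

omit [NeZero M] in
private theorem c3_shp (t : ℕ) (v : Vx M N) :
    (sh ^ t : Equiv.Perm (Vx M N)) v = (v.1 + (t : ZMod M), v.2) := by
  induction t with
  | zero =>
    rw [pow_zero, Equiv.Perm.one_apply, Nat.cast_zero, add_zero]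
  | succ t ih =>
    rw [pow_succ', Equiv.Perm.mul_apply, ih]
    show ((v.1 + (t : ZMod M)) + 1, v.2) = (v.1 + ((t + 1 : ℕ) : ZMod M), v.2)
    rw [Nat.cast_succ, add_assoc]

private theorem c3_val (v : Vx M N) : (sh ^ v.1.val : Equiv.Perm (Vx M N)) (0, v.2) = v := by
  rw [c3_shp, ZMod.natCast_zmod_val, zero_add]

private theorem c3_add (v w : Vx M N) :
    (sh ^ v.1.val : Equiv.Perm (Vx M N)) (w.1 - v.1, w.2) = w := by
  rw [c3_shp, ZMod.natCast_zmod_val, sub_add_cancel]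

private theorem c3_iso {X : Type} [MetricSpace X] (a : Equiv.Perm X)
    (ha : ∀ x y, dist (a x) (a y) = dist x y) (t : ℕ) (x y : X) :
    dist ((a ^ t : Equiv.Perm X) x) ((a ^ t : Equiv.Perm X) y) = dist x y := by
  induction t with
  | zero => rw [pow_zero, Equiv.Perm.one_apply, Equiv.Perm.one_apply]
  | succ t ih => rw [pow_succ', Equiv.Perm.mul_apply, Equiv.Perm.mul_apply, ha, ih]

omit [NeZero M] in
private theorem c3_O {X : Type} (a : Equiv.Perm X) (O : Vx M N → Set X)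
    (hOa : ∀ v x, a x ∈ O (sh v) ↔ x ∈ O v) (t : ℕ) (v : Vx M N) (x : X) (h : x ∈ O v) :
    (a ^ t : Equiv.Perm X) x ∈ O ((sh ^ t : Equiv.Perm (Vx M N)) v) := by
  induction t with
  | zero =>
    rw [pow_zero, pow_zero, Equiv.Perm.one_apply, Equiv.Perm.one_apply]
    exact h
  | succ t ih =>
    rw [pow_succ', pow_succ', Equiv.Perm.mul_apply, Equiv.Perm.mul_apply, hOa]
    exact ih

omit [NeZero M] in
private theorem c3_map {X : Type} [MetricSpace X] (a : Equiv.Perm X)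
    (ha : ∀ x y, dist (a x) (a y) = dist x y) (O : Vx M N → Set X)
    (hOa : ∀ v x, a x ∈ O (sh v) ↔ x ∈ O v) {r : ℝ} (t : ℕ) {v : Vx M N} {l : List X}
    (h : c3_N O r v l) :
    c3_N O r ((sh ^ t : Equiv.Perm (Vx M N)) v) (l.map (a ^ t : Equiv.Perm X)) := by
  intro y hy
  obtain ⟨u, hu, rfl⟩ := List.mem_map.1 hy
  obtain ⟨x, hx, hd⟩ := h u hu
  exact ⟨_, c3_O a O hOa t v x hx, by rw [c3_iso a ha]; exact hd⟩

omit [NeZero M] in
private theorem c3_mp {X : Type} [MetricSpace X] (a : Equiv.Perm X)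
    (ha : ∀ x y, dist (a x) (a y) = dist x y) (O : Vx M N → Set X)
    (hOa : ∀ v x, a x ∈ O (sh v) ↔ x ∈ O v) {r μ : ℝ} {k : ℕ} (t : ℕ) {v w : Vx M N} {z : Ch X}
    (hz : z ∈ c3_G O r k μ v w) :
    mp (a ^ t : Equiv.Perm X) z ∈ c3_G O r k μ ((sh ^ t : Equiv.Perm (Vx M N)) v)
      ((sh ^ t : Equiv.Perm (Vx M N)) w) := by
  refine mp_mem _ (fun l hl => ⟨by rw [List.length_map, hl.1], ?_, ?_⟩) hz
  · intro y hy y' hy'
    obtain ⟨u, hu, rfl⟩ := List.mem_map.1 hy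
    obtain ⟨u', hu', rfl⟩ := List.mem_map.1 hy'
    rw [c3_iso a ha]
    exact hl.2.1 u hu u' hu'
  · rcases hl.2.2 with h | h
    · exact Or.inl (c3_map a ha O hOa t h)
    · exact Or.inr (c3_map a ha O hOa t h)

omit [NeZero M] in
private theorem c3_near {X : Type} [MetricSpace X] (O : Vx M N → Set X) {r ρ μ : ℝ} (hρ : ρ ≤ r) {k : ℕ}
    {v w : Vx M N} {x : X} (hx : x ∈ O v ∨ x ∈ O w) {z : Ch X}
    (hz : z ∈ SP (fun l : List X => l.length = k ∧ Msh μ l ∧ ∀ y ∈ l, dist y x < ρ)) :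
    z ∈ c3_G O r k μ v w := by
  refine SP_mono (fun l hl => ⟨hl.1, hl.2.1, ?_⟩) hz
  rcases hx with h | h
  · exact Or.inl fun y hy => ⟨x, h, lt_of_lt_of_le (hl.2.2 y hy) hρ⟩
  · exact Or.inr fun y hy => ⟨x, h, lt_of_lt_of_le (hl.2.2 y hy) hρ⟩

omit [NeZero M] in
private theorem c3_two {X : Type} [MetricSpace X] (O : Vx M N → Set X) {r ρ μ : ℝ} (hρ : ρ ≤ r) {k : ℕ} {μ' : ℝ}
    (φ : Ch X →ₗ[ℤ] Ch X) {v w : Vx M N}
    (hφ : ∀ x y, dist x y < μ → φ (Finsupp.single [x, y] 1) ∈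
      SP (fun l : List X => l.length = k ∧ Msh μ' l ∧ ∀ p ∈ l, dist p x < ρ)) {z : Ch X}
    (hz : z ∈ SP (fun l : List X => l.length = 2 ∧ Msh μ l ∧ ∀ p ∈ l, p ∈ O v ∪ O w)) :
    φ z ∈ c3_G O r k μ' v w := by
  refine lin_mem φ _ (fun l hl => ?_) hz
  obtain ⟨hl1, hl2, hl3⟩ := hl
  obtain ⟨p, p', rfl⟩ := List.length_eq_two.1 hl1
  have h1 : dist p p' < μ := hl2 p (by simp) p' (by simp)
  exact c3_near O hρ (hl3 p (by simp)) (hφ p p' h1)

private theorem c3_bd2 {X : Type} (x y : X) :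
    bd (Finsupp.single [x, y] (1 : ℤ)) = Finsupp.single [y] 1 - Finsupp.single [x] 1 := by
  rw [bd_single, one_smul]
  show Finsupp.single [y] 1 - cone x (Finsupp.single [] 1 - cone y (0 : Ch X)) = _
  rw [map_zero, sub_zero, cone_single]

theorem core3_fix (hM2 : 2 ≤ M) (a : Equiv.Perm X) (ha : ∀ x y, dist (a x) (a y) = dist x y)
    (hfree : ∀ (t : ℤ) (x : X), (a ^ t : Equiv.Perm X) x = x → a ^ t = 1)
    (F : X → Vx M N) (hF : ∀ x, F (a x) = sh (F x))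
    (r r₁ r₂ δ₁ δ₂ δ₃ μ₁ μ₂ μ₃ μ₄ : ℝ) (h1 : 0 < μ₁) (h12 : 2 * μ₁ ≤ μ₂) (h23 : 2 * μ₂ ≤ μ₃) (h34 : 2 * μ₃ ≤ μ₄)
    (hμδ : μ₁ ≤ δ₁) (hδ1 : 0 < δ₁) (hr1 : 0 < r₁) (hr12 : r₁ ≤ r₂) (hr2 : r₂ ≤ r) (hμr : μ₂ ≤ r)
    (e12 : r₁ + δ₁ + μ₂ ≤ δ₂) (e23 : r₂ + δ₁ + μ₂ ≤ δ₃)
    (hOK : ∀ l : List X, Msh μ₄ l → OK 3 (l.map F))
    (top : ∀ z ∈ SP (fun l : List X => l.length = 4 ∧ Msh μ₄ l), bd z = 0 → om (mp F z) = 0)
    (f1 : ∀ z ∈ SP (fun l : List X => l.length = 1 ∧ Msh μ₁ l), bd z = 0 →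
      ∃ w ∈ SP (fun l : List X => l.length = 2 ∧ Msh μ₂ l), bd w = z)
    (f2 : ∀ z ∈ SP (fun l : List X => l.length = 2 ∧ Msh μ₂ l), bd z = 0 →
      ∃ w ∈ SP (fun l : List X => l.length = 3 ∧ Msh μ₃ l), bd w = z)
    (f3 : ∀ z ∈ SP (fun l : List X => l.length = 3 ∧ Msh μ₃ l), bd z = 0 →
      ∃ w ∈ SP (fun l : List X => l.length = 4 ∧ Msh μ₄ l), bd w = z)
    (g1 : ∀ x : X, ∀ z ∈ SP (fun l : List X => l.length = 1 ∧ ∀ y ∈ l, dist y x < δ₁), bd z = 0 →
      ∃ w ∈ SP (fun l : List X => l.length = 2 ∧ Msh μ₂ l ∧ ∀ y ∈ l, dist y x < r₁), bd w = z)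
    (g2 : ∀ x : X, ∀ z ∈ SP (fun l : List X => l.length = 2 ∧ Msh μ₂ l ∧ ∀ y ∈ l, dist y x < δ₂), bd z = 0 →
      ∃ w ∈ SP (fun l : List X => l.length = 3 ∧ Msh μ₃ l ∧ ∀ y ∈ l, dist y x < r₂), bd w = z)
    (g3 : ∀ x : X, ∀ z ∈ SP (fun l : List X => l.length = 3 ∧ Msh μ₃ l ∧ ∀ y ∈ l, dist y x < δ₃), bd z = 0 →
      ∃ w ∈ SP (fun l : List X => l.length = 4 ∧ Msh μ₄ l ∧ ∀ y ∈ l, dist y x < r), bd w = z)
    (hsm : ∀ (t : ℕ) (x : X), dist ((a ^ (M * t) : Equiv.Perm X) x) x < δ₁)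
    (q : ℕ) (hq : 0 < q) (hrec : ∀ x, dist ((a ^ (M * q) : Equiv.Perm X) x) x < μ₁)
    (O : Vx M N → Set X) (hO : ∀ v, IsPreconnected (O v)) (hOO : ∀ v w, (O v ∩ O w).Nonempty)
    (hOa : ∀ v x, a x ∈ O (sh v) ↔ x ∈ O v) (hOF : ∀ v, ∀ x ∈ O v, ∀ y, dist y x < r → F y ≠ v) : False := by
  classical
  have hμ2 : 0 < μ₂ := by linarith
  have hμ3 : 0 < μ₃ := by linarith
  have hμ4 : 0 < μ₄ := by linarith
  have hr : 0 < r := by linarith
  have hMpos : 0 < M := by omega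
  obtain ⟨L, hL0, hLa, hL1, hL2⟩ := locL a ha hfree M r₁ r₂ δ₁ δ₂ μ₂ μ₃ hδ1 hμ2 hr1 e12 (by
    intro x
    have := hsm 1 x
    rwa [mul_one] at this) g1 g2
  obtain ⟨E, ξ, hEa, hE1, hE2, hξ⟩ := locE a ha hfree M q r₁ r₂ r δ₁ δ₂ δ₃ μ₁ μ₂ μ₃ μ₄ hδ1 h1 h12 h23 hr1
    e12 e23 hr12 hμδ hsm hrec g2 g3 L hLa hL1 hL2
  -- the base points and the paths
  have hxj : ∀ j : Fin N, ∃ x : X, x ∈ O (0, j) := fun j => by
    obtain ⟨x, hx, _⟩ := hOO (0, j) (0, j)
    exact ⟨x, hx⟩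
  choose xj hxj using hxj
  have hxv : ∀ v : Vx M N, xv a xj v ∈ O v := by
    intro v
    have h := c3_O a O hOa v.1.val (0, v.2) (xj v.2) (hxj v.2)
    rw [c3_val] at h
    exact h
  have hc : ∀ (j j' : Fin N) (k : ZMod M), ∃ c ∈ SP (fun l : List X => l.length = 2 ∧ Msh μ₂ l ∧
      ∀ p ∈ l, p ∈ O (0, j) ∪ O (k, j')),
      bd c = Finsupp.single [(a ^ k.val : Equiv.Perm X) (xj j')] 1 - Finsupp.single [xj j] 1 := by
    intro j j' k
    have hp : IsPreconnected (O (0, j) ∪ O (k, j')) :=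
      IsPreconnected.union' (hOO (0, j) (k, j')) (hO (0, j)) (hO (k, j'))
    exact exists_chain hp hμ2 (Or.inl (hxj j)) (Or.inr (hxv (k, j')))
  choose c hcm hcb using hc
  have hLc : ∀ j j' k, bd (L (c j j' k)) = mp (a ^ M : Equiv.Perm X) (c j j' k) - c j j' k - L (bd (c j j' k)) := by
    intro j j' k
    refine lin_eq (bd ∘ₗ L) (mp (a ^ M : Equiv.Perm X) - LinearMap.id - L ∘ₗ bd) (fun l hl => ?_) (hcm j j' k)
    obtain ⟨p, p', rfl⟩ := List.length_eq_two.1 hl.1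
    have hd : dist p p' < μ₂ := hl.2.1 p (by simp) p' (by simp)
    rw [LinearMap.comp_apply, LinearMap.sub_apply, LinearMap.sub_apply, LinearMap.comp_apply,
      LinearMap.id_apply, (hL2 p p' hd).2, c3_bd2, mp_single, map_sub]
    show _ = Finsupp.single [(a ^ M : Equiv.Perm X) p, (a ^ M : Equiv.Perm X) p'] 1 - _ - _
    abel
  have hEc : ∀ j j' k, bd (E (c j j' k)) =
      (∑ t ∈ Finset.range q, mp (a ^ (M * t) : Equiv.Perm X) (L (c j j' k))) -
        pr id (a ^ (M * q) : Equiv.Perm X) (c j j' k) + E (bd (c j j' k)) := by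
    intro j j' k
    have h := lin_eq (bd ∘ₗ E) ((∑ t ∈ Finset.range q, (mp (a ^ (M * t) : Equiv.Perm X)) ∘ₗ L) -
      pr id (a ^ (M * q) : Equiv.Perm X) + E ∘ₗ bd) (fun l hl => ?_) (hcm j j' k)
    · rw [LinearMap.comp_apply, LinearMap.add_apply, LinearMap.sub_apply, LinearMap.sum_apply,
        LinearMap.comp_apply] at h
      exact h
    · obtain ⟨p, p', rfl⟩ := List.length_eq_two.1 hl.1
      have hd : dist p p' < μ₂ := hl.2.1 p (by simp) p' (by simp)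
      rw [LinearMap.comp_apply, LinearMap.add_apply, LinearMap.sub_apply, LinearMap.sum_apply,
        LinearMap.comp_apply, (hE2 p p' hd).2, c3_bd2, map_sub, ← add_sub_assoc]
      rfl
  -- membership
  have gc : ∀ j j' k, c j j' k ∈ c3_G O r 2 μ₂ (0, j) (k, j') := by
    intro j j' k
    refine SP_mono (fun l hl => ⟨hl.1, hl.2.1, ?_⟩) (hcm j j' k)
    obtain ⟨p, p', rfl⟩ := List.length_eq_two.1 hl.1
    have hd : dist p' p < μ₂ := hl.2.1 p' (by simp) p (by simp)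
    have hall : ∀ y ∈ [p, p'], dist y p < r := by
      intro y hy
      rw [List.mem_cons, List.mem_singleton] at hy
      rcases hy with rfl | rfl
      · rw [dist_self]
        exact hr
      · linarith
    rcases hl.2.2 p (by simp) with h | h
    · exact Or.inl fun y hy => ⟨p, h, hall y hy⟩
    · exact Or.inr fun y hy => ⟨p, h, hall y hy⟩
  have gL : ∀ j j' k, L (c j j' k) ∈ c3_G O r 3 μ₃ (0, j) (k, j') := fun j j' k =>
    c3_two O hr2 L (fun x y hxy => (hL2 x y hxy).1) (hcm j j' k)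
  have gE : ∀ j j' k, E (c j j' k) ∈ c3_G O r 4 μ₄ (0, j) (k, j') := fun j j' k =>
    c3_two O le_rfl E (fun x y hxy => (hE2 x y hxy).1) (hcm j j' k)
  have gL1 : ∀ j, L (Finsupp.single [xj j] 1) ∈ c3_G O r 2 μ₂ (0, j) (0, j) := fun j =>
    c3_near O (hr12.trans hr2) (Or.inl (hxj j)) (hL1 (xj j)).1
  have gξ : ∀ j, ξ (xj j) ∈ c3_G O r 4 μ₄ (0, j) (0, j) := fun j =>
    c3_near O le_rfl (Or.inl (hxj j)) (hξ (xj j)).1
  have GE1 : ∀ v, E1v a xj E v ∈ c3_G O r 3 μ₃ v v := fun v =>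
    c3_near O hr2 (Or.inl (hxv v)) (hE1 (xv a xj v)).1
  have GH1 : ∀ v, H1v xj L v ∈ c3_G O r 2 μ₂ v v := by
    intro v
    unfold H1v
    split_ifs with h
    · have h2 := gL1 v.2
      have h3 : ((0, v.2) : Vx M N) = v := by rw [← h]
      rw [h3] at h2
      exact h2
    · exact Submodule.zero_mem _
  have hmono : ∀ {k : ℕ} {μ : ℝ} (v w : Vx M N) {z : Ch X}, z ∈ c3_G O r k μ w w → z ∈ c3_G O r k μ v w := by
    intro k μ v w z hz
    refine SP_mono (fun l hl => ⟨hl.1, hl.2.1, Or.inr ?_⟩) hz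
    rcases hl.2.2 with h | h <;> exact h
  have GS2 : ∀ v w, S2v a xj L c v w ∈ c3_G O r 2 μ₂ v w := by
    intro v w
    unfold S2v
    refine Submodule.sub_mem _ ?_ ?_
    · have h := c3_mp a ha O hOa v.1.val (gc v.2 w.2 (w.1 - v.1))
      rw [c3_val, c3_add] at h
      exact h
    · split_ifs with h
      · have h2 := c3_mp a ha O hOa w.1.val (gL1 w.2)
        rw [c3_val] at h2
        exact hmono v w h2
      · exact Submodule.zero_mem _
  have GH2 : ∀ v w, H2v L c v w ∈ c3_G O r 3 μ₃ v w := by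
    intro v w
    unfold H2v
    split_ifs with h
    · have h2 := gL v.2 w.2 w.1
      have h3 : ((0, v.2) : Vx M N) = v := by rw [← h]
      rw [h3] at h2
      exact h2
    · exact Submodule.zero_mem _
  have GE2 : ∀ v w, E2v a xj E ξ c v w ∈ c3_G O r 4 μ₄ v w := by
    intro v w
    unfold E2v
    refine Submodule.add_mem _ ?_ ?_
    · have h := c3_mp a ha O hOa v.1.val (gE v.2 w.2 (w.1 - v.1))
      rw [c3_val, c3_add] at h
      exact h
    · split_ifs with h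
      · have h2 := c3_mp a ha O hOa w.1.val (gξ w.2)
        rw [c3_val] at h2
        exact hmono v w h2
      · exact Submodule.zero_mem _
  -- the meshes
  obtain ⟨mu, hmu⟩ : ∃ mu : ℕ → ℝ, ∀ k, mu k = c3_mu μ₁ μ₂ μ₃ μ₄ k := ⟨_, fun _ => rfl⟩
  have m0 : mu 0 = μ₁ := by rw [hmu]; unfold c3_mu; norm_num
  have m1 : mu 1 = μ₁ := by rw [hmu]; unfold c3_mu; norm_num
  have m2 : mu 2 = μ₂ := by rw [hmu]; unfold c3_mu; norm_num
  have m3 : mu 3 = μ₃ := by rw [hmu]; unfold c3_mu; norm_num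
  have m4 : mu 4 = μ₄ := by rw [hmu]; unfold c3_mu; norm_num
  have hmu4 : ∀ k, mu k ≤ μ₄ := by
    intro k
    rw [hmu]
    unfold c3_mu
    split_ifs <;> linarith
  have hmup : ∀ k, 0 < mu k := by
    intro k
    rw [hmu]
    unfold c3_mu
    split_ifs <;> linarith
  have toA : ∀ {k : ℕ} {μ : ℝ} {v w : Vx M N} {z : Ch X}, μ ≤ mu k → z ∈ c3_G O r k μ v w →
      z ∈ SP (fun l : List X => l.length = k ∧ Msh (mu k) l) := by
    intro k μ v w z hle hz
    exact SP_mono (fun l hl => ⟨hl.1, fun y hy y' hy' => lt_of_lt_of_le (hl.2.1 y hy y' hy') hle⟩) hz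
  have hNF : ∀ (v : Vx M N) (l : List X), c3_N O r v l → ∀ y ∈ l, F y ≠ v := by
    intro v l hl y hy
    obtain ⟨x, hx, hd⟩ := hl y hy
    exact hOF v x hx y hd
  have toAv : ∀ {k : ℕ} {μ : ℝ} {v w : Vx M N} {z : Ch X}, z ∈ c3_G O r k μ v w →
      z ∈ SP (fun l : List X => (∀ y ∈ l, F y ≠ v) ∨ ∀ y ∈ l, F y ≠ w) := by
    intro k μ v w z hz
    exact SP_mono (fun l hl => hl.2.2.imp (hNF v l) (hNF w l)) hz
  have toAv1 : ∀ {k : ℕ} {μ : ℝ} {v : Vx M N} {z : Ch X}, z ∈ c3_G O r k μ v v →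
      z ∈ SP (fun l : List X => ∀ y ∈ l, F y ≠ v) := by
    intro k μ v z hz
    exact SP_mono (fun l hl => hl.elim id id) (toAv hz)
  refine pairs_core (n := M * q) hM2 (Nat.mul_pos hMpos hq) (Dvd.intro q rfl) a F hF
    (fun k => SP (fun l : List X => l.length = k ∧ Msh (mu k) l)) ?_ ?_ ?_ ?_ ?_ ?_ ?_
    (xv a xj) (H1v xj L) (E1v a xj E) (S2v a xj L c) (H2v L c) (E2v a xj E ξ c)
    (fun v => hOF v _ (hxv v) _ (by rw [dist_self]; exact hr))
    (fun v => toA m2.ge (GH1 v)) (fun v => toA m3.ge (GE1 v))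
    (fun v w _ => toA m2.ge (GS2 v w)) (fun v w _ => toA m3.ge (GH2 v w)) (fun v w _ => toA m4.ge (GE2 v w))
    (fun v w _ => bS2v a xj L c hcb (fun x => (hL1 x).2) v w)
    (fun v => bH1v a xj L (fun x => (hL1 x).2) v)
    (fun v w _ => bH2v a xj L c hLa hcb hLc v w)
    (fun v => bE1v q a xj L E hLa (fun x => (hE1 x).2) v)
    (fun v w _ => bE2v q a xj L E ξ c hLa hEa hcb hEc (fun x => (hξ x).2) v w)
    (fun v => toAv1 (GH1 v)) (fun v => toAv1 (GE1 v))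
    (fun v w _ => toAv (GS2 v w)) (fun v w _ => toAv (GH2 v w)) (fun v w _ => toAv (GE2 v w))
  · -- A_len
    intro k z hz
    refine SP_mono (fun l hl => ⟨hl.1, hOK l ?_⟩) hz
    intro y hy y' hy'
    exact lt_of_lt_of_le (hl.2 y hy y' hy') (hmu4 k)
  · -- A_a
    intro k z hz
    refine mp_mem _ (fun l hl => ⟨by rw [List.length_map, hl.1], ?_⟩) hz
    intro y hy y' hy'
    obtain ⟨u, hu, rfl⟩ := List.mem_map.1 hy
    obtain ⟨u', hu', rfl⟩ := List.mem_map.1 hy'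
    rw [ha]
    exact hl.2 u hu u' hu'
  · -- A_pr
    intro k hk z hz
    refine pr_mem _ _ (fun l hl l' hl1 hl2 => ⟨by rw [hl1, hl.1], ?_⟩) hz
    intro y hy y' hy'
    obtain ⟨u, hu, hyu⟩ := hl2 y hy
    obtain ⟨u', hu', hyu'⟩ := hl2 y' hy'
    have hk0 : k ≠ 0 := by
      rintro rfl
      rw [List.length_eq_zero_iff.1 hl.1] at hu
      exact List.not_mem_nil hu
    have h3 : mu k + μ₁ ≤ mu (k + 1) := by
      have h4 : k = 1 ∨ k = 2 ∨ k = 3 := by omega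
      rcases h4 with rfl | rfl | rfl
      · rw [m1, m2]
        linarith
      · rw [m2, m3]
        linarith
      · rw [m3, m4]
        linarith
    have h5 := hl.2 u hu u' hu'
    have h6 := hrec u
    have h7 := hrec u'
    refine lt_of_lt_of_le ?_ h3
    rcases hyu with hyu | hyu <;> rcases hyu' with hyu' | hyu' <;> rw [hyu, hyu']
    · show dist u u' < _
      linarith
    · show dist u ((a ^ (M * q) : Equiv.Perm X) u') < _
      have h8 := dist_triangle u u' ((a ^ (M * q) : Equiv.Perm X) u')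
      rw [dist_comm] at h7
      linarith
    · show dist ((a ^ (M * q) : Equiv.Perm X) u) u' < _
      have h8 := dist_triangle ((a ^ (M * q) : Equiv.Perm X) u) u u'
      linarith
    · rw [c3_iso a ha]
      linarith
  · -- A_zero
    exact single_mem ⟨rfl, fun y hy => absurd hy List.not_mem_nil⟩ 1
  · -- A_one
    intro x
    refine single_mem ⟨rfl, ?_⟩ 1
    intro y hy y' hy'
    rw [List.mem_singleton] at hy hy'
    rw [hy, hy', dist_self]
    exact hmup _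
  · -- top
    intro z hz hbz
    have hz' : z ∈ SP (fun l : List X => l.length = 4 ∧ Msh (mu 4) l) := hz
    rw [m4] at hz'
    exact top z hz' hbz
  · -- hfill
    intro k hk z hz hbz
    have h3 : k = 0 ∨ k = 1 ∨ k = 2 ∨ k = 3 := by omega
    rcases h3 with rfl | rfl | rfl | rfl
    · obtain ⟨x⟩ := (inferInstance : Nonempty X)
      have hmem : cone x z ∈ SP (fun l : List X => l.length = 0 + 1 ∧ Msh (mu (0 + 1)) l) := by
        refine cone_mem x (fun l hl => ⟨by rw [List.length_cons, hl.1], ?_⟩) hz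
        intro y hy y' hy'
        rw [List.length_eq_zero_iff.1 hl.1, List.mem_singleton] at hy hy'
        rw [hy, hy', dist_self]
        exact hmup _
      refine ⟨cone x z, hmem, ?_⟩
      rw [bd_cone, hbz, map_zero, sub_zero]
    · have hz' : z ∈ SP (fun l : List X => l.length = 1 ∧ Msh (mu 1) l) := hz
      rw [m1] at hz'
      obtain ⟨w, hw, hbw⟩ := f1 z hz' hbz
      refine ⟨w, ?_, hbw⟩
      show w ∈ SP (fun l : List X => l.length = 2 ∧ Msh (mu 2) l)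
      rw [m2]
      exact hw
    · have hz' : z ∈ SP (fun l : List X => l.length = 2 ∧ Msh (mu 2) l) := hz
      rw [m2] at hz'
      obtain ⟨w, hw, hbw⟩ := f2 z hz' hbz
      refine ⟨w, ?_, hbw⟩
      show w ∈ SP (fun l : List X => l.length = 3 ∧ Msh (mu 3) l)
      rw [m3]
      exact hw
    · have hz' : z ∈ SP (fun l : List X => l.length = 3 ∧ Msh (mu 3) l) := hz
      rw [m3] at hz'
      obtain ⟨w, hw, hbw⟩ := f3 z hz' hbz
      refine ⟨w, ?_, hbw⟩
      show w ∈ SP (fun l : List X => l.length = 4 ∧ Msh (mu 4) l)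
      rw [m4]
      exact hw

end AGV
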