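import Pool.Agent.AGV.Defs

/-!
# AGV-MDefs: the sets `Gd k` of good simplices with `k` vertices, and the number `rr`
-/

set_option autoImplicit false

namespace AGV

variable {M N : ℕ} [NeZero M]

open Classical in
/-- good simplices with `k` vertices -/
noncomputable def Gd (M N k : ℕ) [NeZero M] : Finset (Finset (Vx M N)) :=
  Finset.univ.filter fun σ => Good σ ∧ σ.card = k

theorem mem_Gd {k : ℕ} {σ : Finset (Vx M N)} : σ ∈ Gd M N k ↔ Good σ ∧ σ.card = k := by
  classical
  simp [Gd]

/-- the weighted number of incidences; the weights are the integer lifts of the differences of `φ` -/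
noncomputable def rr (d : ℕ) (φ : Finset (Vx M N) → ZMod M) (θ : Finset (Vx M N) → Finset (Vx M N) → ℤ) : ℤ :=
  ∑ τ ∈ Gd M N d, ∑ u : Vx M N, if u ∈ τ then 0 else
    sg u τ * θ τ (insert u τ) * ((φ (insert u τ) - φ τ).val : ℤ)

end AGV
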