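import Pool.Agent.AGV.Phi
import Pool.Agent.AGV.MDefs

/-!
# AGV-DivM: sums of invariant functions over the good simplices with `k ≥ 1` vertices are divisible by `M`

With `φ` from `exists_phi`: for `j : ZMod M` put `S j = ∑_{σ ∈ Gd k, φ σ = j} h σ`. The map `σ ↦ σ.image sh` is a bijection from `{σ ∈ Gd k | φ σ = j}` to
`{σ ∈ Gd k | φ σ = j + 1}` (`card_image_sh`, `good_image` of `Fd.lean` are for the inverse; `sh` is injective and keeps second coordinates), so `S (j + 1) = S j`, all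
`S j` are equal to `S 0`, and the sum is `∑_j S j = M * S 0` (`Finset.sum_fiberwise`).
-/

set_option autoImplicit false

namespace AGV

variable {M N : ℕ} [NeZero M]

omit [NeZero M] in
private lemma dvd_good_image {σ : Finset (Vx M N)} (hg : Good σ) : Good (σ.image sh) := by
  intro u hu w hw h
  rw [Finset.mem_image] at hu hw
  obtain ⟨u', hu', rfl⟩ := hu
  obtain ⟨w', hw', rfl⟩ := hw
  rw [hg u' hu' w' hw' h]

theorem dvd_sum {k : ℕ} (hk : 1 ≤ k) (h : Finset (Vx M N) → ℤ)
    (hh : ∀ σ ∈ Gd M N k, h (σ.image sh) = h σ) : (M : ℤ) ∣ ∑ σ ∈ Gd M N k, h σ := by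
  classical
  obtain ⟨φ, hφ⟩ := exists_phi M N
  have hsh : Function.Injective (sh : Vx M N → Vx M N) := (sh : Equiv.Perm (Vx M N)).injective
  have hmem : ∀ σ : Finset (Vx M N), σ ∈ Gd M N k → σ.image sh ∈ Gd M N k := by
    intro σ hσ
    rw [mem_Gd] at hσ ⊢
    refine ⟨dvd_good_image hσ.1, ?_⟩
    rw [Finset.card_image_of_injective _ hsh]
    exact hσ.2
  have hmem' : ∀ σ : Finset (Vx M N), σ ∈ Gd M N k →
      σ.image (sh : Equiv.Perm (Vx M N)).symm ∈ Gd M N k := by
    intro σ hσ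
    rw [mem_Gd] at hσ ⊢
    refine ⟨(good_image 1).2 hσ.1, ?_⟩
    rw [Finset.card_image_of_injective _ (Equiv.injective _)]
    exact hσ.2
  have hne : ∀ σ : Finset (Vx M N), σ ∈ Gd M N k → σ.Nonempty := by
    intro σ hσ
    rw [mem_Gd] at hσ
    rw [← Finset.card_pos]
    omega
  have hround : ∀ σ : Finset (Vx M N), (σ.image (sh : Equiv.Perm (Vx M N)).symm).image sh = σ := by
    intro σ
    rw [Finset.image_image]
    have : (sh : Vx M N → Vx M N) ∘ (sh : Equiv.Perm (Vx M N)).symm = id := by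
      funext x
      exact Equiv.apply_symm_apply _ x
    rw [this, Finset.image_id]
  have hstep : ∀ j : ZMod M, (∑ σ ∈ Gd M N k with φ σ = j + 1, h σ) =
      ∑ σ ∈ Gd M N k with φ σ = j, h σ := by
    intro j
    symm
    refine Finset.sum_bij (fun σ _ => σ.image sh) ?_ ?_ ?_ ?_
    · intro σ hσ
      rw [Finset.mem_filter] at hσ ⊢
      refine ⟨hmem σ hσ.1, ?_⟩
      rw [hφ σ (mem_Gd.1 hσ.1).1 (hne σ hσ.1), hσ.2]
    · intro a _ b _ hab
      exact Finset.image_injective hsh hab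
    · intro τ hτ
      rw [Finset.mem_filter] at hτ
      refine ⟨τ.image (sh : Equiv.Perm (Vx M N)).symm, ?_, hround τ⟩
      rw [Finset.mem_filter]
      have hm := hmem' τ hτ.1
      refine ⟨hm, ?_⟩
      have h1 := hφ _ (mem_Gd.1 hm).1 (hne _ hm)
      rw [hround τ, hτ.2] at h1
      exact (add_right_cancel h1).symm
    · intro σ hσ
      rw [Finset.mem_filter] at hσ
      exact (hh σ hσ.1).symm
  have hall : ∀ n : ℕ, (∑ σ ∈ Gd M N k with φ σ = (n : ZMod M), h σ) =
      ∑ σ ∈ Gd M N k with φ σ = 0, h σ := by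
    intro n
    induction n with
    | zero => rw [Nat.cast_zero]
    | succ n ih =>
      rw [Nat.cast_succ, hstep, ih]
  have hall' : ∀ j : ZMod M, (∑ σ ∈ Gd M N k with φ σ = j, h σ) =
      ∑ σ ∈ Gd M N k with φ σ = 0, h σ := by
    intro j
    have := hall j.val
    rwa [ZMod.natCast_val, ZMod.cast_id] at this
  rw [← Finset.sum_fiberwise (Gd M N k) φ h, Finset.sum_congr rfl fun j _ => hall' j,
    Finset.sum_const, Finset.card_univ, ZMod.card, nsmul_eq_mul]
  exact Dvd.intro _ rfl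

end AGV
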