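import Pool.Agent.AGV.Lst
import Pool.Agent.AGV.Fd

/-!
# AGV-FilF: contraction of a chain map defined on simplices

Show by induction on `m ≤ d`: there is `T` with the two properties for all good `σ` with `σ.card < m`. Step: keep the old values for `σ.card < m`; for good `σ` with `σ.card = m < d` the chain `y = u σ - fd T σ` is in `A m` (`hu`, `fd_mem`; `(σ.erase v).card + 1 = m`) and
`bd y = fd u σ - fd (fun ρ => u ρ - fd T ρ) σ = 0` (`hub`, `fd_map`, `fd_congr`, `fd_sub`, `fd_fd`, `Good.erase`), so `y = bd (T σ)` for some `T σ ∈ A (m + 1)`.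
-/

set_option autoImplicit false

namespace AGV

variable {M N : ℕ} {X : Type}

theorem fillF (d : ℕ) (A : ℕ → Submodule ℤ (Ch X))
    (hfill : ∀ k, k < d → ∀ z ∈ A k, bd z = 0 → ∃ w ∈ A (k + 1), bd w = z)
    (u : Finset (Vx M N) → Ch X) (hu : ∀ σ, Good σ → σ.card < d → u σ ∈ A σ.card)
    (hub : ∀ σ, Good σ → σ.card < d → bd (u σ) = fd u σ) :
    ∃ T : Finset (Vx M N) → Ch X, ∀ σ, Good σ → σ.card < d →
      T σ ∈ A (σ.card + 1) ∧ bd (T σ) + fd T σ = u σ := by
  classical
  have key : ∀ m : ℕ, m ≤ d → ∃ T : Finset (Vx M N) → Ch X, ∀ σ, Good σ → σ.card < m →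
      T σ ∈ A (σ.card + 1) ∧ bd (T σ) + fd T σ = u σ := by
    intro m
    induction m with
    | zero =>
      intro _
      exact ⟨fun _ => 0, fun σ _ h => absurd h (Nat.not_lt_zero _)⟩
    | succ m ih =>
      intro hm
      obtain ⟨T, hT⟩ := ih (by omega)
      have step : ∀ σ : Finset (Vx M N), ∃ w : Ch X,
          (Good σ ∧ σ.card = m → w ∈ A (σ.card + 1) ∧ bd w + fd T σ = u σ) ∧
          (σ.card ≠ m → w = T σ) := by
        intro σ
        by_cases h : Good σ ∧ σ.card = m
        · obtain ⟨hG, hc⟩ := h
          have hcard : ∀ v ∈ σ, (σ.erase v).card + 1 = σ.card := fun v hv =>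
            Finset.card_erase_add_one hv
          have hmem : u σ - fd T σ ∈ A σ.card := by
            refine Submodule.sub_mem _ (hu σ hG (by omega)) (fd_mem fun v hv => ?_)
            have h1 := (hT (σ.erase v) (hG.erase v) (by have := hcard v hv; omega)).1
            rwa [hcard v hv] at h1
          have hbd : bd (u σ - fd T σ) = 0 := by
            rw [map_sub, hub σ hG (by omega), fd_map, ← fd_sub]
            have h3 : fd (fun ρ => u ρ - bd (T ρ)) σ = fd (fd T) σ := fd_congr fun v hv => by
              have h4 := (hT (σ.erase v) (hG.erase v) (by have := hcard v hv; omega)).2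
              rw [← h4]
              abel
            rw [h3, fd_fd T hG]
          obtain ⟨w, hw1, hw2⟩ := hfill σ.card (by omega) _ hmem hbd
          exact ⟨w, fun _ => ⟨hw1, by rw [hw2]; abel⟩, fun h => absurd hc h⟩
        · exact ⟨T σ, fun h' => absurd h' h, fun _ => rfl⟩
      choose T' h1 h2 using step
      refine ⟨T', fun σ hG hc => ?_⟩
      have hfd : fd T' σ = fd T σ := fd_congr fun v hv => h2 _ (by
        have := Finset.card_erase_add_one hv
        omega)
      rw [hfd]
      by_cases hm' : σ.card = m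
      · exact h1 σ ⟨hG, hm'⟩
      · rw [h2 σ hm']
        exact hT σ hG (by omega)
  exact key d le_rfl

end AGV
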