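import Pool.Agent.AGV.Lst
import Pool.Agent.AGV.Fd
import Pool.Agent.AGV.Phi
import Pool.Agent.AGV.EqCh

/-!
# AGV-FinS: an equivariant chain map, if the `M`-th power of `a` is the identity

Induction on `k ≤ d + 1`: there is `s` with the four properties for all good `σ` with at most `k` vertices. `k = 0`: `s = fun _ => single [] 1` (`mp a (single [] 1) = single [] 1`, `bd (single [] 1) = 0`, `fd s ∅ = 0`).
Step from `k ≤ d` to `k + 1`: for good `σ` with `k + 1` vertices `fd s σ ∈ A k` (`fd_mem`, `σ.erase v` is good with `k` vertices) and `bd (fd s σ) = fd (fun ρ => bd (s ρ)) σ = fd (fd s) σ = 0` (`fd_map`, `fd_congr`, `fd_fd`), so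
some `w ∈ A (k + 1)` has `bd w = fd s σ`. Apply `equivariant_choice` to the type `{σ // Good σ ∧ σ.card = k + 1}` with the permutation `σ ↦ σ.image sh` and to `B = Ch X` with the permutation `mp a` (inverse `mp a.symm`), with
`P σ w := w ∈ A (k + 1) ∧ bd w = fd s σ` (invariance: `A_a`, `bd_mp`, `fd_map` and the equivariance of `s` on simplices with `k` vertices, see `fd_image`; for the converse direction use that `a.symm = a ^ (M - 1)`, or apply the direction `M - 1` times);
`hfree`: if the `t`-th power fixes a good nonempty `σ`, then `M ∣ t` (for `v ∈ σ` the vertex `(v.1 + t, v.2)` is in `σ`, so it is `v`, as `σ` is good), so `a ^ t = 1` and the `t`-th power of `mp a` is the identity. Define the new `s` by the old one on simplices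
with at most `k` vertices and by the choice on those with `k + 1` vertices.
-/

set_option autoImplicit false

namespace AGV

variable {M N : ℕ} [NeZero M]

private noncomputable def fsB {X : Type} (a : Equiv.Perm X) : Equiv.Perm (Ch X) where
  toFun z := mp a z
  invFun z := mp a.symm z
  left_inv z := by
    show mp a.symm (mp a z) = z
    rw [mp_mp, Equiv.symm_comp_self, mp_id]
  right_inv z := by
    show mp a (mp a.symm z) = z
    rw [mp_mp, Equiv.self_comp_symm, mp_id]

private lemma fsB_apply {X : Type} (a : Equiv.Perm X) (z : Ch X) : fsB a z = mp a z := rfl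

private lemma fsB_pow {X : Type} (a : Equiv.Perm X) (n : ℕ) (z : Ch X) :
    (fsB a ^ n : Equiv.Perm (Ch X)) z = mp (a ^ n : Equiv.Perm X) z := by
  induction n with
  | zero =>
    rw [pow_zero, pow_zero]
    show z = mp id z
    rw [mp_id]
  | succ n ih =>
    rw [pow_succ', pow_succ', Equiv.Perm.mul_apply, ih, fsB_apply, mp_mp]
    rfl

private lemma fsB_M {X : Type} (a : Equiv.Perm X) (haM : a ^ M = 1) : fsB a ^ M = 1 := by
  refine Equiv.ext fun z => ?_
  rw [fsB_pow, haM]
  show mp id z = z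
  rw [mp_id]

private lemma fs_zpow {Q : Type} (α : Equiv.Perm Q) (f : Q → ZMod M) (hf : ∀ x, f (α x) = f x + 1) (t : ℤ) :
    ∀ x, f ((α ^ t : Equiv.Perm Q) x) = f x + (t : ZMod M) := by
  induction t using Int.induction_on with
  | zero =>
    intro x
    simp
  | succ i ih =>
    intro x
    rw [add_comm, zpow_one_add, Equiv.Perm.mul_apply, hf, ih]
    push_cast
    ring
  | pred i ih =>
    intro x
    have h1 : (α ^ (-(i : ℤ)) : Equiv.Perm Q) x = α ((α ^ (-(i : ℤ) - 1) : Equiv.Perm Q) x) := by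
      rw [← Equiv.Perm.mul_apply, ← zpow_one_add]
      congr 2
      ring
    have h2 := ih x
    rw [h1, hf] at h2
    have h3 : f ((α ^ (-(i : ℤ) - 1) : Equiv.Perm Q) x) = f x + ((-(i : ℤ) : ℤ) : ZMod M) - 1 := by
      rw [← h2]
      ring
    rw [h3]
    push_cast
    ring

private lemma fs_free {Q B : Type} (α : Equiv.Perm Q) (b : Equiv.Perm B) (hb : b ^ M = 1) (f : Q → ZMod M)
    (hf : ∀ x, f (α x) = f x + 1) (t : ℤ) (x : Q) (h : (α ^ t : Equiv.Perm Q) x = x) : b ^ t = 1 := by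
  have h1 := fs_zpow α f hf t x
  rw [h] at h1
  have h2 : (t : ZMod M) = 0 := by
    have : f x + (t : ZMod M) = f x + 0 := by rw [← h1, add_zero]
    exact add_left_cancel this
  rw [ZMod.intCast_zmod_eq_zero_iff_dvd] at h2
  obtain ⟨c, rfl⟩ := h2
  rw [zpow_mul, zpow_natCast, hb, one_zpow]

private lemma fs_good_symm {S : Finset (Vx M N)} : Good (S.image sh.symm) ↔ Good S := by
  have h := good_image (M := M) (N := N) 1 (S := S)
  rwa [pow_one] at h

private lemma fs_card_symm (S : Finset (Vx M N)) : (S.image (sh : Equiv.Perm (Vx M N)).symm).card = S.card :=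
  Finset.card_image_of_injective _ (Equiv.injective _)

private lemma fs_card (S : Finset (Vx M N)) : (S.image (sh : Equiv.Perm (Vx M N))).card = S.card :=
  Finset.card_image_of_injective _ (Equiv.injective _)

private lemma fs_ss (S : Finset (Vx M N)) : (S.image (sh : Equiv.Perm (Vx M N)).symm).image sh = S := by
  rw [Finset.image_image, Equiv.self_comp_symm, Finset.image_id]

private lemma fs_ss' (S : Finset (Vx M N)) : (S.image (sh : Equiv.Perm (Vx M N))).image sh.symm = S := by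
  rw [Finset.image_image, Equiv.symm_comp_self, Finset.image_id]

private lemma fs_good {S : Finset (Vx M N)} : Good (S.image sh) ↔ Good S := by
  rw [← fs_good_symm (S := S.image sh), fs_ss']

private def fsA (k : ℕ) : Equiv.Perm {σ : Finset (Vx M N) // Good σ ∧ σ.card = k} where
  toFun σ := ⟨σ.1.image sh, fs_good.2 σ.2.1, (fs_card _).trans σ.2.2⟩
  invFun σ := ⟨σ.1.image sh.symm, fs_good_symm.2 σ.2.1, (fs_card_symm _).trans σ.2.2⟩
  left_inv σ := Subtype.ext (fs_ss' _)
  right_inv σ := Subtype.ext (fs_ss _)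

/-- the statement of the induction -/
private def fsP {X : Type} (a : Equiv.Perm X) (A : ℕ → Submodule ℤ (Ch X)) (k : ℕ) (s : Finset (Vx M N) → Ch X) : Prop :=
  s ∅ = Finsupp.single [] 1 ∧
      (∀ σ, Good σ → σ.card ≤ k → s σ ∈ A σ.card) ∧
      (∀ σ, Good σ → σ.card ≤ k → bd (s σ) = fd s σ) ∧
      (∀ σ, Good σ → σ.card ≤ k → mp a (s (σ.image sh.symm)) = s σ)

private lemma fs_zero {X : Type} (a : Equiv.Perm X) (A : ℕ → Submodule ℤ (Ch X))
    (A0 : (Finsupp.single [] 1 : Ch X) ∈ A 0) :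
    fsP (M := M) (N := N) a A 0 (fun _ => Finsupp.single [] 1) := by
  refine ⟨rfl, fun σ _ h => ?_, fun σ _ h => ?_, fun σ _ h => ?_⟩
  · rw [Nat.le_zero.1 h]
    exact A0
  · have h1 : σ = ∅ := Finset.card_eq_zero.1 (Nat.le_zero.1 h)
    subst h1
    rw [bd_single, one_smul]
    unfold fd
    rw [Finset.sum_empty]
    rfl
  · rw [mp_single, List.map_nil]

private lemma fs_fd {X : Type} (a : Equiv.Perm X) (A : ℕ → Submodule ℤ (Ch X)) {k : ℕ} {s : Finset (Vx M N) → Ch X}
    (hs : fsP a A k s) {σ : Finset (Vx M N)} (hg : Good σ) (hc : σ.card = k + 1) :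
    fd s (σ.image sh) = mp a (fd s σ) := by
  have h1 : mp a (fd s σ) = fd (fun ρ => mp a (s ρ)) σ := fd_map (mp a) s σ
  have h2 := fd_image (M := M) (N := N) 1 (fun ρ => mp a (s ρ)) (σ.image sh)
  rw [pow_one, fs_ss'] at h2
  rw [h1, h2]
  refine fd_congr fun v hv => ?_
  refine (hs.2.2.2 _ ((fs_good.2 hg).erase v) ?_).symm
  rw [Finset.card_erase_of_mem hv, fs_card, hc]
  exact le_of_eq rfl

private lemma fs_step {X : Type} (d : ℕ) (a : Equiv.Perm X) (haM : a ^ M = 1) (A : ℕ → Submodule ℤ (Ch X))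
    (A_a : ∀ k z, z ∈ A k → mp a z ∈ A k)
    (hfill : ∀ k, k ≤ d → ∀ z ∈ A k, bd z = 0 → ∃ w ∈ A (k + 1), bd w = z) {k : ℕ} (hk : k ≤ d)
    {s : Finset (Vx M N) → Ch X} (hs : fsP a A k s) : ∃ s' : Finset (Vx M N) → Ch X, fsP a A (k + 1) s' := by
  classical
  have hb := fsB_M (M := M) a haM
  obtain ⟨φ, hφ⟩ := exists_phi M N
  have hinv : ∀ n : ℕ, ∀ z, z ∈ A (k + 1) → (fsB a ^ n : Equiv.Perm (Ch X)) z ∈ A (k + 1) := by
    intro n
    induction n with
    | zero =>
      intro z hz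
      rw [pow_zero]
      exact hz
    | succ n ih =>
      intro z hz
      rw [pow_succ', Equiv.Perm.mul_apply, fsB_apply]
      exact A_a _ _ (ih z hz)
  have hinvm : ∀ z, mp a z ∈ A (k + 1) → z ∈ A (k + 1) := by
    intro z hz
    have h1 := hinv (M - 1) _ hz
    rw [← fsB_apply, ← Equiv.Perm.mul_apply, ← pow_succ, Nat.sub_add_cancel (NeZero.one_le), hb] at h1
    exact h1
  obtain ⟨L, hL1, hL2⟩ := equivariant_choice (fsA (M := M) (N := N) (k + 1)) (fsB a)
    (fun σ w => w ∈ A (k + 1) ∧ bd w = fd s σ.1) (by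
      intro σ w
      have e1 : fd s (fsA (M := M) (N := N) (k + 1) σ).1 = mp a (fd s σ.1) := fs_fd a A hs σ.2.1 σ.2.2
      rw [e1, fsB_apply, bd_mp]
      constructor
      · rintro ⟨h1, h2⟩
        exact ⟨A_a _ _ h1, by rw [h2]⟩
      · rintro ⟨h1, h2⟩
        exact ⟨hinvm _ h1, (fsB a).injective h2⟩) (by
      intro σ
      have hc : ∀ v ∈ σ.1, (σ.1.erase v).card = k := by
        intro v hv
        rw [Finset.card_erase_of_mem hv, σ.2.2]
        rfl
      refine hfill k hk _ (fd_mem fun v hv => ?_) ?_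
      · have h1 := hs.2.1 (σ.1.erase v) (σ.2.1.erase v) (hc v hv).le
        rwa [hc v hv] at h1
      · rw [fd_map bd s σ.1, fd_congr (D' := fd s) fun v hv => hs.2.2.1 _ (σ.2.1.erase v) (hc v hv).le,
          fd_fd _ σ.2.1]) (by
      intro t x hx
      refine fs_free (M := M) (fsA (k + 1)) (fsB a) hb (fun σ => φ σ.1) (fun σ => ?_) t x hx
      refine hφ σ.1 σ.2.1 ?_
      rw [← Finset.card_pos, σ.2.2]
      exact Nat.succ_pos k)
  let s' : Finset (Vx M N) → Ch X := fun σ => if h : Good σ ∧ σ.card = k + 1 then L ⟨σ, h⟩ else s σ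
  have e1 : ∀ σ (h : Good σ ∧ σ.card = k + 1), s' σ = L ⟨σ, h⟩ := fun σ h => dif_pos h
  have e2 : ∀ σ : Finset (Vx M N), σ.card ≤ k → s' σ = s σ := fun σ h => dif_neg fun h' => by
    rw [h'.2] at h
    omega
  have e3 : ∀ σ : Finset (Vx M N), σ.card ≤ k + 1 → fd s' σ = fd s σ := by
    intro σ h
    refine fd_congr fun v hv => e2 _ ?_
    rw [Finset.card_erase_of_mem hv]
    omega
  refine ⟨s', ?_, ?_, ?_, ?_⟩
  · rw [e2 ∅ (by simp)]
    exact hs.1
  · intro σ hg hc
    rcases Nat.lt_or_ge k σ.card with h | h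
    · have h1 : σ.card = k + 1 := by omega
      have h2 : s' σ ∈ A (k + 1) := by
        rw [e1 σ ⟨hg, h1⟩]
        exact (hL1 ⟨σ, hg, h1⟩).1
      rwa [← h1] at h2
    · rw [e2 σ h]
      exact hs.2.1 σ hg h
  · intro σ hg hc
    rw [e3 σ hc]
    rcases Nat.lt_or_ge k σ.card with h | h
    · have h1 : σ.card = k + 1 := by omega
      rw [e1 σ ⟨hg, h1⟩]
      exact (hL1 ⟨σ, hg, h1⟩).2
    · rw [e2 σ h]
      exact hs.2.2.1 σ hg h
  · intro σ hg hc
    rcases Nat.lt_or_ge k σ.card with h | h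
    · have h1 : σ.card = k + 1 := by omega
      have h2 : Good (σ.image sh.symm) ∧ (σ.image (sh : Equiv.Perm (Vx M N)).symm).card = k + 1 :=
        ⟨fs_good_symm.2 hg, (fs_card_symm _).trans h1⟩
      rw [e1 σ ⟨hg, h1⟩, e1 _ h2]
      have h3 := hL2 ⟨σ.image sh.symm, h2⟩
      have h4 : fsA (M := M) (N := N) (k + 1) ⟨σ.image sh.symm, h2⟩ = ⟨σ, hg, h1⟩ := Subtype.ext (fs_ss σ)
      rw [h4, fsB_apply] at h3
      exact h3.symm
    · rw [e2 σ h, e2 _ (by rw [fs_card_symm]; exact h)]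
      exact hs.2.2.2 σ hg h

theorem fin_s {X : Type} (d : ℕ) (a : Equiv.Perm X) (haM : a ^ M = 1) (A : ℕ → Submodule ℤ (Ch X))
    (A_a : ∀ k z, z ∈ A k → mp a z ∈ A k) (A0 : (Finsupp.single [] 1 : Ch X) ∈ A 0)
    (hfill : ∀ k, k ≤ d → ∀ z ∈ A k, bd z = 0 → ∃ w ∈ A (k + 1), bd w = z) :
    ∃ s : Finset (Vx M N) → Ch X, s ∅ = Finsupp.single [] 1 ∧
      (∀ σ, Good σ → σ.card ≤ d + 1 → s σ ∈ A σ.card) ∧
      (∀ σ, Good σ → σ.card ≤ d + 1 → bd (s σ) = fd s σ) ∧
      (∀ σ, Good σ → σ.card ≤ d + 1 → mp a (s (σ.image sh.symm)) = s σ) := by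
  have h : ∀ k, k ≤ d + 1 → ∃ s : Finset (Vx M N) → Ch X, fsP a A k s := by
    intro k
    induction k with
    | zero => exact fun _ => ⟨_, fs_zero a A A0⟩
    | succ k ih =>
      intro hk
      obtain ⟨s, hs⟩ := ih (by omega)
      exact fs_step d a haM A A_a hfill (by omega) hs
  exact h (d + 1) le_rfl

end AGV
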