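import Pool.Agent.AGV.TrAlt
import Pool.Agent.AGV.DivM
import Pool.Agent.AGV.FinS
import Pool.Agent.AGV.FilF
import Pool.Agent.AGV.Om

/-!
# AGV-CoreF: the case of an element of finite order

`fin_core`: `s` from `fin_s`, `T` from `fillF (d + 1)` with `u = s`. Put `g σ = om (mp F (s σ))`, `t σ = om (mp F (T σ))`, `D = d + 1`, and use `trace_alt`:
* `ht`: `om_grade` (`mp_mem`, `A_len (σ.card + 1)`): `S = l'.toFinset`, `S.card = l'.length = σ.card + 1` where `l' = l.map F` satisfies the first part of `OK`, so `S` is good;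
* `h1`: `dd (om (mp F (T σ))) = om (bd (mp F (T σ)))` (`om_bd`) `= om (mp F (bd (T σ)))`, and `fd t σ = om (mp F (fd T σ))` (`fd_map` for the linear map `om ∘ mp F`);
* `h2` (`σ.card = d + 1`): `z = s σ - fd T σ ∈ A (d + 1)` (`fd_mem`) is a cycle: `bd (fd T σ) = fd (fun ρ => bd (T ρ)) σ = fd (fun ρ => s ρ - fd T ρ) σ = fd s σ - fd (fd T) σ = fd s σ = bd (s σ)`; apply `top`.
So the alternating sum of the traces is `0`. The summand `k = 0` is `g ∅ ∅ = om (single [] 1) ∅ = 1` (`Gd M N 0 = {∅}`). For `k ≥ 1` it is divisible by `M` (`dvd_sum` with `h σ = g σ σ`: for `σ ∈ Gd k`, `k ≤ d + 1`, put `τ = σ.image sh`; `s τ = mp a (s σ)` by the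
equivariance of `s` (`τ.image sh.symm = σ`), `mp F (mp a (s σ)) = mp (sh ∘ F) (s σ) = mp sh (mp F (s σ))`, and `om (mp sh z) τ = om z σ` is `om_sh` with `t = 1`). So `M ∣ 1`, a contradiction.
`core_fin`: by downward recursion there is `μ : ℕ → ℝ` with `0 < μ k ≤ L` for all `k`, `μ k = L` for `k > d`, and for `1 ≤ k ≤ d` cycles in `SP (fun l => l.length = k ∧ Msh (μ k) l)` bound chains in
`SP (fun l => l.length = k + 1 ∧ Msh (μ (k + 1)) l)` (`VC X k`; take minima with `L`). Apply `fin_core` with `A k = SP (fun l => l.length = k ∧ Msh (μ k) l)`; the cycles in `A 0` are `c • single [] 1 = bd (c • single [x₀] 1)`.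
-/

set_option autoImplicit false

namespace AGV

private theorem im_symm {M N : ℕ} [NeZero M] (σ : Finset (Vx M N)) :
    (σ.image sh).image (sh : Equiv.Perm (Vx M N)).symm = σ := by
  rw [Finset.image_image]
  have h : ((sh : Equiv.Perm (Vx M N)).symm ∘ sh) = id := by
    funext v
    exact Equiv.symm_apply_apply _ _
  rw [h, Finset.image_id]

private theorem good_im {M N : ℕ} [NeZero M] {σ : Finset (Vx M N)} (h : Good σ) : Good (σ.image sh) := by
  have h1 := good_image 1 (S := σ.image sh)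
  rw [pow_one, im_symm] at h1
  exact h1.1 h

private theorem card_im {M N : ℕ} [NeZero M] (σ : Finset (Vx M N)) : (σ.image sh).card = σ.card := by
  have h1 := card_image_sh 1 (σ.image sh)
  rw [pow_one, im_symm] at h1
  exact h1.symm

theorem fin_core {M N : ℕ} [NeZero M] {X : Type} {d : ℕ} (hM2 : 2 ≤ M) (a : Equiv.Perm X) (haM : a ^ M = 1)
    (F : X → Vx M N) (F_a : ∀ x, F (a x) = sh (F x)) (A : ℕ → Submodule ℤ (Ch X))
    (A_len : ∀ k, A k ≤ SP (fun l => l.length = k ∧ OK d (l.map F)))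
    (A_a : ∀ k z, z ∈ A k → mp a z ∈ A k) (A0 : (Finsupp.single [] 1 : Ch X) ∈ A 0)
    (top : ∀ z ∈ A (d + 1), bd z = 0 → om (mp F z) = 0)
    (hfill : ∀ k, k ≤ d → ∀ z ∈ A k, bd z = 0 → ∃ w ∈ A (k + 1), bd w = z) : False := by
  obtain ⟨s, s0, s_mem, s_bd, s_eq⟩ := fin_s (M := M) (N := N) d a haM A A_a A0 hfill
  obtain ⟨T, hT⟩ := fillF (d + 1) A (fun k hk => hfill k (by omega)) s
    (fun σ hG hc => s_mem σ hG (by omega)) (fun σ hG hc => s_bd σ hG (by omega))
  have hQ : ∀ k z, z ∈ A k → mp F z ∈ SP (fun l : List (Vx M N) => l.length = k ∧ OK d l) := by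
    intro k z hz
    refine mp_mem F (P := fun l => l.length = k ∧ OK d (l.map F)) (fun l hl => ?_) (A_len k hz)
    exact ⟨by rw [List.length_map]; exact hl.1, hl.2⟩
  have hfdt : ∀ σ : Finset (Vx M N), fd (fun ρ => om (mp F (T ρ))) σ = om (mp F (fd T σ)) := by
    intro σ
    exact (fd_map (om ∘ₗ mp F) T σ).symm
  have ht : ∀ σ : Finset (Vx M N), Good σ → σ.card < d + 1 → ∀ S, (fun ρ => om (mp F (T ρ))) σ S ≠ 0 →
      Good S ∧ S.card = σ.card + 1 := by
    intro σ hG hc S hS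
    obtain ⟨l, hl, h1, h2⟩ := om_grade (hQ _ _ (hT σ hG hc).1) S hS
    refine ⟨?_, by rw [h2, hl.1]⟩
    intro u hu w hw huw
    rw [h1, List.mem_toFinset] at hu hw
    exact hl.2.1 u hu w hw huw
  have h1 : ∀ σ : Finset (Vx M N), Good σ → σ.card < d + 1 →
      dd ((fun ρ => om (mp F (T ρ))) σ) + fd (fun ρ => om (mp F (T ρ))) σ =
        (fun ρ => om (mp F (s ρ))) σ := by
    intro σ hG hc
    show dd (om (mp F (T σ))) + fd (fun ρ => om (mp F (T ρ))) σ = om (mp F (s σ))
    have e1 : dd (om (mp F (T σ))) = om (mp F (bd (T σ))) := by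
      rw [← bd_mp, om_bd]
      exact SP_mono (fun l hl => hl.2.1) (hQ _ _ (hT σ hG hc).1)
    rw [e1, hfdt, ← map_add, ← map_add, (hT σ hG hc).2]
  have h2 : ∀ σ : Finset (Vx M N), Good σ → σ.card = d + 1 →
      (fun ρ => om (mp F (s ρ))) σ = fd (fun ρ => om (mp F (T ρ))) σ := by
    intro σ hG hc
    show om (mp F (s σ)) = fd (fun ρ => om (mp F (T ρ))) σ
    have hcard : ∀ v ∈ σ, (σ.erase v).card + 1 = d + 1 := fun v hv => by
      rw [Finset.card_erase_add_one hv, hc]
    have hz : s σ - fd T σ ∈ A (d + 1) := by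
      refine Submodule.sub_mem _ ?_ (fd_mem fun v hv => ?_)
      · have h3 := s_mem σ hG (by omega)
        rwa [hc] at h3
      · have h3 := (hT (σ.erase v) (hG.erase v) (by have := hcard v hv; omega)).1
        rwa [hcard v hv] at h3
    have hb : bd (s σ - fd T σ) = 0 := by
      rw [map_sub, s_bd σ hG (by omega), fd_map, ← fd_sub]
      have h3 : fd (fun ρ => s ρ - bd (T ρ)) σ = fd (fd T) σ := fd_congr fun v hv => by
        have h4 := (hT (σ.erase v) (hG.erase v) (by have := hcard v hv; omega)).2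
        rw [← h4]
        abel
      rw [h3, fd_fd T hG]
    have h5 := top _ hz hb
    rw [map_sub, map_sub, sub_eq_zero] at h5
    rw [h5, hfdt]
  have key := trace_alt (D := d + 1) (by omega) (fun ρ => om (mp F (s ρ))) (fun ρ => om (mp F (T ρ))) ht h1 h2
  rw [Finset.sum_range_succ'] at key
  have hz0 : (-1 : ℤ) ^ 0 * ∑ σ ∈ Gd M N 0, (fun ρ => om (mp F (s ρ))) σ σ = 1 := by
    have hG0 : Gd M N 0 = {∅} := by
      ext σ
      rw [mem_Gd, Finset.mem_singleton, Finset.card_eq_zero]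
      exact ⟨fun h => h.2, fun h => ⟨by subst h; intro u hu; simp at hu, h⟩⟩
    rw [hG0, Finset.sum_singleton, pow_zero, one_mul]
    show om (mp F (s ∅)) ∅ = 1
    rw [s0, mp_single, om_single, one_smul]
    show (if (∅ : Finset (Vx M N)) = ∅ then (1 : ℤ) else 0) = 1
    rw [if_pos rfl]
  rw [hz0] at key
  have hdiv : (M : ℤ) ∣ ∑ k ∈ Finset.range (d + 1), (-1) ^ (k + 1) *
      ∑ σ ∈ Gd M N (k + 1), (fun ρ => om (mp F (s ρ))) σ σ := by
    refine Finset.dvd_sum fun k hk => ?_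
    rw [Finset.mem_range] at hk
    refine Dvd.dvd.mul_left (dvd_sum (by omega) (fun σ => (fun ρ => om (mp F (s ρ))) σ σ) ?_) _
    intro σ hσ
    obtain ⟨hG, hc⟩ := mem_Gd.1 hσ
    show om (mp F (s (σ.image sh))) (σ.image sh) = om (mp F (s σ)) σ
    have h3 := s_eq (σ.image sh) (good_im hG) (by rw [card_im]; omega)
    rw [im_symm] at h3
    have h4 : (F ∘ a) = ((sh : Equiv.Perm (Vx M N)) : Vx M N → Vx M N) ∘ F := by
      funext x
      exact F_a x
    have h5 := om_sh 1 (mp F (s σ)) (σ.image sh)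
    rw [pow_one, im_symm] at h5
    rw [← h3, mp_mp, h4, ← mp_mp, h5]
  have h6 : (M : ℤ) ∣ 1 := by
    have h7 : (1 : ℤ) = -(∑ k ∈ Finset.range (d + 1), (-1) ^ (k + 1) *
      ∑ σ ∈ Gd M N (k + 1), (fun ρ => om (mp F (s ρ))) σ σ) := by linarith
    rw [h7]
    exact (dvd_neg).2 hdiv
  have h8 := Int.eq_one_of_dvd_one (by positivity) h6
  omega

theorem core_fin {X : Type} [MetricSpace X] [Nonempty X] {M N : ℕ} [NeZero M] (d : ℕ)
    (hV : ∀ k, 1 ≤ k → k ≤ d → VC X k) (hM2 : 2 ≤ M) (a : Equiv.Perm X)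
    (ha : ∀ x y, dist (a x) (a y) = dist x y) (haM : a ^ M = 1) (F : X → Vx M N) (hF : ∀ x, F (a x) = sh (F x))
    (L : ℝ) (hL : 0 < L) (hOK : ∀ l : List X, Msh L l → OK d (l.map F))
    (htop : ∀ z ∈ SP (fun l : List X => l.length = d + 1 ∧ Msh L l), bd z = 0 → om (mp F z) = 0) : False := by
  have hm : ∀ (k : ℕ) (η : ℝ), ∃ m : ℝ, 0 < m ∧ (1 ≤ k → k ≤ d → 0 < η →
      ∀ z ∈ SP (fun l : List X => l.length = k ∧ Msh m l), bd z = 0 →
        ∃ w ∈ SP (fun l : List X => l.length = k + 1 ∧ Msh η l), bd w = z) := by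
    intro k η
    by_cases h : 1 ≤ k ∧ k ≤ d ∧ 0 < η
    · obtain ⟨m, hm0, hm⟩ := hV k h.1 h.2.1 η h.2.2
      exact ⟨m, hm0, fun _ _ _ => hm⟩
    · exact ⟨1, one_pos, fun h1 h2 h3 => absurd ⟨h1, h2, h3⟩ h⟩
  choose m hm0 hm using hm
  obtain ⟨ν, hν0, hνs⟩ : ∃ ν : ℕ → ℝ, ν 0 = L ∧ ∀ j, ν (j + 1) = min L (m (d - j) (ν j)) :=
    ⟨fun j => Nat.rec L (fun j x => min L (m (d - j) x)) j, rfl, fun _ => rfl⟩
  have hνpos : ∀ j, 0 < ν j := by
    intro j
    cases j with
    | zero => rw [hν0]; exact hL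
    | succ j => rw [hνs]; exact lt_min hL (hm0 _ _)
  have hνL : ∀ j, ν j ≤ L := by
    intro j
    cases j with
    | zero => exact hν0.le
    | succ j => rw [hνs]; exact min_le_left _ _
  have hMsh : ∀ {x y : ℝ} {l : List X}, x ≤ y → Msh x l → Msh y l :=
    fun hxy h u hu w hw => (h u hu w hw).trans_le hxy
  refine fin_core hM2 a haM F hF (fun k => SP (fun l : List X => l.length = k ∧ Msh (ν (d + 1 - k)) l))
    (d := d) ?_ ?_ ?_ ?_ ?_
  · intro k z hz
    exact SP_mono (fun l hl => ⟨hl.1, hOK l (hMsh (hνL _) hl.2)⟩) hz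
  · intro k z hz
    refine mp_mem a (fun l hl => ⟨by rw [List.length_map]; exact hl.1, ?_⟩) hz
    intro u hu w hw
    obtain ⟨u', hu', rfl⟩ := List.mem_map.1 hu
    obtain ⟨w', hw', rfl⟩ := List.mem_map.1 hw
    rw [ha]
    exact hl.2 u' hu' w' hw'
  · exact single_mem (P := fun l : List X => l.length = 0 ∧ Msh (ν (d + 1 - 0)) l)
      ⟨rfl, fun u hu => absurd hu List.not_mem_nil⟩ 1
  · intro z hz hb
    refine htop z (SP_mono (fun l hl => ?_) hz) hb
    have h1 := hl.2
    rw [Nat.sub_self, hν0] at h1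
    exact ⟨hl.1, h1⟩
  · intro k hk z hz hb
    rcases Nat.eq_zero_or_pos k with h0 | h0
    · subst h0
      obtain ⟨x₀⟩ := (inferInstance : Nonempty X)
      refine ⟨Finsupp.single [x₀] (z []), single_mem
        (P := fun l : List X => l.length = 0 + 1 ∧ Msh (ν (d + 1 - (0 + 1))) l) ⟨rfl, ?_⟩ _, ?_⟩
      · intro u hu w hw
        rw [List.mem_singleton] at hu hw
        rw [hu, hw, dist_self]
        exact hνpos _
      · rw [bd_single]
        have h1 : bdL [x₀] = Finsupp.single [] 1 - cone x₀ (bdL []) := rfl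
        have h2 : bdL ([] : List X) = 0 := rfl
        rw [h1, h2, map_zero, sub_zero, Finsupp.smul_single, smul_eq_mul, mul_one]
        ext l
        by_cases hl : l = []
        · rw [hl, Finsupp.single_eq_same]
        · rw [Finsupp.single_eq_of_ne (by exact hl)]
          by_contra h3
          rw [mem_SP] at hz
          have h4 := (hz l (Finsupp.mem_support_iff.2 (Ne.symm h3))).1
          exact hl (List.length_eq_zero_iff.1 h4)
    · have e1 : d + 1 - k = (d - k) + 1 := by omega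
      have e2 : d - (d - k) = k := by omega
      have e3 : d + 1 - (k + 1) = d - k := by omega
      have h1 : z ∈ SP (fun l : List X => l.length = k ∧ Msh (m k (ν (d - k))) l) := by
        refine SP_mono (fun l hl => ⟨hl.1, hMsh ?_ hl.2⟩) hz
        rw [e1, hνs, e2]
        exact min_le_right _ _
      obtain ⟨w, hw, hwz⟩ := hm k (ν (d - k)) h0 hk (hνpos _) z h1 hb
      refine ⟨w, ?_, hwz⟩
      show w ∈ SP (fun l : List X => l.length = k + 1 ∧ Msh (ν (d + 1 - (k + 1))) l)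
      rw [e3]
      exact hw

end AGV
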