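import Pool.Agent.AGV.Defs
import Pool.Agent.Helper87.AG.Core

/-!
# AGV-CvA: finite closed partitions of the fibres

`fibre_clopen`: the fibre `P = f ⁻¹' {f x}` is compact; as in `exists_partition` (Helper87/AG/Core.lean) work in the subtype: the component of `x` is the intersection of the clopen sets containing it (`connectedComponent_eq_iInter_isClopen`), it is contained in the open set `U`; by compactness finitely many
clopen sets have intersection inside `U` (`IsCompact.elim_directed_family_closed_of_isCompact`-type lemmas, or `IsCompact.inter_iInter_nonempty`); their intersection `Z` is clopen; `Q = Subtype.val '' Z`.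
`fibre_partition`: for every `x` in the fibre take `Q x` from `fibre_clopen` for `U x`; the `Q x` are relatively open in the compact fibre and cover it, so finitely many `x₁, …, x_r` suffice (for the empty fibre `r = 0`); put `Q t = Q x_t \ (Q x_1 ∪ … ∪ Q x_{t-1})`, closed because the `Q x` are
relatively clopen.
-/

set_option autoImplicit false

namespace AGV

open Pool.Agent.Helper87.AG

variable {X Y : Type} [MetricSpace X] [CompactSpace X] [TopologicalSpace Y] [T2Space Y]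

theorem fibre_clopen {f : X → Y} (hf : Continuous f) (x : X) (U : Set X) (hU : IsOpen U) (hxU : fc f x ⊆ U) :
    ∃ Q : Set X, IsClosed Q ∧ IsClosed (f ⁻¹' {f x} \ Q) ∧ x ∈ Q ∧ Q ⊆ U ∧ Q ⊆ f ⁻¹' {f x} := by
  have hF : IsClosed (f ⁻¹' {f x}) := isClosed_singleton.preimage hf
  have : CompactSpace (f ⁻¹' {f x}) := isCompact_iff_compactSpace.mp hF.isCompact
  let x' : f ⁻¹' {f x} := ⟨x, rfl⟩
  have hcc : connectedComponent x' ⊆ (Subtype.val ⁻¹' U : Set (f ⁻¹' {f x})) := by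
    intro z hz
    apply hxU
    unfold fc
    rw [connectedComponentIn_eq_image (show x ∈ f ⁻¹' {f x} from rfl)]
    exact ⟨z, hz, rfl⟩
  have hne : Nonempty {Z : Set (f ⁻¹' {f x}) // IsClopen Z ∧ x' ∈ Z} :=
    ⟨⟨Set.univ, isClopen_univ, Set.mem_univ _⟩⟩
  obtain ⟨Z, hZ⟩ := exists_subset_nhds_of_compactSpace
    (V := fun Z : {Z : Set (f ⁻¹' {f x}) // IsClopen Z ∧ x' ∈ Z} => Z.1)
    (by
      rintro ⟨Z, hZ, hxZ⟩ ⟨Z', hZ', hxZ'⟩
      exact ⟨⟨Z ∩ Z', hZ.inter hZ', hxZ, hxZ'⟩, Set.inter_subset_left, Set.inter_subset_right⟩)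
    (fun Z => Z.2.1.1) (U := (Subtype.val ⁻¹' U : Set (f ⁻¹' {f x}))) (by
      intro z hz
      have hz' : z ∈ connectedComponent x' := by
        rw [connectedComponent_eq_iInter_isClopen]
        exact hz
      exact (hU.preimage continuous_subtype_val).mem_nhds (hcc hz'))
  have hd : f ⁻¹' {f x} \ (Subtype.val '' Z.1) = Subtype.val '' Z.1ᶜ := by
    ext z
    constructor
    · rintro ⟨hz1, hz2⟩
      exact ⟨⟨z, hz1⟩, fun h => hz2 ⟨_, h, rfl⟩, rfl⟩
    · rintro ⟨w, hw, rfl⟩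
      refine ⟨w.2, ?_⟩
      rintro ⟨w', hw', he⟩
      exact hw (Subtype.ext he ▸ hw')
  refine ⟨Subtype.val '' Z.1, ?_, ?_, ⟨x', Z.2.2, rfl⟩, ?_, ?_⟩
  · exact hF.isClosedEmbedding_subtypeVal.isClosedMap _ Z.2.1.1
  · rw [hd]
    exact hF.isClosedEmbedding_subtypeVal.isClosedMap _ Z.2.1.2.isClosed_compl
  · rintro _ ⟨w, hw, rfl⟩
    exact hZ hw
  · rintro _ ⟨w, _, rfl⟩
    exact w.2

theorem fibre_partition {f : X → Y} (hf : Continuous f) (y : Y) (U : X → Set X)
    (hU : ∀ x, IsOpen (U x) ∧ fc f x ⊆ U x) :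
    ∃ (r : ℕ) (Q : Fin r → Set X) (p : Fin r → X), (∀ t, IsClosed (Q t)) ∧
      (∀ t t', t ≠ t' → Disjoint (Q t) (Q t')) ∧ (⋃ t, Q t) = f ⁻¹' {y} ∧ ∀ t, f (p t) = y ∧ Q t ⊆ U (p t) := by
  classical
  have hF : IsClosed (f ⁻¹' {y}) := isClosed_singleton.preimage hf
  have hQ : ∀ x : f ⁻¹' {y}, ∃ Q : Set X, IsClosed Q ∧ IsClosed (f ⁻¹' {y} \ Q) ∧ (x : X) ∈ Q ∧
      Q ⊆ U x ∧ Q ⊆ f ⁻¹' {y} := by
    rintro ⟨x, hx⟩
    have hx' : f x = y := hx
    subst hx'
    exact fibre_clopen hf x (U x) (hU x).1 (hU x).2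
  choose Q hQ1 hQ2 hQ3 hQ4 hQ5 using hQ
  obtain ⟨t, ht⟩ := hF.isCompact.elim_finite_subcover
    (fun x : f ⁻¹' {y} => (f ⁻¹' {y} \ Q x)ᶜ) (fun x => (hQ2 x).isOpen_compl) (by
      intro x hx
      rw [Set.mem_iUnion]
      exact ⟨⟨x, hx⟩, fun h => h.2 (hQ3 ⟨x, hx⟩)⟩)
  let p : Fin t.card → f ⁻¹' {y} := fun s => (t.equivFin.symm s : {x // x ∈ t})
  refine ⟨t.card, fun s => Q (p s) ∩ ⋂ (s' : Fin t.card) (_ : s' < s), (f ⁻¹' {y} \ Q (p s')),
    fun s => (p s : X), ?_, ?_, ?_, ?_⟩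
  · intro s
    exact (hQ1 _).inter (isClosed_iInter fun s' => isClosed_iInter fun _ => hQ2 _)
  · have key : ∀ s s' : Fin t.card, s < s' →
        Disjoint (Q (p s) ∩ ⋂ (s'' : Fin t.card) (_ : s'' < s), (f ⁻¹' {y} \ Q (p s'')))
          (Q (p s') ∩ ⋂ (s'' : Fin t.card) (_ : s'' < s'), (f ⁻¹' {y} \ Q (p s''))) := by
      intro s s' hss
      rw [Set.disjoint_left]
      rintro z ⟨hz1, _⟩ ⟨_, hz2⟩
      rw [Set.mem_iInter] at hz2
      have hz3 := hz2 s
      rw [Set.mem_iInter] at hz3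
      exact (hz3 hss).2 hz1
    intro s s' hss
    rcases lt_or_gt_of_ne hss with h | h
    · exact key s s' h
    · exact (key s' s h).symm
  · apply Set.Subset.antisymm
    · intro z hz
      rw [Set.mem_iUnion] at hz
      obtain ⟨s, hs, _⟩ := hz
      exact hQ5 _ hs
    · intro z hz
      have h1 : ∃ s : Fin t.card, z ∈ Q (p s) := by
        have h2 := ht hz
        rw [Set.mem_iUnion] at h2
        obtain ⟨x, hx⟩ := h2
        rw [Set.mem_iUnion] at hx
        obtain ⟨hxt, hx⟩ := hx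
        refine ⟨t.equivFin ⟨x, hxt⟩, ?_⟩
        have h3 : p (t.equivFin ⟨x, hxt⟩) = x := by
          simp only [p, Equiv.symm_apply_apply]
        rw [h3]
        by_contra hzx
        exact hx ⟨hz, hzx⟩
      obtain ⟨s, hs, hmin⟩ := Finset.exists_min_image
        (Finset.univ.filter fun s : Fin t.card => z ∈ Q (p s)) id
        (by
          obtain ⟨s, hs⟩ := h1
          exact ⟨s, Finset.mem_filter.mpr ⟨Finset.mem_univ _, hs⟩⟩)
      rw [Set.mem_iUnion]
      refine ⟨s, (Finset.mem_filter.mp hs).2, ?_⟩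
      rw [Set.mem_iInter]
      intro s'
      rw [Set.mem_iInter]
      intro hss
      refine ⟨hz, fun hzs => ?_⟩
      have h4 := hmin s' (Finset.mem_filter.mpr ⟨Finset.mem_univ _, hzs⟩)
      exact absurd hss (not_lt.mpr h4)
  · intro s
    refine ⟨(p s).2, ?_⟩
    rintro z ⟨hz, _⟩
    exact hQ4 _ hz

end AGV
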