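import Pool.Agent.AGV.CvA

/-!
# AGV-CvB: equivariant cover near one orbit

`G` acts by isometries on `X`. Take `Q t`, `p t` from `fibre_partition` for `U x = Metric.thickening ρ (fc f x)`. For `(c, t) ∈ (G ⧸ K) × Fin r` let `Pc (c, t) = {x | ∃ g : G, (g : G ⧸ K) = c ∧ ∃ q ∈ Q t, x = g • q}` (compact: the image of the compact set `{g | (g : G ⧸ K) = c} ×ˢ Q t`; the coset is closed because `K` is open). They are
pairwise disjoint: `g • q = g' • q'` gives `g • y = g' • y` (apply `f`), so `g = g'` by freeness, `q = q'`, `t = t'`, `c = c'`. Their union is the set of all `x` with `f x` in the orbit of `y`. `g • Pc (c, t) = Pc (g • c, t)`. Finite family (`G ⧸ K` is finite: `K` open in the compact group `G`), so there is `ε > 0` such that the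
sets `O (c, t) = Metric.thickening ε (Pc (c, t))` are pairwise disjoint and `O (1, t) ⊆ {x | ∃ k ∈ K, k • x ∈ Metric.thickening ρ (fc f (p t))}` (an open set containing `Pc (1, t)`; `Metric.exists_thickening_subset_open`-type lemmas, `IsCompact.exists_thickening_subset_open`,
`IsCompact.exists_cthickening…disjoint`/`Metric.…Disjoint.exists_thickenings`). For general `c` write `c = g`, `O (c, t) = g • O (1, t)`: the point `g • p t` works, because `g • fc f x = fc f (g • x)` (helper lemma `smul_mem_fc` in Helper87/AG/Core.lean) and `K` is normal.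
The set `Z = X \ ⋃ O (c, t)` is compact and `G`-invariant, `f '' Z` is compact, hence closed, `G`-invariant, and does not contain `y`; `V = (f '' Z)ᶜ`.
-/

set_option autoImplicit false

namespace AGV

open Pool.Agent.Helper87.AG

variable {G X Y : Type} [Group G] [TopologicalSpace G] [IsTopologicalGroup G] [CompactSpace G]
  [MetricSpace X] [CompactSpace X] [TopologicalSpace Y] [CompactSpace Y] [T2Space Y]
  [MulAction G X] [ContinuousSMul G X] [MulAction G Y] [ContinuousSMul G Y]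

/-- the piece of the preimage of the orbit with index `v` -/
private def Pc (K : Subgroup G) {r : ℕ} (Q : Fin r → Set X) (v : (G ⧸ K) × Fin r) : Set X :=
  {x | ∃ g : G, (g : G ⧸ K) = v.1 ∧ ∃ q ∈ Q v.2, x = g • q}

omit [TopologicalSpace G] [IsTopologicalGroup G] [CompactSpace G] [CompactSpace X]
  [ContinuousSMul G X] in
private theorem smul_mem_Pc (K : Subgroup G) {r : ℕ} (Q : Fin r → Set X) (g : G) (c : G ⧸ K)
    (t : Fin r) (x : X) : g • x ∈ Pc K Q (g • c, t) ↔ x ∈ Pc K Q (c, t) := by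
  have key : ∀ (g : G) (c : G ⧸ K) (x : X), x ∈ Pc K Q (c, t) → g • x ∈ Pc K Q (g • c, t) := by
    rintro g c x ⟨h, hh, q, hq, rfl⟩
    refine ⟨g * h, ?_, q, hq, (mul_smul g h q).symm⟩
    change ((g * h : G) : G ⧸ K) = g • c
    have hh' : (h : G ⧸ K) = c := hh
    rw [← hh']
    rfl
  refine ⟨fun h => ?_, key g c x⟩
  have h1 := key g⁻¹ (g • c) (g • x) h
  rw [inv_smul_smul, inv_smul_smul] at h1
  exact h1

omit [CompactSpace X] in
private theorem Pc_compact {K : Subgroup G} [K.Normal] (hK : IsOpen (K : Set G)) {r : ℕ}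
    {Q : Fin r → Set X} (hQ : ∀ t, IsCompact (Q t)) (v : (G ⧸ K) × Fin r) : IsCompact (Pc K Q v) := by
  have hd : DiscreteTopology (G ⧸ K) := QuotientGroup.discreteTopology hK
  have h1 : IsClosed {g : G | (g : G ⧸ K) = v.1} := by
    have h2 : IsClosed ((fun g : G => (g : G ⧸ K)) ⁻¹' {v.1}) :=
      (isClosed_discrete {v.1}).preimage continuous_quotient_mk'
    exact h2
  have h2 : Pc K Q v = (fun p : G × X => p.1 • p.2) '' ({g : G | (g : G ⧸ K) = v.1} ×ˢ Q v.2) := by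
    ext x
    constructor
    · rintro ⟨g, hg, q, hq, rfl⟩
      exact ⟨(g, q), ⟨hg, hq⟩, rfl⟩
    · rintro ⟨⟨g, q⟩, ⟨hg, hq⟩, rfl⟩
      exact ⟨g, hg, q, hq, rfl⟩
  rw [h2]
  exact (h1.isCompact.prod (hQ v.2)).image continuous_smul

/-- eventually small thickenings of finitely many pairwise disjoint compact sets are disjoint -/
private theorem ev_disj {ι : Type} [Finite ι] {X : Type} [MetricSpace X] {P : ι → Set X}
    (hP : ∀ v, IsCompact (P v)) (hd : ∀ v v', v ≠ v' → Disjoint (P v) (P v')) :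
    ∀ᶠ ε in nhdsWithin (0 : ℝ) (Set.Ioi 0), ∀ v v', v ≠ v' →
      Disjoint (Metric.thickening ε (P v)) (Metric.thickening ε (P v')) := by
  rw [Filter.eventually_all]
  intro v
  rw [Filter.eventually_all]
  intro v'
  by_cases h : v = v'
  · exact Filter.Eventually.of_forall fun ε hne => absurd h hne
  · obtain ⟨δ, hδ, h1⟩ := (hd v v' h).exists_thickenings (hP v) (hP v').isClosed
    filter_upwards [Ioo_mem_nhdsGT hδ] with ε hε _
    exact h1.mono (Metric.thickening_mono hε.2.le _) (Metric.thickening_mono hε.2.le _)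

private theorem ev_sub {ι : Type} [Finite ι] {X : Type} [MetricSpace X] {P U : ι → Set X}
    (hP : ∀ v, IsCompact (P v)) (hU : ∀ v, IsOpen (U v)) (hs : ∀ v, P v ⊆ U v) :
    ∀ᶠ ε in nhdsWithin (0 : ℝ) (Set.Ioi 0), ∀ v, Metric.thickening ε (P v) ⊆ U v := by
  rw [Filter.eventually_all]
  intro v
  obtain ⟨δ, hδ, h1⟩ := (hP v).exists_thickening_subset_open (hU v) (hs v)
  filter_upwards [Ioo_mem_nhdsGT hδ] with ε hε
  exact (Metric.thickening_mono hε.2.le _).trans h1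

theorem cover_orbit (hiso : ∀ (g : G) (x y : X), dist (g • x) (g • y) = dist x y)
    (hfree : ∀ (g : G) (y : Y), g • y = y → g = 1) {f : X → Y} (hf : Continuous f)
    (hfe : ∀ (g : G) (x : X), f (g • x) = g • f x) (K : Subgroup G) [K.Normal] (hK : IsOpen (K : Set G))
    {ρ : ℝ} (hρ : 0 < ρ) (y : Y) :
    ∃ (r : ℕ) (O : (G ⧸ K) × Fin r → Set X) (V : Set Y), (∀ v, IsOpen (O v)) ∧ IsOpen V ∧ y ∈ V ∧
      (∀ (g : G) (z : Y), g • z ∈ V ↔ z ∈ V) ∧ (∀ x, f x ∈ V → ∃ v, x ∈ O v) ∧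
      (∀ v v', v ≠ v' → Disjoint (O v) (O v')) ∧
      (∀ (g : G) (c : G ⧸ K) (t : Fin r) (x : X), g • x ∈ O (g • c, t) ↔ x ∈ O (c, t)) ∧
      (∀ v, ∃ p : X, ∀ x ∈ O v, ∃ k ∈ K, k • x ∈ Metric.thickening ρ (fc f p)) := by
  have hd : DiscreteTopology (G ⧸ K) := QuotientGroup.discreteTopology hK
  have hfin : Finite (G ⧸ K) := finite_of_compact_of_discrete
  obtain ⟨r, Q, p, hQc, hQd, hQu, hQp⟩ := fibre_partition hf y
    (fun x => Metric.thickening ρ (fc f x))
    (fun x => ⟨Metric.isOpen_thickening, Metric.self_subset_thickening hρ _⟩)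
  have hQy : ∀ t, ∀ q ∈ Q t, f q = y := by
    intro t q hq
    have h1 : q ∈ ⋃ t, Q t := Set.mem_iUnion.2 ⟨t, hq⟩
    rw [hQu] at h1
    exact h1
  have hPcc : ∀ v, IsCompact (Pc K Q v) := Pc_compact hK fun t => (hQc t).isCompact
  have hPcd : ∀ v v', v ≠ v' → Disjoint (Pc K Q v) (Pc K Q v') := by
    intro v v' hne
    rw [Set.disjoint_left]
    rintro x ⟨g, hg, q, hq, rfl⟩ ⟨g', hg', q', hq', h⟩
    apply hne
    have h1 : g • y = g' • y := by
      rw [← hQy _ q hq, ← hfe, h, hfe, hQy _ q' hq', hQy _ q hq]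
    have h2 : g'⁻¹ * g = 1 := by
      apply hfree _ y
      rw [mul_smul, h1, inv_smul_smul]
    have h3 : g = g' := by
      have := congrArg (fun u => g' * u) h2
      simpa using this
    subst h3
    have h4 : q = q' := MulAction.injective g h
    subst h4
    have h5 : v.2 = v'.2 := by
      by_contra hcon
      exact Set.disjoint_left.1 (hQd _ _ hcon) hq hq'
    exact Prod.ext (hg.symm.trans hg') h5
  -- the target sets
  obtain ⟨Ω, hΩ⟩ : ∃ Ω : Fin r → Set X,
      Ω = fun t => {x | ∃ k ∈ K, k • x ∈ Metric.thickening ρ (fc f (p t))} := ⟨_, rfl⟩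
  have hΩo : ∀ t, IsOpen (Ω t) := by
    intro t
    have h1 : Ω t = ⋃ k : K, (fun x : X => (k : G) • x) ⁻¹' Metric.thickening ρ (fc f (p t)) := by
      rw [hΩ]
      ext x
      simp
    rw [h1]
    exact isOpen_iUnion fun k => Metric.isOpen_thickening.preimage (continuous_const_smul (k : G))
  have hPΩ : ∀ t, Pc K Q (1, t) ⊆ Ω t := by
    rintro t x ⟨g, hg, q, hq, rfl⟩
    rw [hΩ]
    have hg' : (g : G ⧸ K) = 1 := hg
    rw [QuotientGroup.eq_one_iff] at hg'
    refine ⟨g⁻¹, K.inv_mem hg', ?_⟩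
    rw [inv_smul_smul]
    exact (hQp t).2 hq
  have hev := (ev_disj hPcc hPcd).and
    ((ev_sub (P := fun t => Pc K Q (1, t)) (fun t => hPcc _) hΩo hPΩ).and
      (self_mem_nhdsWithin : Set.Ioi (0 : ℝ) ∈ nhdsWithin 0 (Set.Ioi 0)))
  obtain ⟨ε, hε1, hε2, hε0⟩ := hev.exists
  have hε0' : 0 < ε := hε0
  obtain ⟨O, hO⟩ : ∃ O : (G ⧸ K) × Fin r → Set X, O = fun v => Metric.thickening ε (Pc K Q v) :=
    ⟨_, rfl⟩
  have hOmem : ∀ v x, x ∈ O v ↔ ∃ z ∈ Pc K Q v, dist x z < ε := by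
    intro v x
    rw [hO]
    exact Metric.mem_thickening_iff
  have hOo : ∀ v, IsOpen (O v) := by
    intro v
    rw [hO]
    exact Metric.isOpen_thickening
  have hOinv : ∀ (g : G) (c : G ⧸ K) (t : Fin r) (x : X), g • x ∈ O (g • c, t) ↔ x ∈ O (c, t) := by
    intro g c t x
    rw [hOmem, hOmem]
    constructor
    · rintro ⟨z, hz, hxz⟩
      refine ⟨g⁻¹ • z, ?_, ?_⟩
      · rw [← smul_mem_Pc K Q g, smul_inv_smul]
        exact hz
      · rw [← hiso g, smul_inv_smul]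
        exact hxz
    · rintro ⟨z, hz, hxz⟩
      exact ⟨g • z, (smul_mem_Pc K Q g c t z).2 hz, by rw [hiso]; exact hxz⟩
  have hOinv' : ∀ (g : G) (x : X), (∃ v, g • x ∈ O v) → ∃ v, x ∈ O v := by
    rintro g x ⟨⟨c, t⟩, h⟩
    refine ⟨(g⁻¹ • c, t), ?_⟩
    rw [← hOinv g, smul_inv_smul]
    exact h
  obtain ⟨Z, hZ⟩ : ∃ Z : Set X, Z = (⋃ v, O v)ᶜ := ⟨_, rfl⟩
  have hZmem : ∀ x, x ∈ Z ↔ ¬ ∃ v, x ∈ O v := by
    intro x
    rw [hZ, Set.mem_compl_iff, Set.mem_iUnion]
  have hZc : IsClosed Z := by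
    rw [hZ]
    exact (isOpen_iUnion hOo).isClosed_compl
  have hZinv : ∀ (g : G) (x : X), x ∈ Z → g • x ∈ Z := by
    intro g x hx
    rw [hZmem] at hx ⊢
    exact fun h => hx (hOinv' g x h)
  have hVinv : ∀ (g : G) (z : Y), z ∈ f '' Z → g • z ∈ f '' Z := by
    rintro g _ ⟨w, hw, rfl⟩
    exact ⟨g • w, hZinv g w hw, hfe g w⟩
  refine ⟨r, O, (f '' Z)ᶜ, hOo, ?_, ?_, ?_, ?_, ?_, hOinv, ?_⟩
  · exact (hZc.isCompact.image hf).isClosed.isOpen_compl
  · rintro ⟨z, hz, hzy⟩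
    rw [hZmem] at hz
    apply hz
    have h1 : z ∈ ⋃ t, Q t := by
      rw [hQu]
      exact hzy
    obtain ⟨t, ht⟩ := Set.mem_iUnion.1 h1
    refine ⟨(1, t), (hOmem _ _).2 ⟨z, ⟨1, rfl, z, ht, (one_smul G z).symm⟩, ?_⟩⟩
    rw [dist_self]
    exact hε0'
  · intro g z
    rw [Set.mem_compl_iff, Set.mem_compl_iff, not_iff_not]
    refine ⟨fun h => ?_, hVinv g z⟩
    have h1 := hVinv g⁻¹ _ h
    rw [inv_smul_smul] at h1
    exact h1
  · intro x hx
    by_contra hcon
    exact hx ⟨x, (hZmem x).2 hcon, rfl⟩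
  · intro v v' hne
    rw [hO]
    exact hε1 v v' hne
  · rintro ⟨c, t⟩
    obtain ⟨g, rfl⟩ := QuotientGroup.mk_surjective c
    refine ⟨g • p t, fun x hx => ?_⟩
    have h1 : g⁻¹ • x ∈ O (1, t) := by
      rw [← hOinv g, smul_inv_smul]
      have h2 : g • (1 : G ⧸ K) = (g : G ⧸ K) := by
        change ((g * 1 : G) : G ⧸ K) = (g : G ⧸ K)
        rw [mul_one]
      rw [h2]
      exact hx
    have h2 : g⁻¹ • x ∈ Ω t := by
      rw [hO] at h1
      exact hε2 t h1
    rw [hΩ] at h2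
    obtain ⟨k, hk, h3⟩ := h2
    refine ⟨g * k * g⁻¹, Subgroup.Normal.conj_mem inferInstance k hk g, ?_⟩
    rw [Metric.mem_thickening_iff] at h3 ⊢
    obtain ⟨z, hz, hd3⟩ := h3
    refine ⟨g • z, (smul_mem_fc hfe g).2 hz, ?_⟩
    rw [mul_smul, mul_smul, hiso]
    exact hd3

end AGV
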