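import Pool.Agent.AGV.Defs

/-!
# AGV-CvD: a permutation of a finite set with all cycles of length `M`

Let `N` be the number of orbits (of the group generated by `τ`, i.e. classes of `s ~ s' ↔ ∃ t : ℤ, s' = (τ ^ t) s`), `rep : Fin N → S` a system of representatives; `e (i, j) = (τ ^ i.val) (rep j)`. Injective: `(τ ^ i.val) (rep j) = (τ ^ i'.val) (rep j')` gives `j = j'` and
`(τ ^ (i.val - i'.val : ℤ)) (rep j) = rep j`, so `M ∣ i.val - i'.val`, `i = i'` (hypothesis `h` for integers follows from the one for natural numbers). Surjective: `s = (τ ^ t) (rep j)`, reduce `t` modulo `M`. `e (sh v) = τ (e v)`: `(i + 1).val = i.val + 1` or `i.val = M - 1` and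
`(i + 1).val = 0`, `τ ^ M` fixes everything.
-/

set_option autoImplicit false

namespace AGV

theorem cycles {S : Type} [Finite S] (M : ℕ) [NeZero M] (τ : Equiv.Perm S)
    (h : ∀ (t : ℕ) (s : S), (τ ^ t : Equiv.Perm S) s = s ↔ M ∣ t) :
    ∃ (N : ℕ) (e : Vx M N ≃ S), ∀ v, e (sh v) = τ (e v) := by
  classical
  have hM : 0 < M := Nat.pos_of_ne_zero (NeZero.ne M)
  have hz : ∀ (z : ℤ) (s : S), (τ ^ z : Equiv.Perm S) s = s ↔ (M : ℤ) ∣ z := by
    intro z s
    obtain ⟨n, rfl | rfl⟩ := z.eq_nat_or_neg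
    · rw [zpow_natCast, h, Int.natCast_dvd_natCast]
    · rw [dvd_neg, Int.natCast_dvd_natCast, ← h n s, zpow_neg, zpow_natCast,
        Equiv.Perm.inv_eq_iff_eq]
      exact eq_comm
  have hzz : ∀ (z z' : ℤ) (s : S), (τ ^ z : Equiv.Perm S) s = (τ ^ z' : Equiv.Perm S) s ↔
      (M : ℤ) ∣ z - z' := by
    intro z z' s
    rw [← hz (z - z') ((τ ^ z' : Equiv.Perm S) s), ← Equiv.Perm.mul_apply, ← zpow_add,
      sub_add_cancel]
  let Q := Quotient (Equiv.Perm.SameCycle.setoid τ)
  have : Finite Q := Quotient.finite _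
  let q : Fin (Nat.card Q) ≃ Q := (Finite.equivFin Q).symm
  let rep : Fin (Nat.card Q) → S := fun j => Quotient.out (q j)
  have hrep : ∀ j, (Quotient.mk _ (rep j) : Q) = q j := fun j => Quotient.out_eq _
  let e0 : Vx M (Nat.card Q) → S := fun v => (τ ^ (v.1.val : ℤ) : Equiv.Perm S) (rep v.2)
  have hbij : Function.Bijective e0 := by
    constructor
    · rintro ⟨i, j⟩ ⟨i', j'⟩ hij
      change (τ ^ (i.val : ℤ) : Equiv.Perm S) (rep j) =
        (τ ^ (i'.val : ℤ) : Equiv.Perm S) (rep j') at hij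
      have hj : j = j' := by
        apply q.injective
        rw [← hrep j, ← hrep j']
        apply Quotient.sound
        change Equiv.Perm.SameCycle τ (rep j) (rep j')
        refine ⟨(i.val : ℤ) - (i'.val : ℤ), ?_⟩
        rw [sub_eq_neg_add, zpow_add, Equiv.Perm.mul_apply, hij, ← Equiv.Perm.mul_apply,
          ← zpow_add, neg_add_cancel, zpow_zero, Equiv.Perm.one_apply]
      subst hj
      rw [hzz] at hij
      have hi : i = i' := by
        have h1 : ((i'.val : ℤ) : ZMod M) = ((i.val : ℤ) : ZMod M) :=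
          (ZMod.intCast_eq_intCast_iff_dvd_sub _ _ _).2 hij
        simpa using h1.symm
      rw [hi]
    · intro s
      have h1 : Equiv.Perm.SameCycle τ (rep (q.symm (Quotient.mk _ s))) s := by
        have h2 := hrep (q.symm (Quotient.mk _ s))
        rw [Equiv.apply_symm_apply] at h2
        exact Quotient.exact h2
      obtain ⟨i, hi⟩ := h1
      refine ⟨((i : ZMod M), q.symm (Quotient.mk _ s)), ?_⟩
      change (τ ^ (((i : ZMod M).val : ℕ) : ℤ) : Equiv.Perm S) (rep (q.symm (Quotient.mk _ s))) = s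
      refine Eq.trans ?_ hi
      rw [hzz, ZMod.val_intCast]
      have := Int.emod_add_mul_ediv i M
      exact ⟨-(i / M), by linarith⟩
  refine ⟨Nat.card Q, Equiv.ofBijective e0 hbij, fun v => ?_⟩
  rw [Equiv.ofBijective_apply, Equiv.ofBijective_apply]
  change (τ ^ (((v.1 + 1).val : ℕ) : ℤ) : Equiv.Perm S) (rep v.2) =
    τ ((τ ^ ((v.1.val : ℕ) : ℤ) : Equiv.Perm S) (rep v.2))
  rw [← Equiv.Perm.mul_apply τ, ← zpow_one_add, hzz]
  apply (ZMod.intCast_eq_intCast_iff_dvd_sub _ _ _).1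
  push_cast
  simp [add_comm]

end AGV
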