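import Pool.Agent.AGV.EqCh

/-!
# AGV-CvE: an equivariant vertex map from an equivariant cover

The Lebesgue number of the cover and equivariant choice give the map; the members of the cover that contain the images of a small set
contain a common point.
-/

set_option autoImplicit false

namespace AGV

private theorem sh_zpow_apply {M N : ℕ} (t : ℤ) (v : Vx M N) :
    (sh ^ t : Equiv.Perm (Vx M N)) v = (v.1 + (t : ZMod M), v.2) := by
  induction t using Int.induction_on generalizing v with
  | zero => simp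
  | succ i ih =>
    rw [zpow_add_one, Equiv.Perm.mul_apply, ih]
    apply Prod.ext
    · show v.1 + 1 + ((i : ℤ) : ZMod M) = v.1 + (((i : ℤ) + 1 : ℤ) : ZMod M)
      push_cast
      ring
    · rfl
  | pred i ih =>
    rw [zpow_sub_one, Equiv.Perm.mul_apply, ih]
    apply Prod.ext
    · show v.1 - 1 + ((-(i : ℤ) : ℤ) : ZMod M) = v.1 + ((-(i : ℤ) - 1 : ℤ) : ZMod M)
      push_cast
      ring
    · rfl

theorem exists_F {X : Type} [MetricSpace X] [CompactSpace X] [Nonempty X] {M N d : ℕ} [NeZero M] (a : Equiv.Perm X)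
    (ha : ∀ x y, dist (a x) (a y) = dist x y)
    (hfree : ∀ (t : ℤ) (x : X), (a ^ t : Equiv.Perm X) x = x → (M : ℤ) ∣ t)
    (W : Vx M N → Set X) (hWo : ∀ v, IsOpen (W v)) (hWc : (⋃ v, W v) = Set.univ)
    (hW : ∀ v x, a x ∈ W (sh v) ↔ x ∈ W v)
    (hdis : ∀ i i' : ZMod M, ∀ j : Fin N, i ≠ i' → Disjoint (W (i, j)) (W (i', j)))
    (hord : ∀ x, {v | x ∈ W v}.ncard ≤ d + 1) :
    ∃ F : X → Vx M N, (∀ x, F (a x) = sh (F x)) ∧ ∃ L : ℝ, 0 < L ∧
      (∀ x y, dist y x < L → y ∈ W (F x)) ∧ ∀ l : List X, Msh L l → OK d (l.map F) := by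
  obtain ⟨L, hL, hLeb⟩ := lebesgue_number_lemma_of_metric (isCompact_univ (X := X)) hWo
    (by rw [hWc])
  have hP : ∀ (x : X) (v : Vx M N), (∀ y, dist y x < L → y ∈ W v) ↔
      ∀ y, dist y (a x) < L → y ∈ W (sh v) := by
    intro x v
    constructor
    · intro h y hy
      obtain ⟨y', rfl⟩ := a.surjective y
      rw [ha] at hy
      exact (hW v y').2 (h y' hy)
    · intro h y hy
      exact (hW v y).1 (h (a y) (by rw [ha]; exact hy))
  have hex : ∀ x : X, ∃ v : Vx M N, ∀ y, dist y x < L → y ∈ W v := by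
    intro x
    obtain ⟨v, hv⟩ := hLeb x (Set.mem_univ x)
    exact ⟨v, fun y hy => hv (Metric.mem_ball.2 hy)⟩
  have hfr : ∀ (t : ℤ) (x : X), (a ^ t : Equiv.Perm X) x = x →
      (sh : Equiv.Perm (Vx M N)) ^ t = 1 := by
    intro t x h
    have hd := hfree t x h
    have h0 : ((t : ℤ) : ZMod M) = 0 := (ZMod.intCast_zmod_eq_zero_iff_dvd t M).2 hd
    apply Equiv.ext
    intro v
    rw [sh_zpow_apply, h0, add_zero]
    rfl
  obtain ⟨F, hF1, hF2⟩ := equivariant_choice a (sh : Equiv.Perm (Vx M N))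
    (fun x v => ∀ y, dist y x < L → y ∈ W v) hP hex hfr
  refine ⟨F, hF2, L, hL, fun x y h => hF1 x y h, fun l hl => ?_⟩
  rcases List.eq_nil_or_concat' l with rfl | ⟨l', x, rfl⟩
  · constructor
    · intro u hu
      simp at hu
    · simp
  · have hx : x ∈ l' ++ [x] := by simp
    have hmem : ∀ v ∈ (l' ++ [x]).map F, x ∈ W v := by
      intro v hv
      obtain ⟨y, hy, rfl⟩ := List.mem_map.1 hv
      exact hF1 y x (hl x hx y hy)
    constructor
    · intro u hu w hw huw
      by_contra hne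
      have hne1 : u.1 ≠ w.1 := fun h => hne (Prod.ext h huw)
      have hd := hdis u.1 w.1 u.2 hne1
      have h1 : x ∈ W (u.1, u.2) := hmem u hu
      have h2 : x ∈ W (w.1, u.2) := by
        rw [huw]
        exact hmem w hw
      exact Set.disjoint_left.1 hd h1 h2
    · have hsub : (((l' ++ [x]).map F).toFinset : Set (Vx M N)) ⊆ {v | x ∈ W v} := by
        intro v hv
        have hv' : v ∈ ((l' ++ [x]).map F).toFinset := hv
        rw [List.mem_toFinset] at hv'
        exact hmem v hv'
      have hc := Set.ncard_le_ncard hsub (Set.toFinite _)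
      rw [Set.ncard_coe_finset] at hc
      exact hc.trans (hord x)

end AGV
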