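import Pool.Agent.AGV.CvA

/-!
# AGV-CvF: refining a saturated cover by a cover of small order

Partitions of the fibres are extended to disjoint open sets over neighbourhoods of the points of `Y`, and a cover of `Y` of small order is pulled back.
-/

set_option autoImplicit false

namespace AGV

open Pool.Agent.Helper87.AG

private theorem cvf_local {X Y : Type} [MetricSpace X] [CompactSpace X] [TopologicalSpace Y] [T2Space Y]
    {f : X → Y} (hf : Continuous f) {V : Type} (W : V → Set X)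
    (hWo : ∀ v, IsOpen (W v)) (hWc : (⋃ v, W v) = Set.univ) (hWs : ∀ v, ∀ x ∈ W v, fc f x ⊆ W v)
    (y : Y) : ∃ (r : ℕ) (O : Fin r → Set X) (v : Fin r → V) (N : Set Y), (∀ t, IsOpen (O t)) ∧
      (∀ t t', t ≠ t' → Disjoint (O t) (O t')) ∧ (∀ t, O t ⊆ W (v t)) ∧ IsOpen N ∧ y ∈ N ∧
      f ⁻¹' N ⊆ ⋃ t, O t := by
  have hex : ∀ x : X, ∃ v, x ∈ W v := by
    intro x
    have : x ∈ ⋃ v, W v := by rw [hWc]; exact Set.mem_univ x
    exact Set.mem_iUnion.1 this
  choose vv hvv using hex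
  obtain ⟨r, Q, p, hQc, hQd, hQu, hQp⟩ := fibre_partition hf y (fun x => W (vv x))
    (fun x => ⟨hWo _, hWs _ x (hvv x)⟩)
  let O : Fin r → Set X := fun t => W (vv (p t)) ∩
    ⋂ t' : {t' : Fin r // t' ≠ t}, {x | Metric.infEDist x (Q t) < Metric.infEDist x (Q t')}
  have hOo : ∀ t, IsOpen (O t) := fun t => (hWo _).inter (isOpen_iInter_of_finite fun t' =>
    isOpen_lt Metric.continuous_infEDist Metric.continuous_infEDist)
  have hQO : ∀ t, Q t ⊆ O t := by
    intro t x hx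
    refine ⟨(hQp t).2 hx, Set.mem_iInter.2 fun t' => ?_⟩
    have h1 : Metric.infEDist x (Q t) = 0 := Metric.infEDist_zero_of_mem hx
    show Metric.infEDist x (Q t) < Metric.infEDist x (Q t')
    rw [h1]
    have h2 : x ∉ Q t' := fun hx' => Set.disjoint_left.1 (hQd t t' t'.2.symm) hx hx'
    rw [pos_iff_ne_zero]
    intro h0
    apply h2
    have h3 := Metric.mem_closure_iff_infEDist_zero.2 h0
    rwa [(hQc t').closure_eq] at h3
  have hOu : IsOpen (⋃ t, O t) := isOpen_iUnion hOo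
  refine ⟨r, O, fun t => vv (p t), (f '' (⋃ t, O t)ᶜ)ᶜ, hOo, ?_, fun t => Set.inter_subset_left, ?_, ?_, ?_⟩
  · intro t t' htt
    rw [Set.disjoint_left]
    intro x hx hx'
    have h1 : Metric.infEDist x (Q t) < Metric.infEDist x (Q t') :=
      Set.mem_iInter.1 hx.2 ⟨t', htt.symm⟩
    have h2 : Metric.infEDist x (Q t') < Metric.infEDist x (Q t) :=
      Set.mem_iInter.1 hx'.2 ⟨t, htt⟩
    exact lt_asymm h1 h2
  · exact (hf.isClosedMap _ hOu.isClosed_compl).isOpen_compl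
  · rintro ⟨x, hx, hxy⟩
    apply hx
    have h1 : x ∈ ⋃ t, Q t := by
      rw [hQu]
      exact hxy
    obtain ⟨t, ht⟩ := Set.mem_iUnion.1 h1
    exact Set.mem_iUnion.2 ⟨t, hQO t ht⟩
  · intro x hx
    by_contra hc
    exact hx ⟨x, hc, rfl⟩

theorem refine_cover {X Y : Type} [MetricSpace X] [CompactSpace X] [TopologicalSpace Y] [T2Space Y] [CompactSpace Y]
    {f : X → Y} (hf : Continuous f) {e : ℕ} (hd : CovDimLE Y e) {V : Type} (W : V → Set X)
    (hWo : ∀ v, IsOpen (W v)) (hWc : (⋃ v, W v) = Set.univ) (hWs : ∀ v, ∀ x ∈ W v, fc f x ⊆ W v) :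
    ∃ (S : Type) (_ : Finite S) (C : S → Set X) (ϕ : S → V), (∀ s, IsOpen (C s)) ∧ (⋃ s, C s) = Set.univ ∧
      (∀ s, C s ⊆ W (ϕ s)) ∧ ∀ x, {s | x ∈ C s}.ncard ≤ e + 1 := by
  classical
  choose r O v N hOo hOd hOW hNo hyN hfN using cvf_local hf W hWo hWc hWs
  obtain ⟨T, hT⟩ := isCompact_univ.elim_finite_subcover N hNo
    (fun y _ => Set.mem_iUnion.2 ⟨y, hyN y⟩)
  obtain ⟨J, hJ, B, hBo, hBc, hBN, hBe⟩ := hd {y // y ∈ T} inferInstance (fun i => N i)
    (fun i => hNo i) (by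
      apply Set.eq_univ_of_forall
      intro y
      have h1 := hT (Set.mem_univ y)
      rw [Set.mem_iUnion₂] at h1
      obtain ⟨i, hi, hy⟩ := h1
      exact Set.mem_iUnion.2 ⟨⟨i, hi⟩, hy⟩)
  choose yy hyy using hBN
  refine ⟨Σ j : J, Fin (r (yy j)), inferInstance, fun s => f ⁻¹' (B s.1) ∩ O (yy s.1) s.2,
    fun s => v (yy s.1) s.2, fun s => ((hBo s.1).preimage hf).inter (hOo _ _), ?_,
    fun s => Set.inter_subset_right.trans (hOW _ _), fun x => ?_⟩
  · apply Set.eq_univ_of_forall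
    intro x
    have h1 : f x ∈ ⋃ j, B j := by rw [hBc]; exact Set.mem_univ _
    obtain ⟨j, hj⟩ := Set.mem_iUnion.1 h1
    have h2 := hfN (yy j) (show x ∈ f ⁻¹' N (yy j) from hyy j hj)
    obtain ⟨t, ht⟩ := Set.mem_iUnion.1 h2
    exact Set.mem_iUnion.2 ⟨⟨j, t⟩, hj, ht⟩
  · refine le_trans ?_ (hBe (f x))
    refine Set.ncard_le_ncard_of_injOn (fun s => s.1) (fun s hs => hs.1) ?_ (Set.toFinite _)
    rintro ⟨j, t⟩ hs ⟨j', t'⟩ hs' hjj
    have hjj' : j = j' := hjj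
    subst hjj'
    have htt : t = t' := by
      by_contra hne
      exact Set.disjoint_left.1 (hOd (yy j) t t' hne) hs.2 hs'.2
    rw [htt]

end AGV
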