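import Pool.Agent.AGV.Defs

/-!
# AGV-D3: definitions of the data on vertices and pairs for orbit dimension 3 (no proofs)
-/

set_option autoImplicit false

namespace AGV

variable {M N : ℕ} {X : Type}

/-- the base point of the vertex `v` -/
def xv (a : Equiv.Perm X) (xj : Fin N → X) (v : Vx M N) : X := (a ^ v.1.val : Equiv.Perm X) (xj v.2)

open Classical in
/-- first homotopy on vertices -/
noncomputable def H1v (xj : Fin N → X) (L : Ch X →ₗ[ℤ] Ch X) (v : Vx M N) : Ch X :=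
  if v.1 = 0 then L (Finsupp.single [xj v.2] 1) else 0

/-- second homotopy on vertices -/
noncomputable def E1v (a : Equiv.Perm X) (xj : Fin N → X) (E : Ch X →ₗ[ℤ] Ch X) (v : Vx M N) : Ch X :=
  E (Finsupp.single [xv a xj v] 1)

/-- the chain map on pairs -/
noncomputable def S2v (a : Equiv.Perm X) (xj : Fin N → X) (L : Ch X →ₗ[ℤ] Ch X)
    (c : Fin N → Fin N → ZMod M → Ch X) (v w : Vx M N) : Ch X :=
  mp (a ^ v.1.val : Equiv.Perm X) (c v.2 w.2 (w.1 - v.1)) -
    if M ≤ v.1.val + (w.1 - v.1).val then mp (a ^ w.1.val : Equiv.Perm X) (L (Finsupp.single [xj w.2] 1)) else 0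

open Classical in
/-- first homotopy on pairs -/
noncomputable def H2v (L : Ch X →ₗ[ℤ] Ch X) (c : Fin N → Fin N → ZMod M → Ch X) (v w : Vx M N) : Ch X :=
  if v.1 = 0 then L (c v.2 w.2 w.1) else 0

/-- second homotopy on pairs -/
noncomputable def E2v (a : Equiv.Perm X) (xj : Fin N → X) (E : Ch X →ₗ[ℤ] Ch X) (ξ : X → Ch X)
    (c : Fin N → Fin N → ZMod M → Ch X) (v w : Vx M N) : Ch X :=
  mp (a ^ v.1.val : Equiv.Perm X) (E (c v.2 w.2 (w.1 - v.1))) +
    if M ≤ v.1.val + (w.1 - v.1).val then mp (a ^ w.1.val : Equiv.Perm X) (ξ (xj w.2)) else 0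

end AGV
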