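import Mathlib

/-!
# AGV: definitions (project AGV = MP_b5674c_gt, Ageev's conjecture for orbit spaces of dimension at most 3)

Chains on a set `X` are integral combinations of finite sequences (lists) of points; a list of `n` points has degree `n - 1`, the empty list
is the generator in degree `-1`, so that `bd` is the augmented boundary.
-/

set_option autoImplicit false

namespace AGV

/-- integral chains on finite sequences of points -/
abbrev Ch (X : Type) := List X →₀ ℤ

/-- put the point `x` in front -/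
noncomputable def cone {X : Type} (x : X) : Ch X →ₗ[ℤ] Ch X :=
  Finsupp.lmapDomain ℤ ℤ (fun l => x :: l)

/-- boundary of one sequence: the alternating sum of the sequences with one point left out -/
noncomputable def bdL {X : Type} : List X → Ch X
  | [] => 0
  | x :: l => Finsupp.single l 1 - cone x (bdL l)

/-- the (augmented) boundary -/
noncomputable def bd {X : Type} : Ch X →ₗ[ℤ] Ch X := Finsupp.linearCombination ℤ bdL

/-- the map of chains induced by a map of points -/
noncomputable def mp {X Y : Type} (f : X → Y) : Ch X →ₗ[ℤ] Ch Y :=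
  Finsupp.lmapDomain ℤ ℤ (List.map f)

/-- prism of one sequence: the alternating sum of `f x₀, …, f xᵢ, g xᵢ, …, g xₙ` -/
noncomputable def prL {X Y : Type} (f g : X → Y) : List X → Ch Y
  | [] => 0
  | x :: l => Finsupp.single (f x :: g x :: l.map g) 1 - cone (f x) (prL f g l)

/-- prism operator -/
noncomputable def pr {X Y : Type} (f g : X → Y) : Ch X →ₗ[ℤ] Ch Y :=
  Finsupp.linearCombination ℤ (prL f g)

/-- chains all of whose sequences satisfy `P` -/
noncomputable def SP {X : Type} (P : List X → Prop) : Submodule ℤ (Ch X) :=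
  Finsupp.supported ℤ ℤ {l | P l}

/-- all mutual distances are less than `μ` -/
def Msh {X : Type} [PseudoMetricSpace X] (μ : ℝ) (l : List X) : Prop :=
  ∀ x ∈ l, ∀ y ∈ l, dist x y < μ

/-- Vietoris acyclicity for sequences of `k` points (that is, in degree `k - 1`): cycles of sufficiently small mesh bound chains of small mesh -/
def VC (X : Type) [PseudoMetricSpace X] (k : ℕ) : Prop :=
  ∀ η : ℝ, 0 < η → ∃ μ : ℝ, 0 < μ ∧
    ∀ z ∈ SP (fun l : List X => l.length = k ∧ Msh μ l), bd z = 0 →
      ∃ w ∈ SP (fun l : List X => l.length = k + 1 ∧ Msh η l), bd w = z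

/-- local Vietoris acyclicity for sequences of `k` points: cycles of small mesh in small balls bound chains of small mesh in slightly
larger balls -/
def VLC (X : Type) [PseudoMetricSpace X] (k : ℕ) : Prop :=
  ∀ ε : ℝ, 0 < ε → ∃ δ : ℝ, 0 < δ ∧ ∀ η : ℝ, 0 < η → ∃ μ : ℝ, 0 < μ ∧ ∀ x : X,
    ∀ z ∈ SP (fun l : List X => l.length = k ∧ Msh μ l ∧ ∀ y ∈ l, dist y x < δ), bd z = 0 →
      ∃ w ∈ SP (fun l : List X => l.length = k + 1 ∧ Msh η l ∧ ∀ y ∈ l, dist y x < ε), bd w = z

/-- covering dimension at most `d` -/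
def CovDimLE (B : Type) [TopologicalSpace B] (d : ℕ) : Prop :=
  ∀ (I : Type) (_ : Finite I) (U : I → Set B), (∀ i, IsOpen (U i)) → (⋃ i, U i) = Set.univ →
    ∃ (J : Type) (_ : Finite J) (W : J → Set B), (∀ j, IsOpen (W j)) ∧ (⋃ j, W j) = Set.univ ∧
      (∀ j, ∃ i, W j ⊆ U i) ∧ ∀ b, {j | b ∈ W j}.ncard ≤ d + 1

/-! ## vertices and oriented simplices -/

/-- vertices: `N` orbits of the cyclic group of order `M` -/
abbrev Vx (M N : ℕ) := ZMod M × Fin N

/-- the generator of the cyclic group acts on the vertices -/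
def sh {M N : ℕ} : Equiv.Perm (Vx M N) where
  toFun v := (v.1 + 1, v.2)
  invFun v := (v.1 - 1, v.2)
  left_inv v := by simp
  right_inv v := by simp

/-- at most one vertex of each orbit -/
def Good {M N : ℕ} (S : Finset (Vx M N)) : Prop := ∀ u ∈ S, ∀ w ∈ S, u.2 = w.2 → u = w

/-- the sign of the vertex `v` in `S` (ordered by the second coordinate) -/
def sg {M N : ℕ} (v : Vx M N) (S : Finset (Vx M N)) : ℤ := (-1) ^ (S.filter fun w => w.2 < v.2).card

/-- exterior multiplication by the vertex `v` -/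
noncomputable def wd {M N : ℕ} (v : Vx M N) :
    (Finset (Vx M N) → ℤ) →ₗ[ℤ] (Finset (Vx M N) → ℤ) where
  toFun α := fun S => if v ∈ S then sg v S * α (S.erase v) else 0
  map_add' α β := by
    funext S
    by_cases h : v ∈ S
    · simp [h, mul_add]
    · simp [h]
  map_smul' c α := by
    funext S
    by_cases h : v ∈ S
    · simp [h, mul_left_comm]
    · simp [h]

/-- boundary of oriented simplicial chains on the vertices -/
noncomputable def dd {M N : ℕ} [NeZero M] :
    (Finset (Vx M N) → ℤ) →ₗ[ℤ] (Finset (Vx M N) → ℤ) where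
  toFun α := fun S => ∑ u : Vx M N, if u ∈ S then 0 else sg u S * α (insert u S)
  map_add' α β := by
    funext S
    simp only [Pi.add_apply]
    rw [← Finset.sum_add_distrib]
    refine Finset.sum_congr rfl fun u _ => ?_
    by_cases h : u ∈ S
    · simp [h]
    · simp [h, mul_add]
  map_smul' c α := by
    funext S
    simp only [Pi.smul_apply, smul_eq_mul, RingHom.id_apply, Finset.mul_sum]
    refine Finset.sum_congr rfl fun u _ => ?_
    by_cases h : u ∈ S
    · simp [h]
    · simp [h, mul_left_comm]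

/-- the oriented simplex of a list of vertices -/
noncomputable def omL {M N : ℕ} : List (Vx M N) → (Finset (Vx M N) → ℤ)
  | [] => fun S => if S = ∅ then 1 else 0
  | v :: l => wd v (omL l)

/-- oriented simplicial chain of a chain on the vertices -/
noncomputable def om {M N : ℕ} : Ch (Vx M N) →ₗ[ℤ] (Finset (Vx M N) → ℤ) :=
  Finsupp.linearCombination ℤ omL

/-- evaluation of `D` on the boundary of the simplex `σ` -/
noncomputable def fd {M N : ℕ} {β : Type} [AddCommGroup β] (D : Finset (Vx M N) → β)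
    (σ : Finset (Vx M N)) : β := ∑ v ∈ σ, sg v σ • D (σ.erase v)

/-- a list of vertices that spans a simplex of dimension at most `d` (with at most one vertex in each orbit) -/
def OK {M N : ℕ} (d : ℕ) (l : List (Vx M N)) : Prop :=
  (∀ u ∈ l, ∀ w ∈ l, u.2 = w.2 → u = w) ∧ l.toFinset.card ≤ d + 1

/-- the data of the algebraic part: `F` is an equivariant vertex map, `s` a chain map with contraction `T`, `H` a homotopy from `s` to
`a s a⁻¹`, `E` a second order homotopy, with the avoidance conditions `av_s`, `av_H`, `av_E` -/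
structure Sys (M N d n : ℕ) [NeZero M] (X : Type) where
  a : Equiv.Perm X
  F : X → Vx M N
  F_a : ∀ x, F (a x) = sh (F x)
  A : ℕ → Submodule ℤ (Ch X)
  A_len : ∀ k, A k ≤ SP (fun l => l.length = k ∧ OK d (l.map F))
  A_a : ∀ k z, z ∈ A k → mp a z ∈ A k
  A_pr : ∀ k, k ≤ d → ∀ z ∈ A k, pr id (a ^ n : Equiv.Perm X) z ∈ A (k + 1)
  top : ∀ z ∈ A (d + 1), bd z = 0 → om (mp F z) = 0
  s : Finset (Vx M N) → Ch X
  T : Finset (Vx M N) → Ch X
  H : Finset (Vx M N) → Ch X
  E : Finset (Vx M N) → Ch X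
  s_empty : s ∅ = Finsupp.single [] 1
  H_empty : H ∅ = 0
  E_empty : E ∅ = 0
  s_mem : ∀ σ, Good σ → σ.card ≤ d → s σ ∈ A σ.card
  T_mem : ∀ σ, Good σ → σ.card < d → T σ ∈ A (σ.card + 1)
  H_mem : ∀ σ, Good σ → σ.card ≤ d → H σ ∈ A (σ.card + 1)
  E_mem : ∀ σ, Good σ → σ.card < d → E σ ∈ A (σ.card + 2)
  T_bd : ∀ σ, Good σ → σ.card < d → bd (T σ) + fd T σ = s σ
  s_top : ∀ σ, Good σ → σ.card = d → s σ = fd T σ
  H_bd : ∀ σ, Good σ → σ.card ≤ d → bd (H σ) + fd H σ = mp a (s (σ.image sh.symm)) - s σ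
  E_bd : ∀ σ, Good σ → σ.card < d → bd (E σ) =
    (∑ t ∈ Finset.range n, mp (a ^ t : Equiv.Perm X) (H (σ.image (sh ^ t : Equiv.Perm (Vx M N)).symm)))
      - pr id (a ^ n : Equiv.Perm X) (s σ) + fd E σ
  av_s : ∀ σ, Good σ → 0 < σ.card → σ.card < d → s σ ∈ SP (fun l => ¬ σ ⊆ (l.map F).toFinset)
  av_H : ∀ σ, Good σ → 0 < σ.card → σ.card < d → H σ ∈ SP (fun l => ¬ σ ⊆ (l.map F).toFinset)
  av_E : ∀ σ, Good σ → 0 < σ.card → σ.card < d → E σ ∈ SP (fun l => ¬ σ ⊆ (l.map F).toFinset)

end AGV
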