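import Pool.Agent.AGV.FilF
import Pool.Agent.AGV.Ac

/-!
# AGV-Ext: it suffices to know the data on the simplices with fewer than `d` vertices

Let `s, H, E` be given on good simplices with fewer than `d` vertices. `T` from `fillF` (with `u = s`). Define `s' σ = s σ` for `σ.card < d`, `s' σ = fd T σ` otherwise; `H' σ = H σ` for `σ.card < d`; for good `σ` with `σ.card = d` the chain
`y = mp a (s' (σ.image sh.symm)) - s' σ - fd H σ` is in `A d` (`A_a`, `fd_mem`) and `bd y = 0`: `bd (s' σ) = fd s' σ` for `σ.card ≤ d` (for `σ.card = d`: `bd (fd T σ) = fd (fun ρ => s ρ - fd T ρ) σ = fd s σ`), `bd (fd H σ) = fd (fun ρ => mp a (s (ρ.image sh.symm)) - s ρ - fd H ρ) σ`,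
`fd_image` (`t = 1`), `fd_fd`; so choose `H' σ ∈ A (d + 1)` with `bd (H' σ) = y` (`hfill` for `k = d`). `E` unchanged (arbitrary for other `σ`). This gives a `Sys M N d n X` (`fd s' σ`, `fd H' σ` only use `σ.erase v`, of card `< d`), and `ac` gives a contradiction.
-/

set_option autoImplicit false

namespace AGV

variable {M N d n : ℕ} [NeZero M] {X : Type}

theorem ext_core (hM2 : 2 ≤ M) (hd : 1 ≤ d) (hn : 0 < n) (hM : M ∣ n)
    (a : Equiv.Perm X) (F : X → Vx M N) (F_a : ∀ x, F (a x) = sh (F x))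
    (A : ℕ → Submodule ℤ (Ch X)) (A_len : ∀ k, A k ≤ SP (fun l => l.length = k ∧ OK d (l.map F)))
    (A_a : ∀ k z, z ∈ A k → mp a z ∈ A k)
    (A_pr : ∀ k, k ≤ d → ∀ z ∈ A k, pr id (a ^ n : Equiv.Perm X) z ∈ A (k + 1))
    (top : ∀ z ∈ A (d + 1), bd z = 0 → om (mp F z) = 0)
    (hfill : ∀ k, k ≤ d → ∀ z ∈ A k, bd z = 0 → ∃ w ∈ A (k + 1), bd w = z)
    (s H E : Finset (Vx M N) → Ch X)
    (s_empty : s ∅ = Finsupp.single [] 1) (H_empty : H ∅ = 0) (E_empty : E ∅ = 0)
    (s_mem : ∀ σ, Good σ → σ.card < d → s σ ∈ A σ.card)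
    (s_bd : ∀ σ, Good σ → σ.card < d → bd (s σ) = fd s σ)
    (H_mem : ∀ σ, Good σ → σ.card < d → H σ ∈ A (σ.card + 1))
    (H_bd : ∀ σ, Good σ → σ.card < d → bd (H σ) + fd H σ = mp a (s (σ.image sh.symm)) - s σ)
    (E_mem : ∀ σ, Good σ → σ.card < d → E σ ∈ A (σ.card + 2))
    (E_bd : ∀ σ, Good σ → σ.card < d → bd (E σ) =
      (∑ t ∈ Finset.range n, mp (a ^ t : Equiv.Perm X) (H (σ.image (sh ^ t : Equiv.Perm (Vx M N)).symm)))
        - pr id (a ^ n : Equiv.Perm X) (s σ) + fd E σ)
    (av_s : ∀ σ, Good σ → 0 < σ.card → σ.card < d → s σ ∈ SP (fun l => ¬ σ ⊆ (l.map F).toFinset))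
    (av_H : ∀ σ, Good σ → 0 < σ.card → σ.card < d → H σ ∈ SP (fun l => ¬ σ ⊆ (l.map F).toFinset))
    (av_E : ∀ σ, Good σ → 0 < σ.card → σ.card < d → E σ ∈ SP (fun l => ¬ σ ⊆ (l.map F).toFinset)) :
    False := by
  classical
  obtain ⟨T, hT⟩ := fillF (M := M) (N := N) d A (fun k hk => hfill k (by omega)) s s_mem s_bd
  obtain ⟨s', hs'⟩ : ∃ s' : Finset (Vx M N) → Ch X,
      s' = fun σ => if σ.card < d then s σ else fd T σ := ⟨_, rfl⟩
  have s_lt : ∀ σ : Finset (Vx M N), σ.card < d → s' σ = s σ := fun σ h => by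
    rw [hs']
    exact if_pos h
  have s_ge : ∀ σ : Finset (Vx M N), ¬ σ.card < d → s' σ = fd T σ := fun σ h => by
    rw [hs']
    exact if_neg h
  have hcard : ∀ σ : Finset (Vx M N), ∀ v ∈ σ, (σ.erase v).card + 1 = σ.card := fun σ v hv =>
    Finset.card_erase_add_one hv
  have gim : ∀ σ : Finset (Vx M N), Good σ → Good (σ.image (sh : Equiv.Perm (Vx M N)).symm) := by
    intro σ h
    have h1 := (good_image (M := M) (N := N) 1 (S := σ)).2 h
    rwa [pow_one] at h1
  have cim : ∀ σ : Finset (Vx M N), (σ.image (sh : Equiv.Perm (Vx M N)).symm).card = σ.card := by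
    intro σ
    exact Finset.card_image_of_injective _ (Equiv.injective _)
  have sfd : ∀ σ : Finset (Vx M N), σ.card ≤ d → fd s' σ = fd s σ := fun σ h =>
    fd_congr fun v hv => s_lt _ (by have := hcard σ v hv; omega)
  have smem' : ∀ σ, Good σ → σ.card ≤ d → s' σ ∈ A σ.card := by
    intro σ hG hc
    by_cases h : σ.card < d
    · rw [s_lt σ h]
      exact s_mem σ hG h
    · rw [s_ge σ h]
      refine fd_mem fun v hv => ?_
      have h1 := (hT (σ.erase v) (hG.erase v) (by have := hcard σ v hv; omega)).1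
      rwa [hcard σ v hv] at h1
  have sbd' : ∀ σ, Good σ → σ.card ≤ d → bd (s' σ) = fd s' σ := by
    intro σ hG hc
    rw [sfd σ hc]
    by_cases h : σ.card < d
    · rw [s_lt σ h]
      exact s_bd σ hG h
    · rw [s_ge σ h, fd_map]
      have h1 : fd (fun ρ => bd (T ρ)) σ = fd (fun ρ => s ρ - fd T ρ) σ := fd_congr fun v hv => by
        have h2 := (hT (σ.erase v) (hG.erase v) (by have := hcard σ v hv; omega)).2
        show bd (T (σ.erase v)) = s (σ.erase v) - fd T (σ.erase v)
        rw [← h2]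
        abel
      rw [h1, fd_sub]
      have h3 : fd (fun ρ => fd T ρ) σ = 0 := fd_fd T hG
      have h4 : fd (fun ρ => s ρ) σ = fd s σ := rfl
      rw [h3, h4, sub_zero]
  have step : ∀ σ : Finset (Vx M N), ∃ w : Ch X,
      (Good σ ∧ σ.card = d → w ∈ A (σ.card + 1) ∧
        bd w + fd H σ = mp a (s' (σ.image (sh : Equiv.Perm (Vx M N)).symm)) - s' σ) ∧
      (σ.card ≠ d → w = H σ) := by
    intro σ
    by_cases h : Good σ ∧ σ.card = d
    · obtain ⟨hG, hc⟩ := h
      have hmem : mp a (s' (σ.image (sh : Equiv.Perm (Vx M N)).symm)) - s' σ - fd H σ ∈ A σ.card := by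
        refine Submodule.sub_mem _ (Submodule.sub_mem _ (A_a _ _ ?_) (smem' σ hG hc.le))
          (fd_mem fun v hv => ?_)
        · have h1 := smem' _ (gim σ hG) (by rw [cim σ]; omega)
          rwa [cim σ] at h1
        · have h1 := H_mem (σ.erase v) (hG.erase v) (by have := hcard σ v hv; omega)
          rwa [hcard σ v hv] at h1
      have hbd : bd (mp a (s' (σ.image (sh : Equiv.Perm (Vx M N)).symm)) - s' σ - fd H σ) = 0 := by
        rw [map_sub, map_sub, bd_mp, sbd' σ hG hc.le, sbd' _ (gim σ hG) (by rw [cim σ]; omega)]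
        have e1 : fd s' (σ.image (sh : Equiv.Perm (Vx M N)).symm) =
            fd (fun ρ => s' (ρ.image (sh : Equiv.Perm (Vx M N)).symm)) σ := by
          have := fd_image (M := M) (N := N) 1 s' σ
          rwa [pow_one] at this
        have e2 : mp a (fd s' (σ.image (sh : Equiv.Perm (Vx M N)).symm)) =
            fd (fun ρ => mp a (s (ρ.image (sh : Equiv.Perm (Vx M N)).symm))) σ := by
          rw [e1, fd_map]
          refine fd_congr fun v hv => ?_
          show mp a (s' _) = mp a (s _)
          rw [s_lt _ (by rw [cim]; have := hcard σ v hv; omega)]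
        have e3 : bd (fd H σ) = fd (fun ρ => mp a (s (ρ.image (sh : Equiv.Perm (Vx M N)).symm)) - s ρ
            - fd H ρ) σ := by
          rw [fd_map]
          refine fd_congr fun v hv => ?_
          have h2 := H_bd (σ.erase v) (hG.erase v) (by have := hcard σ v hv; omega)
          show bd (H (σ.erase v)) = mp a (s ((σ.erase v).image (sh : Equiv.Perm (Vx M N)).symm))
            - s (σ.erase v) - fd H (σ.erase v)
          rw [← h2]
          abel
        have e4 : fd (fun ρ => fd H ρ) σ = 0 := fd_fd H hG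
        have e5 : fd (fun ρ => s ρ) σ = fd s σ := rfl
        rw [e2, e3, sfd σ hc.le, fd_sub (fun ρ => mp a (s (ρ.image (sh : Equiv.Perm (Vx M N)).symm)) - s ρ)
          (fun ρ => fd H ρ), fd_sub, e4, e5]
        abel
      obtain ⟨w, hw1, hw2⟩ := hfill σ.card (by omega) _ hmem hbd
      exact ⟨w, fun _ => ⟨hw1, by rw [hw2]; abel⟩, fun h => absurd hc h⟩
    · exact ⟨H σ, fun h' => absurd h' h, fun _ => rfl⟩
  choose H' h1 h2 using step
  have Hfd : ∀ σ : Finset (Vx M N), σ.card ≤ d → fd H' σ = fd H σ := fun σ h =>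
    fd_congr fun v hv => h2 _ (by have := hcard σ v hv; omega)
  have Hlt : ∀ σ : Finset (Vx M N), σ.card < d → H' σ = H σ := fun σ h => h2 σ (by omega)
  let S : Sys M N d n X :=
    { a := a
      F := F
      F_a := F_a
      A := A
      A_len := A_len
      A_a := A_a
      A_pr := A_pr
      top := top
      s := s'
      T := T
      H := H'
      E := E
      s_empty := by
        rw [s_lt ∅ (by rw [Finset.card_empty]; omega)]
        exact s_empty
      H_empty := by
        rw [Hlt ∅ (by rw [Finset.card_empty]; omega)]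
        exact H_empty
      E_empty := E_empty
      s_mem := smem'
      T_mem := fun σ hG hc => (hT σ hG hc).1
      H_mem := by
        intro σ hG hc
        by_cases h : σ.card = d
        · exact (h1 σ ⟨hG, h⟩).1
        · rw [h2 σ h]
          exact H_mem σ hG (by omega)
      E_mem := E_mem
      T_bd := by
        intro σ hG hc
        rw [s_lt σ hc]
        exact (hT σ hG hc).2
      s_top := fun σ hG hc => s_ge σ (by omega)
      H_bd := by
        intro σ hG hc
        rw [Hfd σ hc]
        by_cases h : σ.card = d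
        · exact (h1 σ ⟨hG, h⟩).2
        · have hlt : σ.card < d := by omega
          rw [h2 σ h, s_lt σ hlt, s_lt _ (by rw [cim]; exact hlt)]
          exact H_bd σ hG hlt
      E_bd := by
        intro σ hG hc
        rw [s_lt σ hc, E_bd σ hG hc]
        refine congrArg₂ _ (congrArg₂ _ (Finset.sum_congr rfl fun t _ => ?_) rfl) rfl
        rw [Hlt _ (by rw [card_image_sh]; exact hc)]
      av_s := by
        intro σ hG h0 hc
        rw [s_lt σ hc]
        exact av_s σ hG h0 hc
      av_H := by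
        intro σ hG h0 hc
        rw [Hlt σ hc]
        exact av_H σ hG h0 hc
      av_E := av_E }
  exact ac S hM2 hd hn hM

end AGV
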