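import Pool.Agent.AGV.GrA

/-!
# AGV-GrB: small open normal subgroups that miss all the nontrivial powers of an element of finite order

`small_open_fin`: for `0 < t < orderOf g` the power `g ^ t` is not `1`; take the intersection of the subgroups of `small_open` for these finitely many powers and for `g` itself (normal, open).
-/

set_option autoImplicit false

namespace AGV

theorem small_open_fin {G : Type} [Group G] [TopologicalSpace G] [IsTopologicalGroup G] [CompactSpace G]
    [TotallyDisconnectedSpace G] {X : Type} [MetricSpace X] [CompactSpace X] [MulAction G X]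
    [ContinuousSMul G X] {ε : ℝ} (hε : 0 < ε) {g : G} (hg : g ≠ 1) :
    ∃ K : Subgroup G, K.Normal ∧ IsOpen (K : Set G) ∧ (∀ t : ℕ, 0 < t → t < orderOf g → g ^ t ∉ K) ∧
      g ∉ K ∧ ∀ k ∈ K, ∀ x : X, dist (k • x) x < ε := by
  have key : ∀ n : ℕ, n ≤ orderOf g → ∃ K : Subgroup G, K.Normal ∧ IsOpen (K : Set G) ∧
      (∀ t : ℕ, 0 < t → t < n → g ^ t ∉ K) ∧ g ∉ K ∧ ∀ k ∈ K, ∀ x : X, dist (k • x) x < ε := by
    intro n
    induction n with
    | zero =>
      intro _
      obtain ⟨K, h1, h2, h3, h4⟩ := small_open (G := G) (X := X) hε hg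
      exact ⟨K, h1, h2, fun t _ ht => absurd ht (Nat.not_lt_zero t), h3, h4⟩
    | succ n ih =>
      intro hn
      obtain ⟨K, h1, h2, h3, h4, h5⟩ := ih (by omega)
      rcases Nat.eq_zero_or_pos n with rfl | hn0
      · exact ⟨K, h1, h2, fun t ht ht1 => absurd ht (by omega), h4, h5⟩
      · have hgn : g ^ n ≠ 1 := fun h => absurd (orderOf_le_of_pow_eq_one hn0 h) (by omega)
        obtain ⟨K', h1', h2', h3', h4'⟩ := small_open (G := G) (X := X) hε hgn
        refine ⟨K ⊓ K', inferInstance, ?_, ?_, fun h => h4 h.1, fun k hk => h5 k hk.1⟩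
        · rw [Subgroup.coe_inf]
          exact h2.inter h2'
        · intro t ht htn h
          rcases Nat.lt_succ_iff_lt_or_eq.1 htn with h6 | rfl
          · exact h3 t ht h6 h.1
          · exact h3' h.2
  exact key _ le_rfl

end AGV
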