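import Mathlib

/-!
# AGV-HaarM: an invariant probability measure

`inv_measure`: use the Borel structure of `G` (`borel G`); the Haar measure `haarMeasure ⊤` (`⊤ : PositiveCompacts G`) has total mass `1` and is left invariant; push it forward by the continuous map `g ↦ g • x₀`. Invariance: the preimage of `(h • ·) ⁻¹' E` is the preimage of `E` translated by `h` on the left.
-/

set_option autoImplicit false

namespace AGV

theorem inv_measure (G X : Type) [Group G] [TopologicalSpace G] [IsTopologicalGroup G] [CompactSpace G] [MetricSpace X]
    [CompactSpace X] [Nonempty X] [MeasurableSpace X] [BorelSpace X] [MulAction G X] [ContinuousSMul G X] :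
    ∃ ν : MeasureTheory.Measure X, MeasureTheory.IsProbabilityMeasure ν ∧
      ∀ (g : G) (E : Set X), MeasurableSet E → ν ((fun x => g • x) ⁻¹' E) = ν E := by
  let _ : MeasurableSpace G := borel G
  have : BorelSpace G := ⟨rfl⟩
  obtain ⟨x₀⟩ := ‹Nonempty X›
  let κ : MeasureTheory.Measure G := MeasureTheory.Measure.haarMeasure ⊤
  have hκ : κ Set.univ = 1 := by
    have := MeasureTheory.Measure.haarMeasure_self (K₀ := (⊤ : TopologicalSpace.PositiveCompacts G))
    simpa using this
  have hc : Continuous (fun g : G => g • x₀) := continuous_id.smul continuous_const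
  have hm : Measurable (fun g : G => g • x₀) := hc.measurable
  refine ⟨κ.map (fun g : G => g • x₀), ⟨?_⟩, ?_⟩
  · rw [MeasureTheory.Measure.map_apply hm MeasurableSet.univ, Set.preimage_univ, hκ]
  · intro h E hE
    have hc2 : Continuous (fun x : X => h • x) := continuous_const_smul h
    rw [MeasureTheory.Measure.map_apply hm (hc2.measurable hE), MeasureTheory.Measure.map_apply hm hE]
    have : (fun g : G => g • x₀) ⁻¹' ((fun x => h • x) ⁻¹' E) = (fun g : G => h * g) ⁻¹' ((fun g : G => g • x₀) ⁻¹' E) := by
      ext g
      simp [mul_smul]
    rw [this, MeasureTheory.measure_preimage_mul]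

end AGV
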