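import Pool.Agent.Helper87.AG.Sep

/-!
# AGV-MajA: components of complements of continua

`comp_open`: `IsOpen.connectedComponentIn`. `compl_comp`: if `y ∈ S`, the component is empty and its complement is the whole connected space. Otherwise let `U` be the component; `Uᶜ` is the union of the sets `connectedComponentIn Sᶜ z ∪ S`,
`z ∉ U` (for `z ∈ S` the set is `S`), each of them preconnected (`isPreconnected_comp_union`), and all contain the nonempty set `S` (`isPreconnected_sUnion`); they are disjoint from `U` (components are equal or disjoint, `mem_comp_symm`, `mem_comp_trans`).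
`other_side`: `S₂ ⊆ connectedComponentIn S₁ᶜ x₂` (`subset_comp_of_meets`), so the complement of this component is a preconnected set that contains `x₁` and is contained in `S₂ᶜ`; so it is contained in the component of `x₁`.
`at_most_one`: `x₃ ∈ (connectedComponentIn S₁ᶜ x₂)ᶜ ⊆ connectedComponentIn S₂ᶜ x₁`.
`at_least_one`: let `A₁, A₂, A₃` be the components `connectedComponentIn S₁ᶜ x₂`, `connectedComponentIn S₂ᶜ x₁`, `connectedComponentIn S₃ᶜ x₁`; under the negation `A₁ = connectedComponentIn S₁ᶜ x₃`, `A₂ = connectedComponentIn S₂ᶜ x₃`,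
`A₃ = connectedComponentIn S₃ᶜ x₂` (`mem_comp_symm`, `mem_comp_trans`), so by `other_side` any two of the three sets cover `X`; all are open of measure at most `1 / 2`, so they have measure exactly `1 / 2` and the intersection of any two has measure `0`
(`ν (A ∪ B) + ν (A ∩ B) = ν A + ν B`). Then `A₃ ⊆ (A₃ ∩ A₁) ∪ (A₃ ∩ A₂)` has measure `0`, a contradiction.
-/

set_option autoImplicit false

namespace AGV

open Pool.Agent.Helper87.AG

variable {X : Type} [TopologicalSpace X] [ConnectedSpace X] [LocallyConnectedSpace X]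

theorem comp_open {S : Set X} (hS : IsClosed S) (y : X) : IsOpen (connectedComponentIn Sᶜ y) :=
  hS.isOpen_compl.connectedComponentIn

theorem compl_comp {S : Set X} (hS : IsClosed S) (hSc : IsPreconnected S) (hSn : S.Nonempty) (y : X) :
    IsPreconnected (connectedComponentIn Sᶜ y)ᶜ := by
  by_cases hy : y ∈ S
  · rw [connectedComponentIn_eq_empty (by simpa using hy), Set.compl_empty]
    exact isPreconnected_univ
  · obtain ⟨s0, hs0⟩ := hSn
    have hU : (connectedComponentIn Sᶜ y)ᶜ =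
        ⋃₀ {T | ∃ z, z ∉ connectedComponentIn Sᶜ y ∧ T = connectedComponentIn Sᶜ z ∪ S} := by
      ext w
      rw [Set.mem_sUnion, Set.mem_compl_iff]
      constructor
      · intro hw
        refine ⟨connectedComponentIn Sᶜ w ∪ S, ⟨w, hw, rfl⟩, ?_⟩
        by_cases hwS : w ∈ S
        · exact Or.inr hwS
        · exact Or.inl (mem_connectedComponentIn hwS)
      · rintro ⟨T, ⟨z, hz, rfl⟩, hw⟩ hwU
        rcases hw with hw | hw
        · exact hz (mem_comp_trans hwU (mem_comp_symm hw))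
        · exact connectedComponentIn_subset _ _ hwU hw
    rw [hU]
    refine isPreconnected_sUnion s0 _ ?_ ?_
    · rintro T ⟨z, _, rfl⟩
      exact Or.inr hs0
    · rintro T ⟨z, _, rfl⟩
      exact isPreconnected_comp_union hS hSc ⟨s0, hs0⟩ z

theorem other_side {S₁ S₂ : Set X} (h1 : IsClosed S₁) (hc1 : IsPreconnected S₁) (hc2 : IsPreconnected S₂)
    (hd : Disjoint S₁ S₂) {x₁ x₂ : X} (hx1 : x₁ ∈ S₁) (hx2 : x₂ ∈ S₂) :
    (connectedComponentIn S₁ᶜ x₂)ᶜ ⊆ connectedComponentIn S₂ᶜ x₁ := by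
  have h21 : S₂ ⊆ S₁ᶜ := fun z hz hz1 => Set.disjoint_left.1 hd hz1 hz
  have hsub : S₂ ⊆ connectedComponentIn S₁ᶜ x₂ :=
    subset_comp_of_meets hc2 h21 hx2 (mem_connectedComponentIn (h21 hx2))
  have hC : IsPreconnected (connectedComponentIn S₁ᶜ x₂)ᶜ := compl_comp h1 hc1 ⟨x₁, hx1⟩ x₂
  refine hC.subset_connectedComponentIn ?_ (Set.compl_subset_compl.2 hsub)
  intro h
  exact connectedComponentIn_subset _ _ h hx1

theorem at_most_one {S₁ S₂ : Set X} (h1 : IsClosed S₁) (hc1 : IsPreconnected S₁) (hc2 : IsPreconnected S₂)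
    (hd : Disjoint S₁ S₂) {x₁ x₂ x₃ : X} (hx1 : x₁ ∈ S₁) (hx2 : x₂ ∈ S₂)
    (h : x₃ ∉ connectedComponentIn S₁ᶜ x₂) : x₃ ∈ connectedComponentIn S₂ᶜ x₁ :=
  other_side h1 hc1 hc2 hd hx1 hx2 h

theorem at_least_one [MeasurableSpace X] [BorelSpace X] (ν : MeasureTheory.Measure X)
    [MeasureTheory.IsProbabilityMeasure ν] {S₁ S₂ S₃ : Set X} (h1 : IsClosed S₁) (h2 : IsClosed S₂) (h3 : IsClosed S₃)
    (hc1 : IsPreconnected S₁) (hc2 : IsPreconnected S₂) (hc3 : IsPreconnected S₃)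
    (hd12 : Disjoint S₁ S₂) (hd13 : Disjoint S₁ S₃) (hd23 : Disjoint S₂ S₃) {x₁ x₂ x₃ : X} (hx1 : x₁ ∈ S₁) (hx2 : x₂ ∈ S₂) (hx3 : x₃ ∈ S₃)
    (hb1 : ∀ y, ν (connectedComponentIn S₁ᶜ y) ≤ 1 / 2) (hb2 : ∀ y, ν (connectedComponentIn S₂ᶜ y) ≤ 1 / 2)
    (hb3 : ∀ y, ν (connectedComponentIn S₃ᶜ y) ≤ 1 / 2) :
    x₃ ∉ connectedComponentIn S₁ᶜ x₂ ∨ x₃ ∉ connectedComponentIn S₂ᶜ x₁ ∨ x₂ ∉ connectedComponentIn S₃ᶜ x₁ := by
  by_contra hcon
  push Not at hcon
  obtain ⟨k1, k2, k3⟩ := hcon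
  have e1 : connectedComponentIn S₁ᶜ x₂ = connectedComponentIn S₁ᶜ x₃ := connectedComponentIn_eq k1
  have e2 : connectedComponentIn S₂ᶜ x₁ = connectedComponentIn S₂ᶜ x₃ := connectedComponentIn_eq k2
  have e3 : connectedComponentIn S₃ᶜ x₁ = connectedComponentIn S₃ᶜ x₂ := connectedComponentIn_eq k3
  have c12 := other_side h1 hc1 hc2 hd12 hx1 hx2
  have c13 := other_side h1 hc1 hc3 hd13 hx1 hx3
  have c23 := other_side h2 hc2 hc3 hd23 hx2 hx3
  rw [← e1] at c13
  rw [← e2, ← e3] at c23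
  have m1 := hb1 x₂
  have m2 := hb2 x₁
  have m3 := hb3 x₁
  have o1 := (comp_open h1 x₂).measurableSet
  have o2 := (comp_open h2 x₁).measurableSet
  have o3 := (comp_open h3 x₁).measurableSet
  generalize connectedComponentIn S₁ᶜ x₂ = A₁ at *
  generalize connectedComponentIn S₂ᶜ x₁ = A₂ at *
  generalize connectedComponentIn S₃ᶜ x₁ = A₃ at *
  have key : ∀ A B : Set X, Aᶜ ⊆ B → MeasurableSet B → ν A ≤ 1 / 2 → ν B ≤ 1 / 2 →
      ν (A ∩ B) = 0 := by
    intro A B hAB hB hA2 hB2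
    have hu : A ∪ B = Set.univ := by
      rw [Set.eq_univ_iff_forall]
      intro x
      by_cases hx : x ∈ A
      · exact Or.inl hx
      · exact Or.inr (hAB hx)
    have h := MeasureTheory.measure_union_add_inter (μ := ν) A hB
    rw [hu, MeasureTheory.measure_univ] at h
    have h2 : ν A + ν B ≤ 1 := by
      refine (add_le_add hA2 hB2).trans ?_
      rw [ENNReal.add_halves]
    rw [← h] at h2
    have h3 : (1 : ENNReal) + ν (A ∩ B) ≤ 1 + 0 := by rwa [add_zero]
    exact le_antisymm ((ENNReal.add_le_add_iff_left ENNReal.one_ne_top).1 h3) zero_le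
  have z13 := key A₁ A₃ c13 o3 m1 m3
  have z23 := key A₂ A₃ c23 o3 m2 m3
  have hsub : A₃ ⊆ (A₁ ∩ A₃) ∪ (A₂ ∩ A₃) := by
    intro x hx
    by_cases h : x ∈ A₁
    · exact Or.inl ⟨h, hx⟩
    · exact Or.inr ⟨c12 h, hx⟩
  have z3 : ν A₃ = 0 := by
    refine le_antisymm ?_ zero_le
    refine (MeasureTheory.measure_mono hsub).trans ((MeasureTheory.measure_union_le _ _).trans ?_)
    rw [z13, z23, add_zero]
  have hu : A₁ ∪ A₃ = Set.univ := by
    rw [Set.eq_univ_iff_forall]
    intro x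
    by_cases hx : x ∈ A₁
    · exact Or.inl hx
    · exact Or.inr (c13 hx)
  have h1' : (1 : ENNReal) ≤ 1 / 2 := by
    calc (1 : ENNReal) = ν (A₁ ∪ A₃) := by rw [hu, MeasureTheory.measure_univ]
      _ ≤ ν A₁ + ν A₃ := MeasureTheory.measure_union_le _ _
      _ ≤ 1 / 2 := by rw [z3, add_zero]; exact m1
  rw [ENNReal.le_div_iff_mul_le (by norm_num) (by norm_num)] at h1'
  norm_num at h1'

end AGV
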