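import Mathlib

/-!
# AGV-MajC: betweenness on the integers

`sep i j k`: the set number `i` separates the sets number `j` and `k`.
Chain lemma: for distinct `i, j, k, l`: `sep j i k` and `sep k j l` imply `sep j i l` and `sep k i l`. Proof: `sep j i k` gives `¬ sep k j i` (`hex` and `hsymm`: `sep j k i → ¬ sep k j i`), so if `¬ sep k i l`, then `¬ sep k j l` by `htr`, a contradiction.
`sep k j l` gives `¬ sep j k l` (`hex`), so if `¬ sep j i l`, then `¬ sep j i k` (`htr` with `hsymm`), a contradiction.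
First step: `sep 2 0 4`. By `hone 0 1 2` one of `sep 0 1 2`, `sep 1 0 2`, `sep 2 0 1` holds.
* `sep 0 1 2`: translates: `sep 1 2 3`, `sep 2 3 4`; so `¬ sep 2 0 1` (`hex` for `0, 2`), `¬ sep 2 1 3` (from `sep 1 2 3`), `sep 2 3 4`. At `2`: `0 ~ 1 ~ 3`, `3 ≁ 4`, so `sep 2 0 4`.
* `sep 1 0 2`: `sep 2 1 3` (translate), chain lemma (`0, 1, 2, 3`): `sep 2 0 3`, `sep 1 0 3`. Again `sep 3 2 4`; chain lemma (`0, 2, 3, 4`) with `sep 2 0 3`: `sep 2 0 4`.
* `sep 2 0 1`: translates `sep 3 1 2`, `sep 4 2 3`; so `¬ sep 2 1 3`, `¬ sep 2 3 4`. At `2`: `0 ≁ 1`, `1 ~ 3 ~ 4`, so `sep 2 0 4`.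
Then for all `k ≥ 2`: `sep 2 0 (2 k)` and `sep (2 k - 2) 0 (2 k)`, by induction: `sep (2 k) (2 k - 2) (2 k + 2)` is a translate of `sep 2 0 4`; the chain lemma for `0, 2 k - 2, 2 k, 2 k + 2` gives `sep (2 k) 0 (2 k + 2)`; the chain lemma for
`0, 2, 2 k, 2 k + 2` with `sep 2 0 (2 k)` and the translate by `2` `sep (2 k) 2 (2 k + 2)` of `sep (2 k - 2) 0 (2 k)` gives `sep 2 0 (2 k + 2)` (for `k ≥ 3`; for `k = 2` use `0, 2, 4, 6`: `sep 2 0 4`, `sep 4 2 6`).
-/

set_option autoImplicit false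

namespace AGV

theorem between_logic (sep : ℤ → ℤ → ℤ → Prop) (hsymm : ∀ i j k, sep i j k → sep i k j)
    (htr : ∀ i j k l, i ≠ j → i ≠ k → i ≠ l → ¬ sep i j k → ¬ sep i k l → ¬ sep i j l)
    (hone : ∀ i j k, i ≠ j → j ≠ k → i ≠ k → sep i j k ∨ sep j i k ∨ sep k i j)
    (hex : ∀ i j k, i ≠ j → j ≠ k → i ≠ k → sep i j k → ¬ sep j i k)
    (hshift : ∀ i j k t, sep i j k → sep (i + t) (j + t) (k + t))
    (hrec : ∀ N₀ : ℕ, ∃ n : ℕ, N₀ ≤ n ∧ ¬ sep 2 0 (2 * (n : ℤ))) : False := by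
  have chain : ∀ i j k l : ℤ, i ≠ j → i ≠ k → i ≠ l → j ≠ k → j ≠ l → k ≠ l →
      sep j i k → sep k j l → sep j i l ∧ sep k i l := by
    intro i j k l hij hik hil hjk hjl hkl h1 h2
    constructor
    · by_contra hc
      have h3 : ¬ sep j k l := hex k j l hjk.symm hjl hkl h2
      have h4 : ¬ sep j l k := fun h => h3 (hsymm _ _ _ h)
      exact htr j i l k hij.symm hjl hjk hc h4 h1
    · by_contra hc
      have h3 : ¬ sep k j i := hex j k i hjk hik.symm hij.symm (hsymm _ _ _ h1)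
      exact htr k j i l hjk.symm hik.symm hkl h3 hc h2
  have first : sep 2 0 4 := by
    rcases hone 0 1 2 (by norm_num) (by norm_num) (by norm_num) with h | h | h
    · have h1 : sep 1 2 3 := by simpa using hshift 0 1 2 1 h
      have h2 : sep 2 3 4 := by simpa using hshift 0 1 2 2 h
      have n1 : ¬ sep 2 0 1 :=
        hex 0 2 1 (by norm_num) (by norm_num) (by norm_num) (hsymm _ _ _ h)
      have n2 : ¬ sep 2 1 3 := hex 1 2 3 (by norm_num) (by norm_num) (by norm_num) h1
      by_contra hc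
      have n3 : ¬ sep 2 0 3 := htr 2 0 1 3 (by norm_num) (by norm_num) (by norm_num) n1 n2
      have n4 : ¬ sep 2 3 0 := fun h => n3 (hsymm _ _ _ h)
      exact htr 2 3 0 4 (by norm_num) (by norm_num) (by norm_num) n4 hc h2
    · have h1 : sep 2 1 3 := by simpa using hshift 1 0 2 1 h
      have h2 : sep 3 2 4 := by simpa using hshift 1 0 2 2 h
      have c1 := chain 0 1 2 3 (by norm_num) (by norm_num) (by norm_num) (by norm_num)
        (by norm_num) (by norm_num) h h1
      exact (chain 0 2 3 4 (by norm_num) (by norm_num) (by norm_num) (by norm_num)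
        (by norm_num) (by norm_num) c1.2 h2).1
    · have h1 : sep 3 1 2 := by simpa using hshift 2 0 1 1 h
      have h2 : sep 4 2 3 := by simpa using hshift 2 0 1 2 h
      have n1 : ¬ sep 2 3 1 :=
        hex 3 2 1 (by norm_num) (by norm_num) (by norm_num) (hsymm _ _ _ h1)
      have n1' : ¬ sep 2 1 3 := fun h => n1 (hsymm _ _ _ h)
      have n2 : ¬ sep 2 4 3 := hex 4 2 3 (by norm_num) (by norm_num) (by norm_num) h2
      have n2' : ¬ sep 2 3 4 := fun h => n2 (hsymm _ _ _ h)
      by_contra hc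
      have n3 : ¬ sep 2 1 4 := htr 2 1 3 4 (by norm_num) (by norm_num) (by norm_num) n1' n2'
      have n4 : ¬ sep 2 4 1 := fun h => n3 (hsymm _ _ _ h)
      exact htr 2 0 4 1 (by norm_num) (by norm_num) (by norm_num) hc n4 h
  have main : ∀ m : ℕ, sep 2 0 (2 * ((m : ℤ) + 2)) ∧
      sep (2 * ((m : ℤ) + 2) - 2) 0 (2 * ((m : ℤ) + 2)) := by
    intro m
    induction m with
    | zero =>
      constructor
      · simpa using first
      · have : (2 * (((0 : ℕ) : ℤ) + 2) - 2) = 2 := by norm_num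
        rw [this]
        simpa using first
    | succ m ih =>
      obtain ⟨ih1, ih2⟩ := ih
      have hm : (0 : ℤ) ≤ (m : ℤ) := Int.natCast_nonneg m
      set K : ℤ := 2 * ((m : ℤ) + 2) with hK
      have e : 2 * (((m + 1 : ℕ) : ℤ) + 2) = K + 2 := by
        rw [hK]; push_cast; ring
      rw [e]
      have hKge : 4 ≤ K := by rw [hK]; linarith
      have t1 : sep K (K - 2) (K + 2) := by
        have := hshift 2 0 4 (K - 2) first
        have e1 : (2 : ℤ) + (K - 2) = K := by ring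
        have e2 : (0 : ℤ) + (K - 2) = K - 2 := by ring
        have e3 : (4 : ℤ) + (K - 2) = K + 2 := by ring
        rwa [e1, e2, e3] at this
      have t2 : sep K 2 (K + 2) := by
        have := hshift _ _ _ 2 ih2
        have e1 : K - 2 + 2 = K := by ring
        rwa [e1, zero_add] at this
      have c1 := chain 0 (K - 2) K (K + 2) (by omega) (by omega) (by omega)
        (by omega) (by omega) (by omega) ih2 t1
      have c2 := chain 0 2 K (K + 2) (by omega) (by omega) (by omega)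
        (by omega) (by omega) (by omega) ih1 t2
      refine ⟨c2.1, ?_⟩
      have e1 : K + 2 - 2 = K := by ring
      rw [e1]
      exact c1.2
  obtain ⟨n, hn, hs⟩ := hrec 2
  apply hs
  obtain ⟨m, rfl⟩ := Nat.exists_eq_add_of_le hn
  have := (main m).1
  have e : (2 * ((2 + m : ℕ) : ℤ)) = 2 * ((m : ℤ) + 2) := by push_cast; ring
  rw [e]
  exact this

end AGV
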