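import Pool.Agent.AGV.MajA
import Pool.Agent.AGV.MajC

/-!
# AGV-MajD: some component of the complement has more than half of the measure

Choose `x₀ ∈ S 0` and put `x i = (a ^ i) x₀ ∈ S i` (`i : ℤ`). Apply `between_logic` with `sep i j k := x k ∉ connectedComponentIn (S i)ᶜ (x j)`.
`hsymm`, `htr`: `mem_comp_symm`, `mem_comp_trans`. `hone`, `hex`: `at_least_one`, `at_most_one` (the measure bound for all `S i`: `a` is a homeomorphism that maps the components of `(S i)ᶜ` onto those of `(S (i + 1))ᶜ` and preserves `ν`). `hshift`: by the same remark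
(the component of `(S (i + t))ᶜ` of `(a ^ t) p` is the image of the component of `(S i)ᶜ` of `p`). `hrec`: the component `U` of `(S 2)ᶜ` of `x 0` is open (`comp_open`) and contains `x 0` (as `x 0 ∈ S 0` is not in `S 2`), so it contains a ball of radius `μ` around `x 0`, and by the recurrence there is `n ≥ N₀` with
`x (2 n) = (a ^ (2 n)) (x 0) ∈ U`.
-/

set_option autoImplicit false

namespace AGV

open Pool.Agent.Helper87.AG

private theorem comp_step {X : Type} [TopologicalSpace X] (h : X ≃ₜ X) {S S' : Set X}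
    (hS : ∀ x, h x ∈ S' ↔ x ∈ S) (x y : X) :
    h x ∈ connectedComponentIn S'ᶜ (h y) ↔ x ∈ connectedComponentIn Sᶜ y := by
  have e : h '' Sᶜ = S'ᶜ := by
    ext z
    constructor
    · rintro ⟨w, hw, rfl⟩
      exact fun hz => hw ((hS w).1 hz)
    · intro hz
      refine ⟨h.symm z, fun hw => hz ?_, h.apply_symm_apply z⟩
      have h1 := (hS (h.symm z)).2 hw
      rwa [h.apply_symm_apply] at h1
  by_cases hy : y ∈ Sᶜ
  · have h1 : h '' connectedComponentIn Sᶜ y = connectedComponentIn (h '' Sᶜ) (h y) :=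
      h.image_connectedComponentIn hy
    rw [← e, ← h1]
    exact h.injective.mem_set_image
  · have hy' : h y ∉ S'ᶜ := fun hz => hz ((hS y).2 (by simpa using hy))
    rw [connectedComponentIn_eq_empty hy, connectedComponentIn_eq_empty hy']
    simp

private theorem comp_shift {X : Type} [TopologicalSpace X] (a : Equiv.Perm X) (hac : Continuous a)
    (hasc : Continuous a.symm) (S : ℤ → Set X) (hSa : ∀ i x, a x ∈ S (i + 1) ↔ x ∈ S i) (i : ℤ) (x y : X) :
    a x ∈ connectedComponentIn (S (i + 1))ᶜ (a y) ↔ x ∈ connectedComponentIn (S i)ᶜ y :=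
  comp_step (Homeomorph.mk a hac hasc) (hSa i) x y

theorem no_balanced {X : Type} [MetricSpace X] [ConnectedSpace X] [LocallyConnectedSpace X] [MeasurableSpace X]
    [BorelSpace X] (ν : MeasureTheory.Measure X) [MeasureTheory.IsProbabilityMeasure ν] (a : Equiv.Perm X)
    (ha : ∀ x y, dist (a x) (a y) = dist x y) (hν : ∀ E : Set X, MeasurableSet E → ν (a ⁻¹' E) = ν E)
    (S : ℤ → Set X) (hSc : ∀ i, IsClosed (S i)) (hSp : ∀ i, IsPreconnected (S i)) (hSn : ∀ i, (S i).Nonempty)
    (hSd : ∀ i j, i ≠ j → Disjoint (S i) (S j)) (hSa : ∀ i x, a x ∈ S (i + 1) ↔ x ∈ S i)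
    (hb : ∀ y, ν (connectedComponentIn (S 0)ᶜ y) ≤ 1 / 2)
    (hrec : ∀ μ : ℝ, 0 < μ → ∀ N₀ : ℕ, ∃ n : ℕ, N₀ ≤ n ∧ ∀ x, dist ((a ^ (2 * n) : Equiv.Perm X) x) x < μ) :
    False := by
  have hac : Continuous a := (Isometry.of_dist_eq ha).continuous
  have has : ∀ x y, dist (a.symm x) (a.symm y) = dist x y := by
    intro x y
    rw [← ha, Equiv.apply_symm_apply, Equiv.apply_symm_apply]
  have hasc : Continuous a.symm := (Isometry.of_dist_eq has).continuous
  have hcs := comp_shift a hac hasc S hSa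
  -- the measure bound for all `i`
  have hmeas : ∀ i y, ν (connectedComponentIn (S (i + 1))ᶜ (a y)) = ν (connectedComponentIn (S i)ᶜ y) := by
    intro i y
    rw [← hν _ (comp_open (hSc (i + 1)) (a y)).measurableSet]
    congr 1
    ext x
    exact hcs i x y
  have hball : ∀ i y, ν (connectedComponentIn (S i)ᶜ y) ≤ 1 / 2 := by
    intro i
    induction i using Int.induction_on with
    | zero => exact hb
    | succ i ih =>
      intro y
      obtain ⟨y, rfl⟩ := a.surjective y
      rw [hmeas]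
      exact ih y
    | pred i ih =>
      intro y
      have h1 := hmeas (-(i : ℤ) - 1) y
      rw [sub_add_cancel] at h1
      rw [← h1]
      exact ih (a y)
  obtain ⟨x₀, hx₀⟩ := hSn 0
  have hx : ∀ i : ℤ, (a ^ i : Equiv.Perm X) x₀ ∈ S i := by
    intro i
    induction i using Int.induction_on with
    | zero => simpa using hx₀
    | succ i ih =>
      rw [add_comm, zpow_add, zpow_one, Equiv.Perm.mul_apply, add_comm]
      exact (hSa _ _).2 ih
    | pred i ih =>
      refine (hSa _ _).1 ?_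
      rw [sub_add_cancel, ← Equiv.Perm.mul_apply, ← zpow_one_add, add_sub_cancel]
      exact ih
  -- shifts
  have hshift : ∀ (t i : ℤ) (x y : X), (a ^ t : Equiv.Perm X) x ∈ connectedComponentIn (S (i + t))ᶜ ((a ^ t : Equiv.Perm X) y) ↔
      x ∈ connectedComponentIn (S i)ᶜ y := by
    intro t
    induction t using Int.induction_on with
    | zero => intro i x y; simp
    | succ t ih =>
      intro i x y
      rw [← ih i x y, ← hcs (i + t), ← Equiv.Perm.mul_apply, ← Equiv.Perm.mul_apply, ← zpow_one_add, add_comm 1 (t : ℤ),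
        add_assoc]
    | pred t ih =>
      intro i x y
      have h1 := hcs (i + (-(t : ℤ) - 1)) ((a ^ (-(t : ℤ) - 1) : Equiv.Perm X) x) ((a ^ (-(t : ℤ) - 1) : Equiv.Perm X) y)
      rw [← h1, ← Equiv.Perm.mul_apply, ← Equiv.Perm.mul_apply, ← zpow_one_add, add_sub_cancel, add_assoc, sub_add_cancel]
      exact ih i x y
  refine between_logic
    (fun i j k => (a ^ k : Equiv.Perm X) x₀ ∉ connectedComponentIn (S i)ᶜ ((a ^ j : Equiv.Perm X) x₀)) ?_ ?_ ?_ ?_ ?_ ?_
  · intro i j k h h'
    exact h (mem_comp_symm h')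
  · intro i j k l _ _ _ h1 h2 h3
    rw [not_not] at h1 h2
    exact h3 (mem_comp_trans h1 h2)
  · intro i j k hij hjk hik
    exact at_least_one ν (hSc i) (hSc j) (hSc k) (hSp i) (hSp j) (hSp k) (hSd i j hij) (hSd i k hik) (hSd j k hjk)
      (hx i) (hx j) (hx k) (hball i) (hball j) (hball k)
  · intro i j k hij hjk hik h h'
    exact h' (at_most_one (hSc i) (hSp i) (hSp j) (hSd i j hij) (hx i) (hx j) h)
  · intro i j k t h h'
    refine h ((hshift t i _ _).1 ?_)
    rw [← Equiv.Perm.mul_apply, ← Equiv.Perm.mul_apply, ← zpow_add, ← zpow_add, add_comm t k, add_comm t j]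
    exact h'
  · intro N₀
    have h0 : x₀ ∈ (S 2)ᶜ := fun h2 => Set.disjoint_left.1 (hSd 0 2 (by norm_num)) hx₀ h2
    obtain ⟨μ, hμ, hμb⟩ := Metric.isOpen_iff.1 (comp_open (hSc 2) x₀) x₀ (mem_connectedComponentIn h0)
    obtain ⟨n, hn, hn2⟩ := hrec μ hμ N₀
    refine ⟨n, hn, ?_⟩
    rw [not_not]
    have h1 := hμb (Metric.mem_ball.2 (hn2 x₀))
    have e1 : (a ^ (2 * (n : ℤ)) : Equiv.Perm X) = a ^ (2 * n) := by
      rw [← zpow_natCast]
      norm_num
    rw [e1]
    simpa using h1

end AGV
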