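import Pool.Agent.AGV.Usc

/-!
# AGV-MajE: uniform distance

For every `x` `exhaust` (with `S = fc f x`, closed by `fc_closed`, nonempty by `mem_fc`) gives `U x`, `ε x`; `fc_usc` with `ε x / 2` gives `δ x`: for `dist x' x < δ x` every point `z ∈ fc f x'` is within `ε x / 2` of some point of `fc f x`, so
`dist u z ≥ ε x / 2` for `u ∈ U x`. Cover the compact space `X` by finitely many balls of radius `δ x` and let `ρ` be the minimum of the numbers `ε x / 2` (`1` if `X` is empty).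
`majF`: `O v` is the union of all open preconnected `U` with `1 / 2 < ν U` and `r ≤ dist u w` for all `u ∈ U`, `w ∈ W v`. Two such sets (also for different `v`) meet, as their measures add up to more than `1` (`MeasureTheory.nonempty_inter_of_measure_lt_add` or directly), so
`O v` is preconnected (union of pairwise meeting preconnected sets: for `x, y` in `U`, `U'` use `U ∪ U'`; `isPreconnected_of_forall_pair`) and `O v ∩ O w` is nonempty. Invariance: `U ↦ a '' U` (`a` is a homeomorphism that preserves `ν` and distances) maps the sets for `v` onto the sets for `sh v`.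
-/

set_option autoImplicit false

namespace AGV

open Pool.Agent.Helper87.AG

theorem majE {X Y : Type} [MetricSpace X] [CompactSpace X] [LocallyConnectedSpace X] [MeasurableSpace X]
    [BorelSpace X] [TopologicalSpace Y] [T2Space Y] (ν : MeasureTheory.Measure X) {f : X → Y} (hf : Continuous f)
    (h : ∀ x : X, ∃ y : X, 1 / 2 < ν (connectedComponentIn (fc f x)ᶜ y)) :
    ∃ ρ : ℝ, 0 < ρ ∧ ∀ x : X, ∃ U : Set X, IsOpen U ∧ IsPreconnected U ∧ 1 / 2 < ν U ∧
      ∀ u ∈ U, ∀ z ∈ fc f x, ρ ≤ dist u z := by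
  classical
  have h1 : ∀ x : X, ∃ (U : Set X) (ε : ℝ), 0 < ε ∧ IsOpen U ∧ IsPreconnected U ∧ 1 / 2 < ν U ∧
      ∀ u ∈ U, ∀ z ∈ fc f x, ε ≤ dist u z := by
    intro x
    obtain ⟨y, hy⟩ := h x
    exact exhaust ν (fc_closed hf x) ⟨x, mem_fc f x⟩ y hy
  choose U e he hUo hUp hUν hUd using h1
  have h2 : ∀ x : X, ∃ δ : ℝ, 0 < δ ∧ ∀ x', dist x' x < δ → fc f x' ⊆ Metric.thickening (e x / 2) (fc f x) :=
    fun x => fc_usc hf x (half_pos (he x))
  choose δ hδ hδf using h2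
  obtain ⟨t, ht⟩ := CompactSpace.elim_nhds_subcover (fun x => Metric.ball x (δ x))
    (fun x => Metric.ball_mem_nhds x (hδ x))
  have hρ : ∀ t : Finset X, ∃ ρ : ℝ, 0 < ρ ∧ ∀ x ∈ t, ρ ≤ e x / 2 := by
    intro t
    induction t using Finset.induction_on with
    | empty => exact ⟨1, one_pos, by simp⟩
    | insert x t _ ih =>
      obtain ⟨ρ, h1, h2⟩ := ih
      refine ⟨min ρ (e x / 2), lt_min h1 (half_pos (he x)), ?_⟩
      intro z hz
      rcases Finset.mem_insert.1 hz with rfl | hz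
      · exact min_le_right _ _
      · exact (min_le_left _ _).trans (h2 z hz)
  obtain ⟨ρ, hρ0, hρt⟩ := hρ t
  refine ⟨ρ, hρ0, fun x => ?_⟩
  have hx : x ∈ ⋃ x0 ∈ t, Metric.ball x0 (δ x0) := by rw [ht]; trivial
  obtain ⟨x0, hx0, hxb⟩ := Set.mem_iUnion₂.1 hx
  refine ⟨U x0, hUo x0, hUp x0, hUν x0, ?_⟩
  intro u hu z hz
  obtain ⟨w, hw, hzw⟩ := Metric.mem_thickening_iff.1 (hδf x0 x (Metric.mem_ball.1 hxb) hz)
  have h3 := hUd x0 u hu w hw
  have h4 := dist_triangle u z w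
  have h5 := hρt x0 hx0
  linarith

theorem majF {X : Type} [MetricSpace X] [MeasurableSpace X] [BorelSpace X] (ν : MeasureTheory.Measure X)
    [MeasureTheory.IsProbabilityMeasure ν] (a : Equiv.Perm X) (ha : ∀ x y, dist (a x) (a y) = dist x y)
    (hν : ∀ E : Set X, MeasurableSet E → ν (a ⁻¹' E) = ν E) {M N : ℕ} [NeZero M] (W : Vx M N → Set X)
    (hW : ∀ v x, a x ∈ W (sh v) ↔ x ∈ W v) {r : ℝ}
    (hex : ∀ v, ∃ U : Set X, IsOpen U ∧ IsPreconnected U ∧ 1 / 2 < ν U ∧ ∀ u ∈ U, ∀ w ∈ W v, r ≤ dist u w) :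
    ∃ O : Vx M N → Set X, (∀ v, IsPreconnected (O v)) ∧ (∀ v w, (O v ∩ O w).Nonempty) ∧
      (∀ v x, a x ∈ O (sh v) ↔ x ∈ O v) ∧ ∀ v, ∀ x ∈ O v, ∀ w ∈ W v, r ≤ dist x w := by
  let G : Vx M N → Set (Set X) := fun v =>
    {U | IsOpen U ∧ IsPreconnected U ∧ 1 / 2 < ν U ∧ ∀ u ∈ U, ∀ w ∈ W v, r ≤ dist u w}
  have hmeet : ∀ v w, ∀ U ∈ G v, ∀ U' ∈ G w, (U ∩ U').Nonempty := by
    rintro v w U ⟨_, _, hU, _⟩ U' ⟨hU'o, _, hU', _⟩
    refine MeasureTheory.nonempty_inter_of_measure_lt_add ν hU'o.measurableSet (Set.subset_univ _)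
      (Set.subset_univ _) ?_
    rw [MeasureTheory.measure_univ, ← ENNReal.add_halves 1]
    exact ENNReal.add_lt_add hU hU'
  have hac : Continuous a := (Isometry.of_dist_eq ha).continuous
  have has : ∀ x y, dist (a.symm x) (a.symm y) = dist x y := by
    intro x y
    rw [← ha, Equiv.apply_symm_apply, Equiv.apply_symm_apply]
  have hasc : Continuous a.symm := (Isometry.of_dist_eq has).continuous
  refine ⟨fun v => ⋃₀ G v, ?_, ?_, ?_, ?_⟩
  · intro v
    refine isPreconnected_of_forall_pair ?_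
    rintro x ⟨U, hU, hx⟩ y ⟨U', hU', hy⟩
    exact ⟨U ∪ U', Set.union_subset (Set.subset_sUnion_of_mem hU) (Set.subset_sUnion_of_mem hU'),
      Or.inl hx, Or.inr hy, hU.2.1.union' (hmeet v v U hU U' hU') hU'.2.1⟩
  · intro v w
    obtain ⟨U, hU⟩ := hex v
    obtain ⟨U', hU'⟩ := hex w
    obtain ⟨z, hz, hz'⟩ := hmeet v w U hU U' hU'
    exact ⟨z, ⟨U, hU, hz⟩, ⟨U', hU', hz'⟩⟩
  · intro v x
    constructor
    · rintro ⟨U, ⟨hUo, hUp, hUν, hUd⟩, hx⟩
      refine ⟨a ⁻¹' U, ⟨hUo.preimage hac, ?_, ?_, ?_⟩, hx⟩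
      · have e : a ⁻¹' U = a.symm '' U := (a.image_symm_eq_preimage U).symm
        rw [e]
        exact hUp.image _ hasc.continuousOn
      · rw [hν U hUo.measurableSet]
        exact hUν
      · intro u hu w hw
        rw [← ha]
        exact hUd _ hu _ ((hW v w).2 hw)
    · rintro ⟨U, ⟨hUo, hUp, hUν, hUd⟩, hx⟩
      have e : a '' U = a.symm ⁻¹' U := a.image_eq_preimage_symm U
      have ho : IsOpen (a '' U) := by
        rw [e]
        exact hUo.preimage hasc
      refine ⟨a '' U, ⟨ho, hUp.image _ hac.continuousOn, ?_, ?_⟩, ⟨x, hx, rfl⟩⟩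
      · rw [← hν _ ho.measurableSet, Set.preimage_image_eq _ a.injective]
        exact hUν
      · rintro _ ⟨u, hu, rfl⟩ w hw
        obtain ⟨w, rfl⟩ := a.surjective w
        rw [ha]
        exact hUd u hu w ((hW v w).1 hw)
  · rintro v x ⟨U, hU, hx⟩ w hw
    exact hU.2.2.2 x hx w hw

end AGV
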