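import Pool.Agent.AGV.MgD

/-!
# AGV-MgA: admissible boxes (integer combinatorics only)

Monotonicity of admissible boxes (`AdmB_mono`, `AdmB_fine`) and the operations on lists of points
in a common admissible cell.
-/

set_option autoImplicit false

namespace AGV

variable {ι : Type} [Fintype ι] [DecidableEq ι] {κ j : ℕ}

theorem AdmB_mono {lo hi lo' hi' : ι → ℤ} (h : AdmB κ j lo hi) (hu : ∀ i, hi i ≤ lo i + 1)
    (h1 : ∀ i, lo i ≤ lo' i) (h2 : ∀ i, lo' i ≤ hi' i) (h3 : ∀ i, hi' i ≤ hi i) : AdmB κ j lo' hi' := by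
  induction j generalizing lo hi lo' hi' with
  | zero =>
    intro i
    exact ⟨(h i).1.trans (h1 i), (h3 i).trans (h i).2⟩
  | succ j ih =>
    obtain ⟨ha, hb⟩ := h
    refine ⟨le_trans (Finset.card_le_card ?_) ha, ih hb ?_ ?_ ?_ ?_⟩
    · intro i hi
      rw [Finset.mem_filter] at hi ⊢
      obtain ⟨h0, h4, h5⟩ := hi
      have := hu i
      have := h1 i
      have := h3 i
      refine ⟨h0, ?_, ?_⟩ <;> omega
    · intro i
      have := hu i
      omega
    · intro i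
      have := h1 i
      omega
    · intro i
      have := h2 i
      omega
    · intro i
      have := h3 i
      omega

theorem AdmB_fine {lo hi lo' hi' : ι → ℤ} (h : AdmB κ j lo hi) (hu : ∀ i, hi i ≤ lo i + 1)
    (h1 : ∀ i, 3 * lo i ≤ lo' i) (h2 : ∀ i, lo' i ≤ hi' i) (h3 : ∀ i, hi' i ≤ 3 * hi i) (h4 : ∀ i, hi' i ≤ lo' i + 1)
    (hc : (Finset.univ.filter fun i => lo' i < hi' i).card ≤ κ) : AdmB κ (j + 1) lo' hi' := by
  refine ⟨le_trans (Finset.card_le_card ?_) hc, AdmB_mono h hu ?_ ?_ ?_⟩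
  · intro i hi
    rw [Finset.mem_filter] at hi ⊢
    obtain ⟨h0, h5, h6⟩ := hi
    exact ⟨h0, by omega⟩
  · intro i
    have := h1 i
    omega
  · intro i
    have := h2 i
    omega
  · intro i
    have := h3 i
    omega

theorem RL_mono {l l' : List (ι → ℤ)} (h : RL κ j l) (hl : ∀ p ∈ l', p ∈ l) : RL κ j l' := by
  obtain ⟨lo, hi, h1, h2, h3, h4⟩ := h
  exact ⟨lo, hi, h1, h2, h3, fun p hp => h4 p (hl p hp)⟩

theorem RL_UC {l : List (ι → ℤ)} (h : RL κ j l) : UC κ l := by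
  obtain ⟨lo, hi, h1, h2, -, h4⟩ := h
  refine ⟨lo, Finset.univ.filter fun i => lo i < hi i, h2, fun p hp i => ?_⟩
  obtain ⟨h5, h6⟩ := h4 p hp i
  obtain ⟨h7, h8⟩ := h1 i
  rcases eq_or_lt_of_le h5 with h9 | h9
  · exact Or.inl h9.symm
  · refine Or.inr ⟨?_, by omega⟩
    rw [Finset.mem_filter]
    exact ⟨Finset.mem_univ _, by omega⟩

/-- the smallest box of a nonempty list in a unit cell -/
private theorem exists_box {l : List (ι → ℤ)} (hne : l ≠ []) (h : UC κ l) :
    ∃ lo hi : ι → ℤ, (∀ i, lo i ≤ hi i ∧ hi i ≤ lo i + 1) ∧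
      (Finset.univ.filter fun i => lo i < hi i).card ≤ κ ∧ InB lo hi l ∧
      (∀ i, ∃ q ∈ l, q i = lo i) ∧ (∀ i, ∃ q ∈ l, q i = hi i) := by
  classical
  obtain ⟨b, S, hS, hb⟩ := h
  obtain ⟨q0, hq0⟩ := List.exists_mem_of_ne_nil l hne
  obtain ⟨lo, hlo⟩ : ∃ lo : ι → ℤ, lo = fun i => if ∃ q ∈ l, q i = b i then b i else b i + 1 :=
    ⟨_, rfl⟩
  obtain ⟨hi, hhi⟩ : ∃ hi : ι → ℤ, hi = fun i => if ∃ q ∈ l, q i = b i + 1 then b i + 1 else b i :=
    ⟨_, rfl⟩
  have hloq : ∀ i, ∃ q ∈ l, q i = lo i := by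
    intro i
    by_cases hc : ∃ q ∈ l, q i = b i
    · obtain ⟨q, hq, hqi⟩ := hc
      refine ⟨q, hq, ?_⟩
      rw [hlo]
      dsimp only
      rw [if_pos ⟨q, hq, hqi⟩]
      exact hqi
    · refine ⟨q0, hq0, ?_⟩
      rw [hlo]
      dsimp only
      rw [if_neg hc]
      rcases hb q0 hq0 i with h1 | h1
      · exact absurd ⟨q0, hq0, h1⟩ hc
      · exact h1.2
  have hhiq : ∀ i, ∃ q ∈ l, q i = hi i := by
    intro i
    by_cases hc : ∃ q ∈ l, q i = b i + 1
    · obtain ⟨q, hq, hqi⟩ := hc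
      refine ⟨q, hq, ?_⟩
      rw [hhi]
      dsimp only
      rw [if_pos ⟨q, hq, hqi⟩]
      exact hqi
    · refine ⟨q0, hq0, ?_⟩
      rw [hhi]
      dsimp only
      rw [if_neg hc]
      rcases hb q0 hq0 i with h1 | h1
      · exact h1
      · exact absurd ⟨q0, hq0, h1.2⟩ hc
  have hlob : ∀ i, b i ≤ lo i ∧ lo i ≤ b i + 1 := by
    intro i
    obtain ⟨q, hq, hqi⟩ := hloq i
    rw [← hqi]
    rcases hb q hq i with h1 | h1
    · omega
    · have := h1.2
      omega
  have hInB : InB lo hi l := by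
    intro q hq i
    rcases hb q hq i with h1 | h1
    · constructor
      · rw [hlo]
        dsimp only
        rw [if_pos ⟨q, hq, h1⟩, h1]
      · obtain ⟨q', hq', hqi'⟩ := hhiq i
        rw [← hqi']
        rcases hb q' hq' i with h2 | h2
        · omega
        · have := h2.2
          omega
    · constructor
      · have := (hlob i).2
        have := h1.2
        omega
      · rw [hhi]
        dsimp only
        rw [if_pos ⟨q, hq, h1.2⟩, h1.2]
  refine ⟨lo, hi, fun i => ?_, ?_, hInB, hloq, hhiq⟩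
  · constructor
    · exact (hInB q0 hq0 i).1.trans (hInB q0 hq0 i).2
    · obtain ⟨q', hq', hqi'⟩ := hhiq i
      rw [← hqi']
      have := (hlob i).1
      rcases hb q' hq' i with h2 | h2
      · omega
      · have := h2.2
        omega
  · refine le_trans (Finset.card_le_card ?_) hS
    intro i hi'
    rw [Finset.mem_filter] at hi'
    obtain ⟨q', hq', hqi'⟩ := hhiq i
    have h3 := hi'.2
    rw [← hqi'] at h3
    have := (hlob i).1
    rcases hb q' hq' i with h2 | h2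
    · omega
    · exact h2.1

private theorem RL_fine {lo hi : ι → ℤ} {l' : List (ι → ℤ)} (h : AdmB κ j lo hi)
    (hl : ∀ i, lo i ≤ hi i ∧ hi i ≤ lo i + 1)
    (hq : ∀ q ∈ l', ∀ i, 3 * lo i ≤ q i ∧ q i ≤ 3 * hi i) (h2 : UC κ l') : RL κ (j + 1) l' := by
  by_cases hne : l' = []
  · subst hne
    refine ⟨fun i => 3 * lo i, fun i => 3 * lo i, fun i => ⟨le_rfl, by omega⟩, ?_, ?_, ?_⟩
    · rw [Finset.card_eq_zero.2]
      · exact Nat.zero_le _
      · rw [Finset.filter_eq_empty_iff]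
        intro i _
        exact lt_irrefl _
    · refine AdmB_fine h (fun i => (hl i).2) (fun i => le_rfl) (fun i => le_rfl) (fun i => ?_)
        (fun i => ?_) ?_
      · have := (hl i).1
        omega
      · omega
      · rw [Finset.card_eq_zero.2]
        · exact Nat.zero_le _
        · rw [Finset.filter_eq_empty_iff]
          intro i _
          exact lt_irrefl _
    · intro p hp
      exact absurd hp List.not_mem_nil
  · obtain ⟨lo', hi', h3, h4, h5, h6, h7⟩ := exists_box hne h2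
    refine ⟨lo', hi', h3, h4, ?_, h5⟩
    refine AdmB_fine h (fun i => (hl i).2) (fun i => ?_) (fun i => (h3 i).1) (fun i => ?_)
      (fun i => (h3 i).2) h4
    · obtain ⟨q, hq1, hq2⟩ := h6 i
      rw [← hq2]
      exact (hq q hq1 i).1
    · obtain ⟨q, hq1, hq2⟩ := h7 i
      rw [← hq2]
      exact (hq q hq1 i).2

theorem RL_tr {l l' : List (ι → ℤ)} (h : RL κ j l) (h1 : Hl (l.map tr) l') (h2 : UC κ l') : RL κ (j + 1) l' := by
  obtain ⟨lo, hi, h3, h4, h5, h6⟩ := h
  refine RL_fine h5 h3 (fun q hq i => ⟨?_, ?_⟩) h2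
  · refine (h1 q hq i (3 * lo i)).2 ?_
    intro p hp
    obtain ⟨p0, hp0, rfl⟩ := List.mem_map.1 hp
    have := (h6 p0 hp0 i).1
    show 3 * lo i ≤ 3 * p0 i
    omega
  · refine (h1 q hq i (3 * hi i)).1 ?_
    intro p hp
    obtain ⟨p0, hp0, rfl⟩ := List.mem_map.1 hp
    have := (h6 p0 hp0 i).2
    show 3 * p0 i ≤ 3 * hi i
    omega

theorem RL_CH {l l' : List (ι → ℤ)} (h : RL κ (j + 1) l) (h1 : CH l l') (h2 : UC κ l') : RL κ (j + 1) l' := by
  obtain ⟨lo, hi, h3, h4, h5, h6⟩ := h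
  refine RL_fine h5.2 (fun i => ?_) (fun q hq i => ⟨?_, ?_⟩) h2
  · have := h3 i
    omega
  · refine (h1 q hq i (lo i / 3)).2 ?_
    intro p hp
    have := (h6 p hp i).1
    omega
  · refine (h1 q hq i ((hi i + 2) / 3)).1 ?_
    intro p hp
    have := (h6 p hp i).2
    omega

theorem RL_rho {l : List (ι → ℤ)} (h : RL κ (j + 1) l) : RL κ j (l.map rho) := by
  obtain ⟨lo, hi, h3, h4, h5, h6⟩ := h
  obtain ⟨h7, h8⟩ := h5
  refine ⟨rho lo, rho hi, fun i => ?_, ?_, ?_, ?_⟩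
  · have := h3 i
    show (lo i + 1) / 3 ≤ (hi i + 1) / 3 ∧ (hi i + 1) / 3 ≤ (lo i + 1) / 3 + 1
    omega
  · refine le_trans (Finset.card_le_card ?_) h7
    intro i hi'
    rw [Finset.mem_filter] at hi' ⊢
    have h9 : (lo i + 1) / 3 < (hi i + 1) / 3 := hi'.2
    have := h3 i
    refine ⟨hi'.1, ?_, ?_⟩ <;> omega
  · refine AdmB_mono h8 (fun i => ?_) (fun i => ?_) (fun i => ?_) (fun i => ?_)
    · have := h3 i
      omega
    · show lo i / 3 ≤ (lo i + 1) / 3
      omega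
    · have := h3 i
      show (lo i + 1) / 3 ≤ (hi i + 1) / 3
      omega
    · show (hi i + 1) / 3 ≤ (hi i + 2) / 3
      omega
  · intro p hp i
    obtain ⟨p0, hp0, rfl⟩ := List.mem_map.1 hp
    have := h6 p0 hp0 i
    show (lo i + 1) / 3 ≤ (p0 i + 1) / 3 ∧ (p0 i + 1) / 3 ≤ (hi i + 1) / 3
    omega

/-- level zero: the cells of the unit cube -/
theorem RL_zero {l : List (ι → ℤ)} : RL κ 0 l ↔ InB (fun _ => 0) (fun _ => 1) l ∧ UC κ l := by
  constructor
  · intro h
    refine ⟨?_, RL_UC h⟩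
    obtain ⟨lo, hi, h3, h4, h5, h6⟩ := h
    intro p hp i
    exact ⟨(h5 i).1.trans (h6 p hp i).1, (h6 p hp i).2.trans (h5 i).2⟩
  · rintro ⟨h1, h2⟩
    by_cases hne : l = []
    · subst hne
      refine ⟨fun _ => 0, fun _ => 0, fun i => ⟨le_rfl, by norm_num⟩, ?_, fun i => ⟨le_rfl, by norm_num⟩, ?_⟩
      · rw [Finset.card_eq_zero.2]
        · exact Nat.zero_le _
        · rw [Finset.filter_eq_empty_iff]
          intro i _
          exact lt_irrefl _
      · intro p hp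
        exact absurd hp List.not_mem_nil
    · obtain ⟨lo', hi', h3, h4, h5, h6, h7⟩ := exists_box hne h2
      refine ⟨lo', hi', h3, h4, fun i => ⟨?_, ?_⟩, h5⟩
      · obtain ⟨q, hq1, hq2⟩ := h6 i
        rw [← hq2]
        exact (h1 q hq1 i).1
      · obtain ⟨q, hq1, hq2⟩ := h7 i
        rw [← hq2]
        exact (h1 q hq1 i).2

end AGV
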