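import Pool.Agent.AGV.Defs
import Pool.Agent.Helper87.AG.Defs

/-!
# AGV-MgD: definitions for the lattice approximations of the Menger compacta (no proofs)

A point `p : ι → ℤ` at level `j` stands for the point `p / 3 ^ j` of the cube.
-/

set_option autoImplicit false

namespace AGV

variable {ι : Type} [Fintype ι] [DecidableEq ι]

/-- all points of `l` lie in a common unit cell of dimension at most `k` -/
def UC (k : ℕ) (l : List (ι → ℤ)) : Prop :=
  ∃ (b : ι → ℤ) (S : Finset ι), S.card ≤ k ∧ ∀ p ∈ l, ∀ i, p i = b i ∨ (i ∈ S ∧ p i = b i + 1)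

/-- all points of `l` lie in the box -/
def InB (lo hi : ι → ℤ) (l : List (ι → ℤ)) : Prop := ∀ p ∈ l, ∀ i, lo i ≤ p i ∧ p i ≤ hi i

/-- all points of `l'` lie in the coordinate hull of `l` -/
def Hl (l l' : List (ι → ℤ)) : Prop :=
  ∀ q ∈ l', ∀ i, ∀ c : ℤ, ((∀ p ∈ l, p i ≤ c) → q i ≤ c) ∧ ((∀ p ∈ l, c ≤ p i) → c ≤ q i)

/-- all points of `l'` lie in the coarse coordinate hull of `l` (end points in `3 ℤ`) -/
def CH (l l' : List (ι → ℤ)) : Prop :=
  ∀ q ∈ l', ∀ i, ∀ c : ℤ, ((∀ p ∈ l, p i ≤ 3 * c) → q i ≤ 3 * c) ∧ ((∀ p ∈ l, 3 * c ≤ p i) → 3 * c ≤ q i)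

/-- multiplication by 3 -/
def tr (p : ι → ℤ) : ι → ℤ := fun i => 3 * p i

/-- rounding to the next coarser level -/
def rho (p : ι → ℤ) : ι → ℤ := fun i => (p i + 1) / 3

/-- admissible boxes (cells of the `j`-th stage of the construction) -/
def AdmB (κ : ℕ) : ℕ → (ι → ℤ) → (ι → ℤ) → Prop
  | 0, lo, hi => ∀ i, 0 ≤ lo i ∧ hi i ≤ 1
  | j + 1, lo, hi => (Finset.univ.filter fun i => lo i % 3 = 1 ∧ hi i = lo i + 1).card ≤ κ ∧
      AdmB κ j (fun i => lo i / 3) (fun i => (hi i + 2) / 3)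

/-- all points of `l` lie in a common admissible cell of dimension at most `κ` of level `j` -/
def RL (κ j : ℕ) (l : List (ι → ℤ)) : Prop :=
  ∃ lo hi : ι → ℤ, (∀ i, lo i ≤ hi i ∧ hi i ≤ lo i + 1) ∧ (Finset.univ.filter fun i => lo i < hi i).card ≤ κ ∧
    AdmB κ j lo hi ∧ InB lo hi l

/-- the points `p / 3 ^ j` of `l` have distance at most `r` from `x` -/
def Loc (j : ℕ) (x : ι → ℝ) (r : ℝ) (l : List (ι → ℤ)) : Prop :=
  ∀ p ∈ l, ∀ i, |(p i : ℝ) / 3 ^ j - x i| ≤ r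

/-- rounding at level `j` -/
noncomputable def rd (j : ℕ) (x : ι → ℝ) : ι → ℤ := fun i => round ((3 : ℝ) ^ j * x i)

end AGV
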