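import Pool.Agent.AGV.Lst
import Pool.Agent.AGV.LstS
import Pool.Agent.AGV.MgD

/-!
# AGV-MgC: cycles of `k + 1` points in the `k`-skeleton of a box bound in the `(k + 1)`-skeleton

Induction on `∑ i, (hi i - lo i)`: the prism between the identity and the clamping of one coordinate.
-/

set_option autoImplicit false

namespace AGV

variable {ι : Type} [Fintype ι] [DecidableEq ι]

/-- clamping of the coordinate `i₀` -/
private def clp (i₀ : ι) (m : ℤ) (p : ι → ℤ) : ι → ℤ := Function.update p i₀ (min (p i₀) m)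

omit [Fintype ι] in
private theorem clp_same (i₀ : ι) (m : ℤ) (p : ι → ℤ) : clp i₀ m p i₀ = min (p i₀) m :=
  Function.update_self _ _ _

omit [Fintype ι] in
private theorem clp_ne {i₀ i : ι} (m : ℤ) (p : ι → ℤ) (h : i ≠ i₀) : clp i₀ m p i = p i :=
  Function.update_of_ne h _ _

omit [Fintype ι] in
private theorem clp_inB {lo hi : ι → ℤ} {i₀ : ι} {m : ℤ} (hm : m + 1 = hi i₀) (hlo : lo i₀ ≤ m)
    {p : ι → ℤ} (hp : ∀ i, lo i ≤ p i ∧ p i ≤ hi i) (i : ι) :
    lo i ≤ clp i₀ m p i ∧ clp i₀ m p i ≤ Function.update hi i₀ m i := by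
  by_cases h : i = i₀
  · subst h
    rw [clp_same, Function.update_self]
    exact ⟨le_min (hp i).1 hlo, min_le_right _ _⟩
  · rw [clp_ne m p h, Function.update_of_ne h]
    exact hp i

omit [Fintype ι] in
private theorem clp_UC {k : ℕ} (i₀ : ι) (m : ℤ) {l : List (ι → ℤ)} (h : UC k l) :
    UC k (l.map (clp i₀ m)) := by
  obtain ⟨b, S, hS, hb⟩ := h
  refine ⟨clp i₀ m b, S, hS, fun q hq i => ?_⟩
  obtain ⟨p, hp, rfl⟩ := List.mem_map.1 hq
  by_cases hi : i = i₀
  · subst hi
    rw [clp_same, clp_same]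
    rcases hb p hp i with h1 | ⟨h1, h2⟩
    · left
      rw [h1]
    · rw [h2]
      rcases le_or_gt (b i + 1) m with h3 | h3
      · right
        refine ⟨h1, ?_⟩
        rw [min_eq_left h3, min_eq_left (by omega)]
      · left
        rw [min_eq_right h3.le, min_eq_right (by omega)]
  · rw [clp_ne m p hi, clp_ne m b hi]
    exact hb p hp i

omit [Fintype ι] in
private theorem clp_UC' {k : ℕ} {lo hi : ι → ℤ} {i₀ : ι} {m : ℤ} (hm : m + 1 = hi i₀)
    {l l' : List (ι → ℤ)} (hB : InB lo hi l) (h : UC k l)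
    (hl' : ∀ y ∈ l', ∃ x ∈ l, y = id x ∨ y = clp i₀ m x) : UC (k + 1) l' := by
  obtain ⟨b, S, hS, hb⟩ := h
  rcases le_or_gt (b i₀) m with h1 | h1
  · refine ⟨b, S, by omega, fun y hy i => ?_⟩
    obtain ⟨x, hx, hyx⟩ := hl' y hy
    rcases hyx with hyx | rfl
    · rw [show y = x from hyx]
      exact hb x hx i
    · by_cases hi : i = i₀
      · subst hi
        rw [clp_same]
        rcases hb x hx i with h2 | ⟨h2, h3⟩
        · left
          rw [h2, min_eq_left h1]
        · rcases le_or_gt (b i + 1) m with h4 | h4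
          · right
            exact ⟨h2, by rw [h3, min_eq_left h4]⟩
          · left
            rw [h3, min_eq_right h4.le]
            omega
      · rw [clp_ne m x hi]
        exact hb x hx i
  · refine ⟨Function.update b i₀ m, insert i₀ S, ?_, fun y hy i => ?_⟩
    · have := Finset.card_insert_le i₀ S
      omega
    · obtain ⟨x, hx, hyx⟩ := hl' y hy
      have hx0 : x i₀ = m + 1 := by
        have h2 := (hB x hx i₀).2
        rcases hb x hx i₀ with h3 | ⟨_, h3⟩
        · omega
        · omega
      by_cases hi : i = i₀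
      · subst hi
        rw [Function.update_self]
        rcases hyx with rfl | rfl
        · right
          exact ⟨Finset.mem_insert_self _ _, hx0⟩
        · left
          rw [clp_same, hx0]
          exact min_eq_right (by omega)
      · rw [Function.update_of_ne hi]
        have h2 : x i = b i ∨ (i ∈ insert i₀ S ∧ x i = b i + 1) := by
          rcases hb x hx i with h3 | ⟨h3, h4⟩
          · exact Or.inl h3
          · exact Or.inr ⟨Finset.mem_insert_of_mem h3, h4⟩
        rcases hyx with rfl | rfl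
        · exact h2
        · rw [clp_ne m x hi]
          exact h2

private theorem clampfill_aux (k : ℕ) (lo : ι → ℤ) (n : ℕ) : ∀ (hi : ι → ℤ), (∀ i, lo i ≤ hi i) →
    ∑ i, (hi i - lo i) = n → ∀ z : Ch (ι → ℤ),
    z ∈ SP (fun l => l.length = k + 1 ∧ InB lo hi l ∧ UC k l) → bd z = 0 →
    ∃ w ∈ SP (fun l => l.length = k + 2 ∧ InB lo hi l ∧ UC (k + 1) l), bd w = z := by
  induction n with
  | zero =>
    intro hi h hs z hz hb
    have h1 : ∀ i, hi i = lo i := by
      have h2 := (Finset.sum_eq_zero_iff_of_nonneg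
        (fun i (_ : i ∈ Finset.univ) => sub_nonneg.2 (h i))).1 hs
      intro i
      have := h2 i (Finset.mem_univ i)
      omega
    refine ⟨cone lo z, ?_, ?_⟩
    · refine cone_mem lo (fun l hl => ?_) hz
      obtain ⟨h2, h3, -⟩ := hl
      have h4 : ∀ p ∈ l, ∀ i, p i = lo i := by
        intro p hp i
        have h5 := h3 p hp i
        have h6 := h1 i
        omega
      refine ⟨by rw [List.length_cons, h2], ?_, lo, ∅, by simp, ?_⟩
      · intro p hp i
        rcases List.mem_cons.1 hp with rfl | hp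
        · exact ⟨le_refl _, h i⟩
        · exact h3 p hp i
      · intro p hp i
        left
        rcases List.mem_cons.1 hp with rfl | hp
        · rfl
        · exact h4 p hp i
    · rw [bd_cone, hb, map_zero, sub_zero]
  | succ n ih =>
    intro hi h hs z hz hb
    obtain ⟨i₀, hi₀⟩ : ∃ i₀, lo i₀ < hi i₀ := by
      by_contra hcon
      push Not at hcon
      have h1 : ∑ i, (hi i - lo i) ≤ 0 := Finset.sum_nonpos fun i _ => by
        have := hcon i
        omega
      rw [hs] at h1
      push_cast at h1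
      omega
    obtain ⟨m, hm⟩ : ∃ m : ℤ, m + 1 = hi i₀ := ⟨hi i₀ - 1, by ring⟩
    have hlo : lo i₀ ≤ m := by omega
    have hle : ∀ i, Function.update hi i₀ m i ≤ hi i := by
      intro i
      by_cases h1 : i = i₀
      · subst h1
        rw [Function.update_self]
        omega
      · rw [Function.update_of_ne h1]
    have h' : ∀ i, lo i ≤ Function.update hi i₀ m i := by
      intro i
      by_cases h1 : i = i₀
      · subst h1
        rw [Function.update_self]
        exact hlo
      · rw [Function.update_of_ne h1]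
        exact h i
    have hs' : ∑ i, (Function.update hi i₀ m i - lo i) = n := by
      rw [Finset.sum_sub_distrib] at hs ⊢
      rw [Finset.sum_update_of_mem (Finset.mem_univ i₀)]
      rw [← Finset.add_sum_erase Finset.univ hi (Finset.mem_univ i₀)] at hs
      rw [← Finset.erase_eq]
      push_cast at hs
      omega
    have hz' : mp (clp i₀ m) z ∈ SP (fun l => l.length = k + 1 ∧
        InB lo (Function.update hi i₀ m) l ∧ UC k l) := by
      refine mp_mem (clp i₀ m) (fun l hl => ?_) hz
      obtain ⟨h2, h3, h4⟩ := hl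
      refine ⟨by rw [List.length_map, h2], ?_, clp_UC i₀ m h4⟩
      intro q hq i
      obtain ⟨p, hp, rfl⟩ := List.mem_map.1 hq
      exact clp_inB hm hlo (h3 p hp) i
    obtain ⟨w', hw', hbw'⟩ := ih (Function.update hi i₀ m) h' hs' (mp (clp i₀ m) z) hz'
      (by rw [bd_mp, hb, map_zero])
    refine ⟨w' - pr id (clp i₀ m) z, Submodule.sub_mem _ ?_ ?_, ?_⟩
    · refine SP_mono (fun l hl => ⟨hl.1, fun p hp i => ?_, hl.2.2⟩) hw'
      exact ⟨(hl.2.1 p hp i).1, (hl.2.1 p hp i).2.trans (hle i)⟩
    · refine pr_mem id (clp i₀ m) (fun l hl l' hl1 hl2 => ?_) hz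
      obtain ⟨h2, h3, h4⟩ := hl
      refine ⟨by rw [hl1, h2], ?_, clp_UC' hm h3 h4 hl2⟩
      intro y hy i
      obtain ⟨x, hx, hyx⟩ := hl2 y hy
      rcases hyx with hyx | rfl
      · rw [show y = x from hyx]
        exact h3 x hx i
      · have h5 := clp_inB hm hlo (h3 x hx) i
        exact ⟨h5.1, h5.2.trans (hle i)⟩
    · have h5 := bd_pr (id : (ι → ℤ) → (ι → ℤ)) (clp i₀ m) z
      rw [hb, map_zero, add_zero, mp_id] at h5
      rw [map_sub, hbw', h5]
      abel

theorem clampfill (k : ℕ) (lo hi : ι → ℤ) (h : ∀ i, lo i ≤ hi i) (z : Ch (ι → ℤ))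
    (hz : z ∈ SP (fun l => l.length = k + 1 ∧ InB lo hi l ∧ UC k l)) (hb : bd z = 0) :
    ∃ w ∈ SP (fun l => l.length = k + 2 ∧ InB lo hi l ∧ UC (k + 1) l), bd w = z := by
  have h1 : 0 ≤ ∑ i, (hi i - lo i) := Finset.sum_nonneg fun i _ => sub_nonneg.2 (h i)
  obtain ⟨n, hn⟩ := Int.eq_ofNat_of_zero_le h1
  exact clampfill_aux k lo n hi h hn z hz hb

end AGV
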