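import Pool.Agent.AGV.MgP

/-!
# AGV-MgF: `κ`-skeleta of boxes are acyclic in degrees less than `κ`

Let `P` be as in `exists_P` with `N = k + 1`. Let `D` be the linear map from `fill` (GLL) with `Gl = True`, `N = k`, `N0 = 1`, `D0 = 0`, `σ = -1`, `u = P - id`, `Cr l = SP (fun l' => l'.length = l.length + 1 ∧ Hl l l')`,
`Br l = SP (fun l' => l'.length = l.length ∧ Hl l l')`, `hfill`: `w = cone x y` with `x` the head of `l` (`Hl l [x]`), `bd w = y - cone x 0 = y`; `hcyc`: `bd (P l) = P (bd l)`. So `bd (D z) = P z - z - D (bd z) = P z - z` (linearity,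
`lin_eq`, for chains of lists of length `k`). For `z` as in the statement: the lists in `D z` have `k + 1` points in the hull of a list `l` in the box and in a cell of dimension `≤ κ`, hence are of the same kind (`UC κ l → Hl l l' → UC κ l'`; `Hl l l'`
with `l` in the box gives `l'` in the box; if `l = []` then `l' = []`). `P z` is a cycle (`bd (P z) = P (bd z) = 0`); for `k ≥ 1` its lists are in the box and `UC (k-1)`, so `P z = bd w'` by `clampfill (k-1)`, `UC k → UC κ` as `k ≤ κ`;
`z = bd (w' - D z)`. For `k = 0`: `z = c • single []`, take `w = cone lo z`.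
-/

set_option autoImplicit false

namespace AGV

variable {ι : Type} [Fintype ι] [DecidableEq ι]

omit [Fintype ι] [DecidableEq ι] in
private theorem mgf_hl_left {l l' l'' : List (ι → ℤ)} (h : ∀ p ∈ l', p ∈ l) (h' : Hl l' l'') :
    Hl l l'' := fun q hq i c =>
  ⟨fun hc => (h' q hq i c).1 fun p hp => hc p (h p hp),
    fun hc => (h' q hq i c).2 fun p hp => hc p (h p hp)⟩

omit [Fintype ι] [DecidableEq ι] in
private theorem mgf_hl_self (l : List (ι → ℤ)) : Hl l l := fun q hq _ _ =>
  ⟨fun hc => hc q hq, fun hc => hc q hq⟩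

omit [Fintype ι] [DecidableEq ι] in
private theorem mgf_inb {lo hi : ι → ℤ} {l l' : List (ι → ℤ)} (h : InB lo hi l) (h' : Hl l l') :
    InB lo hi l' := fun q hq i =>
  ⟨(h' q hq i (lo i)).2 fun p hp => (h p hp i).1, (h' q hq i (hi i)).1 fun p hp => (h p hp i).2⟩

omit [Fintype ι] [DecidableEq ι] in
private theorem mgf_uc {κ : ℕ} {l l' : List (ι → ℤ)} (h : UC κ l) (h' : Hl l l') : UC κ l' := by
  obtain ⟨b, S, hS, hl⟩ := h
  refine ⟨b, S, hS, fun q hq i => ?_⟩
  have h1 : b i ≤ q i := (h' q hq i (b i)).2 fun p hp => by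
    rcases hl p hp i with h | h <;> omega
  have h2 : q i ≤ b i + 1 := (h' q hq i (b i + 1)).1 fun p hp => by
    rcases hl p hp i with h | h <;> omega
  by_cases hi : i ∈ S
  · rcases lt_or_ge (b i) (q i) with h3 | h3
    · exact Or.inr ⟨hi, by omega⟩
    · exact Or.inl (by omega)
  · have h3 : q i ≤ b i := (h' q hq i (b i)).1 fun p hp => by
      rcases hl p hp i with h | h
      · omega
      · exact absurd h.1 hi
    exact Or.inl (by omega)

omit [Fintype ι] [DecidableEq ι] in
private theorem mgf_uc_mono {k κ : ℕ} (hk : k ≤ κ) {l : List (ι → ℤ)} (h : UC k l) : UC κ l := by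
  obtain ⟨b, S, hS, hl⟩ := h
  exact ⟨b, S, hS.trans hk, hl⟩

omit [Fintype ι] [DecidableEq ι] in
private theorem mgf_D (k : ℕ) (P : Ch (ι → ℤ) →ₗ[ℤ] Ch (ι → ℤ))
    (hP0 : P (Finsupp.single [] 1) = Finsupp.single [] 1)
    (hP : ∀ l : List (ι → ℤ), l.length ≤ k + 1 →
      P (Finsupp.single l 1) ∈ SP (fun l' => l'.length = l.length ∧ Hl l l' ∧
        UC (l.length - 1) l') ∧
      bd (P (Finsupp.single l 1)) = P (bd (Finsupp.single l 1))) :
    ∃ D : Ch (ι → ℤ) →ₗ[ℤ] Ch (ι → ℤ), ∀ l : List (ι → ℤ), l.length ≤ k →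
      D (Finsupp.single l 1) ∈ SP (fun l' => l'.length = l.length + 1 ∧ Hl l l') ∧
      bd (D (Finsupp.single l 1)) =
        P (Finsupp.single l 1) - Finsupp.single l 1 - D (bd (Finsupp.single l 1)) := by
  obtain ⟨D, -, hD⟩ := fill (X := ι → ℤ) (Z := ι → ℤ) (fun _ => True) (fun _ _ _ _ => trivial)
    k 1 (-1) (P - LinearMap.id) 0
    (fun l => SP (fun l' => l'.length = l.length + 1 ∧ Hl l l'))
    (fun l => SP (fun l' => l'.length = l.length ∧ Hl l l'))
    (by
      intro l _ _ _ l' hs hl' z hz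
      refine SP_mono (fun l'' h => ?_) hz
      exact ⟨by rw [h.1, hl'], mgf_hl_left (fun p hp => hs.subset hp) h.2⟩)
    (by
      intro l _ _ hl
      rw [LinearMap.sub_apply, LinearMap.id_apply]
      refine Submodule.sub_mem _ (SP_mono (fun l' h => ⟨h.1, h.2.1⟩) (hP l (by omega)).1) ?_
      exact single_mem ⟨rfl, mgf_hl_self l⟩ 1)
    (by
      intro l _ _ hl
      rw [LinearMap.sub_apply, LinearMap.sub_apply, LinearMap.id_apply, LinearMap.id_apply,
        map_sub, (hP l (by omega)).2, neg_one_zsmul, add_neg_cancel])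
    (by
      intro l _ hl0 _ y hy hby
      cases l with
      | nil => exact absurd hl0 (by simp)
      | cons x l =>
        refine ⟨cone x y, ?_, ?_⟩
        · refine cone_mem (P := fun l' => l'.length = (x :: l).length ∧ Hl (x :: l) l') x
            (fun l' h => ?_) hy
          refine ⟨by rw [List.length_cons, h.1], fun q hq => ?_⟩
          rcases List.mem_cons.1 hq with rfl | hq
          · exact mgf_hl_self (q :: l) q List.mem_cons_self
          · exact h.2 q hq
        · rw [bd_cone, hby, map_zero, sub_zero])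
    (by
      intro l _ hl0
      have hl : l = [] := List.length_eq_zero_iff.1 (by omega)
      subst hl
      refine ⟨Submodule.zero_mem _, ?_⟩
      rw [LinearMap.sub_apply, LinearMap.id_apply, hP0, sub_self, LinearMap.zero_apply,
        LinearMap.zero_apply, map_zero, smul_zero, add_zero])
  refine ⟨D, fun l hl => ?_⟩
  obtain ⟨h1, h2⟩ := hD l trivial hl
  refine ⟨h1, ?_⟩
  rw [h2, LinearMap.sub_apply, LinearMap.id_apply, neg_one_zsmul, ← sub_eq_add_neg]

theorem boxfill {κ k : ℕ} (hk : k ≤ κ) (lo hi : ι → ℤ) (h : ∀ i, lo i ≤ hi i) (z : Ch (ι → ℤ))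
    (hz : z ∈ SP (fun l => l.length = k ∧ InB lo hi l ∧ UC κ l)) (hb : bd z = 0) :
    ∃ w ∈ SP (fun l => l.length = k + 1 ∧ InB lo hi l ∧ UC κ l), bd w = z := by
  cases k with
  | zero =>
    refine ⟨cone lo z, ?_, ?_⟩
    · refine cone_mem lo (fun l hl => ?_) hz
      have h0 : l = [] := List.length_eq_zero_iff.1 hl.1
      subst h0
      refine ⟨rfl, ?_, lo, ∅, Nat.zero_le _, ?_⟩
      · intro p hp i
        rw [List.mem_singleton] at hp
        subst hp
        exact ⟨le_rfl, h i⟩
      · intro p hp i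
        rw [List.mem_singleton] at hp
        subst hp
        exact Or.inl rfl
    · rw [bd_cone, hb, map_zero, sub_zero]
  | succ m =>
    obtain ⟨P, hP0, hP⟩ := exists_P (ι := ι) (m + 1 + 1)
    obtain ⟨D, hD⟩ := mgf_D (m + 1) P hP0 hP
    have hzl : z ∈ SP (fun l : List (ι → ℤ) => l.length = m + 1) := SP_mono (fun l h => h.1) hz
    have hDz : D z ∈ SP (fun l => l.length = m + 1 + 1 ∧ InB lo hi l ∧ UC κ l) := by
      refine lin_mem D _ (fun l hl => ?_) hz
      refine SP_mono (fun l' h' => ?_) (hD l hl.1.le).1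
      exact ⟨by rw [h'.1, hl.1], mgf_inb hl.2.1 h'.2, mgf_uc hl.2.2 h'.2⟩
    have hPz : P z ∈ SP (fun l => l.length = m + 1 ∧ InB lo hi l ∧ UC m l) := by
      refine lin_mem P _ (fun l hl => ?_) hz
      refine SP_mono (fun l' h' => ?_) (hP l (by omega)).1
      refine ⟨by rw [h'.1, hl.1], mgf_inb hl.2.1 h'.2.1, ?_⟩
      have h1 := h'.2.2
      rw [hl.1, Nat.add_sub_cancel] at h1
      exact h1
    have hPb : bd (P z) = 0 := by
      have h1 := lin_eq (P := fun l : List (ι → ℤ) => l.length = m + 1) (bd ∘ₗ P) (P ∘ₗ bd)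
        (fun l hl => (hP l (by omega)).2) hzl
      rw [LinearMap.comp_apply, LinearMap.comp_apply, hb, map_zero] at h1
      exact h1
    have hDb : bd (D z) = P z - z := by
      have h1 := lin_eq (P := fun l : List (ι → ℤ) => l.length = m + 1) (bd ∘ₗ D)
        (P - LinearMap.id - D ∘ₗ bd) (fun l hl => (hD l hl.le).2) hzl
      rw [LinearMap.comp_apply, LinearMap.sub_apply, LinearMap.sub_apply, LinearMap.comp_apply,
        hb, map_zero, sub_zero, LinearMap.id_apply] at h1
      exact h1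
    obtain ⟨w, hw, hwb⟩ := clampfill m lo hi h (P z) hPz hPb
    refine ⟨w - D z, Submodule.sub_mem _ ?_ hDz, ?_⟩
    · exact SP_mono (fun l h' => ⟨h'.1, h'.2.1, mgf_uc_mono hk h'.2.2⟩) hw
    · rw [map_sub, hwb, hDb, sub_sub_cancel]

end AGV
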