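import Pool.Agent.AGV.MgC
import Pool.Agent.AGV.GLL

/-!
# AGV-MgP: pushing lists of `m` points into cells of dimension less than `m`

`hull_InB`: for `l ≠ []` let `lo i`, `hi i` be the minimum and maximum of the `p i`, `p ∈ l`; then `Hl l l' ↔ InB lo hi l'`.
`exists_P`: apply `fill` (GLL) with `Gl = True`, `N0 = 1`, `σ = 1`, `u = 0`, `D0 = id`, `Cr l = SP (fun l' => l'.length = l.length ∧ Hl l l' ∧ UC (l.length - 1) l')`,
`Br l = SP (fun l' => l'.length + 1 = l.length ∧ Hl l l' ∧ UC (l.length - 2) l')`: `hface`: for a sublist `l'` of `l`: `Hl l' l'' → Hl l l''`. `hfill`: for `l.length = 1`, `l = [x]`: `y = c • single []` and `w = cone x y` works (`Hl [x] [x]`, `UC 0`,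
`bd_cone`); for `l.length = k + 2` use `clampfill k` in the box of `hull_InB`. `hD0`: for `l = []`.
-/

set_option autoImplicit false

namespace AGV

variable {ι : Type} [Fintype ι] [DecidableEq ι]

theorem hull_InB {l : List (ι → ℤ)} (hl : l ≠ []) : ∃ lo hi : ι → ℤ, (∀ i, lo i ≤ hi i) ∧ InB lo hi l ∧
    ∀ l' : List (ι → ℤ), Hl l l' ↔ InB lo hi l' := by
  classical
  obtain ⟨p0, hp0⟩ := List.exists_mem_of_ne_nil l hl
  have hne : ∀ i : ι, (l.toFinset.image fun p => p i).Nonempty := fun i =>
    ⟨p0 i, Finset.mem_image.2 ⟨p0, List.mem_toFinset.2 hp0, rfl⟩⟩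
  have hmem : ∀ (i : ι) (p : ι → ℤ), p ∈ l → p i ∈ l.toFinset.image fun p => p i := fun i p hp =>
    Finset.mem_image.2 ⟨p, List.mem_toFinset.2 hp, rfl⟩
  refine ⟨fun i => (l.toFinset.image fun p => p i).min' (hne i),
    fun i => (l.toFinset.image fun p => p i).max' (hne i), fun i => Finset.min'_le_max' _ (hne i), ?_, ?_⟩
  · intro p hp i
    exact ⟨Finset.min'_le _ _ (hmem i p hp), Finset.le_max' _ _ (hmem i p hp)⟩
  · intro l'
    constructor
    · intro h q hq i
      refine ⟨(h q hq i _).2 fun p hp => Finset.min'_le _ _ (hmem i p hp),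
        (h q hq i _).1 fun p hp => Finset.le_max' _ _ (hmem i p hp)⟩
    · intro h q hq i c
      have h1 := h q hq i
      constructor
      · intro hc
        refine h1.2.trans ?_
        refine Finset.max'_le _ _ _ fun y hy => ?_
        obtain ⟨p, hp, rfl⟩ := Finset.mem_image.1 hy
        exact hc p (List.mem_toFinset.1 hp)
      · intro hc
        refine le_trans ?_ h1.1
        refine Finset.le_min' _ _ _ fun y hy => ?_
        obtain ⟨p, hp, rfl⟩ := Finset.mem_image.1 hy
        exact hc p (List.mem_toFinset.1 hp)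

private theorem mgp_Hl_mono {l l' l'' : List (ι → ℤ)} (h : l'.Sublist l) (h' : Hl l' l'') : Hl l l'' := by
  intro q hq i c
  have h1 := h' q hq i c
  exact ⟨fun hc => h1.1 fun p hp => hc p (h.subset hp), fun hc => h1.2 fun p hp => hc p (h.subset hp)⟩

theorem exists_P (N : ℕ) : ∃ P : Ch (ι → ℤ) →ₗ[ℤ] Ch (ι → ℤ),
    P (Finsupp.single [] 1) = Finsupp.single [] 1 ∧
    ∀ l : List (ι → ℤ), l.length ≤ N →
      P (Finsupp.single l 1) ∈ SP (fun l' => l'.length = l.length ∧ Hl l l' ∧ UC (l.length - 1) l') ∧
      bd (P (Finsupp.single l 1)) = P (bd (Finsupp.single l 1)) := by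
  obtain ⟨D, hD0, hD⟩ := fill (X := ι → ℤ) (Z := ι → ℤ) (fun _ => True) (fun _ _ _ _ => trivial) N 1 1
    0 LinearMap.id
    (fun l => SP (fun l' => l'.length = l.length ∧ Hl l l' ∧ UC (l.length - 1) l'))
    (fun l => SP (fun l' => l'.length + 1 = l.length ∧ Hl l l' ∧ UC (l.length - 2) l'))
    (by
      intro l _ h1 _ l' hsub hlen z hz
      refine SP_mono (fun l'' hl'' => ?_) hz
      obtain ⟨a1, a2, a3⟩ := hl''
      refine ⟨by omega, mgp_Hl_mono hsub a2, ?_⟩
      have e : l.length - 2 = l'.length - 1 := by omega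
      rw [e]
      exact a3)
    (by
      intro l _ _ _
      exact Submodule.zero_mem _)
    (by
      intro l _ _ _
      rw [LinearMap.zero_apply, LinearMap.zero_apply, map_zero, smul_zero, add_zero])
    (by
      intro l _ h1 _ y hy hb
      match l, h1, hy with
      | [x], _, hy =>
        refine ⟨cone x y, ?_, ?_⟩
        · refine cone_mem x (fun l' hl' => ?_) hy
          obtain ⟨a1, _, _⟩ := hl'
          have e : l' = [] := by
            rw [List.length_singleton] at a1
            exact List.length_eq_zero_iff.1 (by omega)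
          subst e
          refine ⟨rfl, ?_, ?_⟩
          · intro q hq i c
            exact ⟨fun h => h q hq, fun h => h q hq⟩
          · refine ⟨x, ∅, by simp, ?_⟩
            intro p hp i
            rw [List.mem_singleton] at hp
            subst hp
            exact Or.inl rfl
        · rw [bd_cone, hb, map_zero, sub_zero]
      | x :: x' :: l, _, hy =>
        obtain ⟨lo, hi, hle, _, hH⟩ := hull_InB (l := x :: x' :: l) (List.cons_ne_nil _ _)
        have hy' : y ∈ SP (fun l' : List (ι → ℤ) => l'.length = l.length + 1 ∧ InB lo hi l' ∧ UC l.length l') := by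
          refine SP_mono (fun l' hl' => ?_) hy
          obtain ⟨a1, a2, a3⟩ := hl'
          rw [List.length_cons, List.length_cons] at a1
          exact ⟨by omega, (hH l').1 a2, a3⟩
        obtain ⟨w, hw, hbw⟩ := clampfill l.length lo hi hle y hy' hb
        refine ⟨w, SP_mono (fun l' hl' => ?_) hw, hbw⟩
        obtain ⟨a1, a2, a3⟩ := hl'
        exact ⟨a1, (hH l').2 a2, a3⟩)
    (by
      intro l _ h1
      have e : l = [] := List.length_eq_zero_iff.1 (by omega)
      subst e
      refine ⟨?_, ?_⟩
      · rw [LinearMap.id_apply]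
        refine single_mem ⟨rfl, ?_, ?_⟩ 1
        · intro q hq
          exact absurd hq List.not_mem_nil
        · exact ⟨0, ∅, by simp, fun p hp => absurd hp List.not_mem_nil⟩
      · rw [LinearMap.id_apply, LinearMap.zero_apply, LinearMap.id_apply, one_smul, zero_add])
  refine ⟨D, ?_, ?_⟩
  · rw [hD0 [] (by simp), LinearMap.id_apply]
  · intro l hl
    obtain ⟨a1, a2⟩ := hD l trivial hl
    refine ⟨a1, ?_⟩
    rw [a2, LinearMap.zero_apply, one_smul, zero_add]

end AGV
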