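import Pool.Agent.AGV.MgS

/-!
# AGV-MgQ: the homotopy between the identity and rounding followed by subdivision

`fill` (GLL) with `Gl = UC κ`, `N = κ`, `N0 = 1`, `σ = -1`, `D0 = 0`, `u = Sd ∘ mp rho - id`, `Cr l = SP (fun l' => l'.length = l.length + 1 ∧ CH l l' ∧ UC κ l')`, `Br l` the same with `l'.length = l.length`. `hu`: `l` itself: `CH l l`; the lists
`l'` of `Sd (l.map rho)`: `Hl ((l.map rho).map tr) l' → CH l l'` (`p i ≤ 3 c → 3 * ((p i + 1) / 3) ≤ 3 c`, `3 c ≤ p i → 3 c ≤ 3 * ((p i + 1) / 3)`, `omega`). `hcyc`: `bd` commutes with `Sd` (on lists of length `≤ κ + 1`) and `mp rho` (`bd_mp`).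
`hfill`: `boxfill` (`k = l.length ≤ κ`) in the box of `CH_InB`. `hface`: `CH` is monotone in the first list. For `l = []` (`N0 = 1`): `D0 = 0` and `Sd [] = []`.
-/

set_option autoImplicit false

namespace AGV

variable {ι : Type} [Fintype ι] [DecidableEq ι]

omit [Fintype ι] [DecidableEq ι] in
private theorem ch_mono {l l' l'' : List (ι → ℤ)} (h : ∀ p ∈ l', p ∈ l) (hc : CH l' l'') :
    CH l l'' := fun q hq i c =>
  ⟨fun h1 => (hc q hq i c).1 fun p hp => h1 p (h p hp),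
    fun h1 => (hc q hq i c).2 fun p hp => h1 p (h p hp)⟩

omit [Fintype ι] [DecidableEq ι] in
private theorem ch_self (l : List (ι → ℤ)) : CH l l := fun q hq _ _ =>
  ⟨fun h1 => h1 q hq, fun h1 => h1 q hq⟩

omit [Fintype ι] [DecidableEq ι] in
private theorem ch_of_hl {l l' : List (ι → ℤ)} (h : Hl ((l.map rho).map tr) l') : CH l l' := by
  intro q hq i c
  have hm : ∀ p' ∈ (l.map rho).map tr, ∃ p ∈ l, p' i = 3 * ((p i + 1) / 3) := by
    intro p' hp'
    obtain ⟨p'', hp'', rfl⟩ := List.mem_map.1 hp'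
    obtain ⟨p, hp, rfl⟩ := List.mem_map.1 hp''
    exact ⟨p, hp, rfl⟩
  refine ⟨fun h1 => (h q hq i (3 * c)).1 fun p' hp' => ?_,
    fun h1 => (h q hq i (3 * c)).2 fun p' hp' => ?_⟩
  · obtain ⟨p, hp, e⟩ := hm p' hp'
    have := h1 p hp
    omega
  · obtain ⟨p, hp, e⟩ := hm p' hp'
    have := h1 p hp
    omega

theorem exists_Q (κ : ℕ) (Sd : Ch (ι → ℤ) →ₗ[ℤ] Ch (ι → ℤ))
    (hSd : ∀ l : List (ι → ℤ), l.length ≤ κ + 1 →
      Sd (Finsupp.single l 1) ∈ SP (fun l' => l'.length = l.length ∧ Hl (l.map tr) l' ∧ UC κ l') ∧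
      bd (Sd (Finsupp.single l 1)) = Sd (bd (Finsupp.single l 1)) ∧
      (l.length ≤ 1 → Sd (Finsupp.single l 1) = Finsupp.single (l.map tr) 1)) :
    ∃ Q : Ch (ι → ℤ) →ₗ[ℤ] Ch (ι → ℤ),
      ∀ l : List (ι → ℤ), UC κ l → l.length ≤ κ →
        Q (Finsupp.single l 1) ∈ SP (fun l' => l'.length = l.length + 1 ∧ CH l l' ∧ UC κ l') ∧
        bd (Q (Finsupp.single l 1)) = Sd (Finsupp.single (l.map rho) 1) - Finsupp.single l 1 - Q (bd (Finsupp.single l 1)) := by
  have hu1 : ∀ z : Ch (ι → ℤ), (Sd ∘ₗ mp rho - LinearMap.id : Ch (ι → ℤ) →ₗ[ℤ] Ch (ι → ℤ)) z =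
      Sd (mp rho z) - z := fun z => rfl
  obtain ⟨Q, -, hQ⟩ := fill (X := ι → ℤ) (Z := ι → ℤ) (UC κ)
    (fun l l' hs hl => by
      obtain ⟨b, S, h1, h2⟩ := hl
      exact ⟨b, S, h1, fun p hp => h2 p (hs.subset hp)⟩) κ 1 (-1)
    (Sd ∘ₗ mp rho - LinearMap.id) 0
    (fun l => SP (fun l' => l'.length = l.length + 1 ∧ CH l l' ∧ UC κ l'))
    (fun l => SP (fun l' => l'.length = l.length ∧ CH l l' ∧ UC κ l'))
    (fun l _ _ _ l' hs hlen z hz => by
      refine SP_mono (fun l'' h => ?_) hz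
      exact ⟨by rw [h.1, hlen], ch_mono (fun p hp => hs.subset hp) h.2.1, h.2.2⟩)
    (fun l hl _ hlN => by
      rw [hu1, mp_single]
      refine Submodule.sub_mem _ ?_ (single_mem ⟨rfl, ch_self l, hl⟩ 1)
      have h := (hSd (l.map rho) (by rw [List.length_map]; omega)).1
      refine SP_mono (fun l' h' => ?_) h
      exact ⟨by rw [h'.1, List.length_map], ch_of_hl h'.2.1, h'.2.2⟩)
    (fun l _ _ hlN => by
      rw [hu1, hu1, mp_single, map_sub, (hSd (l.map rho) (by rw [List.length_map]; omega)).2.1,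
        ← mp_single, bd_mp, neg_smul, one_smul]
      abel)
    (fun l _ hl1 hlN y hy hby => by
      have hne : l ≠ [] := by
        rintro rfl
        simp at hl1
      obtain ⟨lo, hi, h1, _, h3⟩ := CH_InB hne
      have hy' : y ∈ SP (fun l' => l'.length = l.length ∧ InB lo hi l' ∧ UC κ l') :=
        SP_mono (fun l' h => ⟨h.1, (h3 l').1 h.2.1, h.2.2⟩) hy
      obtain ⟨w, hw, hbw⟩ := boxfill hlN lo hi h1 y hy' hby
      exact ⟨w, SP_mono (fun l' h => ⟨h.1, (h3 l').2 h.2.1, h.2.2⟩) hw, hbw⟩)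
    (fun l _ hl => by
      have hnil : l = [] := List.length_eq_zero_iff.1 (by omega)
      subst hnil
      rw [LinearMap.zero_apply, LinearMap.zero_apply, map_zero, smul_zero, add_zero, hu1, mp_single,
        List.map_nil, (hSd [] (by simp)).2.2 (by simp)]
      exact ⟨Submodule.zero_mem _, by simp⟩)
  refine ⟨Q, fun l hl hlN => ?_⟩
  obtain ⟨h1, h2⟩ := hQ l hl hlN
  refine ⟨h1, ?_⟩
  rw [h2, hu1, mp_single, neg_smul, one_smul]
  abel

end AGV
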