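import Pool.Agent.AGV.MgF

/-!
# AGV-MgS: subdivision

`CH_InB`: for `l ≠ []` let `lo i`, `hi i` be the minimum and maximum of the `p i`; the coarse hull is the box `3 * (lo i / 3)`, `3 * ((hi i + 2) / 3)`.
`exists_Sd`: `fill` (GLL) with `Gl = True`, `N = κ + 1`, `N0 = 2`, `σ = 1`, `u = 0`, `D0 = mp tr`, `Cr l = SP (fun l' => l'.length = l.length ∧ Hl (l.map tr) l' ∧ UC κ l')`, `Br l` the same with `l'.length + 1 = l.length`; `hfill` is `boxfill`
(`k = l.length - 1 ≤ κ`) in the box of `hull_InB (l.map tr)`; `hface`: `Hl` is monotone in the first list (for sublists); `hD0` for `l = []` and `l = [p]` (`UC κ [tr p]`, `Hl [tr p] [tr p]`).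
-/

set_option autoImplicit false

namespace AGV

variable {ι : Type} [Fintype ι] [DecidableEq ι]

theorem CH_InB {l : List (ι → ℤ)} (hl : l ≠ []) : ∃ lo hi : ι → ℤ, (∀ i, lo i ≤ hi i) ∧ InB lo hi l ∧
    ∀ l' : List (ι → ℤ), CH l l' ↔ InB lo hi l' := by
  obtain ⟨lo, hi, hle, hin, hH⟩ := hull_InB hl
  have hhi : ∀ (i : ι) (c : ℤ), (∀ p ∈ l, p i ≤ c) → hi i ≤ c := by
    intro i c hc
    have h1 : InB lo hi [hi] := by
      intro p hp j
      rw [List.mem_singleton] at hp
      rw [hp]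
      exact ⟨hle j, le_refl _⟩
    exact (((hH [hi]).2 h1) hi (List.mem_singleton_self hi) i c).1 hc
  have hlo : ∀ (i : ι) (c : ℤ), (∀ p ∈ l, c ≤ p i) → c ≤ lo i := by
    intro i c hc
    have h1 : InB lo hi [lo] := by
      intro p hp j
      rw [List.mem_singleton] at hp
      rw [hp]
      exact ⟨le_refl _, hle j⟩
    exact (((hH [lo]).2 h1) lo (List.mem_singleton_self lo) i c).2 hc
  refine ⟨fun i => 3 * (lo i / 3), fun i => 3 * ((hi i + 2) / 3), fun i => ?_, fun p hp i => ?_,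
    fun l' => ⟨fun h q hq i => ⟨?_, ?_⟩, fun h q hq i c => ⟨fun hc => ?_, fun hc => ?_⟩⟩⟩
  · have := hle i
    show 3 * (lo i / 3) ≤ 3 * ((hi i + 2) / 3)
    omega
  · have := hin p hp i
    constructor
    · show 3 * (lo i / 3) ≤ p i
      omega
    · show p i ≤ 3 * ((hi i + 2) / 3)
      omega
  · refine (h q hq i (lo i / 3)).2 fun p hp => ?_
    have := hin p hp i
    omega
  · refine (h q hq i ((hi i + 2) / 3)).1 fun p hp => ?_
    have := hin p hp i
    omega
  · have h1 := hhi i _ hc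
    have h2 := (h q hq i).2
    have h3 : q i ≤ 3 * ((hi i + 2) / 3) := h2
    omega
  · have h1 := hlo i _ hc
    have h2 := (h q hq i).1
    have h3 : 3 * (lo i / 3) ≤ q i := h2
    omega

omit [Fintype ι] [DecidableEq ι] in
private theorem sd_Hl_self (l : List (ι → ℤ)) : Hl l l :=
  fun q hq _ _ => ⟨fun h => h q hq, fun h => h q hq⟩

omit [Fintype ι] [DecidableEq ι] in
private theorem sd_Hl_mono {l l' l'' : List (ι → ℤ)} (h : ∀ p ∈ l', p ∈ l) (h1 : Hl l' l'') : Hl l l'' :=
  fun q hq i c => ⟨fun hc => (h1 q hq i c).1 fun p hp => hc p (h p hp),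
    fun hc => (h1 q hq i c).2 fun p hp => hc p (h p hp)⟩

omit [Fintype ι] [DecidableEq ι] in
private theorem sd_UC_short (κ : ℕ) {l : List (ι → ℤ)} (h : l.length < 2) : UC κ (l.map tr) := by
  rcases l with _ | ⟨p, l⟩
  · exact ⟨0, ∅, by rw [Finset.card_empty]; exact Nat.zero_le κ,
      fun q hq => absurd hq List.not_mem_nil⟩
  · rcases l with _ | ⟨p', l⟩
    · refine ⟨tr p, ∅, by rw [Finset.card_empty]; exact Nat.zero_le κ, fun q hq i => Or.inl ?_⟩
      rw [List.map_cons, List.map_nil, List.mem_singleton] at hq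
      rw [hq]
    · rw [List.length_cons, List.length_cons] at h
      omega

theorem exists_Sd (κ : ℕ) : ∃ Sd : Ch (ι → ℤ) →ₗ[ℤ] Ch (ι → ℤ),
    ∀ l : List (ι → ℤ), l.length ≤ κ + 1 →
      Sd (Finsupp.single l 1) ∈ SP (fun l' => l'.length = l.length ∧ Hl (l.map tr) l' ∧ UC κ l') ∧
      bd (Sd (Finsupp.single l 1)) = Sd (bd (Finsupp.single l 1)) ∧
      (l.length ≤ 1 → Sd (Finsupp.single l 1) = Finsupp.single (l.map tr) 1) := by
  obtain ⟨D, hD1, hD2⟩ := fill (X := ι → ℤ) (Z := ι → ℤ) (fun _ => True) (fun _ _ _ _ => trivial)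
    (κ + 1) 2 1 0 (mp tr)
    (fun l => SP (fun l' => l'.length = l.length ∧ Hl (l.map tr) l' ∧ UC κ l'))
    (fun l => SP (fun l' => l'.length + 1 = l.length ∧ Hl (l.map tr) l' ∧ UC κ l'))
    (by
      intro l _ _ _ l' hsub hlen z hz
      refine SP_mono (fun l'' h => ?_) hz
      refine ⟨by rw [h.1]; exact hlen, sd_Hl_mono (fun p hp => ?_) h.2.1, h.2.2⟩
      obtain ⟨p', hp', rfl⟩ := List.mem_map.1 hp
      exact List.mem_map_of_mem (hsub.subset hp'))
    (by
      intro l _ _ _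
      rw [LinearMap.zero_apply]
      exact Submodule.zero_mem _)
    (by
      intro l _ _ _
      rw [LinearMap.zero_apply, LinearMap.zero_apply, map_zero, smul_zero, add_zero])
    (by
      intro l _ h2 hκ y hy hb
      have hne : l.map tr ≠ [] := by
        intro h
        have h3 := congrArg List.length h
        rw [List.length_map, List.length_nil] at h3
        omega
      obtain ⟨lo, hi, hle, -, hH⟩ := hull_InB hne
      obtain ⟨w, hw, hbw⟩ := boxfill (κ := κ) (k := l.length - 1) (by omega) lo hi hle y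
        (SP_mono (fun l' h => ⟨by have := h.1; omega, (hH l').1 h.2.1, h.2.2⟩) hy) hb
      refine ⟨w, SP_mono (fun l' h => ⟨?_, (hH l').2 h.2.1, h.2.2⟩) hw, hbw⟩
      have := h.1
      omega)
    (by
      intro l _ h2
      rw [mp_single, LinearMap.zero_apply, zero_add, one_smul, ← mp_single, bd_mp]
      refine ⟨?_, rfl⟩
      rw [mp_single]
      exact single_mem ⟨List.length_map tr, sd_Hl_self _, sd_UC_short κ h2⟩ 1)
  refine ⟨D, fun l hl => ?_⟩
  obtain ⟨h1, h2⟩ := hD2 l trivial hl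
  refine ⟨h1, ?_, fun h3 => ?_⟩
  · rw [h2, LinearMap.zero_apply, zero_add, one_smul]
  · rw [hD1 l (by omega), mp_single]

end AGV
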