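import Pool.Agent.AGV.MgQ
import Pool.Agent.AGV.MgA

/-!
# AGV-MgT: lifting bounding chains from level `j` to level `j + 1`

`W' = Sd W - Q z`, where `Sd` is the subdivision and `Q` the homotopy between the identity and rounding
followed by subdivision.
-/

set_option autoImplicit false

namespace AGV

variable {ι : Type} [Fintype ι] [DecidableEq ι]

omit [Fintype ι] [DecidableEq ι] in
private theorem loc_tr {j : ℕ} {x : ι → ℝ} {r : ℝ} {l l' : List (ι → ℤ)} (h : Loc j x r l)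
    (h1 : Hl (l.map tr) l') : Loc (j + 1) x r l' := by
  intro q hq i
  have h3 : (0 : ℝ) < 3 ^ (j + 1) := by positivity
  have h3' : (0 : ℝ) < 3 ^ j := by positivity
  have hub : q i ≤ ⌊(3 : ℝ) ^ (j + 1) * (x i + r)⌋ := by
    apply (h1 q hq i _).1
    intro p' hp'
    obtain ⟨p, hp, rfl⟩ := List.mem_map.1 hp'
    rw [Int.le_floor]
    have h2 := (abs_le.1 (h p hp i)).2
    have h4 : (p i : ℝ) / 3 ^ j ≤ x i + r := by linarith
    rw [div_le_iff₀ h3'] at h4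
    have h5 : ((tr p i : ℤ) : ℝ) = 3 * (p i : ℝ) := by simp [tr]
    rw [h5, pow_succ]
    nlinarith
  have hlb : ⌈(3 : ℝ) ^ (j + 1) * (x i - r)⌉ ≤ q i := by
    apply (h1 q hq i _).2
    intro p' hp'
    obtain ⟨p, hp, rfl⟩ := List.mem_map.1 hp'
    rw [Int.ceil_le]
    have h2 := (abs_le.1 (h p hp i)).1
    have h4 : x i - r ≤ (p i : ℝ) / 3 ^ j := by linarith
    rw [le_div_iff₀ h3'] at h4
    have h5 : ((tr p i : ℤ) : ℝ) = 3 * (p i : ℝ) := by simp [tr]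
    rw [h5, pow_succ]
    nlinarith
  rw [Int.le_floor] at hub
  rw [Int.ceil_le] at hlb
  rw [abs_le]
  constructor
  · have : x i - r ≤ (q i : ℝ) / 3 ^ (j + 1) := by
      rw [le_div_iff₀ h3]; linarith
    linarith
  · have : (q i : ℝ) / 3 ^ (j + 1) ≤ x i + r := by
      rw [div_le_iff₀ h3]; linarith
    linarith

omit [Fintype ι] [DecidableEq ι] in
private theorem loc_ch {j : ℕ} {x : ι → ℝ} {r : ℝ} {l l' : List (ι → ℤ)} (h : Loc (j + 1) x r l)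
    (h1 : CH l l') : Loc (j + 1) x (r + (1 / 3 : ℝ) ^ j) l' := by
  intro q hq i
  have h3 : (0 : ℝ) < 3 ^ (j + 1) := by positivity
  have h3' : (0 : ℝ) < 3 ^ j := by positivity
  have hub : q i ≤ 3 * ⌈(3 : ℝ) ^ j * (x i + r)⌉ := by
    apply (h1 q hq i _).1
    intro p hp
    have h2 := (abs_le.1 (h p hp i)).2
    have h4 : (p i : ℝ) / 3 ^ (j + 1) ≤ x i + r := by linarith
    rw [div_le_iff₀ h3, pow_succ] at h4
    have h5 := Int.le_ceil ((3 : ℝ) ^ j * (x i + r))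
    have h6 : (p i : ℝ) ≤ ((3 * ⌈(3 : ℝ) ^ j * (x i + r)⌉ : ℤ) : ℝ) := by
      push_cast
      linarith
    exact_mod_cast h6
  have hlb : 3 * ⌊(3 : ℝ) ^ j * (x i - r)⌋ ≤ q i := by
    apply (h1 q hq i _).2
    intro p hp
    have h2 := (abs_le.1 (h p hp i)).1
    have h4 : x i - r ≤ (p i : ℝ) / 3 ^ (j + 1) := by linarith
    rw [le_div_iff₀ h3, pow_succ] at h4
    have h5 := Int.floor_le ((3 : ℝ) ^ j * (x i - r))
    have h6 : ((3 * ⌊(3 : ℝ) ^ j * (x i - r)⌋ : ℤ) : ℝ) ≤ (p i : ℝ) := by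
      push_cast
      linarith
    exact_mod_cast h6
  have hub' : (q i : ℝ) ≤ 3 * (⌈(3 : ℝ) ^ j * (x i + r)⌉ : ℝ) := by exact_mod_cast hub
  have hlb' : 3 * (⌊(3 : ℝ) ^ j * (x i - r)⌋ : ℝ) ≤ (q i : ℝ) := by exact_mod_cast hlb
  have hc := Int.ceil_lt_add_one ((3 : ℝ) ^ j * (x i + r))
  have hf := Int.lt_floor_add_one ((3 : ℝ) ^ j * (x i - r))
  have hpow : (1 / 3 : ℝ) ^ j * 3 ^ j = 1 := by
    rw [← mul_pow]; norm_num
  have hpow' : (1 / 3 : ℝ) ^ j * 3 ^ (j + 1) = 3 := by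
    rw [pow_succ, ← mul_assoc, hpow, one_mul]
  rw [abs_le]
  constructor
  · have : x i - (r + (1 / 3 : ℝ) ^ j) ≤ (q i : ℝ) / 3 ^ (j + 1) := by
      rw [le_div_iff₀ h3]
      have e : (x i - (r + (1 / 3 : ℝ) ^ j)) * 3 ^ (j + 1) =
          3 * (3 ^ j * (x i - r)) - (1 / 3 : ℝ) ^ j * 3 ^ (j + 1) := by ring
      rw [e, hpow']
      linarith
    linarith
  · have : (q i : ℝ) / 3 ^ (j + 1) ≤ x i + (r + (1 / 3 : ℝ) ^ j) := by
      rw [div_le_iff₀ h3]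
      have e : (x i + (r + (1 / 3 : ℝ) ^ j)) * 3 ^ (j + 1) =
          3 * (3 ^ j * (x i + r)) + (1 / 3 : ℝ) ^ j * 3 ^ (j + 1) := by ring
      rw [e, hpow']
      linarith
    linarith

theorem step {κ j k : ℕ} (hk : k ≤ κ) (x : ι → ℝ) (r r' : ℝ) (z W : Ch (ι → ℤ))
    (hz : z ∈ SP (fun l => l.length = k ∧ RL κ (j + 1) l ∧ Loc (j + 1) x r l)) (hb : bd z = 0)
    (hW : W ∈ SP (fun l => l.length = k + 1 ∧ RL κ j l ∧ Loc j x r' l)) (hbW : bd W = mp rho z) :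
    ∃ W' ∈ SP (fun l => l.length = k + 1 ∧ RL κ (j + 1) l ∧ Loc (j + 1) x (max r' (r + (1 / 3 : ℝ) ^ j)) l),
      bd W' = z := by
  obtain ⟨Sd, hSd⟩ := exists_Sd (ι := ι) κ
  obtain ⟨Q, hQ⟩ := exists_Q κ Sd hSd
  have e1 : bd (Sd W) = Sd (bd W) := by
    refine lin_eq (P := fun l => l.length = k + 1 ∧ RL κ j l ∧ Loc j x r' l) (bd ∘ₗ Sd) (Sd ∘ₗ bd)
      (fun l hl => ?_) hW
    exact (hSd l (by omega)).2.1
  have e2 : bd (Q z) = Sd (mp rho z) - z - Q (bd z) := by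
    refine lin_eq (P := fun l => l.length = k ∧ RL κ (j + 1) l ∧ Loc (j + 1) x r l) (bd ∘ₗ Q)
      (Sd ∘ₗ mp rho - LinearMap.id - Q ∘ₗ bd) (fun l hl => ?_) hz
    have h1 := (hQ l (RL_UC hl.2.1) (by omega)).2
    rw [LinearMap.comp_apply, h1, LinearMap.sub_apply, LinearMap.sub_apply, LinearMap.comp_apply,
      LinearMap.comp_apply, LinearMap.id_apply, mp_single]
  refine ⟨Sd W - Q z, Submodule.sub_mem _ ?_ ?_, ?_⟩
  · refine lin_mem (P := fun l => l.length = k + 1 ∧ RL κ j l ∧ Loc j x r' l) Sd _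
      (fun l hl => ?_) hW
    refine SP_mono (fun l' hl' => ⟨?_, RL_tr hl.2.1 hl'.2.1 hl'.2.2, fun q hq i => ?_⟩)
      (hSd l (by omega)).1
    · rw [hl'.1, hl.1]
    · exact (loc_tr hl.2.2 hl'.2.1 q hq i).trans (le_max_left _ _)
  · refine lin_mem (P := fun l => l.length = k ∧ RL κ (j + 1) l ∧ Loc (j + 1) x r l) Q _
      (fun l hl => ?_) hz
    refine SP_mono (fun l' hl' => ⟨?_, RL_CH hl.2.1 hl'.2.1 hl'.2.2, fun q hq i => ?_⟩)
      (hQ l (RL_UC hl.2.1) (by omega)).1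
    · rw [hl'.1, hl.1]
    · exact (loc_ch hl.2.2 hl'.2.1 q hq i).trans (le_max_right _ _)
  · rw [map_sub, e1, e2, hbW, hb, map_zero, sub_zero, sub_sub_cancel]

end AGV
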