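import Pool.Agent.AGV.MgT

/-!
# AGV-MgU: lifting bounding chains from level `i` to level `i + e`

Prove the stronger statement with `c e = (3/2) * (1/3)^i - (1/2) * (1/3)^(i+e)` in place of `2 * (1/3)^i`, by induction on `e`, for all `z`, `r`. `e = 0`: `W' = W`. Step: `z₁ = mp rho z` has lists in `RL κ (i + e)` (`RL_rho`) and
`Loc (i + e) x (r + (1/3)^(i+e+1))` (`|((p + 1) / 3 : ℤ) - p / 3| ≤ 1/3`), `bd z₁ = 0`, `mp (rho^[e]) z₁ = mp (rho^[e+1]) z` (`mp_mp`, `Function.iterate_succ`). The induction hypothesis gives `W₁` at level `i + e` with radius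
`max r' (r + (1/3)^(i+e+1) + c e)`, and `step` gives `W'` with radius `max (max r' (r + (1/3)^(i+e+1) + c e)) (r + (1/3)^(i+e))`; `c e + (1/3)^(i+e+1) = c (e+1)` and `(1/3)^(i+e) ≤ c (e+1)`.
-/

set_option autoImplicit false

namespace AGV

variable {ι : Type} [Fintype ι] [DecidableEq ι]

omit [Fintype ι] [DecidableEq ι] in
private theorem mgu_mono {j : ℕ} {x : ι → ℝ} {r r' : ℝ} {l : List (ι → ℤ)} (h : Loc j x r l) (hr : r ≤ r') :
    Loc j x r' l := fun p hp i => (h p hp i).trans hr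

omit [Fintype ι] [DecidableEq ι] in
private theorem mgu_rho {j : ℕ} {x : ι → ℝ} {r : ℝ} {l : List (ι → ℤ)} (h : Loc (j + 1) x r l) :
    Loc j x (r + (1 / 3 : ℝ) ^ (j + 1)) (l.map rho) := by
  intro q hq i
  rw [List.mem_map] at hq
  obtain ⟨p, hp, rfl⟩ := hq
  have h1 := h p hp i
  have h3 : rho p i * 3 - p i ≤ 1 := by
    unfold rho
    omega
  have h4 : -1 ≤ rho p i * 3 - p i := by
    unfold rho
    omega
  have h2 : |((rho p i : ℤ) : ℝ) * 3 - (p i : ℝ)| ≤ 1 := by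
    rw [abs_le]
    constructor
    · exact_mod_cast h4
    · exact_mod_cast h3
  have h5 : (0 : ℝ) < 3 ^ (j + 1) := by positivity
  have e1 : ((rho p i : ℤ) : ℝ) / 3 ^ j - (p i : ℝ) / 3 ^ (j + 1) =
      (((rho p i : ℤ) : ℝ) * 3 - (p i : ℝ)) / 3 ^ (j + 1) := by
    rw [pow_succ]
    field_simp
  have h6 : |((rho p i : ℤ) : ℝ) / 3 ^ j - (p i : ℝ) / 3 ^ (j + 1)| ≤ (1 / 3 : ℝ) ^ (j + 1) := by
    rw [e1, abs_div, abs_of_pos h5, one_div, inv_pow, div_le_iff₀ h5, inv_mul_cancel₀ h5.ne']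
    exact h2
  have h7 : ((rho p i : ℤ) : ℝ) / 3 ^ j - x i =
      (((rho p i : ℤ) : ℝ) / 3 ^ j - (p i : ℝ) / 3 ^ (j + 1)) + ((p i : ℝ) / 3 ^ (j + 1) - x i) := by ring
  rw [h7]
  refine (abs_add_le _ _).trans ?_
  linarith

private theorem mgu_aux {κ k : ℕ} (hk : k ≤ κ) (i : ℕ) (x : ι → ℝ) (r' : ℝ) (W : Ch (ι → ℤ))
    (hW : W ∈ SP (fun l => l.length = k + 1 ∧ RL κ i l ∧ Loc i x r' l)) (e : ℕ) :
    ∀ (r : ℝ) (z : Ch (ι → ℤ)), z ∈ SP (fun l => l.length = k ∧ RL κ (i + e) l ∧ Loc (i + e) x r l) →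
      bd z = 0 → bd W = mp (rho^[e]) z →
      ∃ W' ∈ SP (fun l => l.length = k + 1 ∧ RL κ (i + e) l ∧
        Loc (i + e) x (max r' (r + ((3 / 2) * (1 / 3 : ℝ) ^ i - (1 / 2) * (1 / 3 : ℝ) ^ (i + e)))) l),
          bd W' = z := by
  induction e with
  | zero =>
    intro r z _ _ hbW
    refine ⟨W, SP_mono (fun l hl => ⟨hl.1, hl.2.1, mgu_mono hl.2.2 (le_max_left _ _)⟩) hW, ?_⟩
    rw [hbW, Function.iterate_zero, mp_id]
  | succ e ih =>
    intro r z hz hb hbW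
    have hz' : z ∈ SP (fun l => l.length = k ∧ RL κ (i + e + 1) l ∧ Loc (i + e + 1) x r l) := hz
    obtain ⟨W1, hW1, hbW1⟩ := ih (r + (1 / 3 : ℝ) ^ (i + e + 1)) (mp rho z)
      (mp_mem rho (fun l hl => ⟨by rw [List.length_map]; exact hl.1, RL_rho hl.2.1, mgu_rho hl.2.2⟩) hz')
      (by rw [bd_mp, hb, map_zero]) (by rw [hbW, mp_mp, Function.iterate_succ])
    obtain ⟨W', hW', hbW'⟩ := step hk x r _ z W1 hz' hb hW1 hbW1
    refine ⟨W', SP_mono (fun l hl => ⟨hl.1, hl.2.1, mgu_mono hl.2.2 ?_⟩) hW', hbW'⟩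
    have ha : (1 / 3 : ℝ) ^ (i + e + 1) = (1 / 3 : ℝ) ^ (i + e) * (1 / 3) := pow_succ _ _
    have ha' : (1 / 3 : ℝ) ^ (i + (e + 1)) = (1 / 3 : ℝ) ^ (i + e) * (1 / 3) := pow_succ _ _
    have hb0 : (1 / 3 : ℝ) ^ (i + e) ≤ (1 / 3 : ℝ) ^ i :=
      pow_le_pow_of_le_one (by norm_num) (by norm_num) (Nat.le_add_right _ _)
    have hb1 : (0 : ℝ) < (1 / 3 : ℝ) ^ (i + e) := by positivity
    rw [ha, ha']
    refine max_le (max_le (le_max_left _ _) ((le_of_eq ?_).trans (le_max_right _ _)))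
      (le_trans ?_ (le_max_right _ _))
    · ring
    · linarith

theorem tower {κ k : ℕ} (hk : k ≤ κ) (i e : ℕ) (x : ι → ℝ) (r r' : ℝ) (z W : Ch (ι → ℤ))
    (hz : z ∈ SP (fun l => l.length = k ∧ RL κ (i + e) l ∧ Loc (i + e) x r l)) (hb : bd z = 0)
    (hW : W ∈ SP (fun l => l.length = k + 1 ∧ RL κ i l ∧ Loc i x r' l)) (hbW : bd W = mp (rho^[e]) z) :
    ∃ W' ∈ SP (fun l => l.length = k + 1 ∧ RL κ (i + e) l ∧
        Loc (i + e) x (max r' (r + 2 * (1 / 3 : ℝ) ^ i)) l), bd W' = z := by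
  obtain ⟨W', hW', hbW'⟩ := mgu_aux hk i x r' W hW e r z hz hb hbW
  refine ⟨W', SP_mono (fun l hl => ⟨hl.1, hl.2.1, mgu_mono hl.2.2 ?_⟩) hW', hbW'⟩
  have hb1 : (0 : ℝ) < (1 / 3 : ℝ) ^ (i + e) := by positivity
  have hb2 : (0 : ℝ) < (1 / 3 : ℝ) ^ i := by positivity
  refine max_le_max le_rfl ?_
  linarith

end AGV
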