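import Pool.Agent.AGV.Ext

/-!
# AGV-P3: orbit dimension 3 from data on vertices and ordered pairs

Apply `ext_core` with `d = 3`. The good simplices with fewer than 3 vertices are `∅`, `{v}`, and `{v, w}` with `v.2 < w.2`. Put `s σ = if σ = ∅ then single [] 1 else if σ.card = 1 then ∑ v ∈ σ, single [x v] 1 else ∑ v ∈ σ, ∑ w ∈ σ, if v.2 < w.2 then S2 v w else 0`, and `H σ`, `E σ` in the same way with `0`, `H1`, `H2` and
`0`, `E1`, `E2`. For `σ = {v, w}`, `v.2 < w.2`: the double sum is the single term `S2 v w`; `fd D {v, w} = D {w} - D {v}` (`sg v σ = 1`, `sg w σ = -1`), `fd D {v} = D ∅`. `bd (s {v}) = single [] 1`. The image of `{v, w}` under `(sh ^ t).symm` is `{(sh ^ t).symm v, (sh ^ t).symm w}`, the second coordinates do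
not change. The `x (sh.symm v)` in `hH1`: `mp a (single [x (sh.symm v)] 1) = single [a (x (sh.symm v))] 1`. The conditions `s_bd` for `∅`: `bd (single [] 1) = 0`. The sum in `E_bd` for `∅`: `H ∅ = 0`, `pr id _ (single [] 1) = 0`.
-/

set_option autoImplicit false

namespace AGV

variable {M N n : ℕ} [NeZero M] {X : Type}

omit [NeZero M] in
private theorem p3_snd (t : ℕ) (v : Vx M N) : ((sh ^ t : Equiv.Perm (Vx M N)) v).2 = v.2 := by
  induction t with
  | zero => rfl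
  | succ t ih =>
    rw [pow_succ', Equiv.Perm.mul_apply]
    exact ih

omit [NeZero M] in
private theorem p3_snd_symm (t : ℕ) (v : Vx M N) : ((sh ^ t : Equiv.Perm (Vx M N)).symm v).2 = v.2 := by
  have h := p3_snd t ((sh ^ t : Equiv.Perm (Vx M N)).symm v)
  rw [Equiv.apply_symm_apply] at h
  exact h.symm

omit [NeZero M] in
private theorem p3_cases {σ : Finset (Vx M N)} (hG : Good σ) (h : σ.card < 3) :
    σ = ∅ ∨ (∃ v, σ = {v}) ∨ ∃ v w : Vx M N, v.2 < w.2 ∧ σ = {v, w} := by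
  rcases Nat.lt_or_ge σ.card 1 with h0 | h0
  · exact Or.inl (Finset.card_eq_zero.1 (by omega))
  · rcases Nat.lt_or_ge σ.card 2 with h1 | h1
    · exact Or.inr (Or.inl (Finset.card_eq_one.1 (by omega)))
    · obtain ⟨v, w, hvw, he⟩ := Finset.card_eq_two.1 (show σ.card = 2 by omega)
      right
      right
      have hne : v.2 ≠ w.2 := by
        intro h2
        refine hvw (hG v ?_ w ?_ h2)
        · rw [he]
          exact Finset.mem_insert_self _ _
        · rw [he]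
          exact Finset.mem_insert_of_mem (Finset.mem_singleton_self _)
      rcases lt_or_gt_of_ne hne with h2 | h2
      · exact ⟨v, w, h2, he⟩
      · exact ⟨w, v, h2, by rw [he, Finset.pair_comm]⟩

omit [NeZero M] in
private theorem p3_fd0 {β : Type} [AddCommGroup β] (D : Finset (Vx M N) → β) : fd D ∅ = 0 := by
  unfold fd
  exact Finset.sum_empty

omit [NeZero M] in
private theorem p3_fd1 {β : Type} [AddCommGroup β] (D : Finset (Vx M N) → β) (v : Vx M N) :
    fd D {v} = D ∅ := by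
  unfold fd
  rw [Finset.sum_singleton, Finset.erase_singleton]
  have h : sg v ({v} : Finset (Vx M N)) = 1 := by
    unfold sg
    rw [Finset.filter_singleton, if_neg (lt_irrefl _), Finset.card_empty, pow_zero]
  rw [h, one_smul]

omit [NeZero M] in
private theorem p3_fd2 {β : Type} [AddCommGroup β] (D : Finset (Vx M N) → β) {v w : Vx M N}
    (h : v.2 < w.2) : fd D {v, w} = D {w} - D {v} := by
  have hne : v ≠ w := by
    rintro rfl
    exact lt_irrefl _ h
  unfold fd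
  rw [Finset.sum_pair hne]
  have h1 : sg v ({v, w} : Finset (Vx M N)) = 1 := by
    unfold sg
    rw [Finset.filter_insert, if_neg (lt_irrefl _), Finset.filter_singleton, if_neg (not_lt.2 h.le),
      Finset.card_empty, pow_zero]
  have h2 : sg w ({v, w} : Finset (Vx M N)) = -1 := by
    unfold sg
    rw [Finset.filter_insert, if_pos h, Finset.filter_singleton, if_neg (lt_irrefl _)]
    rfl
  have h3 : ({v, w} : Finset (Vx M N)).erase v = {w} :=
    Finset.erase_insert (by rw [Finset.mem_singleton]; exact hne)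
  have h4 : ({v, w} : Finset (Vx M N)).erase w = {v} := by
    rw [Finset.pair_comm]
    exact Finset.erase_insert (by rw [Finset.mem_singleton]; exact hne.symm)
  rw [h1, h2, h3, h4, one_smul, neg_one_smul, sub_eq_add_neg]

private noncomputable def p3_D {M N : ℕ} {X : Type} (b0 : Ch X) (f1 : Vx M N → Ch X)
    (f2 : Vx M N → Vx M N → Ch X) (σ : Finset (Vx M N)) : Ch X :=
  if σ = ∅ then b0 else if σ.card = 1 then ∑ v ∈ σ, f1 v else
    ∑ v ∈ σ, ∑ w ∈ σ, if v.2 < w.2 then f2 v w else 0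

omit [NeZero M] in
private theorem p3_D0 (b0 : Ch X) (f1 : Vx M N → Ch X) (f2 : Vx M N → Vx M N → Ch X) :
    p3_D b0 f1 f2 ∅ = b0 := by
  unfold p3_D
  exact if_pos rfl

omit [NeZero M] in
private theorem p3_D1 (b0 : Ch X) (f1 : Vx M N → Ch X) (f2 : Vx M N → Vx M N → Ch X) (v : Vx M N) :
    p3_D b0 f1 f2 {v} = f1 v := by
  unfold p3_D
  rw [if_neg (Finset.singleton_ne_empty v), if_pos (Finset.card_singleton v), Finset.sum_singleton]

omit [NeZero M] in
private theorem p3_D2 (b0 : Ch X) (f1 : Vx M N → Ch X) (f2 : Vx M N → Vx M N → Ch X) {v w : Vx M N}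
    (h : v.2 < w.2) : p3_D b0 f1 f2 {v, w} = f2 v w := by
  have hne : v ≠ w := by
    rintro rfl
    exact lt_irrefl _ h
  unfold p3_D
  rw [if_neg (Finset.insert_ne_empty _ _), if_neg (by rw [Finset.card_pair hne]; norm_num),
    Finset.sum_pair hne, Finset.sum_pair hne, Finset.sum_pair hne, if_neg (lt_irrefl _), if_pos h,
    if_neg (not_lt.2 h.le), if_neg (lt_irrefl _), zero_add, add_zero, add_zero]

omit [NeZero M] in
private theorem p3_card2 {v w : Vx M N} (h : v.2 < w.2) : ({v, w} : Finset (Vx M N)).card = 2 := by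
  refine Finset.card_pair ?_
  rintro rfl
  exact lt_irrefl _ h

private theorem p3_bd0 : bd (Finsupp.single ([] : List X) (1 : ℤ)) = 0 := by
  rw [bd_single, one_smul]
  rfl

private theorem p3_bd1 (x : X) : bd (Finsupp.single [x] (1 : ℤ)) = Finsupp.single [] 1 := by
  rw [bd_single, one_smul]
  show Finsupp.single [] 1 - cone x (0 : Ch X) = _
  rw [map_zero, sub_zero]

private theorem p3_pr0 (c : X → X) : pr id c (Finsupp.single [] (1 : ℤ)) = 0 := by
  rw [pr_single, one_smul]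
  rfl

omit [NeZero M] in
private theorem p3_im1 (e : Equiv.Perm (Vx M N)) (v : Vx M N) :
    ({v} : Finset (Vx M N)).image e = {e v} := Finset.image_singleton _ _

omit [NeZero M] in
private theorem p3_im2 (e : Equiv.Perm (Vx M N)) (v w : Vx M N) :
    ({v, w} : Finset (Vx M N)).image e = {e v, e w} := by
  rw [Finset.image_insert, Finset.image_singleton]

omit [NeZero M] in
private theorem p3_av1 (F : X → Vx M N) (v : Vx M N) {l : List X} (h : ∀ y ∈ l, F y ≠ v) :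
    ¬ ({v} : Finset (Vx M N)) ⊆ (l.map F).toFinset := by
  intro h1
  have h2 := h1 (Finset.mem_singleton_self v)
  rw [List.mem_toFinset, List.mem_map] at h2
  obtain ⟨y, hy, e⟩ := h2
  exact h y hy e

omit [NeZero M] in
private theorem p3_av2 (F : X → Vx M N) (v w : Vx M N) {l : List X}
    (h : (∀ y ∈ l, F y ≠ v) ∨ ∀ y ∈ l, F y ≠ w) :
    ¬ ({v, w} : Finset (Vx M N)) ⊆ (l.map F).toFinset := by
  intro h1
  rcases h with h | h
  · refine p3_av1 F v h (subset_trans ?_ h1)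
    exact Finset.singleton_subset_iff.2 (Finset.mem_insert_self _ _)
  · refine p3_av1 F w h (subset_trans ?_ h1)
    exact Finset.singleton_subset_iff.2 (Finset.mem_insert_of_mem (Finset.mem_singleton_self _))

theorem pairs_core (hM2 : 2 ≤ M) (hn : 0 < n) (hM : M ∣ n)
    (a : Equiv.Perm X) (F : X → Vx M N) (F_a : ∀ x, F (a x) = sh (F x))
    (A : ℕ → Submodule ℤ (Ch X)) (A_len : ∀ k, A k ≤ SP (fun l => l.length = k ∧ OK 3 (l.map F)))
    (A_a : ∀ k z, z ∈ A k → mp a z ∈ A k)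
    (A_pr : ∀ k, k ≤ 3 → ∀ z ∈ A k, pr id (a ^ n : Equiv.Perm X) z ∈ A (k + 1))
    (A_zero : Finsupp.single [] 1 ∈ A 0) (A_one : ∀ x : X, Finsupp.single [x] 1 ∈ A 1)
    (top : ∀ z ∈ A 4, bd z = 0 → om (mp F z) = 0)
    (hfill : ∀ k, k ≤ 3 → ∀ z ∈ A k, bd z = 0 → ∃ w ∈ A (k + 1), bd w = z)
    (x : Vx M N → X) (H1 E1 : Vx M N → Ch X) (S2 H2 E2 : Vx M N → Vx M N → Ch X)
    (hx : ∀ v, F (x v) ≠ v)
    (mH1 : ∀ v, H1 v ∈ A 2) (mE1 : ∀ v, E1 v ∈ A 3)
    (mS2 : ∀ v w, v.2 < w.2 → S2 v w ∈ A 2) (mH2 : ∀ v w, v.2 < w.2 → H2 v w ∈ A 3)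
    (mE2 : ∀ v w, v.2 < w.2 → E2 v w ∈ A 4)
    (bS2 : ∀ v w, v.2 < w.2 → bd (S2 v w) = Finsupp.single [x w] 1 - Finsupp.single [x v] 1)
    (bH1 : ∀ v, bd (H1 v) = Finsupp.single [a (x (sh.symm v))] 1 - Finsupp.single [x v] 1)
    (bH2 : ∀ v w, v.2 < w.2 → bd (H2 v w) + H1 w - H1 v = mp a (S2 (sh.symm v) (sh.symm w)) - S2 v w)
    (bE1 : ∀ v, bd (E1 v) = (∑ t ∈ Finset.range n, mp (a ^ t : Equiv.Perm X)
      (H1 ((sh ^ t : Equiv.Perm (Vx M N)).symm v))) - pr id (a ^ n : Equiv.Perm X) (Finsupp.single [x v] 1))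
    (bE2 : ∀ v w, v.2 < w.2 → bd (E2 v w) = (∑ t ∈ Finset.range n, mp (a ^ t : Equiv.Perm X)
      (H2 ((sh ^ t : Equiv.Perm (Vx M N)).symm v) ((sh ^ t : Equiv.Perm (Vx M N)).symm w)))
        - pr id (a ^ n : Equiv.Perm X) (S2 v w) + E1 w - E1 v)
    (aH1 : ∀ v, H1 v ∈ SP (fun l => ∀ y ∈ l, F y ≠ v)) (aE1 : ∀ v, E1 v ∈ SP (fun l => ∀ y ∈ l, F y ≠ v))
    (aS2 : ∀ v w, v.2 < w.2 → S2 v w ∈ SP (fun l => (∀ y ∈ l, F y ≠ v) ∨ ∀ y ∈ l, F y ≠ w))
    (aH2 : ∀ v w, v.2 < w.2 → H2 v w ∈ SP (fun l => (∀ y ∈ l, F y ≠ v) ∨ ∀ y ∈ l, F y ≠ w))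
    (aE2 : ∀ v w, v.2 < w.2 → E2 v w ∈ SP (fun l => (∀ y ∈ l, F y ≠ v) ∨ ∀ y ∈ l, F y ≠ w)) : False := by
  have h1s : ∀ v w : Vx M N, v.2 < w.2 → (sh.symm v).2 < (sh.symm w).2 := fun v w h => h
  have hts : ∀ (t : ℕ) (v w : Vx M N), v.2 < w.2 →
      ((sh ^ t : Equiv.Perm (Vx M N)).symm v).2 < ((sh ^ t : Equiv.Perm (Vx M N)).symm w).2 := by
    intro t v w h
    rw [p3_snd_symm, p3_snd_symm]
    exact h
  refine ext_core (d := 3) (n := n) hM2 (by norm_num) hn hM a F F_a A A_len A_a A_pr top hfill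
    (p3_D (Finsupp.single [] 1) (fun v => Finsupp.single [x v] 1) S2)
    (p3_D 0 H1 H2) (p3_D 0 E1 E2) ?_ ?_ ?_ ?_ ?_ ?_ ?_ ?_ ?_ ?_ ?_ ?_
  · exact p3_D0 _ _ _
  · exact p3_D0 _ _ _
  · exact p3_D0 _ _ _
  · -- s_mem
    intro σ hG hσ
    rcases p3_cases hG hσ with rfl | ⟨v, rfl⟩ | ⟨v, w, h, rfl⟩
    · rw [p3_D0]
      exact A_zero
    · rw [p3_D1, Finset.card_singleton]
      exact A_one _
    · rw [p3_D2 _ _ _ h, p3_card2 h]
      exact mS2 v w h
  · -- s_bd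
    intro σ hG hσ
    rcases p3_cases hG hσ with rfl | ⟨v, rfl⟩ | ⟨v, w, h, rfl⟩
    · rw [p3_D0, p3_fd0, p3_bd0]
    · rw [p3_D1, p3_fd1, p3_D0, p3_bd1]
    · rw [p3_D2 _ _ _ h, p3_fd2 _ h, p3_D1, p3_D1, bS2 v w h]
  · -- H_mem
    intro σ hG hσ
    rcases p3_cases hG hσ with rfl | ⟨v, rfl⟩ | ⟨v, w, h, rfl⟩
    · rw [p3_D0]
      exact Submodule.zero_mem _
    · rw [p3_D1, Finset.card_singleton]
      exact mH1 v
    · rw [p3_D2 _ _ _ h, p3_card2 h]
      exact mH2 v w h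
  · -- H_bd
    intro σ hG hσ
    rcases p3_cases hG hσ with rfl | ⟨v, rfl⟩ | ⟨v, w, h, rfl⟩
    · rw [p3_D0, p3_fd0, Finset.image_empty, p3_D0, mp_single, List.map_nil, sub_self, map_zero,
        add_zero]
    · rw [p3_D1, p3_fd1, p3_D0, p3_im1, p3_D1, p3_D1, mp_single, List.map_singleton, add_zero, bH1]
    · rw [p3_D2 _ _ _ h, p3_fd2 _ h, p3_D1, p3_D1, p3_im2, p3_D2 _ _ _ (h1s v w h), p3_D2 _ _ _ h,
        ← bH2 v w h]
      abel
  · -- E_mem
    intro σ hG hσ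
    rcases p3_cases hG hσ with rfl | ⟨v, rfl⟩ | ⟨v, w, h, rfl⟩
    · rw [p3_D0]
      exact Submodule.zero_mem _
    · rw [p3_D1, Finset.card_singleton]
      exact mE1 v
    · rw [p3_D2 _ _ _ h, p3_card2 h]
      exact mE2 v w h
  · -- E_bd
    intro σ hG hσ
    rcases p3_cases hG hσ with rfl | ⟨v, rfl⟩ | ⟨v, w, h, rfl⟩
    · rw [p3_D0, p3_D0, p3_fd0, map_zero, p3_pr0, add_zero, sub_zero]
      symm
      refine Finset.sum_eq_zero fun t _ => ?_
      rw [Finset.image_empty, p3_D0, map_zero]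
    · rw [p3_D1, p3_D1, p3_fd1, p3_D0, add_zero, bE1]
      congr 1
      refine Finset.sum_congr rfl fun t _ => ?_
      rw [p3_im1, p3_D1]
    · rw [p3_D2 _ _ _ h, p3_D2 _ _ _ h, p3_fd2 _ h, p3_D1, p3_D1, bE2 v w h, add_sub_assoc]
      congr 2
      refine Finset.sum_congr rfl fun t _ => ?_
      rw [p3_im2, p3_D2 _ _ _ (hts t v w h)]
  · -- av_s
    intro σ hG h0 hσ
    rcases p3_cases hG hσ with rfl | ⟨v, rfl⟩ | ⟨v, w, h, rfl⟩
    · rw [Finset.card_empty] at h0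
      exact absurd h0 (lt_irrefl _)
    · rw [p3_D1]
      refine single_mem (p3_av1 F v ?_) 1
      intro y hy
      rw [List.mem_singleton] at hy
      rw [hy]
      exact hx v
    · rw [p3_D2 _ _ _ h]
      exact SP_mono (fun l hl => p3_av2 F v w hl) (aS2 v w h)
  · -- av_H
    intro σ hG h0 hσ
    rcases p3_cases hG hσ with rfl | ⟨v, rfl⟩ | ⟨v, w, h, rfl⟩
    · rw [Finset.card_empty] at h0
      exact absurd h0 (lt_irrefl _)
    · rw [p3_D1]
      exact SP_mono (fun l hl => p3_av1 F v hl) (aH1 v)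
    · rw [p3_D2 _ _ _ h]
      exact SP_mono (fun l hl => p3_av2 F v w hl) (aH2 v w h)
  · -- av_E
    intro σ hG h0 hσ
    rcases p3_cases hG hσ with rfl | ⟨v, rfl⟩ | ⟨v, w, h, rfl⟩
    · rw [Finset.card_empty] at h0
      exact absurd h0 (lt_irrefl _)
    · rw [p3_D1]
      exact SP_mono (fun l hl => p3_av1 F v hl) (aE1 v)
    · rw [p3_D2 _ _ _ h]
      exact SP_mono (fun l hl => p3_av2 F v w hl) (aE2 v w h)

end AGV
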