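import Pool.Agent.AGV.MDefs
import Pool.Agent.AGV.Fd

/-!
# AGV-Pairs: reindexing pairs (simplex, vertex)

The map `(σ, v) ↦ (σ.erase v, v)` is a bijection from the pairs (`σ` good with `k + 1` elements, `v ∈ σ`) to the pairs (`τ` good with `k` elements, `u ∉ τ`, `insert u τ` good); the other
pairs (`insert u τ` not good) contribute zero. (`Finset.sum_sigma'`, `Finset.sum_bij'` or `Finset.sum_nbij'` after restricting to nonzero terms by `Finset.sum_filter`.)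
-/

set_option autoImplicit false

namespace AGV

variable {M N : ℕ} [NeZero M] {R : Type} [AddCommMonoid R]

theorem pairs (k : ℕ) (G : Finset (Vx M N) → Finset (Vx M N) → Vx M N → R)
    (hG : ∀ τ ∈ Gd M N k, ∀ u, u ∉ τ → ¬ Good (insert u τ) → G τ (insert u τ) u = 0) :
    ∑ σ ∈ Gd M N (k + 1), ∑ v ∈ σ, G (σ.erase v) σ v =
      ∑ τ ∈ Gd M N k, ∑ u : Vx M N, if u ∈ τ then 0 else G τ (insert u τ) u := by
  classical
  have h1 : ∀ τ ∈ Gd M N k, (∑ u : Vx M N, if u ∈ τ then 0 else G τ (insert u τ) u) =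
      ∑ u ∈ Finset.univ.filter (fun u : Vx M N => u ∉ τ ∧ Good (insert u τ)),
        G τ (insert u τ) u := by
    intro τ hτ
    rw [Finset.sum_filter]
    refine Finset.sum_congr rfl fun u _ => ?_
    by_cases hu : u ∈ τ
    · rw [if_pos hu, if_neg (fun h => h.1 hu)]
    · rw [if_neg hu]
      by_cases hg : Good (insert u τ)
      · rw [if_pos ⟨hu, hg⟩]
      · rw [if_neg (fun h => hg h.2), hG τ hτ u hu hg]
  rw [Finset.sum_congr rfl h1, Finset.sum_sigma', Finset.sum_sigma']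
  refine Finset.sum_nbij' (fun x => ⟨x.1.erase x.2, x.2⟩) (fun x => ⟨insert x.2 x.1, x.2⟩)
    ?_ ?_ ?_ ?_ ?_
  · rintro ⟨σ, v⟩ hx
    rw [Finset.mem_sigma] at hx ⊢
    obtain ⟨hσ, hv⟩ := hx
    dsimp only at hσ hv ⊢
    rw [mem_Gd] at hσ ⊢
    refine ⟨⟨?_, ?_⟩, ?_⟩
    · intro a ha b hb hab
      exact hσ.1 a (Finset.mem_of_mem_erase ha) b (Finset.mem_of_mem_erase hb) hab
    · rw [Finset.card_erase_of_mem hv, hσ.2]
      rfl
    · rw [Finset.mem_filter]
      refine ⟨Finset.mem_univ _, Finset.notMem_erase _ _, ?_⟩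
      rw [Finset.insert_erase hv]
      exact hσ.1
  · rintro ⟨τ, u⟩ hx
    rw [Finset.mem_sigma] at hx ⊢
    obtain ⟨hτ, hu⟩ := hx
    dsimp only at hτ hu ⊢
    rw [mem_Gd] at hτ ⊢
    rw [Finset.mem_filter] at hu
    refine ⟨⟨hu.2.2, ?_⟩, Finset.mem_insert_self _ _⟩
    rw [Finset.card_insert_of_notMem hu.2.1, hτ.2]
  · rintro ⟨σ, v⟩ hx
    rw [Finset.mem_sigma] at hx
    obtain ⟨hσ, hv⟩ := hx
    dsimp only at hσ hv ⊢
    rw [Finset.insert_erase hv]
  · rintro ⟨τ, u⟩ hx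
    rw [Finset.mem_sigma] at hx
    obtain ⟨hτ, hu⟩ := hx
    dsimp only at hτ hu ⊢
    rw [Finset.mem_filter] at hu
    rw [Finset.erase_insert hu.2.1]
  · rintro ⟨σ, v⟩ hx
    rw [Finset.mem_sigma] at hx
    obtain ⟨hσ, hv⟩ := hx
    dsimp only at hσ hv ⊢
    rw [Finset.insert_erase hv]

end AGV
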