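import Pool.Agent.AGV.T2i
import Pool.Agent.AGV.InvM
import Pool.Agent.AGV.Trf

/-!
# AGV-T2: orbit dimension 2
-/

set_option autoImplicit false

namespace AGV

theorem t2_main {G X Y : Type} [Group G] [TopologicalSpace G] [IsTopologicalGroup G] [CompactSpace G]
    [TotallyDisconnectedSpace G] [Nontrivial G] [MetricSpace X] [CompactSpace X] [Nonempty X] [MetricSpace Y]
    [CompactSpace Y] [MulAction G X] [ContinuousSMul G X] [MulAction G Y] [ContinuousSMul G Y]
    (h1 : VC X 1) (h2 : VC X 2) (h3 : VC X 3) (l1 : VLC X 1) (l2 : VLC X 2)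
    (hfree : ∀ (g : G) (y : Y), g • y = y → g = 1)
    (hd : CovDimLE (MulAction.orbitRel.Quotient G Y) 2) :
    ¬ ∃ f : X → Y, Continuous f ∧ ∀ (g : G) (x : X), f (g • x) = g • f x := by
  rintro ⟨f, hf, hfe⟩
  obtain ⟨X', _, _, _, _, e, he, hiso⟩ := inv_metric G X
  have u1 : UniformContinuous e.toEquiv := CompactSpace.uniformContinuous_of_continuous e.continuous
  have u2 : UniformContinuous e.toEquiv.symm := CompactSpace.uniformContinuous_of_continuous e.symm.continuous
  have : Nonempty X' := ⟨e (Classical.arbitrary X)⟩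
  refine t2_iso (G := G) (X := X') (Y := Y) hiso (VC_transfer e.toEquiv u1 u2 h1) (VC_transfer e.toEquiv u1 u2 h2)
    (VC_transfer e.toEquiv u1 u2 h3) (VLC_transfer e.toEquiv u1 u2 l1) (VLC_transfer e.toEquiv u1 u2 l2) hfree hd
    (f := f ∘ e.symm) (hf.comp e.symm.continuous) ?_
  intro g x
  have h : e.symm (g • x) = g • e.symm x := by
    apply e.injective
    rw [he, e.apply_symm_apply, e.apply_symm_apply]
  show f (e.symm (g • x)) = g • f (e.symm x)
  rw [h, hfe]

end AGV
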