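import Pool.Agent.AGV.C2
import Pool.Agent.AGV.CvC
import Pool.Agent.AGV.CvD
import Pool.Agent.AGV.CvE
import Pool.Agent.AGV.GrA

/-!
# AGV-T2i: orbit dimension 2, isometric action
-/

set_option autoImplicit false

namespace AGV

open Pool.Agent.Helper87.AG

/-- passage from the index set `(G ⧸ K) × I` to `Vx M N` -/
theorem cover_index {G X Y : Type} [Group G] [TopologicalSpace G] [IsTopologicalGroup G] [CompactSpace G]
    [MetricSpace X] [CompactSpace X] [TopologicalSpace Y] [CompactSpace Y] [T2Space Y]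
    [MulAction G X] [ContinuousSMul G X] [MulAction G Y] [ContinuousSMul G Y]
    (hiso : ∀ (g : G) (x y : X), dist (g • x) (g • y) = dist x y)
    (hfree : ∀ (g : G) (y : Y), g • y = y → g = 1) {f : X → Y} (hf : Continuous f)
    (hfe : ∀ (g : G) (x : X), f (g • x) = g • f x) {d : ℕ}
    (hd : CovDimLE (MulAction.orbitRel.Quotient G Y) d) (K : Subgroup G) [K.Normal] (hK : IsOpen (K : Set G))
    {ρ : ℝ} (hρ : 0 < ρ) (g : G) :
    ∃ (M N : ℕ) (_ : NeZero M) (W : Vx M N → Set X), (∀ t : ℤ, (M : ℤ) ∣ t ↔ g ^ t ∈ K) ∧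
      (∀ v, IsOpen (W v)) ∧ (⋃ v, W v) = Set.univ ∧
      (∀ v x, g • x ∈ W (sh v) ↔ x ∈ W v) ∧
      (∀ i i' : ZMod M, ∀ j : Fin N, i ≠ i' → Disjoint (W (i, j)) (W (i', j))) ∧
      (∀ x, {v | x ∈ W v}.ncard ≤ d + 1) ∧ (∀ v, ∀ x ∈ W v, fc f x ⊆ W v) ∧
      (∀ v, ∃ p : X, ∀ x ∈ W v, ∃ k ∈ K, k • x ∈ Metric.thickening ρ (fc f p)) := by
  obtain ⟨I, hI, W, hWo, hWc, hWe, hWd, hWn, hWs, hWp⟩ := covx hiso hfree hf hfe hd K hK hρ
  have : Finite (G ⧸ K) := K.quotient_finite_of_isOpen hK
  set M : ℕ := orderOf (g : G ⧸ K) with hMdef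
  have hM0 : M ≠ 0 := (orderOf_pos (g : G ⧸ K)).ne'
  have hNe : NeZero M := ⟨hM0⟩
  have hMt : ∀ t : ℤ, (M : ℤ) ∣ t ↔ g ^ t ∈ K := by
    intro t
    rw [hMdef, orderOf_dvd_iff_zpow_eq_one, ← QuotientGroup.mk_zpow, QuotientGroup.eq_one_iff]
  let τ : Equiv.Perm ((G ⧸ K) × I) := Equiv.prodCongr (MulAction.toPerm g) (Equiv.refl I)
  have hτ : ∀ s, τ s = (g • s.1, s.2) := fun s => rfl
  have hτt : ∀ (t : ℕ) (s : (G ⧸ K) × I), (τ ^ t : Equiv.Perm _) s = (g ^ t • s.1, s.2) := by
    intro t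
    induction t with
    | zero => intro s; simp
    | succ t ih =>
      intro s
      rw [pow_succ', Equiv.Perm.mul_apply, ih, hτ, pow_succ', mul_smul]
  have hcyc : ∀ (t : ℕ) (s : (G ⧸ K) × I), (τ ^ t : Equiv.Perm _) s = s ↔ M ∣ t := by
    intro t s
    rw [hτt]
    obtain ⟨c, i⟩ := s
    have e1 : (g ^ t • c : G ⧸ K) = ((g : G ⧸ K) ^ t) * c := by
      obtain ⟨h, rfl⟩ := QuotientGroup.mk_surjective c
      rfl
    constructor
    · intro h
      have h1 := congrArg Prod.fst h
      simp only at h1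
      rw [e1] at h1
      have h2 : (g : G ⧸ K) ^ t = 1 := by
        have := mul_right_cancel (b := c) (h1.trans (one_mul c).symm)
        exact this
      rw [hMdef]
      exact orderOf_dvd_of_pow_eq_one h2
    · intro h
      have h2 : (g : G ⧸ K) ^ t = 1 := by
        rw [hMdef] at h
        exact orderOf_dvd_iff_pow_eq_one.1 h
      ext1
      · show (g ^ t • c : G ⧸ K) = c
        rw [e1, h2, one_mul]
      · rfl
  obtain ⟨N, e, he⟩ := cycles M τ hcyc
  have he2 : ∀ (t : ℕ) v, (e ((sh ^ t : Equiv.Perm (Vx M N)) v)).2 = (e v).2 := by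
    intro t
    induction t with
    | zero => intro v; rfl
    | succ t ih =>
      intro v
      rw [pow_succ', Equiv.Perm.mul_apply, he]
      exact ih v
  have hsht : ∀ (t : ℕ) (v : Vx M N), (sh ^ t : Equiv.Perm (Vx M N)) v = (v.1 + t, v.2) := by
    intro t
    induction t with
    | zero => intro v; simp
    | succ t ih =>
      intro v
      rw [pow_succ', Equiv.Perm.mul_apply, ih]
      simp [sh, add_assoc]
  refine ⟨M, N, hNe, fun v => W (e v), hMt, fun v => hWo _, ?_, ?_, ?_, ?_, fun v => hWs _, fun v => hWp _⟩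
  · rw [← hWc]
    exact e.surjective.iUnion_comp W
  · intro v x
    show g • x ∈ W (e (sh v)) ↔ x ∈ W (e v)
    rw [he, hτ]
    exact hWe g (e v).1 (e v).2 x
  · intro i i' j hij
    have h2 : (e (i, j)).2 = (e (i', j)).2 := by
      have h3 : (sh ^ (i' - i).val : Equiv.Perm (Vx M N)) (i, j) = (i', j) := by
        rw [hsht]
        simp
      rw [← h3]
      exact (he2 _ _).symm
    have h1 : (e (i, j)).1 ≠ (e (i', j)).1 := by
      intro h
      have : e (i, j) = e (i', j) := Prod.ext h h2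
      have := e.injective this
      exact hij (congrArg Prod.fst this)
    have := hWd (e (i, j)).1 (e (i', j)).1 (e (i, j)).2 h1
    have e3 : e (i', j) = ((e (i', j)).1, (e (i, j)).2) := Prod.ext rfl h2.symm
    show Disjoint (W (e (i, j))) (W (e (i', j)))
    rw [e3]
    exact this
  · intro x
    have : {v | x ∈ W (e v)} = e ⁻¹' {s | x ∈ W s} := rfl
    rw [this, Set.ncard_preimage_of_injective_subset_range e.injective (by simp)]
    exact hWn x

theorem t2_iso {G X Y : Type} [Group G] [TopologicalSpace G] [IsTopologicalGroup G] [CompactSpace G]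
    [TotallyDisconnectedSpace G] [Nontrivial G] [MetricSpace X] [CompactSpace X] [Nonempty X] [MetricSpace Y]
    [CompactSpace Y] [MulAction G X] [ContinuousSMul G X] [MulAction G Y] [ContinuousSMul G Y]
    (hiso : ∀ (g : G) (x y : X), dist (g • x) (g • y) = dist x y)
    (h1 : VC X 1) (h2 : VC X 2) (h3 : VC X 3) (l1 : VLC X 1) (l2 : VLC X 2)
    (hfree : ∀ (g : G) (y : Y), g • y = y → g = 1)
    (hd : CovDimLE (MulAction.orbitRel.Quotient G Y) 2) {f : X → Y} (hf : Continuous f)
    (hfe : ∀ (g : G) (x : X), f (g • x) = g • f x) : False := by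
  classical
  obtain ⟨g, hg⟩ := exists_ne (1 : G)
  obtain ⟨x₀⟩ := ‹Nonempty X›
  set a : Equiv.Perm X := MulAction.toPerm g with ha
  have hat : ∀ (t : ℕ) (x : X), (a ^ t : Equiv.Perm X) x = g ^ t • x := by
    intro t
    induction t with
    | zero => intro x; simp
    | succ t ih =>
      intro x
      rw [pow_succ', Equiv.Perm.mul_apply, ih, pow_succ', mul_smul]
      rfl
  have haz : ∀ (t : ℤ) (x : X), (a ^ t : Equiv.Perm X) x = g ^ t • x := by
    intro t x
    have := congrArg (fun p : Equiv.Perm X => p x) (map_zpow (MulAction.toPermHom G X) g t)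
    exact this.symm
  set η : ℝ := dist (f x₀) (g • f x₀) with hη
  have hη0 : 0 < η := by
    rw [hη, dist_pos]
    intro h
    exact hg (hfree g (f x₀) h.symm)
  obtain ⟨r₀, hr₀, hfr⟩ := Metric.uniformContinuous_iff.1 (CompactSpace.uniformContinuous_of_continuous hf) (η / 2)
    (by positivity)
  have hr : 0 < r₀ / 3 := by positivity
  obtain ⟨δ, hδ, hcore⟩ := core2 h1 h2 h3 l1 l2 a (fun x y => hiso g x y) (r₀ / 3) hr
  obtain ⟨K, hKn, hKo, hgK, hKs⟩ := small_open (G := G) (X := X) (lt_min hδ hr) hg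
  obtain ⟨M, N, hNe, W, hMt, hWo, hWc, hWe, hWd, hWn, hWs, hWp⟩ :=
    cover_index hiso hfree hf hfe hd K hKo hr g
  have hM2 : 2 ≤ M := by
    have h0 : M ≠ 0 := hNe.out
    have h1 : M ≠ 1 := by
      intro h
      apply hgK
      have := (hMt 1).1 (by rw [h]; exact one_dvd _)
      simpa using this
    omega
  obtain ⟨F, hF, L, hL, hFW, hFO⟩ := exists_F (M := M) (N := N) (d := 2) a (fun x y => hiso g x y) (by
      intro t x hx
      rw [haz] at hx
      have h4 : g ^ t • f x = f x := by rw [← hfe, hx]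
      rw [hMt, hfree _ _ h4]
      exact K.one_mem) W hWo hWc (fun v x => hWe v x) hWd hWn
  have key : ∀ j : Fin N, ∃ x₁ : X, ∀ x, dist x x₁ < r₀ / 3 → F x ≠ (0, j) := by
    intro j
    by_contra hcon
    push Not at hcon
    obtain ⟨x, hx, hxF⟩ := hcon x₀
    obtain ⟨x', hx', hxF'⟩ := hcon (g • x₀)
    obtain ⟨p, hp⟩ := hWp (0, j)
    have near : ∀ (y z : X), dist y z < r₀ / 3 → F y = (0, j) → dist (f z) (f p) < η / 2 := by
      intro y z hyz hyF
      have hyW : y ∈ W (0, j) := by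
        rw [← hyF]
        exact hFW y y (by rw [dist_self]; exact hL)
      obtain ⟨k, hk, hky⟩ := hp y hyW
      obtain ⟨q, hq, hqd⟩ := Metric.mem_thickening_iff.1 hky
      have hfq : f q = f p := fc_sub f p q hq
      rw [← hfq]
      apply hfr
      have hky' := hKs k hk y
      calc dist z q ≤ dist z y + dist y (k • y) + dist (k • y) q := dist_triangle4 _ _ _ _
        _ < r₀ / 3 + r₀ / 3 + r₀ / 3 := by
          have e1 : dist z y < r₀ / 3 := by rw [dist_comm]; exact hyz
          have e2 : dist y (k • y) < r₀ / 3 := by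
            rw [dist_comm]
            exact lt_of_lt_of_le hky' (min_le_right _ _)
          linarith
        _ = r₀ := by ring
    have n1 := near x x₀ hx hxF
    have n2 := near x' (g • x₀) hx' hxF'
    rw [hfe] at n2
    have : η < η := by
      calc η = dist (f x₀) (g • f x₀) := hη
        _ ≤ dist (f x₀) (f p) + dist (f p) (g • f x₀) := dist_triangle _ _ _
        _ < η / 2 + η / 2 := by
          rw [dist_comm (f p)]
          linarith
        _ = η := by ring
    exact lt_irrefl _ this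
  choose xj hxj using key
  refine hcore M N hNe hM2 F hF ?_ ?_ ⟨L, hL, hFO⟩ xj hxj
  · intro t x
    rw [hat]
    have : g ^ (M * t) ∈ K := by
      have := (hMt ((M * t : ℕ) : ℤ)).1 ⟨t, by push_cast; ring⟩
      rwa [zpow_natCast] at this
    exact lt_of_lt_of_le (hKs _ this x) (min_le_left _ _)
  · intro μ hμ
    obtain ⟨K', hKn', hKo', hgK', hKs'⟩ := small_open (G := G) (X := X) hμ hg
    obtain ⟨n, hn, hgn⟩ := pow_mem_open K' hKo' g
    refine ⟨M * n, Nat.mul_pos (by omega) hn, dvd_mul_right _ _, fun x => ?_⟩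
    rw [hat]
    apply hKs'
    rw [mul_comm, pow_mul]
    exact K'.pow_mem hgn M

end AGV
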