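import Pool.Agent.AGV.Om

/-!
# AGV-TopV: vanishing on the top degree

`top_VC`: `L'` is the minimum of `L` and of the number of `VC X (d + 1)` for `η = L`. A cycle `z` as in the statement bounds `w` whose lists have `d + 2` points and satisfy `OK d` after applying `F`, so `om (mp F w) = 0` (`om_small`), and
`om (mp F z) = om (mp F (bd w)) = om (bd (mp F w)) = dd (om (mp F w)) = 0` (`bd_mp`, `om_bd`). See `C2.lean` for the case `d = 2`.
`top_dim`: `C` has a Lebesgue number `λ` (`lebesgue_number_lemma_of_metric`); `L' = min L λ / 1` (any positive number at most `L` and `λ`). For `x` choose `c x : S` with `ball x λ ⊆ C (c x)` and put `F' x = ϕ (c x)`. Let `l` be a list with `Msh L' l` and first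
point `x₀`: `x₀ ∈ C (c x) ⊆ W (F' x)` and `x₀ ∈ W (F x)` for all `x ∈ l`. So all the vertices `F x`, `F' x`, `x ∈ l`, are in `{v | x₀ ∈ W v}`, which has at most `d + 1` elements and at most one element in each orbit (`hdis`), and the values `F' x`, `x ∈ l`, are at most `e + 1 ≤ d` many.
So for a cycle `z` as in the statement `om (mp F' z) = 0` (`om_small`: lists with `d + 1` entries and at most `d` different ones), and `om (pr F F' z) = 0` (`om_small`, `pr_mem`: lists with `d + 2` entries, at most `d + 1` different ones), and by `bd_pr`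
`om (mp F' z) - om (mp F z) = om (bd (pr F F' z)) + om (pr F F' (bd z)) = dd (om (pr F F' z)) = 0` (`om_bd`).
-/

set_option autoImplicit false

namespace AGV

private theorem tv_bd {X : Type} {M N d : ℕ} [NeZero M] (F : X → Vx M N) {w : Ch X} (n : ℕ) (hn : d + 1 < n)
    (hw : w ∈ SP (fun l : List X => l.length = n ∧ OK d (l.map F))) : om (mp F (bd w)) = 0 := by
  have e1 : om (mp F w) = 0 := by
    apply om_small
    refine mp_mem F (fun l hl => ?_) hw
    have e2 := hl.2.2
    rw [List.length_map, hl.1]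
    omega
  rw [← bd_mp, om_bd (mp_mem F (fun l hl => hl.2.1) hw), e1, map_zero]

theorem top_VC {X : Type} [PseudoMetricSpace X] {M N d : ℕ} [NeZero M] (h : VC X (d + 1)) (F : X → Vx M N) {L : ℝ}
    (hL : 0 < L) (hOK : ∀ l : List X, Msh L l → OK d (l.map F)) :
    ∃ L' : ℝ, 0 < L' ∧ L' ≤ L ∧ ∀ z ∈ SP (fun l : List X => l.length = d + 1 ∧ Msh L' l), bd z = 0 → om (mp F z) = 0 := by
  obtain ⟨μ, hμ, hf⟩ := h L hL
  refine ⟨min L μ, lt_min hL hμ, min_le_left _ _, fun z hz hbz => ?_⟩
  obtain ⟨w, hw, rfl⟩ := hf z (SP_mono (fun l hl => ⟨hl.1, fun x hx y hy => (hl.2 x hx y hy).trans_le (min_le_right _ _)⟩) hz) hbz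
  exact tv_bd F (d + 1 + 1) (by omega) (SP_mono (fun l hl => ⟨hl.1, hOK l hl.2⟩) hw)

theorem top_dim {X : Type} [MetricSpace X] [CompactSpace X] {M N d e : ℕ} [NeZero M] (he : e + 1 ≤ d)
    (W : Vx M N → Set X) (hdis : ∀ i i' : ZMod M, ∀ j : Fin N, i ≠ i' → Disjoint (W (i, j)) (W (i', j)))
    (hord : ∀ x, {v | x ∈ W v}.ncard ≤ d + 1) {S : Type} [Finite S] (C : S → Set X) (ϕ : S → Vx M N)
    (hCo : ∀ s, IsOpen (C s)) (hCc : (⋃ s, C s) = Set.univ) (hCW : ∀ s, C s ⊆ W (ϕ s))
    (hCn : ∀ x, {s | x ∈ C s}.ncard ≤ e + 1) (F : X → Vx M N) {L : ℝ} (hL : 0 < L)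
    (hF : ∀ x y, dist y x < L → y ∈ W (F x)) :
    ∃ L' : ℝ, 0 < L' ∧ L' ≤ L ∧ ∀ z ∈ SP (fun l : List X => l.length = d + 1 ∧ Msh L' l), bd z = 0 → om (mp F z) = 0 := by
  classical
  obtain ⟨δ, hδ, hδC⟩ := lebesgue_number_lemma_of_metric (isCompact_univ (X := X)) hCo (by rw [hCc])
  have hδC' : ∀ x : X, ∃ s, Metric.ball x δ ⊆ C s := fun x => hδC x (Set.mem_univ x)
  choose c hc using hδC'
  have key : ∀ l : List X, Msh (min L δ) l → ∀ l' : List (Vx M N),
      (∀ v ∈ l', ∃ x ∈ l, v = F x ∨ v = ϕ (c x)) → OK d l' := by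
    intro l hl l' hl'
    rcases l with _ | ⟨x₀, t⟩
    · have e1 : l' = [] := List.eq_nil_iff_forall_not_mem.2 fun v hv => by
        obtain ⟨x, hx, -⟩ := hl' v hv
        simp at hx
      subst e1
      exact ⟨by simp, by simp⟩
    · have hx0 : x₀ ∈ x₀ :: t := List.mem_cons_self
      have hmem : ∀ v ∈ l', x₀ ∈ W v := by
        intro v hv
        obtain ⟨x, hx, h1 | h1⟩ := hl' v hv
        · rw [h1]
          exact hF x x₀ ((hl x₀ hx0 x hx).trans_le (min_le_left _ _))
        · rw [h1]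
          exact hCW _ (hc x (Metric.mem_ball.2 ((hl x₀ hx0 x hx).trans_le (min_le_right _ _))))
      constructor
      · rintro ⟨i, j⟩ hu ⟨i', j'⟩ hw hj
        have hj' : j = j' := hj
        subst hj'
        by_contra hne
        have hii : i ≠ i' := fun h => hne (by rw [h])
        exact Set.disjoint_left.1 (hdis i i' j hii) (hmem _ hu) (hmem _ hw)
      · have h1 : (l'.toFinset : Set (Vx M N)) ⊆ {v | x₀ ∈ W v} := fun v hv => hmem v (List.mem_toFinset.1 hv)
        have h2 := Set.ncard_le_ncard h1 (Set.toFinite _)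
        rw [Set.ncard_coe_finset] at h2
        exact h2.trans (hord x₀)
  have key2 : ∀ l : List X, Msh (min L δ) l → l.length = d + 1 →
      (l.map fun x => ϕ (c x)).toFinset.card < (l.map fun x => ϕ (c x)).length := by
    intro l hl hlen
    rcases l with _ | ⟨x₀, t⟩
    · simp at hlen
    · have hx0 : x₀ ∈ x₀ :: t := List.mem_cons_self
      have h1 : (((x₀ :: t).map c).toFinset : Set S) ⊆ {s | x₀ ∈ C s} := by
        intro s hs
        obtain ⟨x, hx, rfl⟩ := List.mem_map.1 (List.mem_toFinset.1 hs)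
        exact hc x (Metric.mem_ball.2 ((hl x₀ hx0 x hx).trans_le (min_le_right _ _)))
      have h2 := Set.ncard_le_ncard h1 (Set.toFinite _)
      rw [Set.ncard_coe_finset] at h2
      have h3 : ((x₀ :: t).map fun x => ϕ (c x)).toFinset = (((x₀ :: t).map c).toFinset).image ϕ := by
        ext v
        simp
      have h4 : (((x₀ :: t).map fun x => ϕ (c x)).toFinset).card ≤ (((x₀ :: t).map c).toFinset).card := by
        rw [h3]
        exact Finset.card_image_le
      rw [List.length_map, hlen]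
      have h5 := hCn x₀
      omega
  refine ⟨min L δ, lt_min hL hδ, min_le_left _ _, fun z hz hbz => ?_⟩
  have e1 : om (mp (fun x => ϕ (c x)) z) = 0 := by
    apply om_small
    exact mp_mem _ (fun l hl => key2 l hl.2 hl.1) hz
  have e2 : pr F (fun x => ϕ (c x)) z ∈ SP (fun l' : List (Vx M N) => l'.length = d + 2 ∧ OK d l') := by
    refine pr_mem F _ (fun l hl l' h1 h2 => ⟨by rw [h1, hl.1], key l hl.2 l' ?_⟩) hz
    intro v hv
    obtain ⟨x, hx, h3⟩ := h2 v hv
    exact ⟨x, hx, h3⟩
  have e3 := bd_pr F (fun x => ϕ (c x)) z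
  rw [hbz, map_zero, add_zero] at e3
  have e4 : om (bd (pr F (fun x => ϕ (c x)) z)) = 0 := by
    have := tv_bd (X := Vx M N) (d := d) (M := M) (N := N) id (w := pr F (fun x => ϕ (c x)) z) (d + 2) (by omega)
      (SP_mono (fun l hl => ⟨hl.1, by rw [List.map_id]; exact hl.2⟩) e2)
    rwa [mp_id] at this
  rw [e3, map_sub, e1, zero_sub, neg_eq_zero] at e4
  exact e4

end AGV
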