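import Pool.Agent.AGV.T2i
import Pool.Agent.AGV.C3
import Pool.Agent.AGV.CoreF
import Pool.Agent.AGV.MajD
import Pool.Agent.AGV.MajE
import Pool.Agent.AGV.HaarM
import Pool.Agent.AGV.GrB
import Pool.Agent.AGV.TopV
import Pool.Agent.AGV.CvF

/-!
# AGV-T3i: orbit dimension 3, isometric action
-/

set_option autoImplicit false

namespace AGV

open Pool.Agent.Helper87.AG

/-- vanishing on the top degree under one of the two assumptions -/
theorem top_any {X Y : Type} [MetricSpace X] [CompactSpace X] [TopologicalSpace Y] [T2Space Y] [CompactSpace Y]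
    {f : X → Y} (hf : Continuous f) {M N d : ℕ} [NeZero M] (h : VC X (d + 1) ∨ ∃ e, e + 1 ≤ d ∧ CovDimLE Y e)
    (W : Vx M N → Set X) (hWo : ∀ v, IsOpen (W v)) (hWc : (⋃ v, W v) = Set.univ)
    (hWs : ∀ v, ∀ x ∈ W v, fc f x ⊆ W v)
    (hdis : ∀ i i' : ZMod M, ∀ j : Fin N, i ≠ i' → Disjoint (W (i, j)) (W (i', j)))
    (hord : ∀ x, {v | x ∈ W v}.ncard ≤ d + 1) (F : X → Vx M N) {L : ℝ} (hL : 0 < L)
    (hF : ∀ x y, dist y x < L → y ∈ W (F x)) (hOK : ∀ l : List X, Msh L l → OK d (l.map F)) :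
    ∃ L' : ℝ, 0 < L' ∧ L' ≤ L ∧
      ∀ z ∈ SP (fun l : List X => l.length = d + 1 ∧ Msh L' l), bd z = 0 → om (mp F z) = 0 := by
  rcases h with h | ⟨e, he, h⟩
  · exact top_VC h F hL hOK
  · obtain ⟨S, _, C, ϕ, hCo, hCc, hCW, hCn⟩ := refine_cover hf h W hWo hWc hWs
    exact top_dim he W hdis hord C ϕ hCo hCc hCW hCn F hL hF

theorem t3_iso {G X Y : Type} [Group G] [TopologicalSpace G] [IsTopologicalGroup G] [CompactSpace G]
    [TotallyDisconnectedSpace G] [Nontrivial G] [MetricSpace X] [CompactSpace X] [ConnectedSpace X]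
    [LocallyConnectedSpace X] [MetricSpace Y]
    [CompactSpace Y] [MulAction G X] [ContinuousSMul G X] [MulAction G Y] [ContinuousSMul G Y]
    (hiso : ∀ (g : G) (x y : X), dist (g • x) (g • y) = dist x y)
    (h1 : VC X 1) (h2 : VC X 2) (h3 : VC X 3) (l1 : VLC X 1) (l2 : VLC X 2) (l3 : VLC X 3)
    (h4 : VC X 4 ∨ CovDimLE Y 2)
    (hfree : ∀ (g : G) (y : Y), g • y = y → g = 1)
    (hd : CovDimLE (MulAction.orbitRel.Quotient G Y) 3) {f : X → Y} (hf : Continuous f)
    (hfe : ∀ (g : G) (x : X), f (g • x) = g • f x) : False := by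
  classical
  obtain ⟨g, hg⟩ := exists_ne (1 : G)
  have h4' : VC X (3 + 1) ∨ ∃ e, e + 1 ≤ 3 ∧ CovDimLE Y e := h4.imp id fun h => ⟨2, le_rfl, h⟩
  set a : Equiv.Perm X := MulAction.toPerm g with ha
  have hat : ∀ (t : ℕ) (x : X), (a ^ t : Equiv.Perm X) x = g ^ t • x := by
    intro t
    induction t with
    | zero => intro x; simp
    | succ t ih =>
      intro x
      rw [pow_succ', Equiv.Perm.mul_apply, ih, pow_succ', mul_smul]
      rfl
  have haz : ∀ (t : ℤ) (x : X), (a ^ t : Equiv.Perm X) x = g ^ t • x := by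
    intro t x
    have := congrArg (fun p : Equiv.Perm X => p x) (map_zpow (MulAction.toPermHom G X) g t)
    exact this.symm
  have hfr : ∀ (k : G) (x : X), k • x = x → k = 1 := by
    intro k x hx
    apply hfree k (f x)
    rw [← hfe, hx]
  have haiso : ∀ x y, dist (a x) (a y) = dist x y := fun x y => hiso g x y
  have hfreeM : ∀ (M : ℕ) (K : Subgroup G), (∀ t : ℤ, (M : ℤ) ∣ t ↔ g ^ t ∈ K) →
      ∀ (t : ℤ) (x : X), (a ^ t : Equiv.Perm X) x = x → (M : ℤ) ∣ t := by
    intro M K hMt t x hx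
    rw [haz] at hx
    rw [hMt, hfr _ _ hx]
    exact K.one_mem
  have hM2 : ∀ (M : ℕ) (_ : NeZero M) (K : Subgroup G), (∀ t : ℤ, (M : ℤ) ∣ t ↔ g ^ t ∈ K) → g ∉ K → 2 ≤ M := by
    intro M hNe K hMt hgK
    have h0 : M ≠ 0 := hNe.out
    have h1 : M ≠ 1 := by
      intro h
      apply hgK
      have := (hMt 1).1 (by rw [h]; exact one_dvd _)
      simpa using this
    omega
  by_cases hfin : IsOfFinOrder g
  · -- an element of finite order
    obtain ⟨K, hKn, hKo, hKt, hgK, -⟩ := small_open_fin (G := G) (X := X) one_pos hg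
    obtain ⟨M, N, hNe, W, hMt, hWo, hWc, hWe, hWd, hWn, hWs, -⟩ :=
      cover_index hiso hfree hf hfe hd K hKo one_pos g
    have hM := hM2 M hNe K hMt hgK
    have haM : a ^ M = 1 := by
      have h5 : orderOf g ∣ M := by
        have h6 : g ^ M ∈ K := by
          have := (hMt (M : ℤ)).1 dvd_rfl
          rwa [zpow_natCast] at this
        have h7 : g ^ (M % orderOf g) ∈ K := by
          rw [pow_mod_orderOf]
          exact h6
        have h8 : M % orderOf g < orderOf g := Nat.mod_lt _ hfin.orderOf_pos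
        by_contra hcon
        have h9 : 0 < M % orderOf g := Nat.pos_of_ne_zero fun h => hcon (Nat.dvd_of_mod_eq_zero h)
        exact hKt _ h9 h8 h7
      ext x
      rw [hat, orderOf_dvd_iff_pow_eq_one.1 h5, one_smul, Equiv.Perm.one_apply]
    obtain ⟨F, hF, L, hL, hFW, hFO⟩ := exists_F (M := M) (N := N) (d := 3) a haiso (hfreeM M K hMt) W hWo hWc
      (fun v x => hWe v x) hWd hWn
    obtain ⟨L', hL', hLL, htop⟩ := top_any hf h4' W hWo hWc hWs hWd hWn F hL hFW hFO
    refine core_fin 3 ?_ hM a haiso haM F hF L' hL' (fun l hl => hFO l fun x hx y hy => (hl x hx y hy).trans_le hLL) htop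
    intro k hk1 hk3
    interval_cases k
    · exact h1
    · exact h2
    · exact h3
  · -- an element of infinite order
    have hinf : ∀ t : ℤ, t ≠ 0 → g ^ t ≠ 1 := by
      intro t ht h
      exact hfin (isOfFinOrder_iff_zpow_eq_one.2 ⟨t, ht, h⟩)
    let _ : MeasurableSpace X := borel X
    have : BorelSpace X := ⟨rfl⟩
    obtain ⟨ν, hνp, hνi⟩ := inv_measure G X
    have hνa : ∀ E : Set X, MeasurableSet E → ν (a ⁻¹' E) = ν E := fun E hE => hνi g E hE
    have hbig : ∀ x : X, ∃ y : X, 1 / 2 < ν (connectedComponentIn (fc f x)ᶜ y) := by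
      intro x
      by_contra hcon
      push Not at hcon
      refine no_balanced ν a haiso hνa (fun i => fc f ((a ^ i : Equiv.Perm X) x)) (fun i => fc_closed hf _)
        (fun i => fc_conn f _) (fun i => ⟨_, mem_fc f _⟩) ?_ ?_ (fun y => by simpa using hcon y) ?_
      · intro i j hij
        rw [Set.disjoint_left]
        intro z hz hz'
        have e1 := fc_sub f _ z hz
        have e2 := fc_sub f _ z hz'
        rw [haz, hfe] at e1 e2
        have e3 : g ^ i • f x = g ^ j • f x := e1.symm.trans e2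
        have e4 : g ^ (-j + i) • f x = f x := by
          rw [zpow_add, mul_smul, e3, ← mul_smul, ← zpow_add, neg_add_cancel, zpow_zero, one_smul]
        exact hinf (-j + i) (by omega) (hfree _ _ e4)
      · intro i z
        have e1 : (a ^ (i + 1) : Equiv.Perm X) x = g • (a ^ i : Equiv.Perm X) x := by
          rw [haz, haz, add_comm, zpow_add, mul_smul, zpow_one]
        show g • z ∈ fc f ((a ^ (i + 1) : Equiv.Perm X) x) ↔ _
        rw [e1]
        exact smul_mem_fc hfe g
      · intro μ hμ N₀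
        obtain ⟨K', hKn', hKo', hgK', hKs'⟩ := small_open (G := G) (X := X) hμ hg
        obtain ⟨n, hn, hgn⟩ := pow_mem_open K' hKo' g
        refine ⟨n * (N₀ + 1), ?_, fun x => ?_⟩
        · nlinarith
        · rw [hat]
          apply hKs'
          rw [show 2 * (n * (N₀ + 1)) = n * (2 * (N₀ + 1)) by ring, pow_mul]
          exact K'.pow_mem hgn _
    obtain ⟨ρ, hρ, hU⟩ := majE ν hf hbig
    have hρ2 : 0 < ρ / 2 := by positivity
    have hρ4 : 0 < ρ / 4 := by positivity
    obtain ⟨δ, hδ, hcore⟩ := core3 h1 h2 h3 l1 l2 l3 a haiso (by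
      intro t x hx
      rw [haz] at hx
      have := hfr _ _ hx
      ext y
      rw [haz, this, one_smul, Equiv.Perm.one_apply]) (ρ / 2) hρ2
    obtain ⟨K, hKn, hKo, hgK, hKs⟩ := small_open (G := G) (X := X) (lt_min hδ hρ4) hg
    obtain ⟨M, N, hNe, W, hMt, hWo, hWc, hWe, hWd, hWn, hWs, hWp⟩ :=
      cover_index hiso hfree hf hfe hd K hKo hρ4 g
    have hM := hM2 M hNe K hMt hgK
    obtain ⟨F, hF, L, hL, hFW, hFO⟩ := exists_F (M := M) (N := N) (d := 3) a haiso (hfreeM M K hMt) W hWo hWc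
      (fun v x => hWe v x) hWd hWn
    obtain ⟨L', hL', hLL, htop⟩ := top_any hf h4' W hWo hWc hWs hWd hWn F hL hFW hFO
    have hexU : ∀ v, ∃ U : Set X, IsOpen U ∧ IsPreconnected U ∧ 1 / 2 < ν U ∧ ∀ u ∈ U, ∀ w ∈ W v, ρ / 2 ≤ dist u w := by
      intro v
      obtain ⟨p, hp⟩ := hWp v
      obtain ⟨U, hUo, hUc, hUν, hUd⟩ := hU p
      refine ⟨U, hUo, hUc, hUν, fun u hu w hw => ?_⟩
      obtain ⟨k, hk, hkw⟩ := hp w hw
      obtain ⟨q, hq, hqd⟩ := Metric.mem_thickening_iff.1 hkw
      have e1 := hUd u hu q hq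
      have e2 : dist (k • w) w < ρ / 4 := lt_of_lt_of_le (hKs k hk w) (min_le_right _ _)
      have e3 : dist u q ≤ dist u w + dist w (k • w) + dist (k • w) q := dist_triangle4 _ _ _ _
      rw [dist_comm w (k • w)] at e3
      linarith
    obtain ⟨O, hOc, hOO, hOa, hOW⟩ := majF ν a haiso hνa W (fun v x => hWe v x) hexU
    refine hcore M N hNe hM F hF ?_ ?_ ⟨L', hL', fun l hl => hFO l fun x hx y hy => (hl x hx y hy).trans_le hLL, htop⟩
      O hOc hOO hOa ?_
    · intro t x
      rw [hat]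
      have : g ^ (M * t) ∈ K := by
        have := (hMt ((M * t : ℕ) : ℤ)).1 ⟨t, by push_cast; ring⟩
        rwa [zpow_natCast] at this
      exact lt_of_lt_of_le (hKs _ this x) (min_le_left _ _)
    · intro μ hμ
      obtain ⟨K', hKn', hKo', hgK', hKs'⟩ := small_open (G := G) (X := X) hμ hg
      obtain ⟨n, hn, hgn⟩ := pow_mem_open K' hKo' g
      refine ⟨M * n, Nat.mul_pos (by omega) hn, dvd_mul_right _ _, fun x => ?_⟩
      rw [hat]
      apply hKs'
      rw [mul_comm, pow_mul]
      exact K'.pow_mem hgn M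
    · intro v x hx y hy hFy
      have hyW : y ∈ W v := by
        rw [← hFy]
        exact hFW y y (by rw [dist_self]; exact hL)
      have := hOW v x hx y hyW
      rw [dist_comm] at this
      linarith

end AGV
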