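import Pool.Agent.AGV.Pairs

/-!
# AGV-TrAlt: the alternating sum of the traces of a null homotopic chain map

As `trace_eq` in `Trc.lean` (copy its private lemmas). Put `Φ k = ∑_{τ ∈ Gd k} ∑_{u ∉ τ} sg u τ * t τ (insert u τ)`. For `k < D`: `∑_{σ ∈ Gd k} dd (t σ) σ = Φ k`; for `1 ≤ k ≤ D`:
`∑_{σ ∈ Gd k} fd t σ σ = Φ (k - 1)` (by `pairs`), and it is `0` for `k = 0`. So the sum over `σ ∈ Gd k` of `g σ σ` is `Φ k + Φ (k - 1)` for `0 < k < D`, `Φ 0` for `k = 0`,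
`Φ (D - 1)` for `k = D`, and the alternating sum telescopes (induction on `K < D`: `∑ k ∈ range (K + 1), (-1)^k * ∑ g = (-1)^K * Φ K`).
-/

set_option autoImplicit false

namespace AGV

variable {M N : ℕ} [NeZero M]

/-- the weighted number of incidences between good simplices with `k` vertices and the next ones -/
private noncomputable def Ph (t : Finset (Vx M N) → Finset (Vx M N) → ℤ) (k : ℕ) : ℤ :=
  ∑ τ ∈ Gd M N k, ∑ u : Vx M N, if u ∈ τ then 0 else sg u τ * t τ (insert u τ)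

private theorem fd_sum_eq {d : ℕ} (t : Finset (Vx M N) → Finset (Vx M N) → ℤ)
    (ht : ∀ σ, Good σ → σ.card < d → ∀ S, t σ S ≠ 0 → Good S ∧ S.card = σ.card + 1)
    {k : ℕ} (hk : k < d) : ∑ σ ∈ Gd M N (k + 1), fd t σ σ = Ph t k := by
  have h := pairs k (fun τ σ u => sg u τ * t τ σ) (fun τ hτ u _ hg => by
    obtain ⟨h1, h2⟩ := mem_Gd.1 hτ
    by_contra h3
    exact hg (ht τ h1 (by omega) _ (right_ne_zero_of_mul h3)).1)
  unfold Ph
  rw [← h]
  refine Finset.sum_congr rfl fun σ _ => ?_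
  rw [fd_apply]
  refine Finset.sum_congr rfl fun v _ => ?_
  rw [sg_erase_self]

private theorem Gd_zero_eq : Gd M N 0 = {∅} := by
  ext σ
  rw [mem_Gd, Finset.mem_singleton, Finset.card_eq_zero]
  exact ⟨fun h => h.2, fun h => ⟨by subst h; intro u hu; simp at hu, h⟩⟩

private theorem sum_lt_eq {d : ℕ} (g t : Finset (Vx M N) → Finset (Vx M N) → ℤ)
    (h1 : ∀ σ, Good σ → σ.card < d → dd (t σ) + fd t σ = g σ) {k : ℕ} (hk : k < d) :
    ∑ σ ∈ Gd M N k, g σ σ = Ph t k + ∑ σ ∈ Gd M N k, fd t σ σ := by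
  unfold Ph
  rw [← Finset.sum_add_distrib]
  refine Finset.sum_congr rfl fun σ hσ => ?_
  obtain ⟨h2, h3⟩ := mem_Gd.1 hσ
  rw [← h1 σ h2 (by omega)]
  rfl

theorem trace_alt {D : ℕ} (hD : 1 ≤ D) (g t : Finset (Vx M N) → Finset (Vx M N) → ℤ)
    (ht : ∀ σ, Good σ → σ.card < D → ∀ S, t σ S ≠ 0 → Good S ∧ S.card = σ.card + 1)
    (h1 : ∀ σ, Good σ → σ.card < D → dd (t σ) + fd t σ = g σ)
    (h2 : ∀ σ, Good σ → σ.card = D → g σ = fd t σ) :
    ∑ k ∈ Finset.range (D + 1), (-1) ^ k * ∑ σ ∈ Gd M N k, g σ σ = 0 := by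
  have hP : ∀ k, k < D → ∑ j ∈ Finset.range (k + 1), (-1) ^ j * ∑ σ ∈ Gd M N j, g σ σ = (-1) ^ k * Ph t k := by
    intro k
    induction k with
    | zero =>
      intro hk
      have h5 := sum_lt_eq g t h1 hk
      rw [Gd_zero_eq, Finset.sum_singleton, Finset.sum_singleton] at h5
      have h6 : fd t ∅ ∅ = 0 := by simp [fd]
      rw [h6, add_zero] at h5
      rw [zero_add, Finset.sum_range_one, Gd_zero_eq, Finset.sum_singleton, h5]
    | succ k ih =>
      intro hk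
      have h5 := sum_lt_eq g t h1 hk
      rw [fd_sum_eq t ht (by omega)] at h5
      rw [Finset.sum_range_succ, ih (by omega), h5, pow_succ]
      ring
  obtain ⟨k, rfl⟩ : ∃ k, D = k + 1 := ⟨D - 1, by omega⟩
  have h5 : ∑ σ ∈ Gd M N (k + 1), g σ σ = ∑ σ ∈ Gd M N (k + 1), fd t σ σ := by
    refine Finset.sum_congr rfl fun σ hσ => ?_
    obtain ⟨h7, h8⟩ := mem_Gd.1 hσ
    rw [h2 σ h7 h8]
  rw [Finset.sum_range_succ, hP k (Nat.lt_succ_self k), h5, fd_sum_eq t ht (Nat.lt_succ_self k), pow_succ]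
  ring

end AGV
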