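import Pool.Agent.AGV.CvA

/-!
# AGV-Usc: upper semicontinuity of the components of the fibres, and exhaustion of components of complements

`fc_usc`: `fibre_clopen` with `U = Metric.thickening ε (fc f x)`: a closed set `Q` with `x ∈ Q ⊆ U`, `Q ⊆ f ⁻¹' {f x}` and `Q' = f ⁻¹' {f x} \ Q` closed. `Q`, `Q'` are disjoint compact sets: there are disjoint open sets `P ⊇ Q`, `P' ⊇ Q'`, `P ⊆ U` (intersect with `U`).
The set `f '' (P ∪ P')ᶜ` is compact, so closed, and does not contain `f x`; so for `x'` near `x` (`f` is continuous, `P` is open) `x' ∈ P` and `f x' ∉ f '' (P ∪ P')ᶜ`, so `fc f x' ⊆ f ⁻¹' {f x'} ⊆ P ∪ P'`; `fc f x'` is preconnected (`fc_conn`) and meets `P` in `x'`, so `fc f x' ⊆ P ⊆ U`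
(`IsPreconnected.subset_left_of_subset_union`).
`exhaust`: `C = connectedComponentIn Sᶜ y` is open and preconnected; `y ∈ Sᶜ` (otherwise `C` is empty and `c < 0`). Put `D n = {u | 1 / (n + 1) < Metric.infDist u S}` (open, increasing, union `Sᶜ`) and `V n = connectedComponentIn (D n) y`: open (locally connected), preconnected,
increasing, `⊆ C`. Their union is `C`: it is open; let `u ∈ C` be in its closure; there are `n` with `u ∈ D n` and a connected open neighbourhood `O ⊆ D n` of `u`, which meets some `V m`, so with `k = max m n` the set `O` is contained in `V k`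
(`subset_comp_of_meets`); so the union is relatively closed in the preconnected set `C` and nonempty, hence all of `C` (`IsPreconnected.subset_of_closure_inter_subset`). By continuity from below (`MeasureTheory.tendsto_measure_iUnion_atTop`, or `measure_iUnion_eq_iSup` with
`Monotone.directed_le`, `lt_iSup_iff`) some `V n` has `c < ν (V n)`; take `ε = 1 / (n + 1)` (`Metric.infDist_le_dist_of_mem`).
-/

set_option autoImplicit false

namespace AGV

open Pool.Agent.Helper87.AG

theorem fc_usc {X Y : Type} [MetricSpace X] [CompactSpace X] [TopologicalSpace Y] [T2Space Y] {f : X → Y}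
    (hf : Continuous f) (x : X) {ε : ℝ} (hε : 0 < ε) :
    ∃ δ : ℝ, 0 < δ ∧ ∀ x', dist x' x < δ → fc f x' ⊆ Metric.thickening ε (fc f x) := by
  obtain ⟨Q, hQ, hQ', hxQ, hQU, hQf⟩ := fibre_clopen hf x (Metric.thickening ε (fc f x))
    Metric.isOpen_thickening (Metric.self_subset_thickening hε _)
  have hdQ : Disjoint Q (f ⁻¹' {f x} \ Q) := Set.disjoint_sdiff_right
  obtain ⟨P0, P', hP0, hP', hQP0, hQP', hd⟩ := normal_separation hQ hQ' hdQ
  let P : Set X := P0 ∩ Metric.thickening ε (fc f x)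
  have hP : IsOpen P := hP0.inter Metric.isOpen_thickening
  have hQP : Q ⊆ P := fun z hz => ⟨hQP0 hz, hQU hz⟩
  have hdP : Disjoint P P' := hd.mono_left Set.inter_subset_left
  have hK : IsClosed (f '' (P ∪ P')ᶜ) :=
    ((hP.union hP').isClosed_compl.isCompact.image hf).isClosed
  have hxK : f x ∉ f '' (P ∪ P')ᶜ := by
    rintro ⟨z, hz, hzx⟩
    apply hz
    by_cases hzQ : z ∈ Q
    · exact Or.inl (hQP hzQ)
    · exact Or.inr (hQP' ⟨hzx, hzQ⟩)
  have hW : IsOpen (P ∩ f ⁻¹' (f '' (P ∪ P')ᶜ)ᶜ) := hP.inter (hK.isOpen_compl.preimage hf)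
  obtain ⟨δ, hδ, hball⟩ := Metric.isOpen_iff.1 hW x ⟨hQP hxQ, hxK⟩
  refine ⟨δ, hδ, fun x' hx' => ?_⟩
  obtain ⟨hx'P, hx'K⟩ := hball (Metric.mem_ball.2 hx')
  have hsub : fc f x' ⊆ P ∪ P' := by
    intro z hz
    by_contra hzP
    exact hx'K ⟨z, hzP, fc_sub f x' z hz⟩
  have h1 : fc f x' ⊆ P :=
    (fc_conn f x').subset_left_of_subset_union hP hP' hdP hsub ⟨x', mem_fc f x', hx'P⟩
  exact fun z hz => (h1 hz).2

theorem exhaust {X : Type} [MetricSpace X] [LocallyConnectedSpace X] [MeasurableSpace X] [BorelSpace X]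
    (ν : MeasureTheory.Measure X) {S : Set X} (hS : IsClosed S) (hSn : S.Nonempty) (y : X) {c : ENNReal}
    (hc : c < ν (connectedComponentIn Sᶜ y)) :
    ∃ (U : Set X) (ε : ℝ), 0 < ε ∧ IsOpen U ∧ IsPreconnected U ∧ c < ν U ∧ ∀ u ∈ U, ∀ z ∈ S, ε ≤ dist u z := by
  have hy : y ∈ Sᶜ := by
    by_contra h
    rw [connectedComponentIn_eq_empty h, MeasureTheory.measure_empty] at hc
    exact not_lt_zero hc
  let D : ℕ → Set X := fun n => {u | 1 / ((n : ℝ) + 1) < Metric.infDist u S}
  have hDo : ∀ n, IsOpen (D n) := fun n => isOpen_lt continuous_const (Metric.continuous_infDist_pt S)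
  have hDm : ∀ m n, m ≤ n → D m ⊆ D n := by
    intro m n hmn u hu
    have h1 : 1 / ((n : ℝ) + 1) ≤ 1 / ((m : ℝ) + 1) := by
      apply one_div_le_one_div_of_le (by positivity)
      have : (m : ℝ) ≤ n := by exact_mod_cast hmn
      linarith
    exact lt_of_le_of_lt h1 hu
  have hDs : ∀ n, D n ⊆ Sᶜ := by
    intro n u hu huS
    have h1 : Metric.infDist u S = 0 := Metric.infDist_zero_of_mem huS
    have h2 : (0 : ℝ) < 1 / ((n : ℝ) + 1) := by positivity
    have h3 : 1 / ((n : ℝ) + 1) < Metric.infDist u S := hu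
    rw [h1] at h3
    linarith
  have hDe : ∀ u ∈ Sᶜ, ∃ n, u ∈ D n := by
    intro u hu
    have h1 : 0 < Metric.infDist u S := (hS.notMem_iff_infDist_pos hSn).1 hu
    obtain ⟨n, hn⟩ := exists_nat_one_div_lt h1
    exact ⟨n, hn⟩
  let V : ℕ → Set X := fun n => connectedComponentIn (D n) y
  have hVo : ∀ n, IsOpen (V n) := fun n => (hDo n).connectedComponentIn
  have hVm : Monotone V := fun m n hmn => connectedComponentIn_mono y (hDm m n hmn)
  have hU : connectedComponentIn Sᶜ y ⊆ ⋃ n, V n := by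
    apply isPreconnected_connectedComponentIn.subset_of_closure_inter_subset (isOpen_iUnion hVo)
    · obtain ⟨n, hn⟩ := hDe y hy
      exact ⟨y, mem_connectedComponentIn hy, Set.mem_iUnion.2 ⟨n, mem_connectedComponentIn hn⟩⟩
    · rintro u ⟨hu1, hu2⟩
      obtain ⟨n, hn⟩ := hDe u (connectedComponentIn_subset _ _ hu2)
      have hOo : IsOpen (connectedComponentIn (D n) u) := (hDo n).connectedComponentIn
      have huO : u ∈ connectedComponentIn (D n) u := mem_connectedComponentIn hn
      obtain ⟨w, hwO, hwV⟩ := mem_closure_iff.1 hu1 _ hOo huO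
      obtain ⟨m, hm⟩ := Set.mem_iUnion.1 hwV
      have hk : connectedComponentIn (D n) u ⊆ V (max m n) :=
        subset_comp_of_meets isPreconnected_connectedComponentIn
          ((connectedComponentIn_subset _ _).trans (hDm _ _ (le_max_right _ _))) hwO
          (hVm (le_max_left _ _) hm)
      exact Set.mem_iUnion.2 ⟨_, hk huO⟩
  have hlt : c < ν (⋃ n, V n) := hc.trans_le (MeasureTheory.measure_mono hU)
  rw [hVm.measure_iUnion] at hlt
  obtain ⟨n, hn⟩ := lt_iSup_iff.1 hlt
  refine ⟨V n, 1 / ((n : ℝ) + 1), by positivity, hVo n, isPreconnected_connectedComponentIn, hn, ?_⟩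
  intro u hu z hz
  have hV : V n ⊆ D n := connectedComponentIn_subset (D n) y
  have h1 : 1 / ((n : ℝ) + 1) < Metric.infDist u S := hV hu
  exact h1.le.trans (Metric.infDist_le_dist_of_mem hz)

end AGV
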